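import Pool.Agent.LibGC45.Defs

open Filter Topology Set

namespace GC45

theorem b4b_lift_local {α : Type*} (P A : α → Pm) (x₀ R D : ℝ) (hD : 0 ≤ D)
    (hPA : ∀ a x, |x - x₀| ≤ R → P a x = A a x)
    (hA : ∀ a x, |x - x₀| ≤ R → |A a x - x| ≤ D) (hA' : ∀ a x, |x - x₀| ≤ R → |(A a)⁻¹ x - x| ≤ D)
    (L : List (α × Bool)) (x : ℝ) (hx : |x - x₀| + L.length * D ≤ R) :
    FreeGroup.lift P (FreeGroup.mk L) x = FreeGroup.lift A (FreeGroup.mk L) x ∧
      |FreeGroup.lift A (FreeGroup.mk L) x - x₀| ≤ |x - x₀| + L.length * D := by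
  induction L with
  | nil => simp
  | cons l L ih =>
    rw [List.length_cons, Nat.cast_add, Nat.cast_one] at hx ⊢
    have hLD : 0 ≤ (L.length : ℝ) * D := by positivity
    obtain ⟨ih1, ih2⟩ := ih (by linarith)
    simp only [FreeGroup.lift_mk] at ih1 ih2
    simp only [FreeGroup.lift_mk, List.map_cons, List.prod_cons, Equiv.Perm.mul_apply, ih1]
    set y : ℝ := (List.map (fun x => bif x.2 then A x.1 else (A x.1)⁻¹) L).prod x with hy
    have hyR : |y - x₀| ≤ R := by linarith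
    obtain ⟨a, b⟩ := l
    cases b with
    | true =>
      simp only [cond_true]
      refine ⟨hPA a y hyR, ?_⟩
      have h1 := hA a y hyR
      have h2 : A a y - x₀ = (A a y - y) + (y - x₀) := by ring
      rw [h2]
      refine (abs_add_le _ _).trans ?_
      linarith
    | false =>
      simp only [cond_false]
      have h1 := hA' a y hyR
      have h2 : (A a)⁻¹ y - x₀ = ((A a)⁻¹ y - y) + (y - x₀) := by ring
      have h3 : |(A a)⁻¹ y - x₀| ≤ |x - x₀| + ((L.length : ℝ) + 1) * D := by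
        rw [h2]
        refine (abs_add_le _ _).trans ?_
        linarith
      refine ⟨?_, h3⟩
      rw [Equiv.Perm.inv_eq_iff_eq, hPA a _ (h3.trans hx)]
      simp

/-- locality: near `x₀` a word in maps which agree with `A` on a ball is the word in `A` -/
theorem lift_local {α : Type*} [DecidableEq α] (P A : α → Pm) (x₀ R D : ℝ) (hD : 0 ≤ D)
    (hPA : ∀ a x, |x - x₀| ≤ R → P a x = A a x)
    (hA : ∀ a x, |x - x₀| ≤ R → |A a x - x| ≤ D) (hA' : ∀ a x, |x - x₀| ≤ R → |(A a)⁻¹ x - x| ≤ D)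
    (w : FreeGroup α) (x : ℝ) (hx : |x - x₀| + w.norm * D ≤ R) :
    FreeGroup.lift P w x = FreeGroup.lift A w x := by
  have h := (b4b_lift_local P A x₀ R D hD hPA hA hA' w.toWord x hx).1
  rwa [FreeGroup.mk_toWord] at h

theorem b4b_norm_cm (a b : FreeGroup (Fin 9)) : (cm a b).norm ≤ 2 * a.norm + 2 * b.norm := by
  unfold cm
  have h1 := FreeGroup.norm_mul_le (a * b * a⁻¹) b⁻¹
  have h2 := FreeGroup.norm_mul_le (a * b) a⁻¹
  have h3 := FreeGroup.norm_mul_le a b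
  rw [FreeGroup.norm_inv_eq] at h1 h2
  omega

theorem b4b_norm_pow (a : FreeGroup (Fin 9)) (k : ℕ) : (a ^ k).norm ≤ k * a.norm := by
  induction k with
  | zero => simp
  | succ k ih =>
    rw [pow_succ]
    have h1 := FreeGroup.norm_mul_le (a ^ k) a
    rw [Nat.succ_mul]
    omega

theorem encW_norm (k : ℕ) : (encW k).norm ≤ 20 * k + 18 := by
  have hu : ((FreeGroup.of (8 : Fin 9)) ^ k).norm ≤ k := by
    have := b4b_norm_pow (FreeGroup.of (8 : Fin 9)) k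
    rw [FreeGroup.norm_of, mul_one] at this
    exact this
  have hy : ∀ i : Fin 9, ((FreeGroup.of (8 : Fin 9) ^ k)⁻¹ * FreeGroup.of i *
      FreeGroup.of (8 : Fin 9) ^ k).norm ≤ 2 * k + 1 := by
    intro i
    have h1 := FreeGroup.norm_mul_le ((FreeGroup.of (8 : Fin 9) ^ k)⁻¹ * FreeGroup.of i)
      (FreeGroup.of (8 : Fin 9) ^ k)
    have h2 := FreeGroup.norm_mul_le ((FreeGroup.of (8 : Fin 9) ^ k)⁻¹) (FreeGroup.of i)
    rw [FreeGroup.norm_inv_eq, FreeGroup.norm_of] at h2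
    omega
  unfold encW
  set y : Fin 9 → FreeGroup (Fin 9) := fun i => (FreeGroup.of (8 : Fin 9) ^ k)⁻¹ *
    FreeGroup.of i * FreeGroup.of (8 : Fin 9) ^ k with hyd
  change (y 0 * cm (y 1) (FreeGroup.of 5) * cm (y 2) (FreeGroup.of 7)⁻¹ * (y 0)⁻¹ *
    cm (y 3) (FreeGroup.of 6) * cm (y 4) (FreeGroup.of 7)⁻¹).norm ≤ 20 * k + 18
  have e0 := hy 0
  have e1 := hy 1
  have e2 := hy 2
  have e3 := hy 3
  have e4 := hy 4
  have c1 := b4b_norm_cm (y 1) (FreeGroup.of 5)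
  have c2 := b4b_norm_cm (y 2) (FreeGroup.of 7)⁻¹
  have c3 := b4b_norm_cm (y 3) (FreeGroup.of 6)
  have c4 := b4b_norm_cm (y 4) (FreeGroup.of 7)⁻¹
  rw [FreeGroup.norm_of] at c1 c3
  rw [FreeGroup.norm_inv_eq, FreeGroup.norm_of] at c2 c4
  have m1 := FreeGroup.norm_mul_le (y 0) (cm (y 1) (FreeGroup.of 5))
  have m2 := FreeGroup.norm_mul_le (y 0 * cm (y 1) (FreeGroup.of 5)) (cm (y 2) (FreeGroup.of 7)⁻¹)
  have m3 := FreeGroup.norm_mul_le
    (y 0 * cm (y 1) (FreeGroup.of 5) * cm (y 2) (FreeGroup.of 7)⁻¹) (y 0)⁻¹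
  have m4 := FreeGroup.norm_mul_le
    (y 0 * cm (y 1) (FreeGroup.of 5) * cm (y 2) (FreeGroup.of 7)⁻¹ * (y 0)⁻¹)
    (cm (y 3) (FreeGroup.of 6))
  have m5 := FreeGroup.norm_mul_le
    (y 0 * cm (y 1) (FreeGroup.of 5) * cm (y 2) (FreeGroup.of 7)⁻¹ * (y 0)⁻¹ *
    cm (y 3) (FreeGroup.of 6)) (cm (y 4) (FreeGroup.of 7)⁻¹)
  rw [FreeGroup.norm_inv_eq] at m3
  have e0' : (y 0).norm ≤ 2 * k + 1 := e0
  have e1' : (y 1).norm ≤ 2 * k + 1 := e1
  have e2' : (y 2).norm ≤ 2 * k + 1 := e2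
  have e3' : (y 3).norm ≤ 2 * k + 1 := e3
  have e4' : (y 4).norm ≤ 2 * k + 1 := e4
  omega

end GC45
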