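import Pool.Agent.LibGC45.Defs

open Filter Topology Set

namespace GC45

theorem b5_mem {I : Set ℝ} (E : Pm) (hE : ∀ x, x ∉ I → E x = x) {x : ℝ} (hx : x ∈ I) : E x ∈ I := by
  by_contra h
  have h2 := hE (E x) h
  have h3 := E.injective h2
  rw [h3] at h
  exact h hx

theorem b5_inv_eq {F : Pm} {x y : ℝ} (h : F x = y) : F⁻¹ y = x := by
  rw [← h]; simp

theorem conj_congr {I : Set ℝ} (E F G : Pm) (hE : ∀ x, x ∉ I → E x = x) (hFG : ∀ x ∈ I, F x = G x) :
    F * E * F⁻¹ = G * E * G⁻¹ := by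
  ext y
  simp only [Equiv.Perm.mul_apply]
  by_cases h : F⁻¹ y ∈ I
  · have h1 : F (F⁻¹ y) = y := by simp
    have h2 : G⁻¹ y = F⁻¹ y := b5_inv_eq (by rw [← hFG _ h, h1])
    rw [h2, hFG _ (b5_mem E hE h)]
  · have h' : G⁻¹ y ∉ I := by
      intro h'
      have h1 : G (G⁻¹ y) = y := by simp
      have h2 : F⁻¹ y = G⁻¹ y := b5_inv_eq (by rw [hFG _ h', h1])
      exact h (h2 ▸ h')
    rw [hE _ h, hE _ h']
    simp

theorem commute_of_disjoint {I J : Set ℝ} (hIJ : Disjoint I J) (E F : Pm)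
    (hE : ∀ x, x ∉ I → E x = x) (hF : ∀ x, x ∉ J → F x = x) : Commute E F := by
  apply Equiv.Perm.Disjoint.commute
  intro x
  by_cases h : x ∈ I
  · right; exact hF x fun h' => (Set.disjoint_left.1 hIJ) h h'
  · left; exact hE x h

theorem b5_chain_succ {H : Type*} [Group H] (E h : H) (n : ℕ) :
    h * (chainP E h (n + 1)) * h⁻¹ =
      (h * chainP E h n * h⁻¹) * (h ^ (n + 1) * E * (h ^ (n + 1))⁻¹) := by
  rw [chainP, pow_succ' h n]
  group

/-- `h * chainP n * h⁻¹` commutes with the first `n + 1` conjugates -/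
theorem b5_commute {H : Type*} [Group H] (E h : H) (n : ℕ) (x : H)
    (hc : ∀ i, 1 ≤ i → i ≤ n → Commute (h ^ i * E * (h ^ i)⁻¹) x) :
    Commute (h * chainP E h n * h⁻¹) x := by
  induction n with
  | zero => simp [chainP]
  | succ n ih =>
    rw [b5_chain_succ]
    exact (ih fun i hi hi' => hc i hi (by omega)).mul_left (hc (n + 1) (by omega) le_rfl)

theorem cm_chainP {H : Type*} [Group H] (E h : H) (n : ℕ)
    (hc : ∀ i j, i ≤ n → j ≤ n → Commute (h ^ i * E * (h ^ i)⁻¹) (h ^ j * E * (h ^ j)⁻¹)) :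
    cm (chainP E h n) h = E * (h ^ n * E * (h ^ n)⁻¹)⁻¹ := by
  induction n with
  | zero => simp [chainP, cm]
  | succ n ih =>
    have ih' := ih fun i j hi hj => hc i j (by omega) (by omega)
    set x : ℕ → H := fun i => h ^ i * E * (h ^ i)⁻¹ with hx
    have hcm : ∀ m, cm (chainP E h m) h = chainP E h m * (h * chainP E h m * h⁻¹)⁻¹ := by
      intro m; unfold cm; group
    have hcomm : Commute (h * chainP E h n * h⁻¹) (x n * (x (n + 1))⁻¹) := by
      apply b5_commute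
      intro i _ hi'
      exact (hc i n (by omega) (by omega)).mul_right (hc i (n + 1) (by omega) le_rfl).inv_right
    rw [hcm, b5_chain_succ, chainP, mul_inv_rev]
    change chainP E h n * x n * ((x (n + 1))⁻¹ * (h * chainP E h n * h⁻¹)⁻¹) = E * (x (n + 1))⁻¹
    have h1 : chainP E h n * x n * ((x (n + 1))⁻¹ * (h * chainP E h n * h⁻¹)⁻¹) =
        chainP E h n * ((x n * (x (n + 1))⁻¹) * (h * chainP E h n * h⁻¹)⁻¹) := by group
    rw [h1, ← (hcomm.inv_left).eq, ← mul_assoc, ← hcm, ih']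
    change E * (x n)⁻¹ * (x n * (x (n + 1))⁻¹) = _
    group

end GC45
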