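import Pool.Agent.LibGC45.Defs

open Filter Topology Set

namespace GC45

/-- translations as a homomorphism -/
noncomputable def u1_tr : Multiplicative ℝ →* Pm where
  toFun b := aff 1 b.toAdd one_ne_zero
  map_one' := by
    ext x
    simp
  map_mul' b b' := by
    ext x
    simp only [toAdd_mul, Equiv.Perm.coe_mul, Function.comp_apply, aff_apply]
    ring

/-- homotheties as a homomorphism -/
noncomputable def u1_ho : ℝˣ →* Pm where
  toFun u := aff (u : ℝ) 0 u.ne_zero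
  map_one' := by
    ext x
    simp
  map_mul' b b' := by
    ext x
    simp only [Units.val_mul, Equiv.Perm.coe_mul, Function.comp_apply, aff_apply]
    ring

theorem u1_conj (u : ℝˣ) (b : ℝ) :
    u1_ho u * u1_tr (Multiplicative.ofAdd b) * (u1_ho u)⁻¹ =
      u1_tr (Multiplicative.ofAdd ((u : ℝ) * b)) := by
  rw [mul_inv_eq_iff_eq_mul]
  ext x
  simp only [u1_ho, u1_tr, MonoidHom.coe_mk, OneHom.coe_mk, toAdd_ofAdd,
    Equiv.Perm.coe_mul, Function.comp_apply, aff_apply]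
  ring

/-- the product of the conjugates -/
def u1_P (e d : ℕ → ℤ) : ℕ → FreeGroup (Fin 3)
  | 0 => 1
  | n + 1 => u1_P e d n * ((FreeGroup.of 1) ^ (e n) * (FreeGroup.of 0) ^ (d n) *
      ((FreeGroup.of 1) ^ (e n))⁻¹)

theorem u1_norm_pow (i : Fin 3) (n : ℕ) :
    ((FreeGroup.of i) ^ n : FreeGroup (Fin 3)).norm ≤ n := by
  induction n with
  | zero => simp
  | succ n ih =>
    rw [pow_succ]
    refine (FreeGroup.norm_mul_le _ _).trans ?_
    simp only [FreeGroup.norm_of]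
    omega

theorem u1_norm_zpow (i : Fin 3) (n : ℤ) :
    ((FreeGroup.of i) ^ n : FreeGroup (Fin 3)).norm ≤ n.natAbs := by
  obtain ⟨k, rfl | rfl⟩ := n.eq_nat_or_neg
  · rw [zpow_natCast, Int.natAbs_natCast]
    exact u1_norm_pow i k
  · rw [zpow_neg, zpow_natCast, FreeGroup.norm_inv_eq, Int.natAbs_neg, Int.natAbs_natCast]
    exact u1_norm_pow i k

theorem u1_P_norm (e d : ℕ → ℤ) (n : ℕ) :
    (u1_P e d n).norm ≤ ∑ j ∈ Finset.range n, (2 * (e j).natAbs + (d j).natAbs) := by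
  induction n with
  | zero => simp [u1_P]
  | succ n ih =>
    rw [Finset.sum_range_succ]
    refine (FreeGroup.norm_mul_le _ _).trans (Nat.add_le_add ih ?_)
    refine (FreeGroup.norm_mul_le _ _).trans ?_
    have h1 := u1_norm_zpow 1 (e n)
    have h2 := u1_norm_zpow 0 (d n)
    have h3 := FreeGroup.norm_mul_le ((FreeGroup.of (1 : Fin 3)) ^ (e n))
      ((FreeGroup.of (0 : Fin 3)) ^ (d n))
    rw [FreeGroup.norm_inv_eq]
    omega

theorem u1_P_lift (f : Fin 3 → Pm) (u : ℝˣ) (b : ℝ) (h0 : f 0 = u1_tr (Multiplicative.ofAdd b))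
    (h1 : f 1 = u1_ho u) (e d : ℕ → ℤ) (n : ℕ) :
    FreeGroup.lift f (u1_P e d n) =
      u1_tr (Multiplicative.ofAdd (∑ j ∈ Finset.range n, (d j : ℝ) * ((u : ℝ) ^ (e j) * b))) := by
  induction n with
  | zero => simp [u1_P]
  | succ n ih =>
    rw [Finset.sum_range_succ, ofAdd_add, map_mul]
    rw [u1_P, map_mul, ih]
    congr 1
    rw [map_mul, map_mul, map_inv, map_zpow, map_zpow, FreeGroup.lift_apply_of,
      FreeGroup.lift_apply_of, h0, h1, ← map_zpow, ← map_zpow, ← ofAdd_zsmul, u1_conj]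
    congr 2
    simp only [zsmul_eq_mul, Units.val_zpow_eq_zpow_val]
    ring

/-- shifted binomial coefficients -/
def u1_c (k : ℕ) : ℕ → ℤ
  | 0 => 0
  | j + 1 => (k.choose j : ℤ)

theorem u1_sum (k : ℕ) (x : ℝ) (hx : x ≠ 0) :
    ∑ j ∈ Finset.range (k + 2), (((k.choose j : ℤ) - u1_c k j : ℤ) : ℝ) *
      x ^ ((k : ℤ) + 1 - 2 * (j : ℤ)) = (x + x⁻¹) ^ k * (x - x⁻¹) := by
  have hkey : (x + x⁻¹) ^ k = ∑ j ∈ Finset.range (k + 1), (k.choose j : ℝ) *
      x ^ ((k : ℤ) - 2 * (j : ℤ)) := by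
    rw [add_comm, add_pow]
    refine Finset.sum_congr rfl fun j hj => ?_
    have hj' : j ≤ k := by
      rw [Finset.mem_range] at hj; omega
    rw [mul_comm]
    congr 1
    rw [inv_pow, ← zpow_natCast, ← zpow_natCast, ← zpow_neg, ← zpow_add₀ hx]
    congr 1
    rw [Nat.cast_sub hj']
    ring
  have h1 : ∑ j ∈ Finset.range (k + 2), (k.choose j : ℝ) *
      x ^ ((k : ℤ) + 1 - 2 * (j : ℤ)) = (x + x⁻¹) ^ k * x := by
    rw [Finset.sum_range_succ, Nat.choose_succ_self, hkey, Finset.sum_mul]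
    simp only [Nat.cast_zero, zero_mul, add_zero]
    refine Finset.sum_congr rfl fun j _ => ?_
    rw [mul_assoc]
    congr 1
    rw [← zpow_add_one₀ hx]
    congr 1
    ring
  have h2 : ∑ j ∈ Finset.range (k + 2), ((u1_c k j : ℤ) : ℝ) *
      x ^ ((k : ℤ) + 1 - 2 * (j : ℤ)) = (x + x⁻¹) ^ k * x⁻¹ := by
    rw [Finset.sum_range_succ', hkey, Finset.sum_mul]
    simp only [u1_c, Int.cast_zero, zero_mul, add_zero, Int.cast_natCast]
    refine Finset.sum_congr rfl fun j _ => ?_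
    rw [mul_assoc]
    congr 1
    rw [← zpow_sub_one₀ hx]
    congr 1
    push_cast
    ring
  rw [mul_sub, ← h1, ← h2, ← Finset.sum_sub_distrib]
  refine Finset.sum_congr rfl fun j _ => ?_
  push_cast
  ring

/-- the word number `m` -/
def u1_w (m : ℕ) : FreeGroup (Fin 3) :=
  ((FreeGroup.of 2) ^ (2 * m))⁻¹ *
    u1_P (fun j => ((2 * m : ℕ) : ℤ) + 1 - 2 * (j : ℤ))
      (fun j => (((2 * m).choose j : ℕ) : ℤ) - u1_c (2 * m) j) (2 * m + 2) *
    (FreeGroup.of 2) ^ (2 * m)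

theorem u1_w_lift (m : ℕ) (s : ℝ) (hs : 0 < s) :
    FreeGroup.lift (affs s hs) (u1_w m) = (aff 1 1 one_ne_zero) ^ (4 ^ m) := by
  have hx : (1 + s) ≠ 0 := by positivity
  have hy : ((1 + s + (1 + s)⁻¹) / 2) ≠ 0 := by positivity
  have hs2 : s * (2 + s) ≠ 0 := by positivity
  have h0 : affs s hs 0 = u1_tr (Multiplicative.ofAdd ((1 + s) / (s * (2 + s)))) := rfl
  have h1 : affs s hs 1 = u1_ho (Units.mk0 (1 + s) hx) := rfl
  have h2 : affs s hs 2 = u1_ho (Units.mk0 ((1 + s + (1 + s)⁻¹) / 2) hy) := rfl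
  have h3 : (aff 1 1 one_ne_zero : Pm) = u1_tr (Multiplicative.ofAdd 1) := rfl
  rw [u1_w, map_mul, map_mul, u1_P_lift _ _ _ h0 h1, map_inv, map_pow, FreeGroup.lift_apply_of, h2,
    h3, ← map_pow, ← map_pow, ← ofAdd_nsmul]
  have hc := u1_conj ((Units.mk0 ((1 + s + (1 + s)⁻¹) / 2) hy) ^ (2 * m))⁻¹
    (∑ j ∈ Finset.range (2 * m + 2),
      (((((2 * m).choose j : ℕ) : ℤ) - u1_c (2 * m) j : ℤ) : ℝ) *
      ((((Units.mk0 (1 + s) hx : ℝˣ) : ℝ)) ^ (((2 * m : ℕ) : ℤ) + 1 - 2 * (j : ℤ)) *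
        ((1 + s) / (s * (2 + s)))))
  rw [map_inv, inv_inv] at hc
  rw [hc]
  congr 2
  have hsum := u1_sum (2 * m) (1 + s) hx
  have hS : ∑ j ∈ Finset.range (2 * m + 2),
      (((((2 * m).choose j : ℕ) : ℤ) - u1_c (2 * m) j : ℤ) : ℝ) *
      ((((Units.mk0 (1 + s) hx : ℝˣ) : ℝ)) ^ (((2 * m : ℕ) : ℤ) + 1 - 2 * (j : ℤ)) *
        ((1 + s) / (s * (2 + s)))) =
      (((1 + s) + (1 + s)⁻¹) ^ (2 * m) * ((1 + s) - (1 + s)⁻¹)) * ((1 + s) / (s * (2 + s))) := by
    rw [← hsum, Finset.sum_mul]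
    refine Finset.sum_congr rfl fun j _ => ?_
    rw [Units.val_mk0, mul_assoc]
  rw [hS, Units.val_inv_eq_inv_val, Units.val_pow_eq_pow_val, Units.val_mk0, div_pow]
  have hb : ((1 + s) - (1 + s)⁻¹) * ((1 + s) / (s * (2 + s))) = 1 := by
    field_simp
    ring
  rw [mul_assoc, hb, mul_one]
  have hne : (1 + s + (1 + s)⁻¹) ^ (2 * m) ≠ 0 := by positivity
  rw [inv_div, div_mul_cancel₀ _ hne, nsmul_eq_mul, mul_one, pow_mul]
  norm_num

theorem u1_abs_sum (m : ℕ) :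
    ∑ j ∈ Finset.range (2 * m + 2), ((((2 * m).choose j : ℕ) : ℤ) - u1_c (2 * m) j).natAbs =
      2 * (2 * m).choose m := by
  have h1 : ∀ j, j ≤ m → 0 ≤ (((2 * m).choose j : ℕ) : ℤ) - u1_c (2 * m) j := by
    intro j hj
    cases j with
    | zero => simp [u1_c]
    | succ j =>
      simp only [u1_c, sub_nonneg, Nat.cast_le]
      exact Nat.choose_le_succ_of_lt_half_left (by omega)
  have h2 : ∀ j, m + 1 ≤ j → (((2 * m).choose j : ℕ) : ℤ) - u1_c (2 * m) j ≤ 0 := by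
    intro j hj
    cases j with
    | zero => omega
    | succ j =>
      simp only [u1_c, sub_nonpos, Nat.cast_le]
      by_cases hjm : 2 * m < j + 1
      · rw [Nat.choose_eq_zero_of_lt hjm]; exact Nat.zero_le _
      · have e1 : (2 * m).choose (j + 1) = (2 * m).choose (2 * m - (j + 1)) :=
          (Nat.choose_symm (by omega)).symm
        have e2 : (2 * m).choose j = (2 * m).choose (2 * m - (j + 1) + 1) := by
          rw [show 2 * m - (j + 1) + 1 = 2 * m - j by omega]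
          exact (Nat.choose_symm (by omega)).symm
        rw [e1, e2]
        exact Nat.choose_le_succ_of_lt_half_left (by omega)
  have h3 : ∀ j, (((2 * m).choose j : ℕ) : ℤ) = u1_c (2 * m) (j + 1) := fun j => rfl
  have key : ((∑ j ∈ Finset.range (2 * m + 2),
      ((((2 * m).choose j : ℕ) : ℤ) - u1_c (2 * m) j).natAbs : ℕ) : ℤ) =
      2 * (2 * m).choose m := by
    rw [show 2 * m + 2 = (m + 1) + (m + 1) by ring, Finset.sum_range_add, Nat.cast_add,
      Nat.cast_sum, Nat.cast_sum]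
    have s1 : ∑ j ∈ Finset.range (m + 1),
        ((((((2 * m).choose j : ℕ) : ℤ) - u1_c (2 * m) j).natAbs : ℕ) : ℤ) =
        (2 * m).choose m := by
      rw [Finset.sum_congr rfl (g := fun j => u1_c (2 * m) (j + 1) - u1_c (2 * m) j),
        Finset.sum_range_sub]
      · simp [u1_c]
      · intro j hj
        rw [Finset.mem_range] at hj
        rw [Int.natAbs_of_nonneg (h1 j (by omega)), h3]
    have s2 : ∑ j ∈ Finset.range (m + 1),
        ((((((2 * m).choose (m + 1 + j) : ℕ) : ℤ) - u1_c (2 * m) (m + 1 + j)).natAbs : ℕ) : ℤ) =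
        (2 * m).choose m := by
      have hsub := Finset.sum_range_sub (fun i => - u1_c (2 * m) (m + 1 + i)) (m + 1)
      have h0 : u1_c (2 * m) (m + 1 + (m + 1)) = 0 := by
        rw [show m + 1 + (m + 1) = (2 * m + 1) + 1 by ring]
        simp [u1_c]
      have h0' : u1_c (2 * m) (m + 1 + 0) = (2 * m).choose m := rfl
      rw [h0, h0'] at hsub
      rw [Finset.sum_congr rfl (g := fun j => - u1_c (2 * m) (m + 1 + (j + 1)) -
        (- u1_c (2 * m) (m + 1 + j))), hsub]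
      · ring
      · intro j hj
        rw [Int.ofNat_natAbs_of_nonpos (h2 _ (by omega)), h3, add_assoc]
        ring
    rw [s1, s2]
    ring
  exact_mod_cast key

theorem u1_w_norm (m : ℕ) :
    (u1_w m).norm ≤ 4 * m + 2 * (2 * m + 2) * (2 * m + 1) + 2 * (2 * m).choose m := by
  have h1 := u1_norm_pow 2 (2 * m)
  have h2 := u1_P_norm (fun j => ((2 * m : ℕ) : ℤ) + 1 - 2 * (j : ℤ))
    (fun j => (((2 * m).choose j : ℕ) : ℤ) - u1_c (2 * m) j) (2 * m + 2)
  rw [Finset.sum_add_distrib, u1_abs_sum] at h2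
  have h3 : ∑ j ∈ Finset.range (2 * m + 2), 2 * (((2 * m : ℕ) : ℤ) + 1 - 2 * (j : ℤ)).natAbs ≤
      (2 * m + 2) * (2 * (2 * m + 1)) := by
    have := Finset.sum_le_card_nsmul (Finset.range (2 * m + 2))
      (fun j => 2 * (((2 * m : ℕ) : ℤ) + 1 - 2 * (j : ℤ)).natAbs) (2 * (2 * m + 1)) (by
        intro j hj
        rw [Finset.mem_range] at hj
        omega)
    simpa using this
  rw [u1_w]
  refine (FreeGroup.norm_mul_le _ _).trans ?_
  have h4 := FreeGroup.norm_mul_le ((FreeGroup.of (2 : Fin 3)) ^ (2 * m))⁻¹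
    (u1_P (fun j => ((2 * m : ℕ) : ℤ) + 1 - 2 * (j : ℤ))
      (fun j => (((2 * m).choose j : ℕ) : ℤ) - u1_c (2 * m) j) (2 * m + 2))
  rw [FreeGroup.norm_inv_eq] at h4
  nlinarith [h1, h2, h3, h4]

theorem u1_central (m : ℕ) : (2 * m + 1) * (2 * m).choose m ^ 2 ≤ 16 ^ m := by
  induction m with
  | zero => simp
  | succ m ih =>
    have h := Nat.succ_mul_centralBinom_succ m
    simp only [Nat.centralBinom] at h
    have h' : (m + 1) ^ 2 * ((2 * (m + 1) + 1) * (2 * (m + 1)).choose (m + 1) ^ 2) ≤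
        (m + 1) ^ 2 * 16 ^ (m + 1) := by
      calc (m + 1) ^ 2 * ((2 * (m + 1) + 1) * (2 * (m + 1)).choose (m + 1) ^ 2)
          = (2 * m + 3) * ((m + 1) * (2 * (m + 1)).choose (m + 1)) ^ 2 := by ring
        _ = (2 * m + 3) * (2 * (2 * m + 1) * (2 * m).choose m) ^ 2 := by rw [h]
        _ = (4 * ((2 * m + 3) * (2 * m + 1))) * ((2 * m + 1) * (2 * m).choose m ^ 2) := by ring
        _ ≤ (4 * (4 * (m + 1) ^ 2)) * 16 ^ m := by
            refine Nat.mul_le_mul ?_ ih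
            nlinarith
        _ = (m + 1) ^ 2 * 16 ^ (m + 1) := by ring
    exact Nat.le_of_mul_le_mul_left h' (by positivity)

theorem u1_pow (m : ℕ) : 16 ^ m = (4 ^ m) ^ 2 := by
  rw [← pow_mul, mul_comm m 2, pow_mul]
  norm_num

theorem u1_poly (m : ℕ) (hm : 16 ≤ m) :
    2 * m * (4 * m + 2 * (2 * m + 2) * (2 * m + 1)) ≤ 4 ^ m := by
  induction m, hm using Nat.le_induction with
  | base => norm_num
  | succ m hm ih =>
    rw [pow_succ]
    have h1 : 2 * (m + 1) * (4 * (m + 1) + 2 * (2 * (m + 1) + 2) * (2 * (m + 1) + 1)) ≤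
        4 * (2 * m * (4 * m + 2 * (2 * m + 2) * (2 * m + 1))) := by
      nlinarith [Nat.mul_le_mul hm hm, Nat.mul_le_mul (Nat.mul_le_mul hm hm) hm,
        Nat.mul_le_mul_right m hm, Nat.mul_le_mul_right (m * m) hm]
    omega

theorem universal_words : ∃ (n : ℕ → ℕ) (w : ℕ → FreeGroup (Fin 3)),
    (∀ k, (k + 1) ^ 2 ≤ n k ∧ (k + 1) * (w k).norm ≤ n k) ∧
    ∀ k s (hs : 0 < s), FreeGroup.lift (affs s hs) (w k) = (aff 1 1 one_ne_zero) ^ (n k) := by
  refine ⟨fun k => 4 ^ (16 * (k + 1) ^ 2), fun k => u1_w (16 * (k + 1) ^ 2), ?_, ?_⟩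
  · intro k
    set m := 16 * (k + 1) ^ 2 with hm
    have hkm : k + 1 ≤ m := by rw [hm]; nlinarith
    have hm16 : 16 ≤ m := by rw [hm]; nlinarith
    have hp := u1_poly m hm16
    constructor
    · show (k + 1) ^ 2 ≤ 4 ^ m
      have : m * 1 ≤ 2 * m * (4 * m + 2 * (2 * m + 2) * (2 * m + 1)) :=
        Nat.mul_le_mul (by omega) (by nlinarith)
      omega
    · have h1 := u1_w_norm m
      have h2 := u1_central m
      have h3 : (4 * (k + 1) * (2 * m).choose m) ^ 2 ≤ (4 ^ m) ^ 2 := by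
        calc (4 * (k + 1) * (2 * m).choose m) ^ 2 = m * (2 * m).choose m ^ 2 := by
              rw [hm]; ring
          _ ≤ (2 * m + 1) * (2 * m).choose m ^ 2 := Nat.mul_le_mul_right _ (by omega)
          _ ≤ 16 ^ m := h2
          _ = (4 ^ m) ^ 2 := u1_pow m
      have h4 : 4 * (k + 1) * (2 * m).choose m ≤ 4 ^ m :=
        (Nat.pow_le_pow_iff_left (by norm_num)).1 h3
      have h5 : (k + 1) * (u1_w m).norm ≤
          (k + 1) * (4 * m + 2 * (2 * m + 2) * (2 * m + 1) + 2 * (2 * m).choose m) :=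
        Nat.mul_le_mul_left _ h1
      have h6 : (k + 1) * (4 * m + 2 * (2 * m + 2) * (2 * m + 1)) ≤
          m * (4 * m + 2 * (2 * m + 2) * (2 * m + 1)) := Nat.mul_le_mul_right _ hkm
      show (k + 1) * (u1_w m).norm ≤ 4 ^ m
      nlinarith
  · intro k s hs
    exact u1_w_lift _ s hs

end GC45
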