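import Pool.Agent.LibGC45.Defs
import Pool.Agent.LibGermDist46.Defs

open Filter Topology Set

namespace GC45

open GermDist46

theorem f2_wl_le {G : Type*} [Group G] (S : Set G) (L : List G)
    (hL : ∀ x ∈ L, x ∈ S ∨ x⁻¹ ∈ S) : wordLength S L.prod ≤ L.length :=
  Nat.sInf_le ⟨L, rfl, hL, rfl⟩

theorem f2_wl_exists {G : Type*} [Group G] (S : Set G) (h : G) (hh : h ∈ Subgroup.closure S) :
    ∃ L : List G, L.length = wordLength S h ∧ (∀ x ∈ L, x ∈ S ∨ x⁻¹ ∈ S) ∧ L.prod = h := by
  have hne : {k | ∃ L : List G, L.length = k ∧ (∀ x ∈ L, x ∈ S ∨ x⁻¹ ∈ S) ∧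
      L.prod = h}.Nonempty := by
    have hh' : h ∈ Submonoid.closure (S ∪ S⁻¹) := by
      rw [← Subgroup.closure_toSubmonoid]
      exact hh
    obtain ⟨L, h1, h2⟩ := Submonoid.exists_list_of_mem_closure hh'
    exact ⟨L.length, L, rfl, fun x hx => h1 x hx, h2⟩
  exact Nat.sInf_mem hne

theorem f2_wl_one {G : Type*} [Group G] (S : Set G) : wordLength S (1 : G) = 0 := by
  have := f2_wl_le S [] (by simp)
  simpa using this

theorem f2_wl_mul {G : Type*} [Group G] (S : Set G) (a b : G) (ha : a ∈ Subgroup.closure S)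
    (hb : b ∈ Subgroup.closure S) :
    wordLength S (a * b) ≤ wordLength S a + wordLength S b := by
  obtain ⟨L, h1, h2, h3⟩ := f2_wl_exists S a ha
  obtain ⟨M, k1, k2, k3⟩ := f2_wl_exists S b hb
  have := f2_wl_le S (L ++ M) (by
    intro x hx
    rcases List.mem_append.1 hx with hx | hx
    · exact h2 x hx
    · exact k2 x hx)
  rw [List.prod_append, h3, k3, List.length_append, h1, k1] at this
  exact this

theorem f2_wl_pow {G : Type*} [Group G] (S : Set G) (a : G) (ha : a ∈ Subgroup.closure S)
    (n : ℕ) : wordLength S (a ^ n) ≤ n * wordLength S a := by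
  induction n with
  | zero => simp [f2_wl_one]
  | succ n ih =>
    have := f2_wl_mul S (a ^ n) a (pow_mem ha n) ha
    rw [← pow_succ] at this
    calc _ ≤ _ := this
      _ ≤ n * wordLength S a + wordLength S a := by omega
      _ = _ := by ring

theorem f2_wl_gen {G : Type*} [Group G] (S : Set G) (a : G) (ha : a ∈ S) :
    wordLength S a ≤ 1 := by
  have := f2_wl_le S [a] (by simp [ha])
  simpa using this

theorem f2_wl_mono {G : Type*} [Group G] (S T : Set G) (hST : S ⊆ T) (a : G)
    (ha : a ∈ Subgroup.closure S) : wordLength T a ≤ wordLength S a := by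
  obtain ⟨L, h1, h2, h3⟩ := f2_wl_exists S a ha
  have := f2_wl_le T L (fun x hx => (h2 x hx).imp (fun h => hST h) (fun h => hST h))
  rw [h3, h1] at this
  exact this

theorem f2_wl_map {G K : Type*} [Group G] [Group K] (φ : G →* K) (S : Set G) (T : Set K)
    (hST : ∀ x ∈ S, φ x ∈ T) (a : G) (ha : a ∈ Subgroup.closure S) :
    wordLength T (φ a) ≤ wordLength S a := by
  obtain ⟨L, h1, h2, h3⟩ := f2_wl_exists S a ha
  have := f2_wl_le T (L.map φ) (by
    intro x hx
    obtain ⟨y, hy, rfl⟩ := List.mem_map.1 hx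
    rcases h2 y hy with h | h
    · exact Or.inl (hST y h)
    · right
      rw [← map_inv]
      exact hST _ h)
  rw [List.length_map, h1, ← map_list_prod, h3] at this
  exact this

theorem f2_wl_lift {G : Type*} [Group G] (H : Subgroup G) (S : Set H) (T : Set G)
    (hST : ∀ x : H, (x : G) ∈ T → x ∈ S) (hT : T ⊆ H) (a : H)
    (ha : (a : G) ∈ Subgroup.closure T) :
    wordLength S a ≤ wordLength T (a : G) := by
  obtain ⟨L, h1, h2, h3⟩ := f2_wl_exists T (a : G) ha
  have hLH : ∀ x ∈ L, x ∈ H := by
    intro x hx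
    rcases h2 x hx with h | h
    · exact hT h
    · exact H.inv_mem_iff.1 (hT h)
  lift L to List H using hLH
  have := f2_wl_le S L (by
    intro x hx
    have hx' : (x : G) ∈ List.map (fun y : H => (y : G)) L := List.mem_map_of_mem hx
    rcases h2 _ hx' with h | h
    · exact Or.inl (hST x h)
    · right
      apply hST
      simpa using h)
  have h4 : L.prod = a := by
    apply Subtype.ext
    rw [← h3]
    exact (map_list_prod H.subtype L)
  rw [h4] at this
  rw [List.length_map] at h1
  omega

/-- distortion elements in terms of the big group -/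
theorem f2_iff {G : Type*} [Group G] (g : G) : IsDistortionElement g ↔
    ∃ S : Finset G, g ∈ Subgroup.closure (S : Set G) ∧
      Tendsto (fun n : ℕ => (wordLength (S : Set G) (g ^ n) : ℝ) / n) atTop (𝓝 0) := by
  classical
  constructor
  · rintro ⟨H, hg, S, hS, ht⟩
    refine ⟨S.image (fun x : H => (x : G)), ?_, ?_⟩
    · have h1 : (⟨g, hg⟩ : H) ∈ Subgroup.closure (S : Set H) := by rw [hS]; trivial
      have h2 := Subgroup.mem_map_of_mem H.subtype h1
      rw [MonoidHom.map_closure] at h2
      simpa using h2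
    · refine squeeze_zero (fun n => by positivity) (fun n => ?_) ht
      gcongr
      have := f2_wl_map H.subtype (S : Set H)
        ((S.image (fun x : H => (x : G)) : Finset G) : Set G)
        (fun x hx => by
          simp only [Finset.coe_image, Set.mem_image]
          exact ⟨x, hx, rfl⟩) ((⟨g, hg⟩ : H) ^ n) (by rw [hS]; trivial)
      simpa using this
  · rintro ⟨S, hS, ht⟩
    refine ⟨Subgroup.closure (S : Set G), hS, ?_⟩
    let T : Finset (Subgroup.closure (S : Set G)) := S.preimage (fun x => (x : G))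
      (Set.injOn_of_injective Subtype.val_injective)
    refine ⟨T, ?_, ?_⟩
    · have : ((T : Finset (Subgroup.closure (S : Set G))) : Set _) =
        (((↑) : Subgroup.closure (S : Set G) → G) ⁻¹' (S : Set G)) := by
        simp [T]
      rw [this]
      exact Subgroup.closure_closure_coe_preimage
    · refine squeeze_zero (fun n => by positivity) (fun n => ?_) ht
      gcongr
      have := f2_wl_lift (Subgroup.closure (S : Set G)) (T : Set _) (S : Set G)
        (fun x hx => by simpa [T] using hx) Subgroup.subset_closure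
        ((⟨g, hS⟩ : Subgroup.closure (S : Set G)) ^ n) (by
          simpa using pow_mem hS n)
      simpa using this

theorem f2_wl_free {G : Type*} [Group G] {r : ℕ} (p : Fin r → G) (T : Set G)
    (hT : ∀ i, p i ∈ T) (w : FreeGroup (Fin r)) :
    wordLength T (FreeGroup.lift p w) ≤ w.norm := by
  have := f2_wl_le T (w.toWord.map (fun x => cond x.2 (p x.1) (p x.1)⁻¹)) (by
    intro x hx
    obtain ⟨⟨i, b⟩, hy, rfl⟩ := List.mem_map.1 hx
    cases b
    · right; simpa using hT i
    · left; simpa using hT i)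
  rw [List.length_map] at this
  have h2 : (w.toWord.map (fun x => cond x.2 (p x.1) (p x.1)⁻¹)).prod = FreeGroup.lift p w := by
    conv_rhs => rw [← FreeGroup.mk_toWord (x := w)]
    rw [FreeGroup.lift_mk]
  rw [h2] at this
  exact this

theorem distortion_of_words {G : Type*} [Group G] {r : ℕ} (p : Fin r → G) (g : G) (n : ℕ → ℕ)
    (w : ℕ → FreeGroup (Fin r)) (hn : ∀ k, (k + 1) ^ 2 ≤ n k)
    (hw : ∀ k, (k + 1) * (w k).norm ≤ 60 * n k) (h : ∀ k, FreeGroup.lift p (w k) = g ^ (n k)) :
    IsDistortionElement g := by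
  classical
  rw [f2_iff]
  refine ⟨insert g (Finset.univ.image p), Subgroup.subset_closure (by simp), ?_⟩
  set T : Set G := ((insert g (Finset.univ.image p) : Finset G) : Set G) with hT
  have hgT : g ∈ T := by simp [hT]
  have hpT : ∀ i, p i ∈ T := by intro i; simp [hT]
  have hgc : g ∈ Subgroup.closure T := Subgroup.subset_closure hgT
  -- the basic bound
  have hb : ∀ k N : ℕ, wordLength T (g ^ N) ≤ (N / n k) * (w k).norm + n k := by
    intro k N
    have hnk : 0 < n k := lt_of_lt_of_le (by positivity) (hn k)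
    have h1 : g ^ N = (g ^ (n k)) ^ (N / n k) * g ^ (N % n k) := by
      rw [← pow_mul, ← pow_add, Nat.div_add_mod]
    rw [h1]
    calc _ ≤ wordLength T ((g ^ (n k)) ^ (N / n k)) + wordLength T (g ^ (N % n k)) :=
          f2_wl_mul T _ _ (pow_mem (pow_mem hgc _) _) (pow_mem hgc _)
      _ ≤ (N / n k) * wordLength T (g ^ (n k)) + (N % n k) * wordLength T g :=
          add_le_add (f2_wl_pow T _ (pow_mem hgc _) _) (f2_wl_pow T _ hgc _)
      _ ≤ (N / n k) * (w k).norm + n k := by
          refine add_le_add (Nat.mul_le_mul_left _ ?_) ?_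
          · rw [← h k]; exact f2_wl_free p T hpT (w k)
          · calc (N % n k) * wordLength T g ≤ (N % n k) * 1 :=
                  Nat.mul_le_mul_left _ (f2_wl_gen T g hgT)
              _ ≤ n k := by rw [mul_one]; exact (Nat.mod_lt _ hnk).le
  rw [Metric.tendsto_atTop]
  intro ε hε
  obtain ⟨k, hk⟩ := exists_nat_gt (120 / ε)
  obtain ⟨N₀, hN₀⟩ := exists_nat_gt (2 * (n k : ℝ) / ε)
  refine ⟨N₀ + 1, fun N hN => ?_⟩
  have hnk : 0 < n k := lt_of_lt_of_le (by positivity) (hn k)
  have hnkR : (0 : ℝ) < n k := by exact_mod_cast hnk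
  have hNpos : (0 : ℝ) < N := by
    have : 0 < N := by omega
    exact_mod_cast this
  have hNN : (N₀ : ℝ) < N := by
    have : N₀ < N := by omega
    exact_mod_cast this
  rw [Real.dist_eq, sub_zero, abs_of_nonneg (by positivity), div_lt_iff₀ hNpos]
  have h1 : (wordLength T (g ^ N) : ℝ) ≤ (N / n k : ℕ) * (w k).norm + n k := by
    exact_mod_cast hb k N
  have h2 : ((N / n k : ℕ) : ℝ) ≤ N / n k := Nat.cast_div_le
  have h3 : ((k : ℝ) + 1) * (w k).norm ≤ 60 * n k := by exact_mod_cast hw k
  have hk1 : (0 : ℝ) < k + 1 := by positivity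
  have h4 : ((w k).norm : ℝ) ≤ 60 * n k / (k + 1) := by
    rw [le_div_iff₀ hk1]; linarith
  have h5 : 120 < ε * (k + 1) := by
    rw [div_lt_iff₀ hε] at hk
    nlinarith
  have h6 : 2 * (n k : ℝ) < ε * N := by
    rw [div_lt_iff₀ hε] at hN₀
    nlinarith
  have h7 : (60 : ℝ) / (k + 1) < ε / 2 := by
    rw [div_lt_iff₀ hk1]; linarith
  have h8 : ((N / n k : ℕ) : ℝ) * (w k).norm ≤ (N / n k) * (60 * n k / (k + 1)) := by
    gcongr
  have h9 : ((N : ℝ) / n k) * (60 * n k / (k + 1)) = N * (60 / (k + 1)) := by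
    field_simp
  have h10 : (N : ℝ) * (60 / (k + 1)) < N * (ε / 2) := by gcongr
  linarith

theorem f2_map {G K : Type*} [Group G] [Group K] (φ : G →* K) (g : G)
    (hg : IsDistortionElement g) : IsDistortionElement (φ g) := by
  classical
  rw [f2_iff] at hg ⊢
  obtain ⟨S, hS, ht⟩ := hg
  refine ⟨S.image φ, ?_, ?_⟩
  · have h2 := Subgroup.mem_map_of_mem φ hS
    rw [MonoidHom.map_closure] at h2
    simpa using h2
  · refine squeeze_zero (fun n => by positivity) (fun n => ?_) ht
    gcongr
    have := f2_wl_map φ (S : Set G) ((S.image φ : Finset K) : Set K)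
      (fun x hx => by
        simp only [Finset.coe_image, Set.mem_image]
        exact ⟨x, hx, rfl⟩) (g ^ n) (pow_mem hS n)
    simpa using this

theorem distortion_conj {G : Type*} [Group G] (x g : G) (hg : IsDistortionElement g) :
    IsDistortionElement (x * g * x⁻¹) := by
  have := f2_map (MulAut.conj x).toMonoidHom g hg
  simpa using this

theorem distortion_mul {G : Type*} [Group G] (g h : G) (hc : Commute g h)
    (hg : IsDistortionElement g) (hh : IsDistortionElement h) : IsDistortionElement (g * h) := by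
  classical
  rw [f2_iff] at hg hh ⊢
  obtain ⟨S, hS, ht⟩ := hg
  obtain ⟨T, hT, hu⟩ := hh
  have hSU : (S : Set G) ⊆ ((S ∪ T : Finset G) : Set G) := by simp
  have hTU : (T : Set G) ⊆ ((S ∪ T : Finset G) : Set G) := by simp
  refine ⟨S ∪ T, mul_mem (Subgroup.closure_mono hSU hS) (Subgroup.closure_mono hTU hT), ?_⟩
  have htu := ht.add hu
  rw [add_zero] at htu
  refine squeeze_zero (fun n => by positivity) (fun n => ?_) htu
  rw [← add_div]
  gcongr
  rw [hc.mul_pow]
  have h1 := f2_wl_mul ((S ∪ T : Finset G) : Set G) (g ^ n) (h ^ n)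
    (pow_mem (Subgroup.closure_mono hSU hS) n) (pow_mem (Subgroup.closure_mono hTU hT) n)
  have h2 := f2_wl_mono _ _ hSU (g ^ n) (pow_mem hS n)
  have h3 := f2_wl_mono _ _ hTU (h ^ n) (pow_mem hT n)
  have h4 : wordLength ((S ∪ T : Finset G) : Set G) (g ^ n * h ^ n) ≤
    wordLength (S : Set G) (g ^ n) + wordLength (T : Set G) (h ^ n) := by omega
  exact_mod_cast h4

theorem distortion_of_sq {G : Type*} [Group G] (g : G) (hg : IsDistortionElement (g ^ 2)) :
    IsDistortionElement g := by
  classical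
  rw [f2_iff] at hg ⊢
  obtain ⟨S, hS, ht⟩ := hg
  have hSU : (S : Set G) ⊆ ((insert g S : Finset G) : Set G) := by simp
  have hgU : g ∈ ((insert g S : Finset G) : Set G) := by simp
  have hgc : g ∈ Subgroup.closure ((insert g S : Finset G) : Set G) :=
    Subgroup.subset_closure hgU
  refine ⟨insert g S, hgc, ?_⟩
  have hdiv : Tendsto (fun n : ℕ => n / 2) atTop atTop :=
    Nat.tendsto_div_const_atTop (by norm_num)
  have h1 := (ht.comp hdiv).add (tendsto_one_div_atTop_nhds_zero_nat (𝕜 := ℝ))
  rw [add_zero] at h1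
  refine squeeze_zero (fun n => by positivity) (fun n => ?_) h1
  simp only [Function.comp_apply]
  have h2 : wordLength ((insert g S : Finset G) : Set G) (g ^ n) ≤
      wordLength (S : Set G) ((g ^ 2) ^ (n / 2)) + 1 := by
    have e : g ^ n = (g ^ 2) ^ (n / 2) * g ^ (n % 2) := by
      rw [← pow_mul, ← pow_add, Nat.div_add_mod]
    rw [e]
    calc _ ≤ wordLength ((insert g S : Finset G) : Set G) ((g ^ 2) ^ (n / 2)) +
          wordLength ((insert g S : Finset G) : Set G) (g ^ (n % 2)) :=
          f2_wl_mul _ _ _ (pow_mem (pow_mem hgc _) _) (pow_mem hgc _)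
      _ ≤ wordLength (S : Set G) ((g ^ 2) ^ (n / 2)) +
          (n % 2) * wordLength ((insert g S : Finset G) : Set G) g :=
          add_le_add (f2_wl_mono _ _ hSU _ (pow_mem hS _)) (f2_wl_pow _ _ hgc _)
      _ ≤ _ := by
          have h3 := f2_wl_gen _ _ hgU
          have h4 : n % 2 ≤ 1 := by omega
          have h5 : (n % 2) * wordLength ((insert g S : Finset G) : Set G) g ≤ 1 * 1 :=
            Nat.mul_le_mul h4 h3
          omega
  have h3 : (wordLength ((insert g S : Finset G) : Set G) (g ^ n) : ℝ) ≤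
      wordLength (S : Set G) ((g ^ 2) ^ (n / 2)) + 1 := by exact_mod_cast h2
  calc _ ≤ ((wordLength (S : Set G) ((g ^ 2) ^ (n / 2)) : ℝ) + 1) / n := by gcongr
    _ = (wordLength (S : Set G) ((g ^ 2) ^ (n / 2)) : ℝ) / n + 1 / n := add_div _ _ _
    _ ≤ _ := by
      gcongr ?_ + _
      rcases Nat.eq_zero_or_pos (n / 2) with h0 | h0
      · rw [h0]; simp [f2_wl_one]
      · have h0' : (0 : ℝ) < (n / 2 : ℕ) := by exact_mod_cast h0
        have h5 : n / 2 ≤ n := Nat.div_le_self _ _
        have h5' : ((n / 2 : ℕ) : ℝ) ≤ n := by exact_mod_cast h5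
        gcongr

/-- an element on which a homomorphism to `ℝ` does not vanish is not distorted -/
theorem not_distortion_of_hom {G : Type*} [Group G] (φ : G →* Multiplicative ℝ) (g : G)
    (hφ : φ g ≠ 1) : ¬ IsDistortionElement g := by
  classical
  intro hg
  rw [f2_iff] at hg
  obtain ⟨S, hS, ht⟩ := hg
  set f : G → ℝ := fun x => Multiplicative.toAdd (φ x) with hf
  have fmul : ∀ a b, f (a * b) = f a + f b := by intro a b; simp [hf]
  have finv : ∀ a, f a⁻¹ = - f a := by intro a; simp [hf]
  have fone : f 1 = 0 := by simp [hf]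
  have fpow : ∀ a (n : ℕ), f (a ^ n) = n * f a := by intro a n; simp [hf]
  have fg : f g ≠ 0 := by
    intro h0
    apply hφ
    exact h0
  set C : ℝ := ∑ s ∈ S, |f s| with hC
  have hCs : ∀ s ∈ S, |f s| ≤ C := fun s hs =>
    Finset.single_le_sum (f := fun s => |f s|) (fun i _ => abs_nonneg _) hs
  have hC0 : 0 ≤ C := Finset.sum_nonneg (fun i _ => abs_nonneg _)
  have hlist : ∀ L : List G, (∀ x ∈ L, x ∈ (S : Set G) ∨ x⁻¹ ∈ (S : Set G)) →
      |f L.prod| ≤ C * L.length := by
    intro L
    induction L with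
    | nil => intro _; simp [fone]
    | cons a L ih =>
      intro hL
      have h1 := ih (fun x hx => hL x (List.mem_cons_of_mem _ hx))
      have h2 : |f a| ≤ C := by
        rcases hL a List.mem_cons_self with h | h
        · exact hCs a h
        · have := hCs _ h
          rwa [finv, abs_neg] at this
      rw [List.prod_cons, fmul, List.length_cons]
      push_cast
      calc |f a + f L.prod| ≤ |f a| + |f L.prod| := abs_add_le _ _
        _ ≤ C + C * L.length := add_le_add h2 h1
        _ = _ := by ring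
  have hbound : ∀ n : ℕ, (n : ℝ) * |f g| ≤ C * wordLength (S : Set G) (g ^ n) := by
    intro n
    obtain ⟨L, h1, h2, h3⟩ := f2_wl_exists (S : Set G) (g ^ n) (pow_mem hS n)
    have := hlist L h2
    rw [h3, h1, fpow, abs_mul, Nat.abs_cast] at this
    exact this
  have h1 := ht.const_mul C
  rw [mul_zero] at h1
  have h2 : ∀ᶠ n : ℕ in atTop, |f g| ≤ C * ((wordLength (S : Set G) (g ^ n) : ℝ) / n) := by
    filter_upwards [eventually_gt_atTop 0] with n hn
    have hn' : (0 : ℝ) < n := by exact_mod_cast hn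
    rw [← mul_div_assoc, le_div_iff₀ hn']
    have := hbound n
    linarith
  have h3 := ge_of_tendsto h1 h2
  exact fg (abs_nonpos_iff.1 h3)

end GC45
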