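import Pool.Agent.LibGC45.B1
import Pool.Agent.LibGermDist46.Defs

open Filter Topology Set

namespace GC45

open GermDist46

/-- permutations of the line which are `C¹` diffeomorphisms near the fixed point `0` -/
def Loc1 : Subgroup Pm where
  carrier := {F | F 0 = 0 ∧ ContDiffAt ℝ (1 : ℕ) F 0 ∧ ContDiffAt ℝ (1 : ℕ) (F⁻¹ : Pm) 0}
  mul_mem' := by
    rintro F G ⟨hF0, hF, hF'⟩ ⟨hG0, hG, hG'⟩
    have hFi : (F⁻¹ : Pm) 0 = 0 := by
      rw [Equiv.Perm.inv_eq_iff_eq]; exact hF0.symm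
    refine ⟨by rw [Equiv.Perm.mul_apply, hG0, hF0], ?_, ?_⟩
    · have h : (⇑(F * G : Pm)) = (⇑F) ∘ (⇑G) := rfl
      rw [h]
      refine ContDiffAt.comp 0 ?_ hG
      rw [hG0]; exact hF
    · have h : (⇑((F * G)⁻¹ : Pm)) = (⇑(G⁻¹ : Pm)) ∘ (⇑(F⁻¹ : Pm)) := by
        rw [mul_inv_rev]; rfl
      rw [h]
      refine ContDiffAt.comp 0 ?_ hF'
      rw [hFi]; exact hG'
  one_mem' := by
    refine ⟨rfl, ?_, ?_⟩
    · exact contDiffAt_id
    · rw [inv_one]; exact contDiffAt_id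
  inv_mem' := by
    rintro F ⟨hF0, hF, hF'⟩
    refine ⟨?_, hF', ?_⟩
    · rw [Equiv.Perm.inv_eq_iff_eq]; exact hF0.symm
    · rw [inv_inv]; exact hF

/-- the function of an element of `Loc1` -/
def f3_cr (F : Loc1) : CrFun 1 := ⟨⇑(F : Pm), F.2.1, F.2.2.1⟩

/-- the monoid homomorphism to germs -/
def f3_hom : Loc1 →* GermMonoid 1 where
  toFun F := ((f3_cr F : CrFun 1) : GermMonoid 1)
  map_one' := rfl
  map_mul' _ _ := rfl

theorem exists_toGerm : ∃ T : Loc1 →* GermGroup 1,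
    (∀ F : Loc1, Represents (T F) (F : Pm)) ∧
    ∀ F G : Loc1, T F = T G ↔ (⇑(F : Pm)) =ᶠ[𝓝 0] (⇑(G : Pm)) := by
  refine ⟨f3_hom.toHomUnits, fun F => ⟨f3_cr F, rfl, ?_⟩, fun F G => ?_⟩
  · rw [MonoidHom.coe_toHomUnits]; rfl
  · rw [Units.ext_iff, MonoidHom.coe_toHomUnits, MonoidHom.coe_toHomUnits]
    exact (germCon 1).eq

theorem represents_unique {r : ℕ} {g g' : GermGroup r} {f f' : ℝ → ℝ} (h : Represents g f)
    (h' : Represents g' f') : g = g' ↔ f =ᶠ[𝓝 0] f' := by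
  obtain ⟨F, rfl, hF⟩ := h
  obtain ⟨F', rfl, hF'⟩ := h'
  rw [Units.ext_iff, ← hF, ← hF']
  exact (germCon r).eq

/-- derivative at `0`, on functions -/
noncomputable def f3_der : CrFun 1 →* ℝ where
  toFun F := deriv F.toFun 0
  map_one' := by rw [CrFun.one_toFun, deriv_id]
  map_mul' F G := by
    rw [CrFun.mul_toFun]
    have hF : DifferentiableAt ℝ F.toFun (G.toFun 0) := by
      rw [G.map_zero']
      exact F.contDiffAt'.differentiableAt (by norm_num)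
    have hG : DifferentiableAt ℝ G.toFun 0 := G.contDiffAt'.differentiableAt (by norm_num)
    rw [deriv_comp 0 hF hG, G.map_zero']

/-- the derivative at `0` as a homomorphism -/
theorem exists_derivHom : ∃ D : GermGroup 1 →* ℝˣ, ∀ (g : GermGroup 1) (f : ℝ → ℝ),
    Represents g f → (D g : ℝ) = deriv f 0 := by
  have hle : germCon 1 ≤ Con.ker f3_der := by
    intro F G h
    rw [Con.ker_rel]
    exact Filter.EventuallyEq.deriv_eq h
  refine ⟨Units.map ((germCon 1).lift f3_der hle), fun g f hf => ?_⟩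
  obtain ⟨F, rfl, hF⟩ := hf
  rw [Units.coe_map, ← hF]
  rfl

theorem mem_Loc1 {F : Pm} (hF : IsD F) (h0 : F 0 = 0) : F ∈ Loc1 := by
  refine ⟨h0, ?_, ?_⟩
  · exact_mod_cast hF.contDiff.contDiffAt
  · exact_mod_cast hF.inv.contDiff.contDiffAt

end GC45
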