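import Pool.Agent.LibGC45.B1

open Filter Topology Set

namespace GC45

theorem b4a_lift_fix {α : Type*} (Ω : Set ℝ) (P : α → Pm) (hP : ∀ a x, x ∉ Ω → P a x = x)
    (w : FreeGroup α) : ∀ x, x ∉ Ω → FreeGroup.lift P w x = x := by
  induction w using FreeGroup.induction_on with
  | C1 => intro x _; simp
  | of a =>
    intro x hx
    rw [FreeGroup.lift_apply_of]
    exact hP a x hx
  | inv_of a ih =>
    intro x hx
    rw [map_inv, Equiv.Perm.inv_eq_iff_eq]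
    exact (ih x hx).symm
  | mul w₁ w₂ ih₁ ih₂ =>
    intro x hx
    rw [map_mul, Equiv.Perm.mul_apply, ih₂ x hx, ih₁ x hx]

theorem b4a_mem_iff {Ω : Set ℝ} {F : Pm} (hF : ∀ x, x ∉ Ω → F x = x) (x : ℝ) :
    x ∈ Ω ↔ F x ∈ Ω := by
  constructor
  · intro hx
    by_contra h
    have h3 := F.injective (hF (F x) h)
    rw [h3] at h
    exact h hx
  · intro h
    by_contra hx
    rw [hF x hx] at h
    exact hx h

theorem lift_supp {α : Type*} (Ω : Set ℝ) (P : α → Pm) (hP : ∀ a x, x ∉ Ω → P a x = x)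
    (w : FreeGroup α) : (∀ x, x ∉ Ω → FreeGroup.lift P w x = x) ∧
      (∀ x, x ∈ Ω ↔ FreeGroup.lift P w x ∈ Ω) :=
  ⟨b4a_lift_fix Ω P hP w, b4a_mem_iff (b4a_lift_fix Ω P hP w)⟩

theorem lift_patch {α ι : Type*} (Ω : ι → Set ℝ) (P : α → Pm) (Q : ι → α → Pm)
    (hQ : ∀ i a x, x ∉ Ω i → Q i a x = x) (hP : ∀ a i, ∀ x ∈ Ω i, P a x = Q i a x)
    (w : FreeGroup α) (i : ι) {x : ℝ} (hx : x ∈ Ω i) :
    FreeGroup.lift P w x = FreeGroup.lift (Q i) w x := by
  revert x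
  induction w using FreeGroup.induction_on with
  | C1 => intro x _; simp
  | of a =>
    intro x hx
    rw [FreeGroup.lift_apply_of, FreeGroup.lift_apply_of]
    exact hP a i x hx
  | inv_of a ih =>
    intro x hx
    rw [map_inv, map_inv, Equiv.Perm.inv_eq_iff_eq]
    have hy : (FreeGroup.lift (Q i) (FreeGroup.of a))⁻¹ x ∈ Ω i := by
      rw [b4a_mem_iff (F := FreeGroup.lift (Q i) (FreeGroup.of a))
        (b4a_lift_fix (Ω i) (Q i) (hQ i) _)]
      simpa using hx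
    have := ih hy
    rw [← map_inv] at this ⊢
    rw [this, map_inv]
    simp
  | mul w₁ w₂ ih₁ ih₂ =>
    intro x hx
    rw [map_mul, Equiv.Perm.mul_apply, ih₂ hx, map_mul, Equiv.Perm.mul_apply]
    exact ih₁ (((lift_supp (Ω i) (Q i) (hQ i) w₂).2 x).1 hx)

theorem b4a_size_list {α : Type*} (Ω : Set ℝ) (P : α → Pm) (hD : ∀ a, IsD (P a))
    (hinv : ∀ a x, x ∈ Ω ↔ P a x ∈ Ω) {s : ℝ}
    (hsz : ∀ a, ∀ x ∈ Ω, |Real.log (deriv (P a) x)| ≤ s) (L : List (α × Bool)) :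
    IsD (FreeGroup.lift P (FreeGroup.mk L)) ∧
      (∀ x ∈ Ω, FreeGroup.lift P (FreeGroup.mk L) x ∈ Ω) ∧
      ∀ x ∈ Ω, |Real.log (deriv (FreeGroup.lift P (FreeGroup.mk L) : Pm) x)| ≤ L.length * s := by
  induction L with
  | nil =>
    have h1 : FreeGroup.lift P (FreeGroup.mk []) = 1 := by
      rw [FreeGroup.lift_mk]; rfl
    rw [h1]
    refine ⟨IsD.one, fun x hx => hx, fun x _ => ?_⟩
    have h : (⇑(1 : Pm)) = id := rfl
    rw [h, deriv_id]
    simp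
  | cons ab L ih =>
    obtain ⟨a, b⟩ := ab
    obtain ⟨ih1, ih2, ih3⟩ := ih
    have hmk : FreeGroup.lift P (FreeGroup.mk ((a, b) :: L)) =
        cond b (P a) (P a)⁻¹ * FreeGroup.lift P (FreeGroup.mk L) := by
      rw [FreeGroup.lift_mk, FreeGroup.lift_mk]
      simp
    have hlet : IsD (cond b (P a) (P a)⁻¹) ∧ (∀ x ∈ Ω, (cond b (P a) (P a)⁻¹ : Pm) x ∈ Ω) ∧
        ∀ x ∈ Ω, |Real.log (deriv (cond b (P a) (P a)⁻¹ : Pm) x)| ≤ s := by
      cases b with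
      | true => exact ⟨hD a, fun x hx => (hinv a x).1 hx, hsz a⟩
      | false =>
        have hm : ∀ x ∈ Ω, (P a)⁻¹ x ∈ Ω := by
          intro x hx
          rw [hinv a]
          simpa using hx
        refine ⟨(hD a).inv, hm, fun x hx => ?_⟩
        rw [Bool.cond_false, (hD a).deriv_inv, Real.log_inv, abs_neg]
        exact hsz a _ (hm x hx)
    obtain ⟨h1, h2, h3⟩ := hlet
    rw [hmk]
    refine ⟨h1.mul ih1, fun x hx => ?_, fun x hx => ?_⟩
    · rw [Equiv.Perm.mul_apply]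
      exact h2 _ (ih2 x hx)
    · rw [h1.deriv_mul ih1, Real.log_mul (h1.pos _).ne' (ih1.pos _).ne']
      refine (abs_add_le _ _).trans ?_
      have e1 := h3 _ (ih2 x hx)
      have e2 := ih3 x hx
      rw [List.length_cons]
      push_cast
      linarith

/-- the size of a word, with sizes measured on an invariant set `Ω` -/
theorem lift_size {α : Type*} [DecidableEq α] (Ω : Set ℝ) (P : α → Pm) (hD : ∀ a, IsD (P a))
    (hinv : ∀ a x, x ∈ Ω ↔ P a x ∈ Ω) {s : ℝ} (hs : 0 ≤ s)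
    (hsz : ∀ a, ∀ x ∈ Ω, |Real.log (deriv (P a) x)| ≤ s) (w : FreeGroup α) :
    IsD (FreeGroup.lift P w) ∧ ∀ x ∈ Ω, |Real.log (deriv (FreeGroup.lift P w : Pm) x)| ≤ w.norm * s := by
  have h := b4a_size_list Ω P hD hinv hsz w.toWord
  rw [FreeGroup.mk_toWord] at h
  exact ⟨h.1, h.2.2⟩

end GC45
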