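import Pool.Agent.LibGC45.Defs

open Filter Topology Set

namespace GC45

variable {F G : Pm} {s t : ℝ} {I J : Set ℝ}

theorem IsD.one : IsD 1 := by
  refine ⟨contDiff_id, fun x => ?_⟩
  have : deriv (⇑(1 : Pm)) x = 1 := by
    have h : (⇑(1 : Pm)) = id := rfl
    rw [h, deriv_id]
  rw [this]; exact one_pos

theorem IsD.differentiable (hF : IsD F) : Differentiable ℝ F :=
  hF.contDiff.differentiable one_ne_zero

theorem IsD.continuous (hF : IsD F) : Continuous F := hF.contDiff.continuous

theorem IsD.continuous_deriv (hF : IsD F) : Continuous (deriv F) :=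
  hF.contDiff.continuous_deriv le_rfl

theorem IsD.strictMono (hF : IsD F) : StrictMono F :=
  strictMono_of_deriv_pos hF.pos

theorem IsD.deriv_mul (hF : IsD F) (hG : IsD G) (x : ℝ) :
    deriv (F * G : Pm) x = deriv F (G x) * deriv G x := by
  have h : (⇑(F * G : Pm)) = (⇑F) ∘ (⇑G) := rfl
  rw [h, deriv_comp x (hF.differentiable _) (hG.differentiable _)]

theorem IsD.mul (hF : IsD F) (hG : IsD G) : IsD (F * G) := by
  refine ⟨?_, fun x => ?_⟩
  · have h : (⇑(F * G : Pm)) = (⇑F) ∘ (⇑G) := rfl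
    rw [h]; exact hF.contDiff.comp hG.contDiff
  · rw [hF.deriv_mul hG]; exact mul_pos (hF.pos _) (hG.pos _)

/-- the homeomorphism underlying a diffeomorphism -/
noncomputable def b1_homeo (F : Pm) (hF : IsD F) : ℝ ≃ₜ ℝ :=
  (StrictMono.orderIsoOfSurjective F hF.strictMono F.surjective).toHomeomorph

theorem b1_homeo_apply (hF : IsD F) (x : ℝ) : b1_homeo F hF x = F x := rfl

theorem b1_homeo_symm (hF : IsD F) : ⇑(b1_homeo F hF).symm = ⇑(F⁻¹ : Pm) := by
  funext y
  apply (b1_homeo F hF).injective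
  rw [Homeomorph.apply_symm_apply, b1_homeo_apply]
  simp

theorem b1_hasDerivAt_inv (hF : IsD F) (y : ℝ) :
    HasDerivAt (⇑(F⁻¹ : Pm)) (deriv F (F⁻¹ y))⁻¹ y := by
  have hc : ContinuousAt (⇑(F⁻¹ : Pm)) y := by
    rw [← b1_homeo_symm hF]
    exact (b1_homeo F hF).symm.continuous.continuousAt
  refine HasDerivAt.of_local_left_inverse hc ((hF.differentiable _).hasDerivAt) (hF.pos _).ne' ?_
  exact Eventually.of_forall fun z => by simp

theorem IsD.deriv_inv (hF : IsD F) (x : ℝ) :
    deriv (F⁻¹ : Pm) x = (deriv F (F⁻¹ x))⁻¹ := (b1_hasDerivAt_inv hF x).deriv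

theorem IsD.inv (hF : IsD F) : IsD F⁻¹ := by
  refine ⟨?_, fun x => ?_⟩
  · rw [← b1_homeo_symm hF]
    refine Homeomorph.contDiff_symm_deriv (b1_homeo F hF) (f' := deriv F) (fun x => (hF.pos x).ne')
      (fun x => ?_) ?_
    · exact (hF.differentiable x).hasDerivAt
    · exact hF.contDiff
  · rw [hF.deriv_inv]; exact inv_pos.2 (hF.pos _)

theorem IsD.pow (hF : IsD F) (n : ℕ) : IsD (F ^ n) := by
  induction n with
  | zero => rw [pow_zero]; exact IsD.one
  | succ n ih => rw [pow_succ]; exact ih.mul hF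

/-- the chain rule for iterates -/
theorem IsD.log_deriv_pow (hF : IsD F) (n : ℕ) (x : ℝ) :
    Real.log (deriv (F ^ n : Pm) x) = ∑ i ∈ Finset.range n, Real.log (deriv F ((F ^ i) x)) := by
  induction n with
  | zero =>
    have h : (⇑((F ^ 0 : Pm))) = id := by rw [pow_zero]; rfl
    rw [h, deriv_id]; simp
  | succ n ih =>
    rw [Finset.sum_range_succ, ← ih, pow_succ', hF.deriv_mul (hF.pow n),
      Real.log_mul (hF.pos _).ne' ((hF.pow n).pos _).ne', add_comm]

theorem b1_abs_log_le {u : ℝ} (hu : |u| ≤ 1 / 2) : |Real.log (1 + u)| ≤ 2 * |u| := by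
  have h1 : -(1 / 2) ≤ u ∧ u ≤ 1 / 2 := abs_le.1 hu
  have hpos : 0 < 1 + u := by linarith [h1.1]
  have hup : Real.log (1 + u) ≤ u := by
    have := Real.log_le_sub_one_of_pos hpos
    linarith
  have hlow : 1 - (1 + u)⁻¹ ≤ Real.log (1 + u) := Real.one_sub_inv_le_log_of_pos hpos
  have hlow' : -(2 * |u|) ≤ 1 - (1 + u)⁻¹ := by
    have : 1 - (1 + u)⁻¹ = u / (1 + u) := by field_simp; ring
    rw [this, le_div_iff₀ hpos]
    rcases abs_cases u with ⟨h, h'⟩ | ⟨h, h'⟩ <;> rw [h] <;> nlinarith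
  rw [abs_le]
  constructor
  · linarith
  · have := le_abs_self u
    have h0 := abs_nonneg u
    linarith

/-- one builds elements from functions `x + f x` -/
theorem exists_idAdd (f : ℝ → ℝ) (hf : ContDiff ℝ 1 f) {s : ℝ} (hs : s ≤ 1 / 2)
    (hd : ∀ x, |deriv f x| ≤ s) (I : Set ℝ) (hI : ∀ x, x ∉ I → f x = 0) :
    ∃ F : Pm, DD (2 * s) I F ∧ ∀ x, F x = x + f x := by
  have hfd : Differentiable ℝ f := hf.differentiable one_ne_zero
  have hder : ∀ x, HasDerivAt (fun y => y + f y) (1 + deriv f x) x := fun x =>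
    (hasDerivAt_id x).add (hfd x).hasDerivAt
  have hderiv : ∀ x, deriv (fun y => y + f y) x = 1 + deriv f x := fun x => (hder x).deriv
  have hhalf : ∀ x, 1 / 2 ≤ 1 + deriv f x := fun x => by
    have := abs_le.1 (hd x); linarith [this.1]
  have hmono : StrictMono (fun y => y + f y) :=
    strictMono_of_deriv_pos fun x => by rw [hderiv]; linarith [hhalf x]
  have hcont : Continuous (fun y => y + f y) := continuous_id.add hf.continuous
  -- growth
  have hlip : ∀ x y, |f x - f y| ≤ 1 / 2 * |x - y| := by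
    intro x y
    have := Convex.norm_image_sub_le_of_norm_deriv_le (f := f) (s := univ) (C := 1 / 2)
      (x := y) (y := x) (fun z _ => hfd z)
      (fun z _ => by rw [Real.norm_eq_abs]; exact (hd z).trans hs) convex_univ (mem_univ _)
      (mem_univ _)
    simpa [Real.norm_eq_abs] using this
  have htop : Tendsto (fun y => y + f y) atTop atTop := by
    refine tendsto_atTop_mono' atTop (f₁ := fun y => 1 / 2 * y + f 0) ?_ ?_
    · filter_upwards [eventually_ge_atTop 0] with y hy
      have := hlip y 0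
      rw [sub_zero, abs_of_nonneg hy] at this
      have := (abs_le.1 this).1
      linarith
    · exact tendsto_atTop_add_const_right _ _ (tendsto_id.const_mul_atTop (by norm_num))
  have hbot : Tendsto (fun y => y + f y) atBot atBot := by
    refine tendsto_atBot_mono' atBot (f₁ := fun y => 1 / 2 * y + f 0) ?_ ?_
    · filter_upwards [eventually_le_atBot 0] with y hy
      have := hlip y 0
      rw [sub_zero, abs_of_nonpos hy] at this
      have := (abs_le.1 this).2
      linarith
    · exact tendsto_atBot_add_const_right _ _ (tendsto_id.const_mul_atBot (by norm_num))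
  have hsurj : Function.Surjective (fun y => y + f y) := hcont.surjective htop hbot
  refine ⟨Equiv.ofBijective _ ⟨hmono.injective, hsurj⟩, ⟨⟨?_, ?_⟩, ?_, ?_⟩, fun x => rfl⟩
  · exact contDiff_id.add hf
  · intro x
    change 0 < deriv (fun y => y + f y) x
    rw [hderiv]; linarith [hhalf x]
  · intro x
    change |Real.log (deriv (fun y => y + f y) x)| ≤ 2 * s
    rw [hderiv]
    refine (b1_abs_log_le ((hd x).trans hs)).trans ?_
    linarith [hd x]
  · intro x hx
    change x + f x = x
    rw [hI x hx, add_zero]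

theorem DD.one (hs : 0 ≤ s) : DD s I 1 := by
  refine ⟨IsD.one, fun x => ?_, fun x _ => rfl⟩
  have h : (⇑(1 : Pm)) = id := rfl
  rw [h, deriv_id]; simpa using hs

theorem DD.mono (h : DD s I F) (hst : s ≤ t) (hIJ : I ⊆ J) : DD t J F :=
  ⟨h.isD, fun x => (h.sz x).trans hst, fun x hx => h.supp x fun h' => hx (hIJ h')⟩

theorem DD.mul (hF : DD s I F) (hG : DD t I G) : DD (s + t) I (F * G) := by
  refine ⟨hF.isD.mul hG.isD, fun x => ?_, fun x hx => ?_⟩
  · rw [hF.isD.deriv_mul hG.isD, Real.log_mul (hF.isD.pos _).ne' (hG.isD.pos _).ne']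
    exact (abs_add_le _ _).trans (add_le_add (hF.sz _) (hG.sz _))
  · rw [Equiv.Perm.mul_apply, hG.supp x hx, hF.supp x hx]

theorem DD.inv (hF : DD s I F) : DD s I F⁻¹ := by
  refine ⟨hF.isD.inv, fun x => ?_, fun x hx => ?_⟩
  · rw [hF.isD.deriv_inv, Real.log_inv, abs_neg]; exact hF.sz _
  · rw [Equiv.Perm.inv_eq_iff_eq]; exact (hF.supp x hx).symm

theorem DD.nonneg (hF : DD s I F) : 0 ≤ s := (abs_nonneg _).trans (hF.sz 0)

theorem DD.pow (hF : DD s I F) (n : ℕ) : DD (n * s) I (F ^ n) := by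
  induction n with
  | zero => simpa using DD.one (s := 0) (I := I) le_rfl
  | succ n ih =>
    rw [pow_succ]
    refine (ih.mul hF).mono ?_ subset_rfl
    push_cast; linarith

theorem DD.mem_iff (hF : DD s I F) (x : ℝ) : F x ∈ I ↔ x ∈ I := by
  constructor
  · intro h
    by_contra hx
    rw [hF.supp x hx] at h
    exact hx h
  · intro hx
    by_contra h
    have h2 := hF.supp (F x) h
    have h3 := F.injective h2
    rw [h3] at h
    exact h hx

theorem b1_aff_hasDerivAt {a b : ℝ} (ha : a ≠ 0) (x : ℝ) : HasDerivAt (aff a b ha) a x := by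
  have : HasDerivAt (fun x => a * x + b) a x := by
    simpa using ((hasDerivAt_id x).const_mul a).add_const b
  exact this

theorem aff_isD {a b : ℝ} (ha : 0 < a) : IsD (aff a b ha.ne') := by
  refine ⟨?_, fun x => ?_⟩
  · have : (⇑(aff a b ha.ne')) = fun x => a * x + b := rfl
    rw [this]; fun_prop
  · rw [(b1_aff_hasDerivAt ha.ne' x).deriv]; exact ha

theorem DD.conj_aff {a b : ℝ} (ha : 0 < a) (hF : DD s I F) :
    DD s (aff a b ha.ne' '' I) (aff a b ha.ne' * F * (aff a b ha.ne')⁻¹) := by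
  have hA := aff_isD (b := b) ha
  refine ⟨(hA.mul hF.isD).mul hA.inv, fun x => ?_, fun x hx => ?_⟩
  · rw [(hA.mul hF.isD).deriv_mul hA.inv, hA.deriv_mul hF.isD, hA.deriv_inv,
      (b1_aff_hasDerivAt ha.ne' _).deriv, (b1_aff_hasDerivAt ha.ne' _).deriv]
    have : a * deriv F ((aff a b ha.ne')⁻¹ x) * a⁻¹ = deriv F ((aff a b ha.ne')⁻¹ x) := by
      field_simp
    rw [this]; exact hF.sz _
  · have h : (aff a b ha.ne')⁻¹ x ∉ I := by
      intro h
      exact hx ⟨_, h, by simp⟩
    rw [Equiv.Perm.mul_apply, Equiv.Perm.mul_apply, hF.supp _ h]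
    simp

/-- `|F' - 1| ≤ 2 s` for small `s`, and the displacement is `2 s`-Lipschitz. -/
theorem DD.abs_deriv_sub_one (hF : DD s I F) (hs : s ≤ 1 / 2) (x : ℝ) :
    |deriv F x - 1| ≤ 2 * s := by
  have h0 := hF.nonneg
  have h1 := abs_le.1 (hF.sz x)
  have hp := hF.isD.pos x
  have hexp : deriv F x = Real.exp (Real.log (deriv F x)) := (Real.exp_log hp).symm
  have hup : deriv F x ≤ Real.exp s := by
    rw [hexp]; exact Real.exp_le_exp.2 h1.2
  have hlow : Real.exp (-s) ≤ deriv F x := by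
    rw [hexp]; exact Real.exp_le_exp.2 h1.1
  have hs1 : Real.exp s ≤ 1 + 2 * s := by
    have := Real.abs_exp_sub_one_sub_id_le (x := s) (by rw [abs_of_nonneg h0]; linarith)
    have := (abs_le.1 this).2
    nlinarith
  have hs2 : 1 - s ≤ Real.exp (-s) := by
    have := Real.add_one_le_exp (-s)
    linarith
  rw [abs_le]
  constructor <;> linarith

theorem DD.disp (hF : DD s I F) (hs : s ≤ 1 / 2) (x y : ℝ) :
    |(F x - x) - (F y - y)| ≤ 2 * s * |x - y| := by
  have hd : ∀ z, HasDerivAt (fun z => F z - z) (deriv F z - 1) z := fun z =>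
    ((hF.isD.differentiable z).hasDerivAt).sub (hasDerivAt_id z)
  have := Convex.norm_image_sub_le_of_norm_deriv_le (f := fun z => F z - z) (s := univ)
    (C := 2 * s) (x := y) (y := x) (fun z _ => (hd z).differentiableAt)
    (fun z _ => by rw [Real.norm_eq_abs, (hd z).deriv]; exact hF.abs_deriv_sub_one hs z)
    convex_univ (mem_univ _) (mem_univ _)
  simpa [Real.norm_eq_abs] using this

end GC45
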