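import Pool.Agent.LibGC45.Defs

open Filter Topology Set

namespace GC45

theorem b2a_deriv_bound : ∃ C : ℝ, 1 ≤ C ∧ ∀ x, |deriv Real.smoothTransition x| ≤ C := by
  have hc : Continuous (deriv Real.smoothTransition) :=
    (Real.smoothTransition.contDiff (n := 1)).continuous_deriv le_rfl
  obtain ⟨C, hC⟩ := (isCompact_Icc (a := (0 : ℝ)) (b := 1)).exists_bound_of_continuousOn
    hc.continuousOn
  refine ⟨max 1 C, le_max_left _ _, fun x => ?_⟩
  rcases le_or_gt x 0 with hx | hx
  · rcases eq_or_lt_of_le hx with rfl | hx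
    · exact (hC 0 (by simp)).trans (le_max_right _ _)
    · have : Real.smoothTransition =ᶠ[𝓝 x] fun _ => (0 : ℝ) := by
        filter_upwards [Iio_mem_nhds hx] with y hy
        exact Real.smoothTransition.zero_of_nonpos (le_of_lt hy)
      rw [this.deriv_eq]; simp
  · rcases lt_or_ge 1 x with hx1 | hx1
    · have : Real.smoothTransition =ᶠ[𝓝 x] fun _ => (1 : ℝ) := by
        filter_upwards [Ioi_mem_nhds hx1] with y hy
        exact Real.smoothTransition.one_of_one_le (le_of_lt hy)
      rw [this.deriv_eq]; simp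
    · exact (hC x ⟨hx.le, hx1⟩).trans (le_max_right _ _)

theorem exists_plateau : ∃ C₀ : ℝ, 1 ≤ C₀ ∧ ∀ a b w : ℝ, 0 < w → a + w ≤ b - w →
    ∃ χ : ℝ → ℝ, ContDiff ℝ 1 χ ∧ (∀ x, 0 ≤ χ x ∧ χ x ≤ 1) ∧ (∀ x, |deriv χ x| ≤ C₀ / w) ∧
      (∀ x, x ≤ a → χ x = 0) ∧ (∀ x, b ≤ x → χ x = 0) ∧
      (∀ x, a + w ≤ x → x ≤ b - w → χ x = 1) := by
  obtain ⟨C, hC1, hC⟩ := b2a_deriv_bound
  refine ⟨2 * C, by linarith, fun a b w hw hab => ?_⟩
  set S := Real.smoothTransition with hS
  have hSd : ContDiff ℝ 1 S := Real.smoothTransition.contDiff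
  have hSdiff : Differentiable ℝ S := hSd.differentiable one_ne_zero
  have h01 : ∀ x, 0 ≤ S x ∧ S x ≤ 1 := fun x =>
    ⟨Real.smoothTransition.nonneg x, Real.smoothTransition.le_one x⟩
  refine ⟨fun x => S ((x - a) / w) * S ((b - x) / w), ?_, ?_, ?_, ?_, ?_, ?_⟩
  · exact (hSd.comp (by fun_prop)).mul (hSd.comp (by fun_prop))
  · intro x
    exact ⟨mul_nonneg (h01 _).1 (h01 _).1, mul_le_one₀ (h01 _).2 (h01 _).1 (h01 _).2⟩
  · intro x
    have h1 : HasDerivAt (fun x => (x - a) / w) (1 / w) x := by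
      simpa using ((hasDerivAt_id x).sub_const a).div_const w
    have h2 : HasDerivAt (fun x => (b - x) / w) (-1 / w) x := by
      simpa using ((hasDerivAt_id x).const_sub b).div_const w
    have h3 := ((hSdiff ((x - a) / w)).hasDerivAt.comp x h1).mul
      ((hSdiff ((b - x) / w)).hasDerivAt.comp x h2)
    have h4 : deriv (fun x => S ((x - a) / w) * S ((b - x) / w)) x =
        deriv S ((x - a) / w) * (1 / w) * S ((b - x) / w) +
          S ((x - a) / w) * (deriv S ((b - x) / w) * (-1 / w)) := h3.deriv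
    rw [h4]
    have e1 : |deriv S ((x - a) / w) * (1 / w) * S ((b - x) / w)| ≤ C / w := by
      rw [abs_mul, abs_mul, abs_of_nonneg (h01 _).1, abs_of_pos (by positivity : 0 < 1 / w)]
      calc |deriv S ((x - a) / w)| * (1 / w) * S ((b - x) / w) ≤ C * (1 / w) * 1 := by
            gcongr
            · exact (h01 _).1
            · exact hC _
            · exact (h01 _).2
        _ = C / w := by ring
    have e2 : |S ((x - a) / w) * (deriv S ((b - x) / w) * (-1 / w))| ≤ C / w := by
      have : |(-1 : ℝ) / w| = 1 / w := by rw [abs_div, abs_neg, abs_one, abs_of_pos hw]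
      rw [abs_mul, abs_mul, abs_of_nonneg (h01 _).1, this]
      calc S ((x - a) / w) * (|deriv S ((b - x) / w)| * (1 / w)) ≤ 1 * (C * (1 / w)) := by
            gcongr
            · exact (h01 _).2
            · exact hC _
        _ = C / w := by ring
    calc _ ≤ C / w + C / w := (abs_add_le _ _).trans (add_le_add e1 e2)
      _ = 2 * C / w := by ring
  · intro x hx
    have : S ((x - a) / w) = 0 := Real.smoothTransition.zero_of_nonpos
      (div_nonpos_of_nonpos_of_nonneg (by linarith) hw.le)
    simp [this]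
  · intro x hx
    have : S ((b - x) / w) = 0 := Real.smoothTransition.zero_of_nonpos
      (div_nonpos_of_nonpos_of_nonneg (by linarith) hw.le)
    simp [this]
  · intro x h1 h2
    have e1 : S ((x - a) / w) = 1 := Real.smoothTransition.one_of_one_le
      ((one_le_div hw).2 (by linarith))
    have e2 : S ((b - x) / w) = 1 := Real.smoothTransition.one_of_one_le
      ((one_le_div hw).2 (by linarith))
    simp [e1, e2]

end GC45
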