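import Pool.Agent.LibGC45.B1
import Pool.Agent.LibGC45.B2a

open Filter Topology Set

namespace GC45

theorem exists_cutoff : ∃ C : ℝ, 1 ≤ C ∧ ∀ a b w α β D η : ℝ, 0 < w → a + w ≤ b - w → |β| ≤ η →
    (∀ x ∈ Icc a b, |α + β * x| ≤ D) → D ≤ η * w → C * η ≤ 1 / 2 →
    ∃ F : Pm, DD (C * η) (Ioo a b) F ∧ ∀ x ∈ Icc (a + w) (b - w), F x = x + (α + β * x) := by
  obtain ⟨C₀, hC₀, hpl⟩ := exists_plateau
  refine ⟨2 * (C₀ + 1), by linarith, fun a b w α β D η hw hab hβ hD hDη hη => ?_⟩
  obtain ⟨χ, hχ, h01, hχd, hχa, hχb, hχ1⟩ := hpl a b w hw hab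
  have hη0 : 0 ≤ η := (abs_nonneg _).trans hβ
  have hχdiff : Differentiable ℝ χ := hχ.differentiable one_ne_zero
  have hder : ∀ x, deriv (fun x => χ x * (α + β * x)) x = deriv χ x * (α + β * x) + χ x * β := by
    intro x
    have h1 : HasDerivAt (fun x => α + β * x) β x := by
      simpa using ((hasDerivAt_id x).const_mul β).const_add α
    exact ((hχdiff x).hasDerivAt.mul h1).deriv
  have hbound : ∀ x, |deriv (fun x => χ x * (α + β * x)) x| ≤ (C₀ + 1) * η := by
    intro x
    by_cases hx : x ∈ Icc a b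
    · rw [hder]
      have e1 : |deriv χ x * (α + β * x)| ≤ C₀ * η := by
        rw [abs_mul]
        calc |deriv χ x| * |α + β * x| ≤ C₀ / w * (η * w) :=
              mul_le_mul (hχd x) ((hD x hx).trans hDη) (abs_nonneg _) (by positivity)
          _ = C₀ * η := by field_simp
      have e2 : |χ x * β| ≤ η := by
        rw [abs_mul, abs_of_nonneg (h01 x).1]
        calc χ x * |β| ≤ 1 * η := mul_le_mul (h01 x).2 hβ (abs_nonneg _) zero_le_one
          _ = η := one_mul _
      calc _ ≤ C₀ * η + η := (abs_add_le _ _).trans (add_le_add e1 e2)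
        _ = (C₀ + 1) * η := by ring
    · have : (fun x => χ x * (α + β * x)) =ᶠ[𝓝 x] fun _ => (0 : ℝ) := by
        have : x < a ∨ b < x := by
          by_contra h
          push Not at h
          exact hx ⟨h.1, h.2⟩
        rcases this with h | h
        · filter_upwards [Iio_mem_nhds h] with y hy
          rw [hχa y (le_of_lt hy), zero_mul]
        · filter_upwards [Ioi_mem_nhds h] with y hy
          rw [hχb y (le_of_lt hy), zero_mul]
      rw [this.deriv_eq]
      simp only [deriv_const, abs_zero]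
      positivity
  obtain ⟨F, hF, hFx⟩ := exists_idAdd (fun x => χ x * (α + β * x)) (hχ.mul (by fun_prop))
    (s := (C₀ + 1) * η) (by nlinarith) hbound (Ioo a b) (fun x hx => by
      have : x ≤ a ∨ b ≤ x := by
        by_contra h
        push Not at h
        exact hx ⟨h.1, h.2⟩
      rcases this with h | h
      · change χ x * (α + β * x) = 0
        rw [hχa x h, zero_mul]
      · change χ x * (α + β * x) = 0
        rw [hχb x h, zero_mul])
  refine ⟨F, hF.mono (by linarith) subset_rfl, fun x hx => ?_⟩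
  rw [hFx, hχ1 x hx.1 hx.2, one_mul]

end GC45
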