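import Pool.Agent.LibGC45.Defs

open Filter Topology Set

namespace GC45

/-- if `f` is differentiable and nonzero derivative at a point then `f ≠ 0` nearby -/
theorem b3a_deriv_zero {f h : ℝ → ℝ} (hf : Differentiable ℝ f) (hh : Differentiable ℝ h)
    (hdisj : ∀ x, f x = 0 ∨ h x = 0) (x : ℝ) : deriv f x = 0 ∨ deriv h x = 0 := by
  by_contra hcon
  push Not at hcon
  obtain ⟨h1, h2⟩ := hcon
  have e1 : ∀ᶠ y in 𝓝[≠] x, f y ≠ f x := (hf x).hasDerivAt.eventually_ne h1
  have e2 : ∀ᶠ y in 𝓝[≠] x, h y ≠ h x := (hh x).hasDerivAt.eventually_ne h2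
  -- f x = 0 and h x = 0?
  have hfx : f x = 0 ∨ h x = 0 := hdisj x
  rcases hfx with hfx | hhx
  · -- f ≠ 0 near x (punctured), so h = 0 near x punctured, so h x = 0 and contradiction
    have e3 : ∀ᶠ y in 𝓝[≠] x, h y = 0 := by
      filter_upwards [e1] with y hy
      rcases hdisj y with h3 | h3
      · exact absurd (h3.trans hfx.symm) hy
      · exact h3
    have hcx : Tendsto h (𝓝[≠] x) (𝓝 (h x)) := (hh x).continuousAt.continuousWithinAt
    have hcx' : Tendsto h (𝓝[≠] x) (𝓝 0) := by
      refine Tendsto.congr' (f₁ := fun _ => (0 : ℝ)) ?_ tendsto_const_nhds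
      filter_upwards [e3] with y hy using hy.symm
    have h0 : h x = 0 := tendsto_nhds_unique hcx hcx'
    obtain ⟨y, hy2, hy3⟩ := (e2.and e3).exists
    exact hy2 (hy3.trans h0.symm)
  · have e3 : ∀ᶠ y in 𝓝[≠] x, f y = 0 := by
      filter_upwards [e2] with y hy
      rcases hdisj y with h3 | h3
      · exact h3
      · exact absurd (h3.trans hhx.symm) hy
    have hcx : Tendsto f (𝓝[≠] x) (𝓝 (f x)) := (hf x).continuousAt.continuousWithinAt
    have hcx' : Tendsto f (𝓝[≠] x) (𝓝 0) := by
      refine Tendsto.congr' (f₁ := fun _ => (0 : ℝ)) ?_ tendsto_const_nhds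
      filter_upwards [e3] with y hy using hy.symm
    have h0 : f x = 0 := tendsto_nhds_unique hcx hcx'
    obtain ⟨y, hy2, hy3⟩ := (e1.and e3).exists
    exact hy2 (hy3.trans h0.symm)

/-- sum of a family with at most one nonzero term -/
noncomputable def b3a_pick {ι : Type*} (f : ι → ℝ → ℝ) (x : ℝ) : ℝ := by
  classical
  exact if h : ∃ i, f i x ≠ 0 then f h.choose x else 0

theorem b3a_pick_eq {ι : Type*} (f : ι → ℝ → ℝ)
    (hdisj : ∀ i j, i ≠ j → ∀ x, f i x = 0 ∨ f j x = 0) {i : ι} {x : ℝ} (h : f i x ≠ 0) :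
    b3a_pick f x = f i x := by
  have hex : ∃ i, f i x ≠ 0 := ⟨i, h⟩
  unfold b3a_pick
  rw [dif_pos hex]
  by_cases hi : hex.choose = i
  · rw [hi]
  · rcases hdisj _ _ hi x with h1 | h1
    · exact absurd h1 hex.choose_spec
    · exact absurd h1 h

theorem b3a_pick_zero {ι : Type*} (f : ι → ℝ → ℝ) {x : ℝ} (h : ∀ i, f i x = 0) :
    b3a_pick f x = 0 := by
  unfold b3a_pick
  rw [dif_neg]
  push Not
  exact h

/-- partial sums and the pick -/
theorem b3a_pick_sub {ι : Type*} (f : ι → ℝ → ℝ)
    (hdisj : ∀ i j, i ≠ j → ∀ x, f i x = 0 ∨ f j x = 0) (t : Finset ι) (x : ℝ) :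
    (b3a_pick f x - ∑ i ∈ t, f i x = 0) ∨
      ∃ i, i ∉ t ∧ b3a_pick f x - ∑ i ∈ t, f i x = f i x := by
  classical
  by_cases h : ∃ i, f i x ≠ 0
  · obtain ⟨i, hi⟩ := h
    have hz : ∀ j, j ≠ i → f j x = 0 := by
      intro j hj
      rcases hdisj _ _ hj x with h1 | h1
      · exact h1
      · exact absurd h1 hi
    rw [b3a_pick_eq f hdisj hi]
    by_cases hit : i ∈ t
    · left
      rw [Finset.sum_eq_single_of_mem i hit fun j _ hj => hz j hj, sub_self]
    · right
      refine ⟨i, hit, ?_⟩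
      rw [Finset.sum_eq_zero, sub_zero]
      intro j hj
      exact hz j fun h => hit (h ▸ hj)
  · push Not at h
    left
    rw [b3a_pick_zero f h, Finset.sum_eq_zero fun i _ => h i, sub_zero]

theorem exists_sum {ι : Type*} (f : ι → ℝ → ℝ) (s : ι → ℝ) (hf : ∀ i, ContDiff ℝ 1 (f i))
    (hd : ∀ i x, |deriv (f i) x| ≤ s i) (hs : Tendsto s cofinite (𝓝 0))
    (hdisj : ∀ i j, i ≠ j → ∀ x, f i x = 0 ∨ f j x = 0) :
    ∃ g : ℝ → ℝ, ContDiff ℝ 1 g ∧ (∀ i x, f i x ≠ 0 → g x = f i x) ∧
      (∀ x, (∀ i, f i x = 0) → g x = 0) ∧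
      (∀ x, deriv g x = 0 ∨ ∃ i, deriv g x = deriv (f i) x) := by
  classical
  have hdiff : ∀ i, Differentiable ℝ (f i) := fun i => (hf i).differentiable one_ne_zero
  have hdisj' : ∀ i j, i ≠ j → ∀ x, deriv (f i) x = 0 ∨ deriv (f j) x = 0 := fun i j hij x =>
    b3a_deriv_zero (hdiff i) (hdiff j) (hdisj i j hij) x
  set g := b3a_pick f with hg
  set g' := b3a_pick fun i => deriv (f i) with hg'
  -- pointwise convergence
  have hpt : ∀ x, Tendsto (fun t : Finset ι => ∑ i ∈ t, f i x) atTop (𝓝 (g x)) := by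
    intro x
    by_cases h : ∃ i, f i x ≠ 0
    · obtain ⟨i, hi⟩ := h
      refine tendsto_const_nhds.congr' ?_
      filter_upwards [eventually_ge_atTop {i}] with t ht
      have hit : i ∈ t := ht (Finset.mem_singleton_self i)
      rw [Finset.sum_eq_single_of_mem i hit]
      · exact b3a_pick_eq f hdisj hi
      · intro j _ hj
        rcases hdisj _ _ hj x with h1 | h1
        · exact h1
        · exact absurd h1 hi
    · push Not at h
      have : ∀ t : Finset ι, ∑ i ∈ t, f i x = 0 := fun t => Finset.sum_eq_zero fun i _ => h i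
      simp only [this]
      rw [hg, b3a_pick_zero f h]
      exact tendsto_const_nhds
  -- uniform convergence of derivatives
  have hunif : TendstoUniformly (fun (t : Finset ι) x => ∑ i ∈ t, deriv (f i) x) g' atTop := by
    rw [Metric.tendstoUniformly_iff]
    intro ε hε
    have hfin : {i | ¬ (|s i| < ε)}.Finite := by
      have := hs.eventually (Metric.ball_mem_nhds (0 : ℝ) hε)
      simpa [Real.dist_eq] using this
    filter_upwards [eventually_ge_atTop hfin.toFinset] with t ht x
    rw [Real.dist_eq]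
    rcases b3a_pick_sub (fun i => deriv (f i)) hdisj' t x with h | ⟨i, hi, h⟩
    · rw [hg', h, abs_zero]; exact hε
    · rw [hg', h]
      refine (hd i x).trans_lt ?_
      have : i ∉ hfin.toFinset := fun h' => hi (ht h')
      rw [Set.Finite.mem_toFinset] at this
      have : |s i| < ε := by
        by_contra h'; exact this h'
      exact (le_abs_self _).trans_lt this
  have hder : ∀ x, HasDerivAt g (g' x) x := by
    refine hasDerivAt_of_tendstoUniformly hunif ?_ hpt
    refine Eventually.of_forall fun t x => ?_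
    have := HasDerivAt.sum (u := t) (A := f) (A' := fun i => deriv (f i) x) (x := x)
      fun i _ => (hdiff i x).hasDerivAt
    convert this using 1
    ext y; simp
  have hcont : Continuous g' := by
    refine hunif.continuous (Eventually.of_forall fun t => ?_).frequently
    exact continuous_finsetSum _ fun i _ => (hf i).continuous_deriv le_rfl
  have hdg : deriv g = g' := by
    funext x; exact (hder x).deriv
  refine ⟨g, ?_, fun i x h => b3a_pick_eq f hdisj h, fun x h => b3a_pick_zero f h, fun x => ?_⟩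
  · rw [contDiff_one_iff_deriv]
    exact ⟨fun x => (hder x).differentiableAt, hdg ▸ hcont⟩
  · rw [hdg]
    by_cases h : ∃ i, deriv (f i) x ≠ 0
    · obtain ⟨i, hi⟩ := h
      right
      exact ⟨i, b3a_pick_eq (fun i => deriv (f i)) hdisj' hi⟩
    · push Not at h
      left
      exact b3a_pick_zero _ h

end GC45
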