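import Pool.Agent.LibGC45.B1
import Pool.Agent.LibGC45.B3a

open Filter Topology Set

namespace GC45

theorem exists_patch {ι : Type*} (Ω : ι → Set ℝ) (hΩ : Pairwise (Function.onFun Disjoint Ω))
    (F : ι → Pm) (s : ι → ℝ) {S : ℝ} (hF : ∀ i, DD (s i) (Ω i) (F i))
    (hs : Tendsto s cofinite (𝓝 0)) (hS : ∀ i, s i ≤ S) (hS0 : 0 ≤ S) (hS4 : S ≤ 1 / 4) :
    ∃ P : Pm, DD S (⋃ i, Ω i) P ∧ ∀ i, ∀ x ∈ Ω i, P x = F i x := by
  have hder : ∀ i x, HasDerivAt (fun y => F i y - y) (deriv (F i) x - 1) x := fun i x =>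
    (((hF i).isD.differentiable x).hasDerivAt).sub (hasDerivAt_id x)
  have hderiv : ∀ i x, deriv (fun y => F i y - y) x = deriv (F i) x - 1 := fun i x =>
    (hder i x).deriv
  have hsupp : ∀ i x, x ∉ Ω i → F i x - x = 0 := fun i x hx => by
    rw [(hF i).supp x hx, sub_self]
  have hbd : ∀ i x, |deriv (fun y => F i y - y) x| ≤ 2 * s i := fun i x => by
    rw [hderiv]
    exact (hF i).abs_deriv_sub_one ((hS i).trans (hS4.trans (by norm_num))) x
  have hs2 : Tendsto (fun i => 2 * s i) cofinite (𝓝 0) := by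
    simpa using hs.const_mul 2
  have hdisj : ∀ i j, i ≠ j → ∀ x, F i x - x = 0 ∨ F j x - x = 0 := by
    intro i j hij x
    by_cases hx : x ∈ Ω i
    · right
      exact hsupp j x fun hx' => Set.disjoint_left.1 (hΩ hij) hx hx'
    · exact Or.inl (hsupp i x hx)
  obtain ⟨g, hg, hgf, hg0, hgd⟩ := exists_sum (fun i y => F i y - y) (fun i => 2 * s i)
    (fun i => (hF i).isD.contDiff.sub contDiff_id) hbd hs2 hdisj
  have hgb : ∀ x, |deriv g x| ≤ 2 * S := by
    intro x
    rcases hgd x with h | ⟨i, h⟩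
    · rw [h, abs_zero]; linarith
    · rw [h]; exact (hbd i x).trans (by linarith [hS i])
  have hI : ∀ x, x ∉ (⋃ i, Ω i) → g x = 0 := by
    intro x hx
    refine hg0 x fun i => hsupp i x fun h => hx (mem_iUnion.2 ⟨i, h⟩)
  obtain ⟨P, hP, hPx⟩ := exists_idAdd g hg (s := 2 * S) (by linarith) hgb (⋃ i, Ω i) hI
  have hPd : ∀ x, deriv P x = 1 + deriv g x := by
    intro x
    have h1 : (⇑P) = fun y => y + g y := funext hPx
    rw [h1]
    exact ((hasDerivAt_id x).add (hg.differentiable one_ne_zero x).hasDerivAt).deriv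
  refine ⟨P, ⟨hP.isD, fun x => ?_, hP.supp⟩, fun i x hx => ?_⟩
  · rw [hPd]
    rcases hgd x with h | ⟨i, h⟩
    · rw [h, add_zero, Real.log_one, abs_zero]; exact hS0
    · rw [h, hderiv]
      have : 1 + (deriv (F i) x - 1) = deriv (F i) x := by ring
      rw [this]
      exact ((hF i).sz x).trans (hS i)
  · rw [hPx]
    by_cases h : F i x - x = 0
    · have h0 : g x = 0 := by
        refine hg0 x fun j => ?_
        by_cases hj : j = i
        · rw [hj]; exact h
        · exact hsupp j x fun hx' => Set.disjoint_left.1 (hΩ hj) hx' hx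
      rw [h0]; linarith
    · rw [hgf i x h]; ring

end GC45
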