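import Pool.Agent.LibGC45.B1

open Filter Topology Set

namespace GC45

variable {F G : Pm} {s t : ℝ} {I J : Set ℝ}

open Classical in
/-- restriction of a diffeomorphism to an interval -/
theorem exists_restrict {a b : ℝ} (hab : a < b) (hF : IsD F)
    (hout : ∀ᶠ x in 𝓝 a, F x = x) (hout' : ∀ᶠ x in 𝓝 b, F x = x)
    (hs : 0 ≤ s) (hsz : ∀ x ∈ Icc a b, |Real.log (deriv F x)| ≤ s) :
    ∃ P : Pm, DD s (Ioo a b) P ∧ ∀ x ∈ Icc a b, P x = F x := by
  have hFa : F a = a := hout.self_of_nhds
  have hFb : F b = b := hout'.self_of_nhds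
  have hmono := hF.strictMono
  have hmem : ∀ x, F x ∈ Icc a b ↔ x ∈ Icc a b := by
    intro x
    constructor
    · rintro ⟨h1, h2⟩
      rw [← hFa, hmono.le_iff_le] at h1
      rw [← hFb, hmono.le_iff_le] at h2
      exact ⟨h1, h2⟩
    · rintro ⟨h1, h2⟩
      refine ⟨?_, ?_⟩
      · rw [← hFa]; exact hmono.monotone h1
      · rw [← hFb]; exact hmono.monotone h2
  have hmem' : ∀ y, F.symm y ∈ Icc a b ↔ y ∈ Icc a b := by
    intro y
    rw [← hmem, Equiv.apply_symm_apply]
  let P : Pm :=
    { toFun := fun x => if x ∈ Icc a b then F x else x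
      invFun := fun y => if y ∈ Icc a b then F.symm y else y
      left_inv := by
        intro x
        by_cases h : x ∈ Icc a b
        · have h' := (hmem x).2 h
          simp only [h, h', if_true, Equiv.symm_apply_apply]
        · simp only [h, if_false]
      right_inv := by
        intro y
        by_cases h : y ∈ Icc a b
        · have h' := (hmem' y).2 h
          simp only [h, h', if_true, Equiv.apply_symm_apply]
        · simp only [h, if_false] }
  have hPin : ∀ x ∈ Icc a b, P x = F x := by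
    intro x hx
    show (if x ∈ Icc a b then F x else x) = F x
    rw [if_pos hx]
  have hPout : ∀ x, x ∉ Icc a b → P x = x := by
    intro x hx
    show (if x ∈ Icc a b then F x else x) = x
    rw [if_neg hx]
  have hsupp : ∀ x, x ∉ Ioo a b → P x = x := by
    intro x hx
    by_cases h : x ∈ Icc a b
    · rw [hPin x h]
      rcases eq_or_lt_of_le h.1 with h1 | h1
      · rw [← h1]; exact hFa
      · rcases eq_or_lt_of_le h.2 with h2 | h2
        · rw [h2]; exact hFb
        · exact absurd ⟨h1, h2⟩ hx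
    · exact hPout x h
  have hev : ∀ x, (x ∈ Ioo a b ∧ (⇑P) =ᶠ[𝓝 x] (⇑F)) ∨ (⇑P) =ᶠ[𝓝 x] id := by
    intro x
    by_cases h : x ∈ Ioo a b
    · left
      refine ⟨h, ?_⟩
      filter_upwards [isOpen_Ioo.mem_nhds h] with y hy
      exact hPin y (Ioo_subset_Icc_self hy)
    · right
      by_cases h' : x ∈ Icc a b
      · have hx : ∀ᶠ y in 𝓝 x, F y = y := by
          rcases eq_or_lt_of_le h'.1 with h1 | h1
          · rw [← h1]; exact hout
          · rcases eq_or_lt_of_le h'.2 with h2 | h2
            · rw [h2]; exact hout'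
            · exact absurd ⟨h1, h2⟩ h
        filter_upwards [hx] with y hy
        by_cases hyI : y ∈ Icc a b
        · rw [hPin y hyI, hy]; rfl
        · rw [hPout y hyI]; rfl
      · filter_upwards [isClosed_Icc.isOpen_compl.mem_nhds h'] with y hy
        rw [hPout y hy]; rfl
  have hder : ∀ x, (x ∈ Ioo a b ∧ deriv P x = deriv F x) ∨ deriv P x = 1 := by
    intro x
    rcases hev x with ⟨h1, h2⟩ | h
    · exact Or.inl ⟨h1, h2.deriv_eq⟩
    · right
      rw [h.deriv_eq, deriv_id]
  refine ⟨P, ⟨⟨?_, ?_⟩, ?_, hsupp⟩, hPin⟩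
  · rw [contDiff_iff_contDiffAt]
    intro x
    rcases hev x with ⟨_, h2⟩ | h
    · exact hF.contDiff.contDiffAt.congr_of_eventuallyEq h2
    · exact contDiffAt_id.congr_of_eventuallyEq h
  · intro x
    rcases hder x with ⟨_, h2⟩ | h
    · rw [h2]; exact hF.pos x
    · rw [h]; exact one_pos
  · intro x
    rcases hder x with ⟨h1, h2⟩ | h
    · rw [h2]; exact hsz x (Ioo_subset_Icc_self h1)
    · rw [h, Real.log_one, abs_zero]; exact hs

end GC45
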