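import Pool.Agent.LibGC45.B1

open Filter Topology Set

namespace GC45

/-- near the fixed points `g'` is close to `1` -/
theorem d1_tau (g : Pm) (hg : DD (1 / 1001 ^ 12) (Ioo 0 1) g)
    (hpar : ∀ x, g x = x → deriv g x = 1) {κ : ℝ} (hκ : 0 < κ) :
    ∃ t > 0, ∀ z, Metric.infDist z {y | g y = y} ≤ 2 * t → |Real.log (deriv g z)| ≤ κ := by
  have hgd := hg.isD
  have hlogc : Continuous (fun z => |Real.log (deriv g z)|) :=
    (hgd.continuous_deriv.log (fun x => (hgd.pos x).ne')).abs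
  have hfix : ∀ z, g z = z → |Real.log (deriv g z)| ≤ κ := fun z hz => by
    rw [hpar z hz, Real.log_one, abs_zero]; exact hκ.le
  have hcl : IsClosed {y : ℝ | g y = y} := isClosed_eq hgd.continuous continuous_id
  have hne : ({y : ℝ | g y = y}).Nonempty := ⟨0, hg.supp 0 (by simp)⟩
  have hS : IsCompact {x : ℝ | x ∈ Icc (0 : ℝ) 1 ∧ κ ≤ |Real.log (deriv g x)|} := by
    apply isCompact_Icc.inter_right
    exact isClosed_le continuous_const hlogc
  have hpos : ∀ z, g z ≠ z → 0 < Metric.infDist z {y | g y = y} := fun z hz =>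
    (hcl.notMem_iff_infDist_pos hne).mp hz
  rcases Set.eq_empty_or_nonempty {x : ℝ | x ∈ Icc (0 : ℝ) 1 ∧
      κ ≤ |Real.log (deriv g x)|} with he | hn
  · refine ⟨1, one_pos, fun z _ => ?_⟩
    by_contra h
    have h1 : g z ≠ z := fun hz => h (hfix z hz)
    have h2 : z ∈ Ioo (0 : ℝ) 1 := by
      by_contra h3
      exact h1 (hg.supp z h3)
    have h3 : z ∈ {x : ℝ | x ∈ Icc (0 : ℝ) 1 ∧ κ ≤ |Real.log (deriv g x)|} :=
      ⟨⟨h2.1.le, h2.2.le⟩, (not_le.mp h).le⟩
    rw [he] at h3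
    exact h3
  · obtain ⟨x0, hx0, hmin⟩ := hS.exists_isMinOn hn
      (Metric.continuous_infDist_pt {y : ℝ | g y = y}).continuousOn
    by_cases hx0f : g x0 = x0
    · -- then `κ ≤ 0`
      exfalso
      have := hx0.2
      rw [hpar x0 hx0f, Real.log_one, abs_zero] at this
      linarith
    · have hd := hpos x0 hx0f
      refine ⟨Metric.infDist x0 {y | g y = y} / 4, by positivity, fun z hz => ?_⟩
      by_contra h
      have h1 : g z ≠ z := fun hz => h (hfix z hz)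
      have h2 : z ∈ Ioo (0 : ℝ) 1 := by
        by_contra h3
        exact h1 (hg.supp z h3)
      have h3 : z ∈ {x : ℝ | x ∈ Icc (0 : ℝ) 1 ∧ κ ≤ |Real.log (deriv g x)|} :=
        ⟨⟨h2.1.le, h2.2.le⟩, (not_le.mp h).le⟩
      have h4 : Metric.infDist x0 {y | g y = y} ≤ Metric.infDist z {y | g y = y} := hmin h3
      linarith

/-- the thresholds -/
noncomputable def d1_t (τ : ℕ → ℝ) : ℕ → ℝ
  | 0 => τ 0
  | n + 1 => min (τ (n + 1)) (d1_t τ n / 2)

theorem d1_t_pos {τ : ℕ → ℝ} (h : ∀ n, 0 < τ n) : ∀ n, 0 < d1_t τ n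
  | 0 => h 0
  | n + 1 => lt_min (h _) (by have := d1_t_pos h n; linarith)

theorem d1_t_le (τ : ℕ → ℝ) : ∀ n, d1_t τ n ≤ τ n
  | 0 => le_rfl
  | _ + 1 => min_le_left _ _

theorem d1_t_half (τ : ℕ → ℝ) (n : ℕ) : d1_t τ (n + 1) ≤ d1_t τ n / 2 := min_le_right _ _

theorem d1_t_le_pow {τ : ℕ → ℝ} (h : ∀ n, 0 < τ n) : ∀ n, d1_t τ n ≤ τ 0 * (1 / 2) ^ n
  | 0 => by simp [d1_t]
  | n + 1 => by
    have h1 := d1_t_half τ n
    have h2 := d1_t_le_pow h n
    rw [pow_succ]; linarith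

theorem d1_t_anti {τ : ℕ → ℝ} (h : ∀ n, 0 < τ n) : Antitone (d1_t τ) :=
  antitone_nat_of_succ_le fun n => by
    have h1 := d1_t_half τ n
    have h2 := d1_t_pos h n
    linarith

theorem exists_level (g : Pm) (hg : DD (1 / 1001 ^ 12) (Ioo 0 1) g)
    (hpar : ∀ x, g x = x → deriv g x = 1) :
    ∃ μ : ℝ → ℕ, (∀ x, 1000 ≤ μ x) ∧
      (∀ x, g x ≠ x → ∀ z, |z - x| ≤ Metric.infDist x {y | g y = y} →
        |Real.log (deriv g z)| ≤ 1 / ((μ x : ℝ) + 1) ^ 12) ∧
      (∀ x z, g x ≠ x → g z ≠ z →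
        Metric.infDist z {y | g y = y} ≤ 2 * Metric.infDist x {y | g y = y} → μ x ≤ μ z + 1) ∧
      (∀ K : ℕ, ∃ t > 0, ∀ x, g x ≠ x → Metric.infDist x {y | g y = y} < t → K ≤ μ x) := by
  classical
  have hgd := hg.isD
  have hcl : IsClosed {y : ℝ | g y = y} := isClosed_eq hgd.continuous continuous_id
  have hne : ({y : ℝ | g y = y}).Nonempty := ⟨0, hg.supp 0 (by simp)⟩
  have hpos : ∀ z, g z ≠ z → 0 < Metric.infDist z {y | g y = y} := fun z hz =>
    (hcl.notMem_iff_infDist_pos hne).mp hz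
  have hτ : ∀ j : ℕ, ∃ t > 0, ∀ z, Metric.infDist z {y | g y = y} ≤ 2 * t →
      |Real.log (deriv g z)| ≤ 1 / (1001 + (j : ℝ)) ^ 12 := fun j =>
    d1_tau g hg hpar (by positivity)
  choose τ hτ0 hτ1 using hτ
  set t := d1_t τ with ht
  have htp : ∀ n, 0 < t n := d1_t_pos hτ0
  let d : ℝ → ℝ := fun x => Metric.infDist x {y | g y = y}
  let S : ℝ → Set ℕ := fun x => {n | t (n + 1) < d x}
  have hSne : ∀ x, g x ≠ x → (S x).Nonempty := fun x hx => by
    have hd := hpos x hx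
    have hlim : Tendsto (fun n : ℕ => τ 0 * (1 / 2 : ℝ) ^ n) atTop (𝓝 (τ 0 * 0)) :=
      (tendsto_pow_atTop_nhds_zero_of_lt_one (by norm_num) (by norm_num)).const_mul _
    rw [mul_zero] at hlim
    obtain ⟨n, hn⟩ := (hlim.eventually (gt_mem_nhds hd)).exists
    refine ⟨n, ?_⟩
    show t (n + 1) < d x
    have h1 : t (n + 1) ≤ t n := d1_t_anti hτ0 (Nat.le_succ n)
    have h2 : t n ≤ τ 0 * (1 / 2) ^ n := d1_t_le_pow hτ0 n
    exact lt_of_le_of_lt (h1.trans h2) hn
  refine ⟨fun x => 1000 + sInf (S x), fun x => by simp, ?_, ?_, ?_⟩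
  · intro x hx z hz
    rcases Nat.eq_zero_or_pos (sInf (S x)) with h0 | h0
    · refine (hg.sz z).trans (le_of_eq ?_)
      simp only [h0]
      norm_num
    · have hnot : sInf (S x) - 1 ∉ S x := Nat.notMem_of_lt_sInf (by omega)
      have h1 : d x ≤ t (sInf (S x)) := by
        have : ¬ t (sInf (S x) - 1 + 1) < d x := hnot
        rw [Nat.sub_add_cancel h0] at this
        exact not_lt.mp this
      have h2 : Metric.infDist z {y | g y = y} ≤ 2 * τ (sInf (S x)) := by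
        have h3 := Metric.infDist_le_infDist_add_dist (s := {y : ℝ | g y = y}) (x := z) (y := x)
        rw [Real.dist_eq] at h3
        have h4 : t (sInf (S x)) ≤ τ (sInf (S x)) := d1_t_le τ _
        have h5 : d x = Metric.infDist x {y | g y = y} := rfl
        linarith
      refine (hτ1 _ z h2).trans (le_of_eq ?_)
      push_cast
      ring
  · intro x z hx hz hzx
    have h1 : t (sInf (S z) + 1) < d z := Nat.sInf_mem (hSne z hz)
    have h2 : sInf (S z) + 1 ∈ S x := by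
      show t (sInf (S z) + 1 + 1) < d x
      have h3 : t (sInf (S z) + 1 + 1) ≤ t (sInf (S z) + 1) / 2 := d1_t_half τ _
      have h4 : d z ≤ 2 * d x := hzx
      linarith
    have h3 := Nat.sInf_le h2
    show 1000 + sInf (S x) ≤ 1000 + sInf (S z) + 1
    omega
  · intro K
    refine ⟨t K, htp K, fun x hx hdx => ?_⟩
    show K ≤ 1000 + sInf (S x)
    by_contra hlt
    have h1 : t (sInf (S x) + 1) < d x := Nat.sInf_mem (hSne x hx)
    have h2 : t K ≤ t (sInf (S x) + 1) := d1_t_anti hτ0 (by omega)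
    have h3 : d x < t K := hdx
    linarith

end GC45
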