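import Pool.Agent.LibGC45.D1

open Filter Topology Set

namespace GC45

/-- the fixed set -/
def d2_F (g : Pm) : Set ℝ := {y | g y = y}

/-- the condition on the dyadic interval `[j/2^n, (j+1)/2^n]` -/
def d2_Cnd (g : Pm) (μ : ℝ → ℕ) (n : ℕ) (j : ℤ) : Prop :=
  ∀ x : ℝ, (j : ℝ) / 2 ^ n ≤ x → x ≤ ((j : ℝ) + 1) / 2 ^ n →
    g x ≠ x ∧ 1 / (2 : ℝ) ^ n ≤ (μ x : ℝ) ^ 4 * |g x - x|

/-- the selected intervals -/
def d2_Sel (g : Pm) (μ : ℝ → ℕ) (p : ℕ × ℤ) : Prop :=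
  d2_Cnd g μ p.1 p.2 ∧ ¬ d2_Cnd g μ (p.1 - 1) (p.2 / 2)

theorem d2_child {g : Pm} {μ : ℝ → ℕ} {n : ℕ} {j : ℤ} (h : d2_Cnd g μ n (j / 2)) :
    d2_Cnd g μ (n + 1) j := by
  intro x h1 h2
  have h2n : (0 : ℝ) < 2 ^ n := by positivity
  have h2n1 : (0 : ℝ) < 2 ^ (n + 1) := by positivity
  have hj : (j : ℤ) = 2 * (j / 2) + j % 2 := (Int.mul_ediv_add_emod j 2).symm
  have hm0 : 0 ≤ j % 2 := Int.emod_nonneg _ (by norm_num)
  have hm1 : j % 2 ≤ 1 := by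
    have := Int.emod_lt_of_pos j (by norm_num : (0 : ℤ) < 2)
    omega
  have e1 : (2 * (((j / 2 : ℤ)) : ℝ)) ≤ j := by
    have : 2 * (j / 2) ≤ j := by omega
    exact_mod_cast this
  have e2 : (j : ℝ) ≤ 2 * (((j / 2 : ℤ)) : ℝ) + 1 := by
    have : j ≤ 2 * (j / 2) + 1 := by omega
    exact_mod_cast this
  rw [div_le_iff₀ h2n1] at h1
  rw [le_div_iff₀ h2n1] at h2
  rw [pow_succ] at h1 h2
  have := h x (by rw [div_le_iff₀ h2n]; nlinarith) (by rw [le_div_iff₀ h2n]; nlinarith)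
  refine ⟨this.1, le_trans ?_ this.2⟩
  apply one_div_le_one_div_of_le h2n
  rw [pow_succ]; linarith

theorem d2_desc {g : Pm} {μ : ℝ → ℕ} {n : ℕ} (k : ℕ) {j : ℤ}
    (h : d2_Cnd g μ n (j / 2 ^ k)) : d2_Cnd g μ (n + k) j := by
  induction k generalizing j with
  | zero => simpa using h
  | succ k ih =>
    rw [← add_assoc]
    apply d2_child
    apply ih
    rw [Int.ediv_ediv_of_nonneg (by norm_num)]
    rwa [← pow_succ']

/-- selected intervals are pairwise disjoint -/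
theorem d2_disj_aux {g : Pm} {μ : ℝ → ℕ} {n n' : ℕ} {a b : ℤ} (h : d2_Sel g μ (n, a))
    (h' : d2_Sel g μ (n', b)) (hn : n ≤ n') (hne : (n, a) ≠ (n', b)) :
    (a : ℝ) / 2 ^ n + 1 / 2 ^ n ≤ (b : ℝ) / 2 ^ n' ∨
      (b : ℝ) / 2 ^ n' + 1 / 2 ^ n' ≤ (a : ℝ) / 2 ^ n := by
  obtain ⟨k, rfl⟩ := Nat.exists_eq_add_of_le hn
  have hb : b = 2 ^ k * (b / 2 ^ k) + b % 2 ^ k := (Int.mul_ediv_add_emod b (2 ^ k)).symm
  have hm0 : 0 ≤ b % 2 ^ k := Int.emod_nonneg _ (by positivity)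
  have hm1 : b % 2 ^ k < 2 ^ k := Int.emod_lt_of_pos b (by positivity)
  have h2n : (0 : ℝ) < 2 ^ n := by positivity
  have h2k : (0 : ℝ) < 2 ^ k := by positivity
  have h2nk : (0 : ℝ) < 2 ^ (n + k) := by positivity
  rcases lt_trichotomy a (b / 2 ^ k) with hlt | heq | hgt
  · left
    have e1 : 2 ^ k * (a + 1) ≤ b := by
      have : a + 1 ≤ b / 2 ^ k := hlt
      calc 2 ^ k * (a + 1) ≤ 2 ^ k * (b / 2 ^ k) := by gcongr
        _ ≤ b := by omega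
    have e2 : (2 : ℝ) ^ k * (a + 1) ≤ b := by exact_mod_cast e1
    rw [← add_div, div_le_div_iff₀ h2n h2nk, pow_add]
    nlinarith
  · exfalso
    rcases Nat.eq_zero_or_pos k with rfl | hk
    · apply hne
      simp at heq
      simp [heq]
    · obtain ⟨k', rfl⟩ : ∃ k', k = k' + 1 := ⟨k - 1, by omega⟩
      apply h'.2
      have e3 : (n + (k' + 1), b).1 - 1 = n + k' := by simp
      rw [e3]
      apply d2_desc
      show d2_Cnd g μ n (b / 2 / 2 ^ k')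
      rw [Int.ediv_ediv_of_nonneg (by norm_num), ← pow_succ', ← heq]
      exact h.1
  · right
    have e1 : b + 1 ≤ 2 ^ k * a := by
      have : b / 2 ^ k + 1 ≤ a := hgt
      calc b + 1 ≤ 2 ^ k * (b / 2 ^ k + 1) := by
            rw [mul_add]; omega
        _ ≤ 2 ^ k * a := by gcongr
    have e2 : (b : ℝ) + 1 ≤ 2 ^ k * a := by exact_mod_cast e1
    rw [← add_div, div_le_div_iff₀ h2nk h2n, pow_add]
    nlinarith

theorem d2_disj {g : Pm} {μ : ℝ → ℕ} {p q : ℕ × ℤ} (h : d2_Sel g μ p)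
    (h' : d2_Sel g μ q) (hne : p ≠ q) :
    (p.2 : ℝ) / 2 ^ p.1 + 1 / 2 ^ p.1 ≤ (q.2 : ℝ) / 2 ^ q.1 ∨
      (q.2 : ℝ) / 2 ^ q.1 + 1 / 2 ^ q.1 ≤ (p.2 : ℝ) / 2 ^ p.1 := by
  rcases le_total p.1 q.1 with hn | hn
  · exact d2_disj_aux (n := p.1) (a := p.2) (n' := q.1) (b := q.2) h h' hn hne
  · exact (d2_disj_aux (n := q.1) (a := q.2) (n' := p.1) (b := p.2) h' h hn hne.symm).symm

/-- the condition holds for small dyadic intervals around a point which is not fixed -/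
theorem d2_small {g : Pm} {μ : ℝ → ℕ} (hgc : Continuous g) (hμ : ∀ x, 1000 ≤ μ x) {x : ℝ}
    (hx : g x ≠ x) : ∃ n0 : ℕ, ∀ n, n0 ≤ n → ∀ j : ℤ, (j : ℝ) / 2 ^ n ≤ x →
      x ≤ ((j : ℝ) + 1) / 2 ^ n → d2_Cnd g μ n j := by
  have hpos : 0 < |g x - x| := abs_pos.mpr (sub_ne_zero.mpr hx)
  have hcont : Continuous (fun z => |g z - z|) := (hgc.sub continuous_id).abs
  have hev : ∀ᶠ z in 𝓝 x, |g x - x| / 2 < |g z - z| :=
    (hcont.tendsto x).eventually (lt_mem_nhds (by show |g x - x| / 2 < |g x - x|; linarith))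
  obtain ⟨ε, hε, hball⟩ := Metric.eventually_nhds_iff.mp hev
  have hlim : Tendsto (fun n : ℕ => (1 / 2 : ℝ) ^ n) atTop (𝓝 0) :=
    tendsto_pow_atTop_nhds_zero_of_lt_one (by norm_num) (by norm_num)
  have hmin : 0 < min ε (|g x - x| / 2) := lt_min hε (by linarith)
  obtain ⟨n0, hn0⟩ := eventually_atTop.mp (hlim.eventually (gt_mem_nhds hmin))
  refine ⟨n0, fun n hn j h1 h2 z hz1 hz2 => ?_⟩
  have hsm := hn0 n hn
  rw [one_div, inv_pow, ← one_div] at hsm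
  have hsm1 := lt_of_lt_of_le hsm (min_le_left _ _)
  have hsm2 := lt_of_lt_of_le hsm (min_le_right _ _)
  have hz : dist z x < ε := by
    rw [Real.dist_eq, abs_lt]
    have : ((j : ℝ) + 1) / 2 ^ n = (j : ℝ) / 2 ^ n + 1 / 2 ^ n := add_div _ _ _
    rw [this] at h2 hz2
    constructor <;> linarith
  have hz' := hball hz
  have hzp : 0 < |g z - z| := by linarith
  refine ⟨fun h => ?_, ?_⟩
  · rw [h] at hzp; simp at hzp
  · have h1000 : (1 : ℝ) ≤ (μ z : ℝ) := by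
      have := hμ z
      have h3 : 1 ≤ μ z := by omega
      exact_mod_cast h3
    have h4 : (1 : ℝ) ≤ (μ z : ℝ) ^ 4 := one_le_pow₀ h1000
    nlinarith

/-- a chain of dyadic intervals containing a non-fixed point contains a selected one -/
theorem d2_chain {g : Pm} {μ : ℝ → ℕ} (hgc : Continuous g) (hμ : ∀ x, 1000 ≤ μ x)
    (h0 : ∀ j : ℤ, ¬ d2_Cnd g μ 0 j) {x : ℝ} (hx : g x ≠ x) (k : ℕ → ℤ)
    (hk : ∀ n, k n = k (n + 1) / 2)
    (hk1 : ∀ n, (k n : ℝ) / 2 ^ n ≤ x) (hk2 : ∀ n, x ≤ ((k n : ℝ) + 1) / 2 ^ n) :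
    ∃ n, d2_Sel g μ (n, k n) := by
  classical
  obtain ⟨n0, hn0⟩ := d2_small (μ := μ) hgc hμ hx
  have hex : ∃ n, d2_Cnd g μ n (k n) := ⟨n0, hn0 n0 le_rfl _ (hk1 n0) (hk2 n0)⟩
  refine ⟨Nat.find hex, Nat.find_spec hex, ?_⟩
  have hne : Nat.find hex ≠ 0 := fun h => by
    have := Nat.find_spec hex
    rw [h] at this
    exact h0 _ this
  obtain ⟨n', hn'⟩ := Nat.exists_eq_succ_of_ne_zero hne
  have hmin := Nat.find_min hex (m := n') (by rw [hn']; exact Nat.lt_succ_self _)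
  show ¬ d2_Cnd g μ (Nat.find hex - 1) (k (Nat.find hex) / 2)
  rw [hn']
  have : n'.succ - 1 = n' := rfl
  rw [this, Nat.succ_eq_add_one, ← hk n']
  exact hmin

theorem d2_floor (x : ℝ) (n : ℕ) : ⌊x * 2 ^ n⌋ = ⌊x * 2 ^ (n + 1)⌋ / 2 := by
  have h1 := Int.floor_le (x * 2 ^ n)
  have h2 := Int.lt_floor_add_one (x * 2 ^ n)
  have h3 := Int.floor_le (x * 2 ^ (n + 1))
  have h4 := Int.lt_floor_add_one (x * 2 ^ (n + 1))
  rw [pow_succ] at h3 h4
  have e1 : (2 : ℝ) * ⌊x * 2 ^ n⌋ < ⌊x * (2 ^ n * 2)⌋ + 1 := by linarith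
  have e2 : (⌊x * (2 ^ n * 2)⌋ : ℝ) < 2 * (⌊x * 2 ^ n⌋ + 1) := by linarith
  rw [pow_succ]
  have e3 : 2 * ⌊x * 2 ^ n⌋ < ⌊x * (2 ^ n * 2)⌋ + 1 := by exact_mod_cast e1
  have e4 : ⌊x * (2 ^ n * 2)⌋ < 2 * (⌊x * 2 ^ n⌋ + 1) := by exact_mod_cast e2
  omega

theorem d2_ceil (x : ℝ) (n : ℕ) : ⌈x * 2 ^ n⌉ - 1 = (⌈x * 2 ^ (n + 1)⌉ - 1) / 2 := by
  have h1 := Int.le_ceil (x * 2 ^ n)
  have h2 := Int.ceil_lt_add_one (x * 2 ^ n)
  have h3 := Int.le_ceil (x * 2 ^ (n + 1))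
  have h4 := Int.ceil_lt_add_one (x * 2 ^ (n + 1))
  rw [pow_succ] at h3 h4
  have e1 : (⌈x * (2 ^ n * 2)⌉ : ℝ) < 2 * ⌈x * 2 ^ n⌉ + 1 := by linarith
  have e2 : (2 : ℝ) * ⌈x * 2 ^ n⌉ < ⌈x * (2 ^ n * 2)⌉ + 2 := by linarith
  rw [pow_succ]
  have e3 : ⌈x * (2 ^ n * 2)⌉ < 2 * ⌈x * 2 ^ n⌉ + 1 := by exact_mod_cast e1
  have e4 : 2 * ⌈x * 2 ^ n⌉ < ⌈x * (2 ^ n * 2)⌉ + 2 := by exact_mod_cast e2
  omega

theorem d2_cover {g : Pm} {μ : ℝ → ℕ} (hgc : Continuous g) (hμ : ∀ x, 1000 ≤ μ x)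
    (h0 : ∀ j : ℤ, ¬ d2_Cnd g μ 0 j) {x : ℝ} (hx : g x ≠ x) :
    ∃ p : ℕ × ℤ, d2_Sel g μ p ∧ (p.2 : ℝ) / 2 ^ p.1 ≤ x ∧
      x < (p.2 : ℝ) / 2 ^ p.1 + 1 / 2 ^ p.1 := by
  have hk1 : ∀ n : ℕ, ((⌊x * 2 ^ n⌋ : ℤ) : ℝ) / 2 ^ n ≤ x := fun n => by
    rw [div_le_iff₀ (by positivity)]
    exact Int.floor_le _
  have hk2 : ∀ n : ℕ, x < (((⌊x * 2 ^ n⌋ : ℤ) : ℝ) + 1) / 2 ^ n := fun n => by
    rw [lt_div_iff₀ (by positivity)]
    exact Int.lt_floor_add_one _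
  obtain ⟨n, hn⟩ := d2_chain hgc hμ h0 hx (fun n => ⌊x * 2 ^ n⌋) (d2_floor x) hk1
    (fun n => (hk2 n).le)
  refine ⟨_, hn, hk1 n, ?_⟩
  have := hk2 n
  rwa [add_div] at this

theorem d2_cover' {g : Pm} {μ : ℝ → ℕ} (hgc : Continuous g) (hμ : ∀ x, 1000 ≤ μ x)
    (h0 : ∀ j : ℤ, ¬ d2_Cnd g μ 0 j) {x : ℝ} (hx : g x ≠ x) :
    ∃ p : ℕ × ℤ, d2_Sel g μ p ∧ (p.2 : ℝ) / 2 ^ p.1 < x ∧
      x ≤ (p.2 : ℝ) / 2 ^ p.1 + 1 / 2 ^ p.1 := by
  have hk1 : ∀ n : ℕ, ((⌈x * 2 ^ n⌉ - 1 : ℤ) : ℝ) / 2 ^ n < x := fun n => by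
    rw [div_lt_iff₀ (by positivity)]
    have := Int.ceil_lt_add_one (x * 2 ^ n)
    push_cast
    linarith
  have hk2 : ∀ n : ℕ, x ≤ (((⌈x * 2 ^ n⌉ - 1 : ℤ) : ℝ) + 1) / 2 ^ n := fun n => by
    rw [le_div_iff₀ (by positivity)]
    have := Int.le_ceil (x * 2 ^ n)
    push_cast
    linarith
  obtain ⟨n, hn⟩ := d2_chain hgc hμ h0 hx (fun n => ⌈x * 2 ^ n⌉ - 1) (d2_ceil x)
    (fun n => (hk1 n).le) hk2
  refine ⟨_, hn, hk1 n, ?_⟩
  have := hk2 n
  rwa [add_div] at this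

/-- the displacement is `2ε`-Lipschitz where `|log g'| ≤ ε` -/
theorem d2_lip {g : Pm} (hg : IsD g) {x δ ε : ℝ} (hε : ε ≤ 1 / 2)
    (h : ∀ z, |z - x| ≤ δ → |Real.log (deriv g z)| ≤ ε) (z : ℝ) (hz : |z - x| ≤ δ) :
    |(g z - z) - (g x - x)| ≤ 2 * ε * |z - x| := by
  have hδ : 0 ≤ δ := (abs_nonneg _).trans hz
  have hconv : Convex ℝ (Icc (x - δ) (x + δ)) := convex_Icc _ _
  have hd : ∀ w ∈ Icc (x - δ) (x + δ),
      HasDerivWithinAt (fun t => g t - t) (deriv g w - 1) (Icc (x - δ) (x + δ)) w := fun w _ =>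
    (((hg.differentiable w).hasDerivAt).sub (hasDerivAt_id w)).hasDerivWithinAt
  have hb : ∀ w ∈ Icc (x - δ) (x + δ), ‖deriv g w - 1‖ ≤ 2 * ε := fun w hw => by
    have h1 : |w - x| ≤ δ := by rw [abs_le]; constructor <;> linarith [hw.1, hw.2]
    have h2 := h w h1
    have h3 : deriv g w = Real.exp (Real.log (deriv g w)) := (Real.exp_log (hg.pos w)).symm
    rw [h3, Real.norm_eq_abs]
    refine (Real.abs_exp_sub_one_le (by linarith)).trans ?_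
    linarith
  have hxm : x ∈ Icc (x - δ) (x + δ) := ⟨by linarith, by linarith⟩
  have hzm : z ∈ Icc (x - δ) (x + δ) := by
    rw [abs_le] at hz; exact ⟨by linarith [hz.1], by linarith [hz.2]⟩
  have := hconv.norm_image_sub_le_of_norm_hasDerivWithin_le hd hb hxm hzm
  simpa [Real.norm_eq_abs] using this

theorem d2_closed {g : Pm} (hg : IsD g) : IsClosed {y : ℝ | g y = y} :=
  isClosed_eq hg.continuous continuous_id

/-- the displacement at a non-fixed point is small compared with the distance to the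
fixed points -/
theorem d2_phi {g : Pm} (hg : IsD g) (hne : ({y : ℝ | g y = y}).Nonempty) {x ε : ℝ}
    (hε : ε ≤ 1 / 2)
    (h : ∀ z, |z - x| ≤ Metric.infDist x {y | g y = y} → |Real.log (deriv g z)| ≤ ε) :
    |g x - x| ≤ 2 * ε * Metric.infDist x {y | g y = y} := by
  obtain ⟨p, hp, hpd⟩ := (d2_closed hg).exists_infDist_eq_dist hne x
  have hp' : g p = p := hp
  have h1 : |p - x| = Metric.infDist x {y | g y = y} := by
    rw [hpd, dist_comm, Real.dist_eq]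
  have := d2_lip hg hε h p h1.le
  rw [hp', sub_self, zero_sub, abs_neg, h1] at this
  exact this

/-- the main estimates for a selected interval -/
theorem d2_est {g : Pm} {μ : ℝ → ℕ} (hg : IsD g) (hne : ({y : ℝ | g y = y}).Nonempty)
    (hμ : ∀ x, 1000 ≤ μ x)
    (hlev : ∀ x, g x ≠ x → ∀ z, |z - x| ≤ Metric.infDist x {y | g y = y} →
        |Real.log (deriv g z)| ≤ 1 / ((μ x : ℝ) + 1) ^ 12)
    {n : ℕ} {j : ℤ} (hC : d2_Cnd g μ n j) {c : ℝ} (hc : c = (j : ℝ) / 2 ^ n + (1 / 2 ^ n) / 2) :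
    g c ≠ c ∧ (1 : ℝ) / 2 ^ n ≤ (μ c : ℝ) ^ 4 * |g c - c| ∧
      1000 * (1 / 2 ^ n : ℝ) ≤ Metric.infDist c {y | g y = y} := by
  have hL : (0 : ℝ) < 1 / 2 ^ n := by positivity
  have hcm := hC c (by rw [hc]; linarith) (by rw [hc, add_div]; linarith)
  refine ⟨hcm.1, hcm.2, ?_⟩
  have hm : (1000 : ℝ) ≤ μ c := by exact_mod_cast hμ c
  have hε : 1 / ((μ c : ℝ) + 1) ^ 12 ≤ 1 / 2 := by
    apply one_div_le_one_div_of_le (by norm_num)
    have : (1001 : ℝ) ≤ (μ c : ℝ) + 1 := by linarith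
    calc (2 : ℝ) ≤ 1001 ^ 12 := by norm_num
      _ ≤ _ := by gcongr
  have h1 := d2_phi hg hne hε (hlev c hcm.1)
  set m : ℝ := (μ c : ℝ) with hmdef
  set d := Metric.infDist c {y | g y = y} with hd
  have hd0 : 0 ≤ d := Metric.infDist_nonneg
  have h2 : (1 : ℝ) / 2 ^ n ≤ m ^ 4 * (2 * (1 / (m + 1) ^ 12) * d) :=
    hcm.2.trans (by gcongr)
  have h3 : m ^ 4 * (2 * (1 / (m + 1) ^ 12) * d) ≤ d / 1000 := by
    have hm1 : (0 : ℝ) < m + 1 := by linarith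
    have e1 : m ^ 4 * (2 * (1 / (m + 1) ^ 12) * d) = (2 * m ^ 4 / (m + 1) ^ 12) * d := by ring
    rw [e1]
    have e2 : 2 * m ^ 4 / (m + 1) ^ 12 ≤ 1 / 1000 := by
      rw [div_le_div_iff₀ (by positivity) (by norm_num)]
      have e3 : m ^ 4 ≤ (m + 1) ^ 4 := by gcongr; linarith
      have e4 : (2000 : ℝ) ≤ (m + 1) ^ 8 := by
        have : (1001 : ℝ) ≤ m + 1 := by linarith
        calc (2000 : ℝ) ≤ 1001 ^ 8 := by norm_num
          _ ≤ _ := by gcongr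
      have e5 : (m + 1) ^ 12 = (m + 1) ^ 4 * (m + 1) ^ 8 := by ring
      rw [e5]
      nlinarith [pow_pos hm1 4, pow_pos (by linarith : (0 : ℝ) < m) 4]
    calc (2 * m ^ 4 / (m + 1) ^ 12) * d ≤ 1 / 1000 * d := by gcongr
      _ = d / 1000 := by ring
  linarith

/-- the upper bound of the displacement by the length, from maximality -/
theorem d2_low {g : Pm} {μ : ℝ → ℕ} (hg : IsD g) (hne : ({y : ℝ | g y = y}).Nonempty)
    (hμ : ∀ x, 1000 ≤ μ x)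
    (hlev : ∀ x, g x ≠ x → ∀ z, |z - x| ≤ Metric.infDist x {y | g y = y} →
        |Real.log (deriv g z)| ≤ 1 / ((μ x : ℝ) + 1) ^ 12)
    (hcomp : ∀ x z, g x ≠ x → g z ≠ z →
        Metric.infDist z {y | g y = y} ≤ 2 * Metric.infDist x {y | g y = y} → μ x ≤ μ z + 1)
    {n : ℕ} {j : ℤ} (hC : d2_Sel g μ (n + 1, j)) {c : ℝ}
    (hc : c = (j : ℝ) / 2 ^ (n + 1) + (1 / 2 ^ (n + 1)) / 2) :
    (μ c : ℝ) ^ 4 * |g c - c| ≤ 4 * (1 / 2 ^ (n + 1)) := by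
  obtain ⟨hcU, hcl, hcd⟩ := d2_est hg hne hμ hlev hC.1 hc
  have hpar : ¬ d2_Cnd g μ n (j / 2) := hC.2
  unfold d2_Cnd at hpar
  push Not at hpar
  obtain ⟨x, hx1, hx2, hx3⟩ := hpar
  set L : ℝ := 1 / 2 ^ (n + 1) with hLdef
  have hL : 0 < L := by positivity
  have h2L : (1 : ℝ) / 2 ^ n = 2 * L := by
    rw [hLdef, pow_succ]; field_simp
  -- distance from x to c
  have hxc : |x - c| ≤ 3 / 2 * L := by
    have e1 : (2 * (((j / 2 : ℤ)) : ℝ)) ≤ j := by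
      have : 2 * (j / 2) ≤ j := by omega
      exact_mod_cast this
    have e2 : (j : ℝ) ≤ 2 * (((j / 2 : ℤ)) : ℝ) + 1 := by
      have : j ≤ 2 * (j / 2) + 1 := by omega
      exact_mod_cast this
    have e3 : (((j / 2 : ℤ)) : ℝ) / 2 ^ n = 2 * (((j / 2 : ℤ)) : ℝ) * L := by
      rw [div_eq_mul_one_div, h2L]; ring
    have e4 : (j : ℝ) / 2 ^ (n + 1) = j * L := by rw [div_eq_mul_one_div]
    rw [e3] at hx1
    rw [add_div, e3, h2L] at hx2
    rw [e4] at hc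
    rw [abs_le]
    constructor <;> nlinarith
  set d := Metric.infDist c {y | g y = y} with hd
  have hxd : |x - c| ≤ d := by linarith
  have hxd2 : |Metric.infDist x {y | g y = y} - d| ≤ |x - c| := by
    have := Metric.infDist_le_infDist_add_dist (s := {y : ℝ | g y = y}) (x := x) (y := c)
    have h2 := Metric.infDist_le_infDist_add_dist (s := {y : ℝ | g y = y}) (x := c) (y := x)
    rw [Real.dist_eq] at this h2
    rw [abs_sub_comm c x] at h2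
    rw [abs_le]; constructor <;> linarith
  have hxU : g x ≠ x := by
    intro hx
    have h1 : Metric.infDist x {y | g y = y} = 0 :=
      Metric.infDist_zero_of_mem (show x ∈ {y : ℝ | g y = y} from hx)
    rw [h1, zero_sub, abs_neg] at hxd2
    have := le_abs_self d
    linarith
  have hx4 := hx3 hxU
  have hmu : μ c ≤ μ x + 1 := by
    apply hcomp c x hcU hxU
    have := (abs_le.mp hxd2).2
    linarith
  have hm : (1000 : ℝ) ≤ μ c := by exact_mod_cast hμ c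
  have hmx : (μ c : ℝ) - 1 ≤ μ x := by
    have : (μ c : ℝ) ≤ μ x + 1 := by exact_mod_cast hmu
    linarith
  have hε : 1 / ((μ c : ℝ) + 1) ^ 12 ≤ 1 / 2 := by
    apply one_div_le_one_div_of_le (by norm_num)
    have : (1001 : ℝ) ≤ (μ c : ℝ) + 1 := by linarith
    calc (2 : ℝ) ≤ 1001 ^ 12 := by norm_num
      _ ≤ _ := by gcongr
  have hlip := d2_lip hg hε (hlev c hcU) x hxd
  set m : ℝ := (μ c : ℝ) with hmdef
  set φc := |g c - c| with hφc
  have hφ0 : 0 ≤ φc := abs_nonneg _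
  have hφx : φc ≤ |g x - x| + 2 * (1 / (m + 1) ^ 12) * |x - c| := by
    have h1 : |g c - c| ≤ |g x - x| + |(g x - x) - (g c - c)| := by
      have := abs_sub_abs_le_abs_sub (g c - c) (g x - x)
      rw [abs_sub_comm (g c - c) (g x - x)] at this
      linarith
    linarith
  have hsmall : 2 * (1 / (m + 1) ^ 12) * |x - c| ≤ φc / 10 := by
    have hm1 : (0 : ℝ) < m + 1 := by linarith
    have e0 : L ≤ m ^ 4 * φc := hcl
    calc 2 * (1 / (m + 1) ^ 12) * |x - c| ≤ 2 * (1 / (m + 1) ^ 12) * (3 / 2 * (m ^ 4 * φc)) := by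
          gcongr
          exact hxc.trans (by gcongr)
      _ = (3 * m ^ 4 / (m + 1) ^ 12) * φc := by ring
      _ ≤ 1 / 10 * φc := by
          have hq : 3 * m ^ 4 / (m + 1) ^ 12 ≤ 1 / 10 := by
            rw [div_le_div_iff₀ (by positivity) (by norm_num)]
            have e3 : m ^ 4 ≤ (m + 1) ^ 4 := by gcongr; linarith
            have e4 : (2000 : ℝ) ≤ (m + 1) ^ 8 := by
              have : (1001 : ℝ) ≤ m + 1 := by linarith
              calc (2000 : ℝ) ≤ 1001 ^ 8 := by norm_num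
                _ ≤ _ := by gcongr
            have e5 : (m + 1) ^ 12 = (m + 1) ^ 4 * (m + 1) ^ 8 := by ring
            rw [e5]
            nlinarith [pow_pos hm1 4, pow_pos (by linarith : (0 : ℝ) < m) 4]
          exact mul_le_mul_of_nonneg_right hq hφ0
      _ = φc / 10 := by ring
  have hfin : 9 / 10 * φc ≤ |g x - x| := by linarith
  have h5 : (μ x : ℝ) ^ 4 * |g x - x| < 2 * L := by rw [h2L] at hx4; exact hx4
  have h6 : (9 / 10 * m) ^ 4 ≤ (μ x : ℝ) ^ 4 := by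
    gcongr
    linarith
  have h7 : (9 / 10 * m) ^ 4 * (9 / 10 * φc) ≤ (μ x : ℝ) ^ 4 * |g x - x| := by
    gcongr
  have h8 : (9 / 10 * m) ^ 4 * (9 / 10 * φc) = (9 / 10) ^ 5 * (m ^ 4 * φc) := by ring
  rw [h8] at h7
  have h9 : (0 : ℝ) ≤ m ^ 4 * φc := by positivity
  norm_num at h7 ⊢
  nlinarith

theorem exists_blocks (g : Pm) (hg : DD (1 / 1001 ^ 12) (Ioo 0 1) g)
    (hpar : ∀ x, g x = x → deriv g x = 1) :
    ∃ (ι : Type) (m : ι → ℕ) (y ℓ : ι → ℝ), Blocks g ι m y ℓ := by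
  obtain ⟨μ, hμ, hlev, hcomp, htend⟩ := exists_level g hg hpar
  have hgd := hg.isD
  have hgc := hgd.continuous
  have hfix : ∀ x : ℝ, (x ≤ 0 ∨ 1 ≤ x) → g x = x := fun x hx => by
    apply hg.supp
    rintro ⟨h1, h2⟩
    rcases hx with h | h <;> linarith
  have hne : ({y : ℝ | g y = y}).Nonempty := ⟨0, hfix 0 (Or.inl le_rfl)⟩
  have h0 : ∀ j : ℤ, ¬ d2_Cnd g μ 0 j := fun j hj => by
    have := (hj (j : ℝ) (by simp) (by simp)).1
    apply this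
    apply hfix
    rcases le_or_gt j 0 with h | h
    · left; exact_mod_cast h
    · right; exact_mod_cast h
  have hcov := fun x hx => d2_cover (x := x) hgc hμ h0 hx
  have hcov' := fun x hx => d2_cover' (x := x) hgc hμ h0 hx
  -- centres
  let cen : {p : ℕ × ℤ // d2_Sel g μ p} → ℝ := fun p =>
    (p.1.2 : ℝ) / 2 ^ p.1.1 + (1 / 2 ^ p.1.1) / 2
  have hest := fun p : {p : ℕ × ℤ // d2_Sel g μ p} =>
    d2_est (n := p.1.1) (j := p.1.2) hgd hne hμ hlev p.2.1 (c := cen p) rfl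
  have hlow : ∀ p : {p : ℕ × ℤ // d2_Sel g μ p},
      (μ (cen p) : ℝ) ^ 4 * |g (cen p) - cen p| ≤ 4 * (1 / 2 ^ p.1.1) := by
    rintro ⟨⟨n, j⟩, hp⟩
    rcases n with _ | n
    · exact absurd hp.1 (h0 j)
    · exact d2_low hgd hne hμ hlev hcomp hp rfl
  have hlenpos : ∀ p : {p : ℕ × ℤ // d2_Sel g μ p}, (0 : ℝ) < 1 / 2 ^ p.1.1 := fun p => by
    positivity
  have hinfd : ∀ a b : ℝ, |Metric.infDist a {y | g y = y} - Metric.infDist b {y | g y = y}|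
      ≤ |a - b| := fun a b => by
    have h1 := Metric.infDist_le_infDist_add_dist (s := {y : ℝ | g y = y}) (x := a) (y := b)
    have h2 := Metric.infDist_le_infDist_add_dist (s := {y : ℝ | g y = y}) (x := b) (y := a)
    rw [Real.dist_eq] at h1 h2
    rw [abs_sub_comm b a] at h2
    rw [abs_le]; constructor <;> linarith
  refine ⟨{p : ℕ × ℤ // d2_Sel g μ p}, fun p => μ (cen p), fun p => (p.1.2 : ℝ) / 2 ^ p.1.1,
    fun p => 1 / 2 ^ p.1.1, ?_⟩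
  refine
    { len_pos := hlenpos
      sub := ?_
      large := fun p => hμ _
      tend := ?_
      lower := ?_
      upper := ?_
      slope := ?_
      cover := ?_
      disj := ?_
      left := ?_
      right := ?_
      near := ?_ }
  · -- sub
    rintro p x ⟨hx1, hx2⟩
    refine (p.2.1 x hx1 ?_).1
    rw [add_div]; exact hx2
  · -- tend
    rw [Filter.tendsto_atTop]
    intro K
    obtain ⟨t, ht, htK⟩ := htend K
    rw [Filter.eventually_cofinite]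
    -- compactness
    have hcomp2 : IsCompact {x : ℝ | x ∈ Icc (0 : ℝ) 1 ∧
        t ≤ Metric.infDist x {y | g y = y}} := by
      apply isCompact_Icc.inter_right
      exact isClosed_le continuous_const (Metric.continuous_infDist_pt _)
    obtain ⟨c0, hc0, hc0b⟩ : ∃ c0 > 0, ∀ x ∈ {x : ℝ | x ∈ Icc (0 : ℝ) 1 ∧
        t ≤ Metric.infDist x {y | g y = y}}, c0 ≤ |g x - x| := by
      rcases Set.eq_empty_or_nonempty {x : ℝ | x ∈ Icc (0 : ℝ) 1 ∧
        t ≤ Metric.infDist x {y | g y = y}} with he | hn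
      · exact ⟨1, one_pos, fun x hx => by rw [he] at hx; exact absurd hx (by simp)⟩
      · obtain ⟨x0, hx0, hmin⟩ := hcomp2.exists_isMinOn hn
          (hgc.sub continuous_id).abs.continuousOn
        refine ⟨|g x0 - x0|, ?_, fun x hx => hmin hx⟩
        apply abs_pos.mpr
        intro h
        have h1 : g x0 = x0 := sub_eq_zero.mp h
        have h2 : Metric.infDist x0 {y | g y = y} = 0 :=
          Metric.infDist_zero_of_mem (show x0 ∈ {y : ℝ | g y = y} from h1)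
        have h3 := hx0.2
        rw [h2] at h3
        linarith
    obtain ⟨N, hN⟩ : ∃ N : ℕ, 4 / c0 < 2 ^ N := pow_unbounded_of_one_lt _ (by norm_num)
    have hfin : Set.Finite {q : ℕ × ℤ | q.1 ≤ N ∧ -1 ≤ q.2 ∧ q.2 ≤ 2 ^ N} := by
      apply Set.Finite.subset ((Set.finite_Iic N).prod (Set.finite_Icc (-1 : ℤ) (2 ^ N)))
      rintro ⟨a, b⟩ ⟨h1, h2, h3⟩
      exact ⟨h1, h2, h3⟩
    refine Set.Finite.subset (hfin.preimage (f := Subtype.val)
      (Subtype.val_injective.injOn)) ?_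
    intro p hp
    have hp' : μ (cen p) < K := by
      by_contra h
      exact hp (not_lt.mp h)
    obtain ⟨hcU, hcl, hcd⟩ := hest p
    have hdt : t ≤ Metric.infDist (cen p) {y | g y = y} := by
      by_contra h
      have := htK (cen p) hcU (not_le.mp h)
      omega
    have hc01 : cen p ∈ Ioo (0 : ℝ) 1 := by
      by_contra h
      exact hcU (hg.supp _ h)
    have hφ := hc0b (cen p) ⟨⟨hc01.1.le, hc01.2.le⟩, hdt⟩
    have hlo := hlow p
    have hm1 : (1 : ℝ) ≤ (μ (cen p) : ℝ) ^ 4 := by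
      apply one_le_pow₀
      have := hμ (cen p)
      have h3 : 1 ≤ μ (cen p) := by omega
      exact_mod_cast h3
    have h1 : c0 ≤ 4 * (1 / 2 ^ p.1.1) := by
      have : |g (cen p) - cen p| ≤ (μ (cen p) : ℝ) ^ 4 * |g (cen p) - cen p| :=
        le_mul_of_one_le_left (abs_nonneg _) hm1
      linarith
    have h2 : (2 : ℝ) ^ p.1.1 ≤ 4 / c0 := by
      rw [le_div_iff₀ hc0]
      have h3 : (2 : ℝ) ^ p.1.1 * (4 * (1 / 2 ^ p.1.1)) = 4 := by field_simp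
      calc (2 : ℝ) ^ p.1.1 * c0 ≤ (2 : ℝ) ^ p.1.1 * (4 * (1 / 2 ^ p.1.1)) := by gcongr
        _ = 4 := h3
    have hnN : p.1.1 ≤ N := by
      have h4 : (2 : ℝ) ^ p.1.1 < 2 ^ N := lt_of_le_of_lt h2 hN
      have := (pow_lt_pow_iff_right₀ (by norm_num : (1 : ℝ) < 2)).mp h4
      omega
    have hpow : (2 : ℝ) ^ p.1.1 ≤ 2 ^ N := pow_le_pow_right₀ (by norm_num) hnN
    have h2n : (0 : ℝ) < 2 ^ p.1.1 := by positivity
    have hcen : cen p = (p.1.2 + 1 / 2) / 2 ^ p.1.1 := by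
      show (p.1.2 : ℝ) / 2 ^ p.1.1 + (1 / 2 ^ p.1.1) / 2 = _
      field_simp
    rw [hcen] at hc01
    have h5 : 0 < (p.1.2 : ℝ) + 1 / 2 := by
      have := hc01.1
      exact (div_pos_iff_of_pos_right h2n).mp this
    have h6 : (p.1.2 : ℝ) + 1 / 2 < 2 ^ p.1.1 := by
      have := hc01.2
      rwa [div_lt_one h2n] at this
    refine ⟨hnN, ?_, ?_⟩
    · have : (-1 : ℝ) ≤ p.1.2 := by linarith
      exact_mod_cast this
    · have : (p.1.2 : ℝ) ≤ 2 ^ N := by linarith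
      exact_mod_cast this
  · -- lower
    intro p
    have := hlow p
    show (μ (cen p) : ℝ) ^ 4 * |g (cen p) - cen p| ≤ 100 * ((1 / 2 ^ p.1.1) / 2)
    have h2 := hlenpos p
    linarith
  · -- upper
    intro p
    have := (hest p).2.1
    show (1 / 2 ^ p.1.1 : ℝ) / 2 ≤ (μ (cen p) : ℝ) ^ 4 * |g (cen p) - cen p|
    have h2 := hlenpos p
    linarith
  · -- slope
    intro p x hx
    obtain ⟨hcU, hcl, hcd⟩ := hest p
    have h2 := hlenpos p
    have hcdef : cen p = (p.1.2 : ℝ) / 2 ^ p.1.1 + (1 / 2 ^ p.1.1) / 2 := rfl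
    have hx1 := hx.1
    have hx2 := hx.2
    have h3 : |x - cen p| ≤ Metric.infDist (cen p) {y | g y = y} := by
      rw [abs_le, hcdef]
      rw [hcdef] at hcd
      constructor <;> linarith
    refine (hlev (cen p) hcU x h3).trans ?_
    show 1 / ((μ (cen p) : ℝ) + 1) ^ 12 ≤ 1 / (μ (cen p) : ℝ) ^ 12
    have h1000 : (1 : ℝ) ≤ (μ (cen p) : ℝ) := by
      have := hμ (cen p)
      have h3 : 1 ≤ μ (cen p) := by omega
      exact_mod_cast h3
    apply one_div_le_one_div_of_le (by positivity)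
    gcongr
    linarith
  · -- cover
    intro x hx
    obtain ⟨p, hp, h1, h2⟩ := hcov x hx
    exact ⟨⟨p, hp⟩, h1, h2⟩
  · -- disj
    intro p q hpq
    exact d2_disj p.2 q.2 (fun h => hpq (Subtype.ext h))
  · -- left
    intro p
    have hyU : g ((p.1.2 : ℝ) / 2 ^ p.1.1) ≠ (p.1.2 : ℝ) / 2 ^ p.1.1 := by
      refine (p.2.1 _ le_rfl ?_).1
      rw [add_div]; linarith [hlenpos p]
    obtain ⟨q, hq, h1, h2⟩ := hcov' _ hyU
    refine ⟨⟨q, hq⟩, ?_⟩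
    show (q.2 : ℝ) / 2 ^ q.1 + 1 / 2 ^ q.1 = (p.1.2 : ℝ) / 2 ^ p.1.1
    have hne' : q ≠ p.1 := by
      rintro rfl
      exact lt_irrefl _ h1
    rcases d2_disj hq p.2 hne' with h | h
    · linarith
    · have := hlenpos p
      linarith
  · -- right
    intro p
    have hyU : g ((p.1.2 : ℝ) / 2 ^ p.1.1 + 1 / 2 ^ p.1.1) ≠
        (p.1.2 : ℝ) / 2 ^ p.1.1 + 1 / 2 ^ p.1.1 := by
      refine (p.2.1 _ ?_ ?_).1
      · linarith [hlenpos p]
      · rw [add_div]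
    obtain ⟨q, hq, h1, h2⟩ := hcov _ hyU
    refine ⟨⟨q, hq⟩, ?_⟩
    show (q.2 : ℝ) / 2 ^ q.1 = (p.1.2 : ℝ) / 2 ^ p.1.1 + 1 / 2 ^ p.1.1
    have hne' : q ≠ p.1 := by
      rintro rfl
      exact lt_irrefl _ h2
    rcases d2_disj hq p.2 hne' with h | h
    · have := hlenpos p
      linarith
    · linarith
  · -- near
    intro p q hpq
    obtain ⟨hcU, -, hcd⟩ := hest p
    obtain ⟨hcU', -, hcd'⟩ := hest q
    have h1 := hlenpos p
    have h2 := hlenpos q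
    have hc1 : cen p = (p.1.2 : ℝ) / 2 ^ p.1.1 + (1 / 2 ^ p.1.1) / 2 := rfl
    have hc2 : cen q = (q.1.2 : ℝ) / 2 ^ q.1.1 + (1 / 2 ^ q.1.1) / 2 := rfl
    have hdist : |cen p - cen q| = (1 / 2 ^ p.1.1 + 1 / 2 ^ q.1.1) / 2 := by
      rw [hc1, hc2, ← hpq, abs_sub_comm, abs_of_nonneg] <;> linarith
    have h3 := abs_le.mp (hinfd (cen p) (cen q))
    rw [hdist] at h3
    constructor
    · exact hcomp _ _ hcU hcU' (by linarith [h3.1, h3.2])
    · exact hcomp _ _ hcU' hcU (by linarith [h3.1, h3.2])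

end GC45
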