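import Mathlib

/-!
# Increasing `C¹` diffeomorphisms of the line close to the identity (MP_b44c39_an, `r = 1`)

Definitions shared by all files.
-/

open Filter Topology Set

namespace GC45

/-- Permutations of the line. -/
abbrev Pm : Type := Equiv.Perm ℝ

/-- Increasing `C¹` diffeomorphism of the line. -/
structure IsD (F : Pm) : Prop where
  contDiff : ContDiff ℝ 1 F
  pos : ∀ x, 0 < deriv F x

/-- `F` is an increasing `C¹` diffeomorphism with `|log F'| ≤ s`, equal to the identity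
outside `I`. -/
structure DD (s : ℝ) (I : Set ℝ) (F : Pm) : Prop where
  isD : IsD F
  sz : ∀ x, |Real.log (deriv F x)| ≤ s
  supp : ∀ x, x ∉ I → F x = x

/-- The affine map `x ↦ a * x + b` (`a ≠ 0`). -/
noncomputable def aff (a b : ℝ) (ha : a ≠ 0) : Pm where
  toFun x := a * x + b
  invFun y := (y - b) / a
  left_inv x := by field_simp; ring
  right_inv y := by field_simp; ring

@[simp] theorem aff_apply (a b : ℝ) (ha : a ≠ 0) (x : ℝ) : aff a b ha x = a * x + b := rfl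

/-- The three affine maps of parameter `s`: the translation by `β = (1+s)/(s(2+s))`, the
homothety of ratio `x₁ = 1 + s` and the homothety of ratio `x₂ = (x₁ + x₁⁻¹)/2`. Note that
`β * (x₁ - x₁⁻¹) = 1`. -/
noncomputable def affs (s : ℝ) (hs : 0 < s) : Fin 3 → Pm :=
  ![aff 1 ((1 + s) / (s * (2 + s))) one_ne_zero,
    aff (1 + s) 0 (by positivity),
    aff ((1 + s + (1 + s)⁻¹) / 2) 0 (by positivity)]

/-- Commutator `a b a⁻¹ b⁻¹`. -/
def cm {G : Type*} [Group G] (a b : G) : G := a * b * a⁻¹ * b⁻¹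

/-- The coding word number `k` in nine letters: with `u = x₈` and `y_i = u⁻ᵏ x_i uᵏ`, it is
`y₀ [y₁, x₅] [y₂, x₇⁻¹] y₀⁻¹ [y₃, x₆] [y₄, x₇⁻¹]`. -/
def encW (k : ℕ) : FreeGroup (Fin 9) :=
  let u : FreeGroup (Fin 9) := FreeGroup.of 8
  let y : Fin 9 → FreeGroup (Fin 9) := fun i => (u ^ k)⁻¹ * FreeGroup.of i * u ^ k
  y 0 * cm (y 1) (FreeGroup.of 5) * cm (y 2) (FreeGroup.of 7)⁻¹ * (y 0)⁻¹ *
    cm (y 3) (FreeGroup.of 6) * cm (y 4) (FreeGroup.of 7)⁻¹

/-- `half e` is the permutation `x ↦ (x + e x) / 2` (if this is a permutation). -/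
noncomputable def half (e : Pm) : Pm := by
  classical
  exact if h : Function.Bijective (fun x : ℝ => (x + e x) / 2) then Equiv.ofBijective _ h else 1

/-- The two halves of `e`: `e = sp true e * sp false e`. -/
noncomputable def sp (b : Bool) (e : Pm) : Pm :=
  bif b then e * (half e)⁻¹ else half e

/-- The system of blocks of `g` used in the proof: the open set `{g x ≠ x}` is cut into the
half-open intervals `[y i, y i + ℓ i)`. -/
structure Blocks (g : Pm) (ι : Type) (m : ι → ℕ) (y ℓ : ι → ℝ) : Prop where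
  len_pos : ∀ i, 0 < ℓ i
  sub : ∀ i, ∀ x ∈ Icc (y i) (y i + ℓ i), g x ≠ x
  large : ∀ i, 1000 ≤ m i
  tend : Tendsto m cofinite atTop
  lower : ∀ i, (m i : ℝ) ^ 4 * |g (y i + ℓ i / 2) - (y i + ℓ i / 2)| ≤ 100 * (ℓ i / 2)
  upper : ∀ i, ℓ i / 2 ≤ (m i : ℝ) ^ 4 * |g (y i + ℓ i / 2) - (y i + ℓ i / 2)|
  slope : ∀ i, ∀ x ∈ Icc (y i - 2 * ℓ i) (y i + 3 * ℓ i),
    |Real.log (deriv g x)| ≤ 1 / (m i : ℝ) ^ 12
  cover : ∀ x, g x ≠ x → ∃ i, x ∈ Ico (y i) (y i + ℓ i)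
  disj : ∀ i j, i ≠ j → y i + ℓ i ≤ y j ∨ y j + ℓ j ≤ y i
  left : ∀ i, ∃ j, y j + ℓ j = y i
  right : ∀ i, ∃ j, y j = y i + ℓ i
  near : ∀ i j, y i + ℓ i = y j → m i ≤ m j + 1 ∧ m j ≤ m i + 1

/-- the core of block `i` -/
def Core (g : Pm) {ι : Type} (m : ι → ℕ) (y ℓ : ι → ℝ) (i : ι) (x : ℝ) : Prop :=
  |x - (y i + ℓ i / 2)| ≤ ℓ i / 2 - 3 * (m i : ℝ) ^ 3 * |g (y i + ℓ i / 2) - (y i + ℓ i / 2)|

/-- half-length of the junction at the left end of block `i` -/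
noncomputable def jr (g : Pm) {ι : Type} (m : ι → ℕ) (y : ι → ℝ) (i : ι) : ℝ :=
  4 * (m i : ℝ) ^ 3 * |g (y i) - y i|

/-- the room around the junction -/
noncomputable def jM {ι : Type} (m : ι → ℕ) (i : ι) : ℝ := (m i : ℝ) / 1000

/-- hyperbolic fixed points -/
abbrev Hyp (g : Pm) : Type := {p : ℝ // g p = p ∧ deriv g p ≠ 1}

/-- `|log g'(p)|` -/
noncomputable def lam (g : Pm) (p : Hyp g) : ℝ := |Real.log (deriv g (p : ℝ))|

/-- properties of the radii around the hyperbolic points -/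
structure Radii (g : Pm) (ρ : Hyp g → ℝ) : Prop where
  pos : ∀ p, 0 < ρ p
  small : ∀ (p : Hyp g) (x : ℝ), |x - (p : ℝ)| ≤ 4 * ρ p → |Real.log (deriv g x)| ≤ 2 * lam g p
  nofix : ∀ (p : Hyp g) (x : ℝ), |x - (p : ℝ)| ≤ 4 * ρ p → x ≠ (p : ℝ) → g x ≠ x
  left : ∀ p : Hyp g, 100 * ρ p ≤ lam g p * (p : ℝ)
  right : ∀ p : Hyp g, 100 * ρ p ≤ lam g p * (1 - (p : ℝ))
  sep : ∀ p p' : Hyp g, p ≠ p' → 100 * ρ p ≤ lam g p * |(p : ℝ) - (p' : ℝ)|

/-- the chain of conjugates -/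
def chainP {H : Type*} [Group H] (E h : H) : ℕ → H
  | 0 => 1
  | n + 1 => chainP E h n * (h ^ n * E * (h ^ n)⁻¹)

end GC45
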