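import Pool.Agent.LibGC45.L2
import Pool.Agent.LibGC45.B4a

open Filter Topology Set

namespace GC45

private theorem e1_lift_conj {α : Type*} (A : Pm) (Q : α → Pm) (w : FreeGroup α) :
    FreeGroup.lift (fun a => A * Q a * A⁻¹) w = A * FreeGroup.lift Q w * A⁻¹ := by
  have h : FreeGroup.lift (fun a => A * Q a * A⁻¹) =
      (MulAut.conj A).toMonoidHom.comp (FreeGroup.lift Q) := by
    ext a x
    simp [MulAut.conj_apply]
  rw [h]
  simp [MulAut.conj_apply]

theorem global_encode {ι : Type*} (c ρ M : ι → ℝ) (hρ : ∀ i, 0 < ρ i)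
    (hM : Tendsto M cofinite atTop)
    (hdisj : Pairwise (Function.onFun Disjoint
      (fun i => Ioo (c i - M i * ρ i) (c i + M i * ρ i))))
    (e : ℕ → ι → Pm) (s : ℕ → ι → ℝ) (he : ∀ k i, DD (s k i) (Ioo (c i - ρ i) (c i + ρ i)) (e k i))
    (hs : ∀ k, Tendsto (s k) cofinite (𝓝 0)) :
    ∃ P : Fin 9 → Pm, (∀ a, DD (1 / 4) (⋃ i, Ioo (c i - M i * ρ i) (c i + M i * ρ i)) (P a)) ∧
      ∀ k, ∀ᶠ i in cofinite, ∀ x ∈ Ioo (c i - M i * ρ i) (c i + M i * ρ i),
        FreeGroup.lift P (encW k) x = e k i x := by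
  classical
  obtain ⟨C, hC, hloc⟩ := local_encode
  set Ω : ι → Set ℝ := fun i => Ioo (c i - M i * ρ i) (c i + M i * ρ i) with hΩ
  let Good : ι → ℕ → Prop := fun i m =>
    4 * C ≤ m ∧ 401 * (m : ℝ) ^ 2 ≤ M i ∧ ∀ k ≤ m, s k i ≤ 1 / (m : ℝ) ^ 3
  let m : ι → ℕ := fun i => Nat.findGreatest (Good i) ⌊M i⌋₊
  have hmgood : ∀ i, m i ≠ 0 → Good i (m i) := fun i h => Nat.findGreatest_of_ne_zero rfl h
  have hmlarge : ∀ N : ℕ, ∀ᶠ i in cofinite, N ≤ m i := by
    intro N
    obtain ⟨N', hN', hNC⟩ : ∃ N' : ℕ, N ≤ N' ∧ 4 * C ≤ N' := by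
      refine ⟨max N ⌈4 * C⌉₊, le_max_left _ _, ?_⟩
      have h1 : 4 * C ≤ (⌈4 * C⌉₊ : ℝ) := Nat.le_ceil _
      have h2 : ((⌈4 * C⌉₊ : ℕ) : ℝ) ≤ ((max N ⌈4 * C⌉₊ : ℕ) : ℝ) := by
        exact_mod_cast le_max_right _ _
      linarith
    have hN0 : (4 : ℝ) ≤ N' := by linarith
    have h1 : ∀ᶠ i in cofinite, 401 * (N' : ℝ) ^ 2 ≤ M i := hM.eventually_ge_atTop _
    have h2 : ∀ᶠ i in cofinite, ∀ k ∈ Finset.range (N' + 1), s k i ≤ 1 / (N' : ℝ) ^ 3 := by
      rw [Filter.eventually_all_finset]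
      intro k _
      have h3 : (0 : ℝ) < 1 / (N' : ℝ) ^ 3 := by positivity
      exact ((hs k).eventually (gt_mem_nhds h3)).mono fun i hi => le_of_lt hi
    filter_upwards [h1, h2] with i hi1 hi2
    have hle : N' ≤ ⌊M i⌋₊ := Nat.le_floor (by nlinarith)
    exact hN'.trans (Nat.le_findGreatest hle ⟨hNC, hi1, fun k hk => hi2 k (by
      rw [Finset.mem_range]; omega)⟩)
  have hmtend : Tendsto m cofinite atTop := tendsto_atTop.2 hmlarge
  have hQ : ∀ i, ∃ Q : Fin 9 → Pm, (∀ a, DD (C / m i) (Ω i) (Q a)) ∧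
      ∀ k ≤ m i, m i ≠ 0 → FreeGroup.lift Q (encW k) = e k i := by
    intro i
    by_cases h0 : m i = 0
    · exact ⟨fun _ => 1, fun a => DD.one (by simp [h0]), fun k _ h => absurd h0 h⟩
    · obtain ⟨g1, g2, g3⟩ := hmgood i h0
      have hρi := hρ i
      have hm4 : (4 : ℝ) ≤ m i := by linarith
      have hA0 : (0 : ℝ) < 2 * ρ i := by positivity
      have hB0 : (0 : ℝ) < 1 / (2 * ρ i) := by positivity
      set A : Pm := aff (2 * ρ i) (c i - ρ i) hA0.ne' with hA
      have hAB : aff (1 / (2 * ρ i)) (-(c i - ρ i) / (2 * ρ i)) hB0.ne' = A⁻¹ := by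
        ext x
        symm
        rw [Equiv.Perm.inv_eq_iff_eq, hA, aff_apply, aff_apply]
        field_simp
        ring
      have he' : ∀ k ≤ m i, DD (1 / (m i : ℝ) ^ 3) (Ioo 0 1) (A⁻¹ * e k i * A) := by
        intro k hk
        have h1 := (he k i).conj_aff (b := -(c i - ρ i) / (2 * ρ i)) hB0
        rw [hAB, inv_inv] at h1
        refine h1.mono (g3 k hk) ?_
        rintro _ ⟨x, hx, rfl⟩
        rw [Equiv.Perm.inv_eq_iff_eq.2]
        rotate_left
        · exact (show x = A ((x - (c i - ρ i)) / (2 * ρ i)) by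
            rw [hA, aff_apply]; field_simp; ring)
        · constructor
          · apply div_pos _ hA0
            linarith [hx.1]
          · rw [div_lt_one hA0]
            linarith [hx.2]
      obtain ⟨Q, hQD, hQe⟩ := hloc (m i) (by linarith) (fun k => A⁻¹ * e k i * A) he'
      refine ⟨fun a => A * Q a * A⁻¹, ?_, ?_⟩
      · intro a
        have h1 := (hQD a).conj_aff (b := c i - ρ i) hA0
        refine h1.mono le_rfl ?_
        rintro _ ⟨x, hx, rfl⟩
        rw [aff_apply]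
        have hm1 : (1 : ℝ) ≤ (m i : ℝ) ^ 2 := by nlinarith
        have h2 : (400 * (m i : ℝ) ^ 2 + 1) * ρ i ≤ M i * ρ i :=
          mul_le_mul_of_nonneg_right (by linarith) hρi.le
        constructor
        · have h3 : ρ i * (-(200 * (m i : ℝ) ^ 2)) < ρ i * x := mul_lt_mul_of_pos_left hx.1 hρi
          nlinarith
        · have h3 : ρ i * x < ρ i * (200 * (m i : ℝ) ^ 2) := mul_lt_mul_of_pos_left hx.2 hρi
          nlinarith
      · intro k hk _
        rw [e1_lift_conj, hQe k hk]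
        group
  choose Q hQD hQe using hQ
  have hCm : ∀ i, C / m i ≤ 1 / 4 := by
    intro i
    by_cases h0 : m i = 0
    · simp [h0]
    · have h1 := (hmgood i h0).1
      have h2 : (0 : ℝ) < m i := by linarith
      rw [div_le_div_iff₀ h2 (by norm_num)]
      linarith
  have hst : Tendsto (fun i => C / (m i : ℝ)) cofinite (𝓝 0) :=
    tendsto_const_nhds.div_atTop (tendsto_natCast_atTop_atTop.comp hmtend)
  have hpatch := fun a : Fin 9 => exists_patch Ω hdisj (fun i => Q i a) (fun i => C / (m i : ℝ))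
    (fun i => hQD i a) hst hCm (by norm_num) le_rfl
  choose P hPD hPe using hpatch
  refine ⟨P, hPD, ?_⟩
  intro k
  filter_upwards [hmlarge (k + 1)] with i hi x hx
  rw [lift_patch Ω P Q (fun i a x hx => (hQD i a).supp x hx) (fun a i x hx => hPe a i x hx)
    (encW k) i hx, hQe i k (by omega) (by omega)]

end GC45
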