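import Pool.Agent.LibGC45.B1
import Pool.Agent.LibGC45.B2a

open Filter Topology Set

namespace GC45

theorem f1_side (f : ℝ → ℝ) (hf : ContDiffAt ℝ 1 f 0) (h0 : f 0 = 0) (h1 : deriv f 0 = 1)
    {κ : ℝ} (hκ : 0 < κ) : ∃ g : Pm, DD κ (Ioo 0 1) g ∧
      ∀ᶠ x in 𝓝 (0 : ℝ), 0 ≤ x → g x = f x := by
  obtain ⟨C₀, hC₀, hpl⟩ := exists_plateau
  set s : ℝ := min κ 1 / 2 with hs
  have hs0 : 0 < s := by
    have : 0 < min κ 1 := lt_min hκ one_pos
    rw [hs]; positivity
  have hs1 : s ≤ 1 / 2 := by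
    have : min κ 1 ≤ 1 := min_le_right _ _
    rw [hs]; linarith
  have hs2 : 2 * s ≤ κ := by
    have : min κ 1 ≤ κ := min_le_left _ _
    rw [hs]; linarith
  set η : ℝ := s / (2 * C₀ + 1) with hη
  have hη0 : 0 < η := by rw [hη]; positivity
  have hηs : (2 * C₀ + 1) * η = s := by
    rw [hη]; field_simp
  have hderivc : ∀ x, ContDiffAt ℝ 1 f x → ContinuousAt (deriv f) x := by
    intro x hx
    have h2 := hx.continuousAt_fderiv (by norm_num)
    have h3 : deriv f = fun y => (fderiv ℝ f y) 1 := by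
      ext y
      exact (fderiv_apply_one_eq_deriv).symm
    rw [h3]
    exact h2.clm_apply continuousAt_const
  have hev : ∀ᶠ x in 𝓝 (0 : ℝ), ContDiffAt ℝ 1 f x ∧ |deriv f x - 1| < η := by
    refine (hf.eventually (by simp)).and ?_
    have h2 := hderivc 0 hf
    have h3 : Tendsto (fun x => |deriv f x - 1|) (𝓝 0) (𝓝 |deriv f 0 - 1|) :=
      (h2.tendsto.sub_const 1).abs
    rw [h1] at h3
    simp only [sub_self, abs_zero] at h3
    exact h3.eventually (gt_mem_nhds hη0)
  obtain ⟨δ, hδ, hball⟩ := Metric.eventually_nhds_iff.1 hev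
  have hball' : ∀ x : ℝ, |x| < δ → ContDiffAt ℝ 1 f x ∧ |deriv f x - 1| < η := by
    intro x hx
    exact hball (by rwa [Real.dist_eq, sub_zero])
  set w : ℝ := min (δ / 4) (1 / 4) with hw
  have hw0 : 0 < w := lt_min (by positivity) (by norm_num)
  have hw1 : w ≤ δ / 4 := min_le_left _ _
  have hw2 : w ≤ 1 / 4 := min_le_right _ _
  obtain ⟨χ, hχ, hχ01, hχd, hχa, hχb, hχ1⟩ := hpl (-(2 * w)) (2 * w) w hw0 (by linarith)
  have hcl : ∀ x : ℝ, 0 ≤ max 0 (min x (2 * w)) ∧ max 0 (min x (2 * w)) ≤ 2 * w := by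
    intro x
    refine ⟨le_max_left _ _, max_le (by positivity) (min_le_right _ _)⟩
  have hcl2 : ∀ x : ℝ, |max 0 (min x (2 * w))| < δ := by
    intro x
    obtain ⟨ha, hb⟩ := hcl x
    rw [abs_of_nonneg ha]
    linarith
  set D : ℝ → ℝ := fun x => deriv f (max 0 (min x (2 * w))) - 1 with hD
  have hDc : Continuous D := by
    rw [continuous_iff_continuousAt]
    intro x
    refine ContinuousAt.sub ?_ continuousAt_const
    have hin : ContinuousAt (fun x : ℝ => max 0 (min x (2 * w))) x := by fun_prop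
    exact ContinuousAt.comp (f := fun x : ℝ => max 0 (min x (2 * w))) (g := deriv f)
      (hderivc _ (hball' _ (hcl2 x)).1) hin
  have hDb : ∀ x, |D x| ≤ η := fun x => (hball' _ (hcl2 x)).2.le
  have hD0 : ∀ x, x ≤ 0 → D x = 0 := by
    intro x hx
    have : max 0 (min x (2 * w)) = 0 := max_eq_left ((min_le_left _ _).trans hx)
    simp only [hD, this, h1, sub_self]
  set φ : ℝ → ℝ := fun x => ∫ t in (0 : ℝ)..x, D t with hφ
  have hφd : ∀ x, HasDerivAt φ (D x) x := fun x => (hDc.integral_hasStrictDerivAt 0 x).hasDerivAt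
  have hφ0 : ∀ x, x ≤ 0 → φ x = 0 := by
    intro x hx
    have : ∫ t in (0 : ℝ)..x, D t = ∫ t in (0 : ℝ)..x, (0 : ℝ) := by
      refine intervalIntegral.integral_congr fun t ht => ?_
      rw [uIcc_of_ge hx] at ht
      exact hD0 t ht.2
    simp only [hφ, this, intervalIntegral.integral_zero]
  have hφb : ∀ x, |φ x| ≤ η * |x| := by
    intro x
    have := intervalIntegral.norm_integral_le_of_norm_le_const (a := 0) (b := x) (f := D)
      (C := η) (fun t _ => hDb t)
    simpa using this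
  have hφf : ∀ x, 0 ≤ x → x ≤ 2 * w → φ x = f x - x := by
    intro x hx0 hx1
    have := intervalIntegral.integral_eq_sub_of_hasDerivAt (a := 0) (b := x)
      (f := fun y => f y - y) (f' := D) ?_ (hDc.intervalIntegrable _ _)
    · simp only [hφ, this, h0, sub_zero]
    · intro t ht
      rw [uIcc_of_le hx0] at ht
      have ht2 : max 0 (min t (2 * w)) = t := by
        rw [min_eq_left (ht.2.trans hx1), max_eq_right ht.1]
      have htδ : |t| < δ := by
        rw [abs_of_nonneg ht.1]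
        linarith [ht.2]
      have hdf : HasDerivAt f (deriv f t) t :=
        ((hball' t htδ).1.differentiableAt (by norm_num)).hasDerivAt
      simp only [hD, ht2]
      exact hdf.sub (hasDerivAt_id t)
  have hφc : ContDiff ℝ 1 φ := by
    rw [contDiff_one_iff_deriv]
    refine ⟨fun x => (hφd x).differentiableAt, ?_⟩
    have : deriv φ = D := by
      ext x
      exact (hφd x).deriv
    rw [this]
    exact hDc
  have hFc : ContDiff ℝ 1 (fun x => χ x * φ x) := hχ.mul hφc
  have hχdiff : ∀ x, HasDerivAt χ (deriv χ x) x := fun x =>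
    (hχ.differentiable (by norm_num) x).hasDerivAt
  have hFd : ∀ x, |deriv (fun x => χ x * φ x) x| ≤ s := by
    intro x
    have hprod : HasDerivAt (fun x => χ x * φ x) (deriv χ x * φ x + χ x * D x) x :=
      (hχdiff x).mul (hφd x)
    by_cases hx : |x| ≤ 2 * w
    · rw [hprod.deriv]
      have e1 : |deriv χ x * φ x| ≤ C₀ / w * (η * (2 * w)) := by
        rw [abs_mul]
        refine mul_le_mul (hχd x) ((hφb x).trans ?_) (abs_nonneg _) (by positivity)
        exact mul_le_mul_of_nonneg_left hx hη0.le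
      have e2 : |χ x * D x| ≤ 1 * η := by
        rw [abs_mul]
        refine mul_le_mul ?_ (hDb x) (abs_nonneg _) (by norm_num)
        rw [abs_of_nonneg (hχ01 x).1]
        exact (hχ01 x).2
      have e3 : C₀ / w * (η * (2 * w)) = 2 * C₀ * η := by
        field_simp
      calc |deriv χ x * φ x + χ x * D x| ≤ |deriv χ x * φ x| + |χ x * D x| := abs_add_le _ _
        _ ≤ 2 * C₀ * η + η := by rw [e3] at e1; linarith
        _ = s := by rw [← hηs]; ring
    · push Not at hx
      have hz : (fun x => χ x * φ x) =ᶠ[𝓝 x] fun _ => (0 : ℝ) := by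
        rcases lt_abs.1 hx with h | h
        · filter_upwards [lt_mem_nhds h] with y hy
          rw [hχb y hy.le, zero_mul]
        · have h' : x < -(2 * w) := by linarith
          filter_upwards [gt_mem_nhds h'] with y hy
          rw [hχa y hy.le, zero_mul]
      rw [hz.deriv_eq, deriv_const, abs_zero]
      exact hs0.le
  obtain ⟨g, hg, hgx⟩ := exists_idAdd (fun x => χ x * φ x) hFc hs1 hFd (Ioo 0 1) (by
    intro x hx
    by_cases hx0 : x ≤ 0
    · simp only [hφ0 x hx0, mul_zero]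
    · have hx1 : 1 ≤ x := by
        by_contra hx1
        exact hx ⟨not_le.1 hx0, not_le.1 hx1⟩
      simp only [hχb x (by linarith), zero_mul])
  refine ⟨g, hg.mono hs2 Subset.rfl, ?_⟩
  filter_upwards [gt_mem_nhds hw0] with x hx hx0
  rw [hgx, hχ1 x (by linarith) (by linarith), hφf x hx0 (by linarith)]
  ring

/-- F1: splitting a germ tangent to the identity into its two sides -/
theorem split_germ (f : ℝ → ℝ) (hf : ContDiffAt ℝ 1 f 0) (h0 : f 0 = 0) (h1 : deriv f 0 = 1)
    {κ : ℝ} (hκ : 0 < κ) : ∃ g₁ g₂ : Pm, DD κ (Ioo 0 1) g₁ ∧ DD κ (Ioo 0 1) g₂ ∧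
      ∀ᶠ x in 𝓝 (0 : ℝ), f x = g₁ (-(g₂ (-x))) := by
  obtain ⟨g₁, hg₁, he₁⟩ := f1_side f hf h0 h1 hκ
  have hneg : ContDiffAt ℝ 1 (fun y : ℝ => -f (-y)) 0 := by
    refine ContDiffAt.neg ?_
    exact ContDiffAt.comp (g := f) (f := fun y : ℝ => -y) 0 (by simpa using hf) contDiffAt_id.neg
  have hd : deriv (fun y : ℝ => -f (-y)) 0 = 1 := by
    have h3 : HasDerivAt f 1 (-(0 : ℝ)) := by
      rw [neg_zero, ← h1]
      exact (hf.differentiableAt (by norm_num)).hasDerivAt
    have h4 := (HasDerivAt.comp (h := fun y : ℝ => -y) (h₂ := f) (0 : ℝ) h3 (hasDerivAt_neg 0)).neg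
    have h5 := h4.deriv
    simp only [mul_neg, mul_one, neg_neg] at h5
    exact h5
  obtain ⟨g₂, hg₂, he₂⟩ := f1_side (fun y : ℝ => -f (-y)) hneg (by simp [h0]) hd hκ
  refine ⟨g₁, g₂, hg₁, hg₂, ?_⟩
  have hn : Tendsto (fun x : ℝ => -x) (𝓝 0) (𝓝 0) := by
    have := (continuous_neg (G := ℝ)).tendsto 0
    simpa using this
  filter_upwards [he₁, hn.eventually he₂] with x hx1 hx2
  by_cases hx : 0 ≤ x
  · have h6 : g₂ (-x) = -x := hg₂.supp _ (fun h => by linarith [h.1])
    rw [h6, neg_neg, hx1 hx]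
  · have h7 : g₂ (-x) = -f x := by
      have := hx2 (by linarith)
      simpa using this
    rw [h7, neg_neg]
    have h8 : g₂ 0 = 0 := hg₂.supp _ (fun h => by linarith [h.1])
    have h9 : g₂ 0 < g₂ (-x) := hg₂.isD.strictMono (by linarith)
    rw [h8, h7] at h9
    exact (hg₁.supp _ (fun h => by linarith [h.1])).symm

end GC45
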