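import Pool.Agent.LibGC45.B1

open Filter Topology Set

namespace GC45

/-- outside `(0,1)` the derivative is `1` -/
theorem h1_deriv {g : Pm} {κ : ℝ} (hg : DD κ (Ioo 0 1) g) {p : ℝ} (hp : p ∉ Ioo (0 : ℝ) 1) :
    deriv g p = 1 := by
  have hd := (hg.isD.differentiable p).hasDerivAt
  have hgp : g p = p := hg.supp p hp
  by_cases h : p ≤ 0
  · have h1 : HasDerivWithinAt g (deriv g p) (Iic p) p := hd.hasDerivWithinAt
    have h2 : HasDerivWithinAt g 1 (Iic p) p := by
      apply (hasDerivWithinAt_id p (Iic p)).congr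
      · intro x hx
        apply hg.supp
        intro hx'
        have : x ≤ p := hx
        linarith [hx'.1]
      · exact hgp
    exact (uniqueDiffWithinAt_Iic p).eq_deriv _ h1 h2
  · have h' : 1 ≤ p := by
      by_contra h3
      exact hp ⟨not_le.mp h, not_le.mp h3⟩
    have h1 : HasDerivWithinAt g (deriv g p) (Ici p) p := hd.hasDerivWithinAt
    have h2 : HasDerivWithinAt g 1 (Ici p) p := by
      apply (hasDerivWithinAt_id p (Ici p)).congr
      · intro x hx
        apply hg.supp
        intro hx'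
        have : p ≤ x := hx
        linarith [hx'.2]
      · exact hgp
    exact (uniqueDiffWithinAt_Ici p).eq_deriv _ h1 h2

theorem h1_mem {g : Pm} {κ : ℝ} (hg : DD κ (Ioo 0 1) g) (p : Hyp g) :
    (p : ℝ) ∈ Ioo (0 : ℝ) 1 := by
  by_contra h
  exact p.2.2 (h1_deriv hg h)

/-- H1: only finitely many fixed points are hyperbolic with multiplier away from `1` -/
theorem hyperbolic_tendsto {g : Pm} {κ : ℝ} (hg : DD κ (Ioo 0 1) g) :
    Tendsto (lam g) cofinite (𝓝 0) := by
  rw [Metric.tendsto_nhds]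
  intro ε hε
  rw [Filter.eventually_cofinite]
  by_contra hinf
  have hinf' : Set.Infinite {p : Hyp g | ¬ dist (lam g p) 0 < ε} := hinf
  set A : Set ℝ := Subtype.val '' {p : Hyp g | ¬ dist (lam g p) 0 < ε} with hA
  have hAinf : A.Infinite := hinf'.image Subtype.val_injective.injOn
  have hAsub : A ⊆ Icc 0 1 := by
    rintro _ ⟨p, -, rfl⟩
    exact Ioo_subset_Icc_self (h1_mem hg p)
  obtain ⟨x, -, hx⟩ := hAinf.exists_accPt_of_subset_isCompact isCompact_Icc hAsub
  have hfix : ∀ z ∈ A, g z = z ∧ ε ≤ |Real.log (deriv g z)| := by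
    rintro _ ⟨p, hp, rfl⟩
    refine ⟨p.2.1, ?_⟩
    have h1 : ¬ dist (lam g p) 0 < ε := hp
    rw [Real.dist_eq, sub_zero, not_lt] at h1
    have h2 : |lam g p| = lam g p := abs_of_nonneg (abs_nonneg _)
    rw [h2] at h1
    exact h1
  have hneb : (𝓝[≠] x ⊓ 𝓟 A).NeBot := hx
  have hgx : g x = x := by
    have h1 : Tendsto (fun z => g z - z) (𝓝[≠] x ⊓ 𝓟 A) (𝓝 (g x - x)) :=
      ((hg.isD.continuous.sub continuous_id).tendsto x).mono_left
        (inf_le_left.trans nhdsWithin_le_nhds)
    have h2 : Tendsto (fun z => g z - z) (𝓝[≠] x ⊓ 𝓟 A) (𝓝 0) := by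
      apply tendsto_const_nhds.congr'
      filter_upwards [mem_inf_of_right (mem_principal_self A)] with z hz
      rw [(hfix z hz).1, sub_self]
    have := tendsto_nhds_unique h1 h2
    linarith
  have hdx : deriv g x = 1 := by
    have h1 : Tendsto (slope g x) (𝓝[≠] x ⊓ 𝓟 A) (𝓝 (deriv g x)) :=
      (hasDerivAt_iff_tendsto_slope.mp (hg.isD.differentiable x).hasDerivAt).mono_left
        inf_le_left
    have h2 : Tendsto (slope g x) (𝓝[≠] x ⊓ 𝓟 A) (𝓝 1) := by
      apply tendsto_const_nhds.congr'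
      filter_upwards [mem_inf_of_right (mem_principal_self A),
        mem_inf_of_left self_mem_nhdsWithin] with z hz hz2
      rw [slope_def_field, (hfix z hz).1, hgx, div_self]
      exact sub_ne_zero.mpr hz2
    exact tendsto_nhds_unique h1 h2
  have hlog : Tendsto (fun z => |Real.log (deriv g z)|) (𝓝[≠] x ⊓ 𝓟 A)
      (𝓝 |Real.log (deriv g x)|) :=
    (((hg.isD.continuous_deriv.log (fun x => (hg.isD.pos x).ne')).abs).tendsto x).mono_left
        (inf_le_left.trans nhdsWithin_le_nhds)
  have hge : ε ≤ |Real.log (deriv g x)| := by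
    apply ge_of_tendsto hlog
    filter_upwards [mem_inf_of_right (mem_principal_self A)] with z hz
    exact (hfix z hz).2
  rw [hdx, Real.log_one, abs_zero] at hge
  linarith

end GC45
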