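import Pool.Agent.LibGC45.B1
import Pool.Agent.LibGC45.B2a
import Pool.Agent.LibGC45.B3a
import Pool.Agent.LibGC45.H1

open Filter Topology Set

namespace GC45

private theorem h3_abs_log {t : ℝ} (ht : |t - 1| ≤ 1 / 2) : |Real.log t| ≤ 2 * |t - 1| := by
  have ht' := abs_le.1 ht
  have ht0 : 1 / 2 ≤ t := by linarith [ht'.1]
  have htp : 0 < t := by linarith
  rw [abs_le]
  constructor
  · have h1 := Real.one_sub_inv_le_log_of_pos htp
    have h2 : 1 - t⁻¹ = (t - 1) / t := by field_simp
    rw [h2] at h1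
    have h3 : -(2 * |t - 1|) ≤ (t - 1) / t := by
      rw [le_div_iff₀ htp]
      rcases le_total 0 (t - 1) with h | h
      · rw [abs_of_nonneg h]
        nlinarith
      · rw [abs_of_nonpos h]
        nlinarith
    linarith
  · have h1 := Real.log_le_sub_one_of_pos htp
    have := le_abs_self (t - 1)
    have := abs_nonneg (t - 1)
    linarith

/-- H3: the modified map -/
theorem hyperbolic_modify : ∃ C : ℝ, 1 ≤ C ∧ ∀ (κ : ℝ), C * κ ≤ 1 / 4 → ∀ (g : Pm),
    DD κ (Ioo 0 1) g → ∀ ρ : Hyp g → ℝ, Radii g ρ →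
      ∃ g₁ : Pm, DD (C * κ) (Ioo 0 1) g₁ ∧ (∀ x, g₁ x = x → deriv g₁ x = 1) ∧
        (∀ x, (∀ p : Hyp g, ρ p ≤ |x - (p : ℝ)|) → g₁ x = g x) ∧
        (∀ p : Hyp g, g₁ p = p) ∧
        ∀ (p : Hyp g) (x : ℝ), |x - (p : ℝ)| ≤ 4 * ρ p →
          |Real.log (deriv g₁ x)| ≤ C * lam g p := by
  obtain ⟨C₀, hC₀, hplat⟩ := exists_plateau
  refine ⟨100 * C₀, by linarith, ?_⟩
  intro κ hκ g hg ρ hρ
  have hκ0 : 0 ≤ κ := hg.nonneg
  have hκ1 : 400 * κ ≤ 1 := by nlinarith
  have hκ2 : 400 * (C₀ * κ) ≤ 1 := by linarith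
  have hgD := hg.isD
  have hgd : Differentiable ℝ g := hgD.differentiable
  have hlam : ∀ p : Hyp g, lam g p ≤ κ := fun p => hg.sz p
  have hlam0 : ∀ p : Hyp g, 0 ≤ lam g p := fun p => abs_nonneg _
  have hgder : ∀ (p : Hyp g) (x : ℝ), |x - (p : ℝ)| ≤ 4 * ρ p →
      |deriv g x - 1| ≤ 4 * lam g p := by
    intro p x hx
    have h1 := hρ.small p x hx
    have h2 : |Real.log (deriv g x)| ≤ 1 := by linarith [hlam p]
    have h3 := Real.abs_exp_sub_one_le h2
    rw [Real.exp_log (hgD.pos x)] at h3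
    linarith
  have hdisp : ∀ (p : Hyp g) (x : ℝ), |x - (p : ℝ)| ≤ ρ p → |g x - x| ≤ 4 * lam g p * ρ p := by
    intro p x hx
    have hρp := hρ.pos p
    have h1 := Convex.norm_image_sub_le_of_norm_deriv_le (f := fun x => g x - x)
      (C := 4 * lam g p) (s := Icc ((p : ℝ) - ρ p) ((p : ℝ) + ρ p)) (x := (p : ℝ)) (y := x)
      (fun z _ => (hgd z).sub differentiableAt_id) (by
        intro z hz
        rw [Real.norm_eq_abs]
        have h2 : deriv (fun x => g x - x) z = deriv g z - 1 := by
          have := ((hgd z).hasDerivAt.sub (hasDerivAt_id z)).deriv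
          exact this
        rw [h2]
        apply hgder p z
        rw [abs_le]
        exact ⟨by linarith [hz.1], by linarith [hz.2]⟩) (convex_Icc _ _)
      ⟨by linarith, by linarith⟩ ⟨by linarith [(abs_le.1 hx).1], by linarith [(abs_le.1 hx).2]⟩
    simp only [Real.norm_eq_abs] at h1
    rw [p.2.1, sub_self, sub_zero] at h1
    refine h1.trans ?_
    exact mul_le_mul_of_nonneg_left hx (by linarith [hlam0 p])
  -- bumps
  have hbump : ∀ p : Hyp g, ∃ χ : ℝ → ℝ, ContDiff ℝ 1 χ ∧ (∀ x, 0 ≤ χ x ∧ χ x ≤ 1) ∧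
      (∀ x, |deriv χ x| ≤ 2 * C₀ / ρ p) ∧ (∀ x, ρ p ≤ |x - (p : ℝ)| → χ x = 0) ∧
      (∀ x, |x - (p : ℝ)| ≤ ρ p / 2 → χ x = 1) := by
    intro p
    have hρp := hρ.pos p
    obtain ⟨χ, h1, h2, h3, h4, h5, h6⟩ := hplat ((p : ℝ) - ρ p) ((p : ℝ) + ρ p) (ρ p / 2)
      (by linarith) (by linarith)
    refine ⟨χ, h1, h2, ?_, ?_, ?_⟩
    · intro x
      have := h3 x
      have h7 : C₀ / (ρ p / 2) = 2 * C₀ / ρ p := by field_simp
      rwa [h7] at this
    · intro x hx
      rcases le_total 0 (x - (p : ℝ)) with h | h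
      · rw [abs_of_nonneg h] at hx
        exact h5 x (by linarith)
      · rw [abs_of_nonpos h] at hx
        exact h4 x (by linarith)
    · intro x hx
      rw [abs_le] at hx
      exact h6 x (by linarith [hx.1]) (by linarith [hx.2])
  choose χ hχC hχ01 hχd hχ0 hχ1 using hbump
  let f : Hyp g → ℝ → ℝ := fun p x => χ p x * (g x - x)
  have hχdiff : ∀ p, Differentiable ℝ (χ p) := fun p => (hχC p).differentiable one_ne_zero
  have hfC : ∀ p, ContDiff ℝ 1 (f p) := fun p =>
    (hχC p).mul (hgD.contDiff.sub contDiff_id)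
  have hfd : ∀ p x, deriv (f p) x = deriv (χ p) x * (g x - x) + χ p x * (deriv g x - 1) := by
    intro p x
    exact ((hχdiff p x).hasDerivAt.mul ((hgd x).hasDerivAt.sub (hasDerivAt_id x))).deriv
  have hfd0 : ∀ p x, ρ p < |x - ((p : Hyp g) : ℝ)| → deriv (f p) x = 0 := by
    intro p x hx
    have hopen : IsOpen {z : ℝ | ρ p < |z - (p : ℝ)|} :=
      isOpen_lt continuous_const (continuous_id.sub continuous_const).abs
    have h1 : f p =ᶠ[𝓝 x] fun _ => (0 : ℝ) := by
      filter_upwards [hopen.mem_nhds hx] with z hz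
      change χ p z * (g z - z) = 0
      rw [hχ0 p z (le_of_lt hz), zero_mul]
    rw [h1.deriv_eq]
    simp
  have hfb : ∀ p x, |deriv (f p) x| ≤ 12 * C₀ * lam g p := by
    intro p x
    have hρp := hρ.pos p
    have hl0 := hlam0 p
    rcases le_or_gt |x - (p : ℝ)| (ρ p) with hx | hx
    · rw [hfd]
      have h1 := hdisp p x hx
      have h2 := hgder p x (by linarith)
      have h3 := hχd p x
      have h4 : |χ p x| ≤ 1 := by
        rw [abs_of_nonneg (hχ01 p x).1]
        exact (hχ01 p x).2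
      have h5 : |deriv (χ p) x * (g x - x)| ≤ 8 * C₀ * lam g p := by
        rw [abs_mul]
        calc |deriv (χ p) x| * |g x - x| ≤ (2 * C₀ / ρ p) * (4 * lam g p * ρ p) :=
              mul_le_mul h3 h1 (abs_nonneg _) (by positivity)
          _ = 8 * C₀ * lam g p := by field_simp; ring
      have h6 : |χ p x * (deriv g x - 1)| ≤ 4 * lam g p := by
        rw [abs_mul]
        calc |χ p x| * |deriv g x - 1| ≤ 1 * (4 * lam g p) :=
              mul_le_mul h4 h2 (abs_nonneg _) (by norm_num)
          _ = 4 * lam g p := by ring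
      have h7 := abs_add_le (deriv (χ p) x * (g x - x)) (χ p x * (deriv g x - 1))
      nlinarith
    · rw [hfd0 p x hx, abs_zero]
      positivity
  have hsep : ∀ p p' : Hyp g, p ≠ p' → 0 < |(p : ℝ) - (p' : ℝ)| ∧
      100 * ρ p ≤ |(p : ℝ) - (p' : ℝ)| ∧ 100 * ρ p' ≤ |(p : ℝ) - (p' : ℝ)| := by
    intro p p' hpp
    have h0 : 0 < |(p : ℝ) - (p' : ℝ)| := by
      rw [abs_pos, sub_ne_zero]
      exact fun h => hpp (Subtype.ext h)
    have h1 := hρ.sep p p' hpp
    have h2 := hρ.sep p' p hpp.symm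
    rw [abs_sub_comm] at h2
    have h3 := hlam p
    have h4 := hlam p'
    refine ⟨h0, ?_, ?_⟩
    · nlinarith
    · nlinarith
  have hfne : ∀ p x, f p x ≠ 0 → |x - ((p : Hyp g) : ℝ)| < ρ p := by
    intro p x hx
    by_contra h
    rw [not_lt] at h
    apply hx
    change χ p x * (g x - x) = 0
    rw [hχ0 p x h, zero_mul]
  have hfar : ∀ (p p' : Hyp g), p ≠ p' → ∀ x, |x - (p : ℝ)| ≤ 5 * ρ p → f p' x = 0 := by
    intro p p' hpp x hx
    by_contra h
    have h1 := hfne p' x h
    obtain ⟨h2, h3, h4⟩ := hsep p p' hpp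
    have h5 : |(p : ℝ) - (p' : ℝ)| ≤ |x - (p : ℝ)| + |x - (p' : ℝ)| := by
      have := abs_sub_le (p : ℝ) x (p' : ℝ)
      rwa [abs_sub_comm (p : ℝ) x] at this
    linarith
  have hdisj : ∀ i j : Hyp g, i ≠ j → ∀ x, f i x = 0 ∨ f j x = 0 := by
    intro i j hij x
    by_contra h
    rw [not_or] at h
    have h1 := hfne i x h.1
    exact h.2 (hfar i j hij x (by linarith [hρ.pos i]))
  have hst : Tendsto (fun p : Hyp g => 12 * C₀ * lam g p) cofinite (𝓝 0) := by
    have := (hyperbolic_tendsto hg).const_mul (12 * C₀)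
    rwa [mul_zero] at this
  obtain ⟨S, hSC, hS1, hS0, hSd⟩ := exists_sum f (fun p => 12 * C₀ * lam g p) hfC hfb hst hdisj
  have hSlocal : ∀ (p : Hyp g) (x : ℝ), |x - (p : ℝ)| ≤ 5 * ρ p → S x = f p x := by
    intro p x hx
    by_cases h : f p x = 0
    · rw [h]
      apply hS0
      intro p'
      by_cases hpp : p' = p
      · rw [hpp, h]
      · exact hfar p p' (fun h => hpp h.symm) x hx
    · exact hS1 p x h
  have hSev : ∀ (p : Hyp g) (x : ℝ), |x - (p : ℝ)| ≤ 4 * ρ p → S =ᶠ[𝓝 x] f p := by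
    intro p x hx
    have hopen : IsOpen {z : ℝ | |z - (p : ℝ)| < 5 * ρ p} :=
      isOpen_lt (continuous_id.sub continuous_const).abs continuous_const
    have hmem : x ∈ {z : ℝ | |z - (p : ℝ)| < 5 * ρ p} := by
      change |x - (p : ℝ)| < 5 * ρ p
      linarith [hρ.pos p]
    filter_upwards [hopen.mem_nhds hmem] with z hz
    exact hSlocal p z (le_of_lt hz)
  have hSb : ∀ x, |deriv S x| ≤ 12 * C₀ * κ := by
    intro x
    rcases hSd x with h | ⟨p, h⟩
    · rw [h, abs_zero]
      positivity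
    · rw [h]
      refine (hfb p x).trans ?_
      exact mul_le_mul_of_nonneg_left (hlam p) (by linarith)
  have hSdiff : Differentiable ℝ S := hSC.differentiable one_ne_zero
  have hSsupp : ∀ x, g x = x → S x = 0 := by
    intro x hx
    apply hS0
    intro p
    change χ p x * (g x - x) = 0
    rw [hx, sub_self, mul_zero]
  have hder1 : ∀ x, |deriv g x - 1| ≤ 2 * κ := fun x =>
    hg.abs_deriv_sub_one (by linarith) x
  have hFd : ∀ x, deriv (fun x => g x - x - S x) x = deriv g x - 1 - deriv S x := by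
    intro x
    exact (((hgd x).hasDerivAt.sub (hasDerivAt_id x)).sub (hSdiff x).hasDerivAt).deriv
  obtain ⟨g₁, hg₁D, hg₁⟩ := exists_idAdd (fun x => g x - x - S x)
    ((hgD.contDiff.sub contDiff_id).sub hSC) (s := 14 * C₀ * κ) (by linarith) (by
      intro x
      rw [hFd]
      have h1 := hder1 x
      have h2 := hSb x
      have h3 := abs_sub (deriv g x - 1) (deriv S x)
      nlinarith) (Ioo 0 1) (by
      intro x hx
      have h1 := hg.supp x hx
      rw [hSsupp x h1, h1]
      ring)
  have hg₁' : ∀ x, g₁ x = g x - S x := by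
    intro x
    rw [hg₁]
    ring
  have hg₁d : ∀ x, deriv g₁ x = deriv g x - deriv S x := by
    intro x
    have h1 : (g₁ : ℝ → ℝ) = fun x => g x - S x := by
      funext x
      exact hg₁' x
    rw [h1]
    exact ((hgd x).hasDerivAt.sub (hSdiff x).hasDerivAt).deriv
  refine ⟨g₁, hg₁D.mono (by nlinarith) le_rfl, ?_, ?_, ?_, ?_⟩
  · intro x hx
    rw [hg₁'] at hx
    by_cases hcase : ∃ p : Hyp g, |x - (p : ℝ)| ≤ 4 * ρ p
    · obtain ⟨p, hp⟩ := hcase
      have hρp := hρ.pos p
      have hev := hSev p x hp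
      rw [hg₁d, hev.deriv_eq, hfd]
      have hSx : S x = χ p x * (g x - x) := hev.self_of_nhds
      by_cases hxp : x = (p : ℝ)
      · have h1 : χ p =ᶠ[𝓝 x] fun _ => (1 : ℝ) := by
          have hopen : IsOpen {z : ℝ | |z - (p : ℝ)| < ρ p / 2} :=
            isOpen_lt (continuous_id.sub continuous_const).abs continuous_const
          have hmem : x ∈ {z : ℝ | |z - (p : ℝ)| < ρ p / 2} := by
            change |x - (p : ℝ)| < ρ p / 2
            rw [hxp, sub_self, abs_zero]
            linarith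
          filter_upwards [hopen.mem_nhds hmem] with z hz
          exact hχ1 p z (le_of_lt hz)
        have h2 : g x = x := by
          rw [hxp]
          exact p.2.1
        rw [h2, h1.self_of_nhds]
        ring
      · have h1 : g x ≠ x := hρ.nofix p x hp hxp
        have h2 : χ p x = 1 := by
          rw [hSx] at hx
          have h3 : (g x - x) * (1 - χ p x) = 0 := by linarith
          rcases mul_eq_zero.1 h3 with h | h
          · exact absurd (sub_eq_zero.1 h) h1
          · linarith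
        have h3 : deriv (χ p) x = 0 := by
          apply IsLocalMax.deriv_eq_zero
          apply Filter.Eventually.of_forall
          intro z
          rw [h2]
          exact (hχ01 p z).2
        rw [h2, h3]
        ring
    · push Not at hcase
      have h1 : ∀ p, f p x = 0 := by
        intro p
        by_contra h
        have := hfne p x h
        linarith [hcase p, hρ.pos p]
      have h2 : S x = 0 := hS0 x h1
      rw [h2, sub_zero] at hx
      have h3 : deriv g x = 1 := by
        by_contra h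
        have := hcase ⟨x, hx, h⟩
        simp only [sub_self, abs_zero] at this
        linarith [hρ.pos ⟨x, hx, h⟩]
      have h4 : deriv S x = 0 := by
        rcases hSd x with h | ⟨p, h⟩
        · exact h
        · rw [h]
          apply hfd0
          linarith [hcase p, hρ.pos p]
      rw [hg₁d, h3, h4, sub_zero]
  · intro x hx
    have h1 : S x = 0 := by
      apply hS0
      intro p
      change χ p x * (g x - x) = 0
      rw [hχ0 p x (hx p), zero_mul]
    rw [hg₁', h1, sub_zero]
  · intro p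
    rw [hg₁', hSsupp _ p.2.1, sub_zero]
    exact p.2.1
  · intro p x hx
    have h1 := hgder p x hx
    have h2 : |deriv S x| ≤ 12 * C₀ * lam g p := by
      rw [(hSev p x hx).deriv_eq]
      exact hfb p x
    have h3 : |deriv g₁ x - 1| ≤ 16 * C₀ * lam g p := by
      rw [hg₁d]
      have h4 : deriv g x - deriv S x - 1 = (deriv g x - 1) - deriv S x := by ring
      rw [h4]
      have h5 := abs_sub (deriv g x - 1) (deriv S x)
      nlinarith [hlam0 p]
    have h6 : C₀ * lam g p ≤ C₀ * κ := mul_le_mul_of_nonneg_left (hlam p) (by linarith)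
    have h7 := h3_abs_log (t := deriv g₁ x) (by linarith)
    have h8 : 0 ≤ C₀ * lam g p := mul_nonneg (by linarith) (hlam0 p)
    linarith

end GC45
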