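import Pool.Agent.LibGC45.H1
import Pool.Agent.LibGC45.B3c

open Filter Topology Set

namespace GC45

theorem h4_mvt {F : Pm} (hF : IsD F) {p : ℝ} (hp : F p = p) (x : ℝ) :
    ∃ ξ, |ξ - p| ≤ |x - p| ∧ F x - p = deriv F ξ * (x - p) := by
  rcases lt_trichotomy x p with h | h | h
  · obtain ⟨ξ, hξ, he⟩ := exists_deriv_eq_slope F h hF.continuous.continuousOn
      hF.differentiable.differentiableOn
    refine ⟨ξ, ?_, ?_⟩
    · rw [abs_of_neg (by linarith [hξ.2]), abs_of_neg (by linarith)]; linarith [hξ.1]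
    · rw [he, hp]
      have : p - x ≠ 0 := by linarith
      field_simp
      ring
  · refine ⟨x, le_rfl, ?_⟩
    rw [h, hp]; ring
  · obtain ⟨ξ, hξ, he⟩ := exists_deriv_eq_slope F h hF.continuous.continuousOn
      hF.differentiable.differentiableOn
    refine ⟨ξ, ?_, ?_⟩
    · rw [abs_of_pos (by linarith [hξ.1]), abs_of_pos (by linarith)]; linarith [hξ.2]
    · rw [he, hp]
      have : x - p ≠ 0 := by linarith
      field_simp

theorem h4_step {F : Pm} (hF : IsD F) {p L R : ℝ} (hp : F p = p)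
    (hL : ∀ x, |x - p| ≤ R → |Real.log (deriv F x)| ≤ L) {x : ℝ} (hx : |x - p| ≤ R) :
    Real.exp (-L) * |x - p| ≤ |F x - p| ∧ |F x - p| ≤ Real.exp L * |x - p| := by
  obtain ⟨ξ, h1, h2⟩ := h4_mvt hF hp x
  have h3 := abs_le.1 (hL ξ (h1.trans hx))
  have h4 : deriv F ξ = Real.exp (Real.log (deriv F ξ)) := (Real.exp_log (hF.pos ξ)).symm
  rw [h2, abs_mul, abs_of_pos (hF.pos ξ)]
  constructor
  · refine mul_le_mul_of_nonneg_right ?_ (abs_nonneg _)
    rw [h4]; exact Real.exp_le_exp.2 h3.1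
  · refine mul_le_mul_of_nonneg_right ?_ (abs_nonneg _)
    rw [h4]; exact Real.exp_le_exp.2 h3.2

theorem h4_iter {F : Pm} (hF : IsD F) {p L R : ℝ} (hL0 : 0 ≤ L) (hp : F p = p)
    (hL : ∀ x, |x - p| ≤ R → |Real.log (deriv F x)| ≤ L) {x : ℝ} (i : ℕ)
    (hx : Real.exp (i * L) * |x - p| ≤ R) :
    Real.exp (-(i * L)) * |x - p| ≤ |(F ^ i) x - p| ∧
      |(F ^ i) x - p| ≤ Real.exp (i * L) * |x - p| := by
  induction i with
  | zero => simp
  | succ i ih =>
    have hle : Real.exp (i * L) ≤ Real.exp ((i + 1 : ℕ) * L) := by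
      apply Real.exp_le_exp.2
      push_cast
      linarith
    have h0 := abs_nonneg (x - p)
    have h1 : Real.exp (i * L) * |x - p| ≤ R :=
      (mul_le_mul_of_nonneg_right hle h0).trans hx
    obtain ⟨ih1, ih2⟩ := ih h1
    have h2 := h4_step hF hp hL (ih2.trans h1)
    rw [pow_succ', Equiv.Perm.mul_apply]
    constructor
    · refine le_trans (le_of_eq ?_) ((mul_le_mul_of_nonneg_left ih1 (Real.exp_pos _).le).trans h2.1)
      rw [← mul_assoc, ← Real.exp_add]
      congr 2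
      push_cast; ring
    · refine (h2.2.trans (mul_le_mul_of_nonneg_left ih2 (Real.exp_pos _).le)).trans (le_of_eq ?_)
      rw [← mul_assoc, ← Real.exp_add]
      congr 2
      push_cast; ring

theorem h4_log {F : Pm} (hF : IsD F) {p L R : ℝ} (hL0 : 0 ≤ L) (hp : F p = p)
    (hL : ∀ x, |x - p| ≤ R → |Real.log (deriv F x)| ≤ L) {x : ℝ} (n : ℕ)
    (hx : Real.exp (n * L) * |x - p| ≤ R) :
    |Real.log (deriv (F ^ n : Pm) x)| ≤ n * L := by
  rw [hF.log_deriv_pow]
  refine (Finset.abs_sum_le_sum_abs _ _).trans ?_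
  refine (Finset.sum_le_card_nsmul _ _ L fun i hi => ?_).trans (by simp)
  have hle : Real.exp (i * L) ≤ Real.exp (n * L) := by
    apply Real.exp_le_exp.2
    have : (i : ℝ) ≤ n := by exact_mod_cast (Finset.mem_range.1 hi).le
    exact mul_le_mul_of_nonneg_right this hL0
  have h1 : Real.exp (i * L) * |x - p| ≤ R :=
    (mul_le_mul_of_nonneg_right hle (abs_nonneg _)).trans hx
  exact hL _ ((h4_iter hF hL0 hp hL i h1).2.trans h1)

/-- H4: the error elements -/
theorem hyperbolic_error {C κ : ℝ} (hC : 1 ≤ C) (hκ : C * κ ≤ 1 / 4) {g g₁ : Pm}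
    (hg : DD κ (Ioo 0 1) g) {ρ : Hyp g → ℝ} (hρ : Radii g ρ)
    (hg₁ : DD (C * κ) (Ioo 0 1) g₁)
    (hout : ∀ x, (∀ p : Hyp g, ρ p ≤ |x - (p : ℝ)|) → g₁ x = g x)
    (hfix : ∀ p : Hyp g, g₁ p = p)
    (hin : ∀ (p : Hyp g) (x : ℝ), |x - (p : ℝ)| ≤ 4 * ρ p →
      |Real.log (deriv g₁ x)| ≤ C * lam g p) (n : ℕ) :
    ∃ (e : Hyp g → Pm) (s : Hyp g → ℝ),
      (∀ p : Hyp g, DD (s p) (Ioo ((p : ℝ) - 2 * ρ p) (p + 2 * ρ p)) (e p)) ∧ Tendsto s cofinite (𝓝 0) ∧
      ∀ᶠ p : Hyp g in cofinite, ∀ x ∈ Icc ((p : ℝ) - 2 * ρ p) (p + 2 * ρ p),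
        (g₁ ^ n) (e p x) = (g ^ n) x := by
  have hlam0 : ∀ p : Hyp g, 0 ≤ lam g p := fun p => abs_nonneg _
  have hκ4 : κ ≤ 1 / 4 := by
    have := hg.nonneg
    nlinarith
  have hlamκ : ∀ p : Hyp g, lam g p ≤ 1 / 4 := fun p => (hg.sz _).trans hκ4
  -- the two maps agree in the annulus
  have hann : ∀ (p : Hyp g) (x : ℝ), ρ p ≤ |x - (p : ℝ)| → |x - (p : ℝ)| ≤ 4 * ρ p →
      g₁ x = g x := by
    intro p x h1 h2
    apply hout
    intro q
    by_cases hq : q = p
    · rw [hq]; exact h1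
    · have s1 := hρ.sep q p hq
      have s2 := hρ.sep p q (Ne.symm hq)
      have hd : |((p : ℝ)) - (q : ℝ)| ≤ |x - (q : ℝ)| + |x - (p : ℝ)| := by
        have := abs_sub_le (p : ℝ) x (q : ℝ)
        rw [abs_sub_comm (p : ℝ) x] at this
        linarith
      rw [abs_sub_comm (q : ℝ) (p : ℝ)] at s1
      have h3 := abs_nonneg ((p : ℝ) - (q : ℝ))
      have h4 : lam g q * |(p : ℝ) - (q : ℝ)| ≤ 1 / 4 * |(p : ℝ) - (q : ℝ)| :=
        mul_le_mul_of_nonneg_right (hlamκ q) h3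
      have h5 : lam g p * |(p : ℝ) - (q : ℝ)| ≤ 1 / 4 * |(p : ℝ) - (q : ℝ)| :=
        mul_le_mul_of_nonneg_right (hlamκ p) h3
      linarith
  classical
  -- goodness
  let L : Hyp g → ℝ := fun p => (2 + C) * lam g p
  have hL0 : ∀ p, 0 ≤ L p := fun p => mul_nonneg (by linarith) (hlam0 p)
  have hLg : ∀ (p : Hyp g) (x : ℝ), |x - (p : ℝ)| ≤ 4 * ρ p → |Real.log (deriv g x)| ≤ L p := by
    intro p x hx
    refine (hρ.small p x hx).trans ?_
    exact mul_le_mul_of_nonneg_right (by linarith) (hlam0 p)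
  have hLg₁ : ∀ (p : Hyp g) (x : ℝ), |x - (p : ℝ)| ≤ 4 * ρ p → |Real.log (deriv g₁ x)| ≤ L p := by
    intro p x hx
    refine (hin p x hx).trans ?_
    exact mul_le_mul_of_nonneg_right (by linarith) (hlam0 p)
  have hLt : Tendsto L cofinite (𝓝 0) := by
    have := (hyperbolic_tendsto hg).const_mul (2 + C)
    simpa using this
  have hgood : ∀ᶠ p : Hyp g in cofinite, n * L p ≤ 1 / 4 := by
    have := hLt.const_mul (n : ℝ)
    rw [mul_zero] at this
    filter_upwards [this.eventually (gt_mem_nhds (show (0 : ℝ) < 1 / 4 by norm_num))] with p hp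
    exact hp.le
  have hexp : Real.exp (1 / 4) ≤ 3 / 2 := by
    have h1 := Real.abs_exp_sub_one_sub_id_le (x := 1 / 4) (by rw [abs_of_nonneg] <;> norm_num)
    have := (abs_le.1 h1).2
    norm_num at this ⊢
    linarith
  have hgp : ∀ p : Hyp g, g p = p := fun p => p.2.1
  -- for good p
  have key : ∀ p : Hyp g, n * L p ≤ 1 / 4 → ∃ P : Pm,
      DD (2 * (n * L p)) (Ioo ((p : ℝ) - 2 * ρ p) (p + 2 * ρ p)) P ∧
      ∀ x ∈ Icc ((p : ℝ) - 2 * ρ p) (p + 2 * ρ p), (g₁ ^ n) (P x) = (g ^ n) x := by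
    intro p hp
    have hr := hρ.pos p
    have hE : Real.exp (n * L p) ≤ 3 / 2 := (Real.exp_le_exp.2 hp).trans hexp
    have hEi : ∀ i : ℕ, i ≤ n → Real.exp (i * L p) ≤ 3 / 2 := by
      intro i hi
      refine le_trans (Real.exp_le_exp.2 ?_) hE
      have : (i : ℝ) ≤ n := by exact_mod_cast hi
      exact mul_le_mul_of_nonneg_right this (hL0 p)
    have hEi' : ∀ i : ℕ, i ≤ n → 2 / 3 ≤ Real.exp (-(i * L p)) := by
      intro i hi
      rw [Real.exp_neg, ← inv_div 3 2]
      exact inv_anti₀ (Real.exp_pos _) (hEi i hi)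
    have hagree : ∀ x, 19 / 10 * ρ p ≤ |x - (p : ℝ)| → |x - (p : ℝ)| ≤ 21 / 10 * ρ p →
        ∀ i : ℕ, i ≤ n → (g₁ ^ i) x = (g ^ i) x := by
      intro x hx1 hx2 i
      induction i with
      | zero => intro _; simp
      | succ i ih =>
        intro hi
        have hi' : i ≤ n := by omega
        rw [pow_succ', pow_succ', Equiv.Perm.mul_apply, Equiv.Perm.mul_apply, ih hi']
        have hb : Real.exp (i * L p) * |x - (p : ℝ)| ≤ 4 * ρ p := by
          have := mul_le_mul (hEi i hi') hx2 (abs_nonneg _) (by norm_num)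
          linarith
        have h3 := h4_iter hg.isD (hL0 p) (hgp p) (hLg p) i hb
        apply hann p
        · have := mul_le_mul (hEi' i hi') hx1 (by positivity) (Real.exp_pos _).le
          linarith [h3.1]
        · linarith [h3.2]
    set h : Pm := (g₁ ^ n)⁻¹ * g ^ n with hh
    have hD : IsD h := (hg₁.isD.pow n).inv.mul (hg.isD.pow n)
    have hid : ∀ x, 19 / 10 * ρ p ≤ |x - (p : ℝ)| → |x - (p : ℝ)| ≤ 21 / 10 * ρ p → h x = x := by
      intro x hx1 hx2
      rw [hh, Equiv.Perm.mul_apply, ← hagree x hx1 hx2 n le_rfl]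
      simp
    have hev : ∀ c : ℝ, |c - (p : ℝ)| = 2 * ρ p → ∀ᶠ x in 𝓝 c, h x = x := by
      intro c hc
      have hball : Ioo (c - ρ p / 10) (c + ρ p / 10) ∈ 𝓝 c :=
        Ioo_mem_nhds (by linarith) (by linarith)
      filter_upwards [hball] with x hx
      have h1 : |x - c| ≤ ρ p / 10 := by rw [abs_le]; constructor <;> linarith [hx.1, hx.2]
      have h2 : |c - (p : ℝ)| ≤ |x - c| + |x - (p : ℝ)| := by
        have := abs_sub_le c x (p : ℝ)
        rw [abs_sub_comm c x] at this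
        exact this
      have h3 := abs_sub_le x c (p : ℝ)
      exact hid x (by linarith) (by linarith)
    have hev1 := hev ((p : ℝ) - 2 * ρ p) (by
      rw [show (p : ℝ) - 2 * ρ p - p = -(2 * ρ p) by ring, abs_neg, abs_of_pos (by linarith)])
    have hev2 := hev ((p : ℝ) + 2 * ρ p) (by
      rw [show (p : ℝ) + 2 * ρ p - p = 2 * ρ p by ring, abs_of_pos (by linarith)])
    have hsz : ∀ x ∈ Icc ((p : ℝ) - 2 * ρ p) (p + 2 * ρ p),
        |Real.log (deriv h x)| ≤ 2 * (n * L p) := by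
      intro x hx
      have hxa : |x - (p : ℝ)| ≤ 2 * ρ p := by rw [abs_le]; constructor <;> linarith [hx.1, hx.2]
      have hhx1 : h ((p : ℝ) - 2 * ρ p) ≤ h x := hD.strictMono.monotone hx.1
      have hhx2 : h x ≤ h ((p : ℝ) + 2 * ρ p) := hD.strictMono.monotone hx.2
      rw [hev1.self_of_nhds] at hhx1
      rw [hev2.self_of_nhds] at hhx2
      have hza : |h x - (p : ℝ)| ≤ 2 * ρ p := by rw [abs_le]; constructor <;> linarith
      have hb1 : Real.exp (n * L p) * |x - (p : ℝ)| ≤ 4 * ρ p := by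
        have := mul_le_mul hE hxa (abs_nonneg _) (by norm_num)
        linarith
      have hb2 : Real.exp (n * L p) * |h x - (p : ℝ)| ≤ 4 * ρ p := by
        have := mul_le_mul hE hza (abs_nonneg _) (by norm_num)
        linarith
      have l1 := h4_log hg.isD (hL0 p) (hgp p) (hLg p) n hb1
      have l2 := h4_log hg₁.isD (hL0 p) (hfix p) (hLg₁ p) n hb2
      have hder : deriv h x = (deriv (g₁ ^ n : Pm) (h x))⁻¹ * deriv (g ^ n : Pm) x := by
        rw [hh, (hg₁.isD.pow n).inv.deriv_mul (hg.isD.pow n), (hg₁.isD.pow n).deriv_inv]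
        rfl
      rw [hder, Real.log_mul (inv_ne_zero ((hg₁.isD.pow n).pos _).ne')
        ((hg.isD.pow n).pos _).ne', Real.log_inv]
      refine (abs_add_le _ _).trans ?_
      rw [abs_neg]
      linarith
    obtain ⟨P, hP1, hP2⟩ := exists_restrict (by linarith) hD hev1 hev2
      (by have := hL0 p; positivity) hsz
    refine ⟨P, hP1, fun x hx => ?_⟩
    rw [hP2 x hx, hh, Equiv.Perm.mul_apply]; simp
  refine ⟨fun p => if hp : n * L p ≤ 1 / 4 then (key p hp).choose else 1,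
    fun p => 2 * (n * L p), ?_, ?_, ?_⟩
  · intro p
    by_cases hp : n * L p ≤ 1 / 4
    · simp only [hp, dite_true]
      exact (key p hp).choose_spec.1
    · simp only [hp, dite_false]
      exact DD.one (by have := hL0 p; positivity)
  · have := (hLt.const_mul (n : ℝ)).const_mul 2
    simpa using this
  · filter_upwards [hgood] with p hp x hx
    simp only [hp, dite_true]
    exact (key p hp).choose_spec.2 x hx

end GC45
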