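import Pool.Agent.LibGC45.H1

open Filter Topology Set

namespace GC45

theorem h5_lam_nonneg (g : Pm) (p : Hyp g) : 0 ≤ lam g p := abs_nonneg _

theorem h5_step {g : Pm} (hg : IsD g) {ρ : Hyp g → ℝ} (hρ : Radii g ρ) (p : Hyp g) {d : ℝ}
    (hd0 : 0 ≤ d) (hd : d ≤ 4 * ρ p) :
    (p : ℝ) + Real.exp (-(2 * lam g p)) * d ≤ g (p + d) ∧
      g (p - d) ≤ (p : ℝ) - Real.exp (-(2 * lam g p)) * d := by
  have hder : ∀ x ∈ Icc ((p : ℝ) - 4 * ρ p) (p + 4 * ρ p),
      Real.exp (-(2 * lam g p)) ≤ deriv g x := by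
    intro x hx
    have h1 : |x - (p : ℝ)| ≤ 4 * ρ p := by
      rw [abs_le]; constructor <;> linarith [hx.1, hx.2]
    have h2 := (abs_le.1 (hρ.small p x h1)).1
    rw [← Real.exp_log (hg.pos x)]
    exact Real.exp_le_exp.2 h2
  have hmv : ∀ x ∈ Icc ((p : ℝ) - 4 * ρ p) (p + 4 * ρ p),
      ∀ y ∈ Icc ((p : ℝ) - 4 * ρ p) (p + 4 * ρ p), x ≤ y →
      Real.exp (-(2 * lam g p)) * (y - x) ≤ g y - g x := by
    refine Convex.mul_sub_le_image_sub_of_le_deriv (convex_Icc _ _) hg.continuous.continuousOn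
      hg.differentiable.differentiableOn ?_
    intro x hx
    exact hder x (interior_subset hx)
  have hp := hρ.pos p
  have hfix : g (p : ℝ) = p := p.2.1
  constructor
  · have := hmv p ⟨by linarith, by linarith⟩ (p + d) ⟨by linarith, by linarith⟩ (by linarith)
    rw [hfix] at this
    have h3 : (p : ℝ) + d - p = d := by ring
    rw [h3] at this
    linarith
  · have := hmv (p - d) ⟨by linarith, by linarith⟩ p ⟨by linarith, by linarith⟩ (by linarith)
    rw [hfix] at this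
    have h3 : (p : ℝ) - (p - d) = d := by ring
    rw [h3] at this
    linarith

theorem h5_iter {g : Pm} (hg : IsD g) {ρ : Hyp g → ℝ} (hρ : Radii g ρ) (p : Hyp g) (i : ℕ) :
    (p : ℝ) + Real.exp (-(2 * lam g p)) ^ i * (2 * ρ p) ≤ (g ^ i) (p + 2 * ρ p) ∧
      (g ^ i) (p - 2 * ρ p) ≤ (p : ℝ) - Real.exp (-(2 * lam g p)) ^ i * (2 * ρ p) := by
  have hp := hρ.pos p
  have hl := h5_lam_nonneg g p
  have hexp : Real.exp (-(2 * lam g p)) ≤ 1 := Real.exp_le_one_iff.2 (by linarith)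
  have hexp0 : 0 < Real.exp (-(2 * lam g p)) := Real.exp_pos _
  induction i with
  | zero => simp
  | succ i ih =>
    have hle1 : Real.exp (-(2 * lam g p)) ^ i ≤ 1 := pow_le_one₀ hexp0.le hexp
    have hpow0 : 0 < Real.exp (-(2 * lam g p)) ^ i := pow_pos hexp0 i
    have hd0 : 0 ≤ Real.exp (-(2 * lam g p)) ^ i * (2 * ρ p) := by positivity
    have hd : Real.exp (-(2 * lam g p)) ^ i * (2 * ρ p) ≤ 4 * ρ p := by nlinarith
    have hst := h5_step hg hρ p hd0 hd
    have hmono := hg.strictMono.monotone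
    rw [pow_succ', pow_succ']
    simp only [Equiv.Perm.mul_apply]
    constructor
    · refine le_trans ?_ (hmono ih.1)
      refine le_trans (le_of_eq ?_) hst.1
      ring
    · refine le_trans (hmono ih.2) ?_
      refine le_trans hst.2 (le_of_eq ?_)
      ring

/-- H5: away from the hyperbolic points the iterates agree -/
theorem hyperbolic_away {C κ : ℝ} (hC : 1 ≤ C) (hκ : C * κ ≤ 1 / 4) {g g₁ : Pm}
    (hg : DD κ (Ioo 0 1) g) {ρ : Hyp g → ℝ} (hρ : Radii g ρ)
    (hg₁ : DD (C * κ) (Ioo 0 1) g₁)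
    (hout : ∀ x, (∀ p : Hyp g, ρ p ≤ |x - (p : ℝ)|) → g₁ x = g x)
    (hfix : ∀ p : Hyp g, g₁ p = p)
    (hin : ∀ (p : Hyp g) (x : ℝ), |x - (p : ℝ)| ≤ 4 * ρ p →
      |Real.log (deriv g₁ x)| ≤ C * lam g p) (n : ℕ) :
    ∀ᶠ x in 𝓝 (0 : ℝ), (∀ p : Hyp g, 2 * ρ p ≤ |x - (p : ℝ)|) → (g₁ ^ n) x = (g ^ n) x := by
  have hκ0 := hg.nonneg
  have hκ1 : κ ≤ 1 / 4 := by nlinarith
  have hg0 : g 0 = 0 := hg.supp 0 (by simp)
  have hpow0 : ∀ i : ℕ, (g ^ i) 0 = 0 := by
    intro i
    induction i with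
    | zero => rfl
    | succ i ih => rw [pow_succ', Equiv.Perm.mul_apply, ih, hg0]
  -- the bad points
  have hgood : ∀ᶠ p : Hyp g in cofinite, 2 * lam g p * n ≤ 1 / 2 := by
    have h1 : Tendsto (fun p : Hyp g => 2 * lam g p * n) cofinite (𝓝 0) := by
      have := ((hyperbolic_tendsto hg).const_mul 2).mul_const (n : ℝ)
      simpa using this
    exact h1.eventually_le_const (by norm_num)
  have hfin : {p : Hyp g | ¬ 2 * lam g p * n ≤ 1 / 2}.Finite := hgood
  have hbad : ∀ p : Hyp g, ∀ i : ℕ, ∀ᶠ x in 𝓝 (0 : ℝ), ρ p ≤ |(g ^ i) x - (p : ℝ)| := by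
    intro p i
    have hp := hρ.pos p
    have hl : lam g p ≤ κ := hg.sz p
    have hl0 := h5_lam_nonneg g p
    have hleft := hρ.left p
    have hppos : 0 < (p : ℝ) := by
      by_contra h
      rw [not_lt] at h
      nlinarith
    have h1 : lam g p * (p : ℝ) ≤ 1 / 4 * p := by nlinarith
    have hρp : ρ p < p / 2 := by linarith
    have hc : Tendsto (⇑(g ^ i : Pm)) (𝓝 0) (𝓝 0) := by
      have := (hg.isD.pow i).continuous.tendsto 0
      rwa [hpow0 i] at this
    have h2 : ∀ᶠ x in 𝓝 (0 : ℝ), (g ^ i) x < p / 2 :=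
      hc.eventually_lt_const (by linarith)
    filter_upwards [h2] with x hx
    rw [abs_sub_comm]
    refine le_trans ?_ (le_abs_self _)
    linarith
  have hall : ∀ᶠ x in 𝓝 (0 : ℝ), ∀ p ∈ {p : Hyp g | ¬ 2 * lam g p * n ≤ 1 / 2},
      ∀ i ∈ Finset.range n, ρ p ≤ |(g ^ i) x - (p : ℝ)| := by
    rw [Set.Finite.eventually_all hfin]
    intro p _
    rw [Finset.eventually_all]
    intro i _
    exact hbad p i
  filter_upwards [hall] with x hx hx2
  -- the orbit stays away
  have hstay : ∀ i < n, ∀ p : Hyp g, ρ p ≤ |(g ^ i) x - (p : ℝ)| := by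
    intro i hi p
    by_cases hp : 2 * lam g p * n ≤ 1 / 2
    · have hρp := hρ.pos p
      have hl0 := h5_lam_nonneg g p
      have hit := h5_iter hg.isD hρ p i
      have hmono := (hg.isD.pow i).strictMono.monotone
      have hhalf : 1 / 2 ≤ Real.exp (-(2 * lam g p)) ^ i := by
        rw [← Real.exp_nat_mul]
        have h3 := Real.add_one_le_exp ((i : ℝ) * -(2 * lam g p))
        have h4 : (i : ℝ) ≤ n := by exact_mod_cast hi.le
        nlinarith
      have h5 : ρ p ≤ Real.exp (-(2 * lam g p)) ^ i * (2 * ρ p) := by nlinarith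
      rcases le_or_gt (p : ℝ) x with h6 | h6
      · have h7 := hx2 p
        rw [abs_of_nonneg (by linarith)] at h7
        have h8 := hmono (show (p : ℝ) + 2 * ρ p ≤ x by linarith)
        refine le_trans ?_ (le_abs_self _)
        linarith [hit.1]
      · have h7 := hx2 p
        rw [abs_of_neg (by linarith)] at h7
        have h8 := hmono (show x ≤ (p : ℝ) - 2 * ρ p by linarith)
        rw [abs_sub_comm]
        refine le_trans ?_ (le_abs_self _)
        linarith [hit.2]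
    · exact hx p hp i (Finset.mem_range.2 hi)
  have hmain : ∀ i ≤ n, (g₁ ^ i) x = (g ^ i) x := by
    intro i
    induction i with
    | zero => intro _; rfl
    | succ i ih =>
      intro hi
      rw [pow_succ', pow_succ', Equiv.Perm.mul_apply, Equiv.Perm.mul_apply, ih (by omega)]
      exact hout _ (hstay i (by omega))
  exact hmain n le_rfl

end GC45
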