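import Pool.Agent.LibGC45.H2
import Pool.Agent.LibGC45.H3
import Pool.Agent.LibGC45.H4
import Pool.Agent.LibGC45.H5
import Pool.Agent.LibGC45.E1

open Filter Topology Set

namespace GC45

theorem h6_lam_pos {g : Pm} (hg : IsD g) (p : Hyp g) : 0 < lam g p := by
  unfold lam
  rw [abs_pos]
  intro h
  have hp := hg.pos (p : ℝ)
  rcases Real.log_eq_zero.1 h with h | h | h
  · rw [h] at hp; exact lt_irrefl _ hp
  · exact p.2.2 h
  · rw [h] at hp; linarith

theorem remove_hyperbolic : ∃ C : ℝ, 1 ≤ C ∧ ∀ (κ : ℝ), C * κ ≤ 1 / 4 → ∀ (g : Pm),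
    DD κ (Ioo 0 1) g →
    ∃ g₁ : Pm, DD (C * κ) (Ioo 0 1) g₁ ∧ (∀ x, g₁ x = x → deriv g₁ x = 1) ∧
      ∀ n : ℕ → ℕ, ∃ G : Fin 9 → Pm, (∀ a, DD (1 / 4) (Ioo 0 1) (G a)) ∧
        ∀ k, ∀ᶠ x in 𝓝 (0 : ℝ), (g₁ ^ (n k)) (FreeGroup.lift G (encW k) x) = (g ^ (n k)) x := by
  obtain ⟨C, hC, H⟩ := hyperbolic_modify
  refine ⟨C, hC, fun κ hκ g hg => ?_⟩
  obtain ⟨ρ, hρ⟩ := hyperbolic_radii hg
  obtain ⟨g₁, hg₁, hpar, hout, hfix, hin⟩ := H κ hκ g hg ρ hρ
  refine ⟨g₁, hg₁, hpar, fun n => ?_⟩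
  have hκ0 : 0 ≤ κ := hg.nonneg
  have hκ1 : κ ≤ 1 / 4 := by nlinarith
  have hlam : ∀ p, 0 < lam g p := h6_lam_pos hg.isD
  have hlam1 : ∀ p, lam g p ≤ 1 := fun p => (hg.sz _).trans (by linarith)
  have hp0 : ∀ p : Hyp g, 0 < (p : ℝ) := by
    intro p
    by_contra hcon
    have h1 := hρ.left p
    have h2 := hρ.pos p
    have h3 := hlam p
    nlinarith
  have hp1 : ∀ p : Hyp g, (p : ℝ) < 1 := by
    intro p
    by_contra hcon
    have h1 := hρ.right p
    have h2 := hρ.pos p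
    have h3 := hlam p
    nlinarith
  -- the large radii
  have hR : ∀ p : Hyp g, 1 / lam g p * (2 * ρ p) = 2 * ρ p / lam g p := fun p => by ring
  have hRl : ∀ p : Hyp g, 1 / lam g p * (2 * ρ p) < p := by
    intro p
    rw [hR, div_lt_iff₀ (hlam p)]
    have h1 := hρ.left p
    have h2 := hρ.pos p
    linarith [mul_comm (lam g p) (p : ℝ)]
  have hRr : ∀ p : Hyp g, 1 / lam g p * (2 * ρ p) < 1 - p := by
    intro p
    rw [hR, div_lt_iff₀ (hlam p)]
    have h1 := hρ.right p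
    have h2 := hρ.pos p
    linarith [mul_comm (lam g p) (1 - (p : ℝ))]
  have hRs : ∀ p p' : Hyp g, p ≠ p' → 1 / lam g p * (2 * ρ p) < |(p : ℝ) - p'| / 2 := by
    intro p p' hne
    rw [hR, div_lt_iff₀ (hlam p)]
    have h1 := hρ.sep p p' hne
    have h2 := hρ.pos p
    linarith [mul_comm (lam g p) (|(p : ℝ) - p'|)]
  have hRge : ∀ p : Hyp g, 2 * ρ p ≤ 1 / lam g p * (2 * ρ p) := by
    intro p
    rw [hR, le_div_iff₀ (hlam p)]
    have h2 := hρ.pos p
    have h3 := hlam1 p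
    nlinarith
  have hM : Tendsto (fun p : Hyp g => 1 / lam g p) cofinite atTop := by
    have h1 : Tendsto (lam g) cofinite (𝓝[>] 0) :=
      tendsto_nhdsWithin_iff.2 ⟨hyperbolic_tendsto hg, Eventually.of_forall hlam⟩
    have h2 := tendsto_inv_nhdsGT_zero.comp h1
    refine h2.congr fun p => ?_
    simp
  have hdisj : Pairwise (Function.onFun Disjoint
      (fun p : Hyp g => Ioo ((p : ℝ) - 1 / lam g p * (2 * ρ p)) (p + 1 / lam g p * (2 * ρ p)))) := by
    intro p p' hne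
    rw [Function.onFun, Set.disjoint_left]
    rintro x ⟨h1, h2⟩ ⟨h3, h4⟩
    have h5 := hRs p p' hne
    have h6 := hRs p' p hne.symm
    rw [abs_sub_comm] at h6
    rcases abs_cases ((p : ℝ) - p') with ⟨h7, _⟩ | ⟨h7, _⟩ <;> rw [h7] at h5 h6 <;> linarith
  choose e s he hs hgood using fun k => hyperbolic_error hC hκ hg hρ hg₁ hout hfix hin (n k)
  obtain ⟨G, hG1, hG2⟩ := global_encode (fun p : Hyp g => (p : ℝ)) (fun p => 2 * ρ p)
    (fun p => 1 / lam g p) (fun p => by have := hρ.pos p; positivity) hM hdisj e s he hs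
  have hsub : (⋃ p : Hyp g, Ioo ((p : ℝ) - 1 / lam g p * (2 * ρ p))
      (p + 1 / lam g p * (2 * ρ p))) ⊆ Ioo 0 1 := by
    intro x hx
    obtain ⟨p, h1, h2⟩ := Set.mem_iUnion.1 hx
    have h3 := hRl p
    have h4 := hRr p
    exact ⟨by linarith, by linarith⟩
  refine ⟨G, fun a => (hG1 a).mono le_rfl hsub, fun k => ?_⟩
  have haway := hyperbolic_away hC hκ hg hρ hg₁ hout hfix hin (n k)
  have hfin := (hG2 k).and (hgood k)
  rw [Filter.eventually_cofinite] at hfin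
  have hbad : ∀ᶠ x in 𝓝 (0 : ℝ), ∀ p ∈ {p : Hyp g | ¬((∀ x ∈ Ioo ((p : ℝ) - 1 / lam g p * (2 * ρ p))
      (p + 1 / lam g p * (2 * ρ p)), FreeGroup.lift G (encW k) x = e k p x) ∧
      ∀ x ∈ Icc ((p : ℝ) - 2 * ρ p) (p + 2 * ρ p), (g₁ ^ n k) (e k p x) = (g ^ n k) x)},
      x < (p : ℝ) - 1 / lam g p * (2 * ρ p) := by
    rw [Set.Finite.eventually_all hfin]
    intro p _
    have := hRl p
    exact eventually_lt_nhds (by linarith)
  filter_upwards [haway, hbad] with x hx1 hx2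
  by_cases hx : x ∈ ⋃ p : Hyp g, Ioo ((p : ℝ) - 1 / lam g p * (2 * ρ p))
      (p + 1 / lam g p * (2 * ρ p))
  · obtain ⟨p, hxp⟩ := Set.mem_iUnion.1 hx
    have hpg : (∀ x ∈ Ioo ((p : ℝ) - 1 / lam g p * (2 * ρ p))
      (p + 1 / lam g p * (2 * ρ p)), FreeGroup.lift G (encW k) x = e k p x) ∧
      ∀ x ∈ Icc ((p : ℝ) - 2 * ρ p) (p + 2 * ρ p), (g₁ ^ n k) (e k p x) = (g ^ n k) x := by
      by_contra hcon
      have := hx2 p hcon
      exact absurd hxp.1 (by linarith)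
    rw [hpg.1 x hxp]
    rcases le_or_gt (|x - (p : ℝ)|) (2 * ρ p) with h1 | h1
    · have h2 := abs_le.1 h1
      exact hpg.2 x ⟨by linarith, by linarith⟩
    · have h2 : e k p x = x := by
        refine (he k p).supp x ?_
        rintro ⟨h3, h4⟩
        rcases abs_cases (x - (p : ℝ)) with ⟨h7, _⟩ | ⟨h7, _⟩ <;> rw [h7] at h1 <;> linarith
      rw [h2]
      refine hx1 fun p' => ?_
      rcases eq_or_ne p p' with rfl | hne
      · exact h1.le
      · by_contra hcon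
        push Not at hcon
        have h3 := hRge p'
        have h4 : x ∈ Ioo ((p' : ℝ) - 1 / lam g p' * (2 * ρ p'))
            (p' + 1 / lam g p' * (2 * ρ p')) := by
          have h5 := abs_lt.1 (hcon.trans_le h3)
          exact ⟨by linarith, by linarith⟩
        exact Set.disjoint_left.1 (hdisj hne) hxp h4
  · have h2 : FreeGroup.lift G (encW k) x = x :=
      (lift_supp _ G (fun a x hx => (hG1 a).supp x hx) (encW k)).1 x hx
    rw [h2]
    refine hx1 fun p => ?_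
    by_contra hcon
    push Not at hcon
    apply hx
    refine Set.mem_iUnion.2 ⟨p, ?_⟩
    have h3 := hRge p
    have h5 := abs_lt.1 (hcon.trans_le h3)
    exact ⟨by linarith, by linarith⟩

end GC45
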