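import Pool.Agent.LibGC45.P3
import Pool.Agent.LibGC45.H6
import Pool.Agent.LibGC45.U1
import Pool.Agent.LibGC45.B4b

open Filter Topology Set

namespace GC45

theorem o1_norm_map {α β : Type*} [DecidableEq α] [DecidableEq β] (f : α → β) (w : FreeGroup α) :
    (FreeGroup.map f w).norm ≤ w.norm := by
  conv_lhs => rw [← FreeGroup.mk_toWord (x := w)]
  rw [FreeGroup.map.mk]
  refine FreeGroup.norm_mk_le.trans ?_
  rw [List.length_map]
  exact le_rfl

/-- the three letters of the first word -/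
def o1_i1 (a : Fin 3) : Fin 21 := ⟨a, by omega⟩
/-- the nine letters of the second word -/
def o1_i2 (a : Fin 9) : Fin 21 := ⟨3 + a, by omega⟩
/-- the nine letters of the third word -/
def o1_i3 (a : Fin 9) : Fin 21 := ⟨12 + a, by omega⟩

theorem one_sided : ∃ κ : ℝ, 0 < κ ∧ ∀ g : Pm, DD κ (Ioo 0 1) g →
    ∃ (n : ℕ → ℕ) (w : ℕ → FreeGroup (Fin 21)) (P : Fin 21 → Pm), (∀ a, DD (1 / 4) (Ioo 0 1) (P a)) ∧
      (∀ k, (k + 1) ^ 2 ≤ n k ∧ (k + 1) * (w k).norm ≤ 60 * n k) ∧
      ∀ k, ∀ᶠ x in 𝓝 (0 : ℝ), FreeGroup.lift P (w k) x = (g ^ (n k)) x := by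
  obtain ⟨C, hC, hrem⟩ := remove_hyperbolic
  obtain ⟨n, w, hnw, hw⟩ := universal_words
  have hC0 : 0 < C := by linarith
  refine ⟨1 / 1001 ^ 12 / C, by positivity, fun g hg => ?_⟩
  have hCκ : C * (1 / 1001 ^ 12 / C) = 1 / 1001 ^ 12 := by field_simp
  obtain ⟨g₁, hg₁, hpar, hH⟩ := hrem (1 / 1001 ^ 12 / C) (by rw [hCκ]; norm_num) g hg
  rw [hCκ] at hg₁
  obtain ⟨P, G, hP, hG, hPG⟩ := parabolic g₁ hg₁ hpar n w hw
  obtain ⟨G', hG', hGg⟩ := hH n
  -- the letters
  let Q : Fin 21 → Pm := fun a =>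
    if h : (a : ℕ) < 3 then P ⟨a, h⟩
    else if h' : (a : ℕ) < 12 then G ⟨a - 3, by omega⟩
    else G' ⟨a - 12, by omega⟩
  have hQ1 : Q ∘ o1_i1 = P := by
    funext a
    have : ((o1_i1 a : Fin 21) : ℕ) < 3 := a.2
    simp only [Q, Function.comp, this, dite_true]
    rfl
  have hQ2 : Q ∘ o1_i2 = G := by
    funext a
    have e : ((o1_i2 a : Fin 21) : ℕ) = 3 + a := rfl
    have h1 : ¬ (((o1_i2 a : Fin 21) : ℕ) < 3) := by rw [e]; omega
    have h2 : ((o1_i2 a : Fin 21) : ℕ) < 12 := by rw [e]; omega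
    simp only [Q, Function.comp, h1, h2, dite_true, dite_false]
    congr 1
    apply Fin.ext
    simp [e]
  have hQ3 : Q ∘ o1_i3 = G' := by
    funext a
    have e : ((o1_i3 a : Fin 21) : ℕ) = 12 + a := rfl
    have h1 : ¬ (((o1_i3 a : Fin 21) : ℕ) < 3) := by rw [e]; omega
    have h2 : ¬ (((o1_i3 a : Fin 21) : ℕ) < 12) := by rw [e]; omega
    simp only [Q, Function.comp, h1, h2, dite_false]
    congr 1
    apply Fin.ext
    simp [e]
  have hQD : ∀ a, DD (1 / 4) (Ioo 0 1) (Q a) := by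
    intro a
    simp only [Q]
    split_ifs with h h'
    · exact hP _
    · exact hG _
    · exact hG' _
  have hlift : ∀ (m : ℕ) (f : Fin m → Fin 21) (v : FreeGroup (Fin m)),
      FreeGroup.lift Q (FreeGroup.map f v) = FreeGroup.lift (Q ∘ f) v := by
    intro m f v
    have : (FreeGroup.lift Q).comp (FreeGroup.map f) = FreeGroup.lift (Q ∘ f) := by
      ext a
      simp
    exact DFunLike.congr_fun this v
  refine ⟨n, fun k => FreeGroup.map o1_i1 (w k) * (FreeGroup.map o1_i2 (encW k) *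
    FreeGroup.map o1_i3 (encW k)), Q, hQD, fun k => ⟨(hnw k).1, ?_⟩, fun k => ?_⟩
  · have h1 := (hnw k).1
    have h2 := (hnw k).2
    have h3 : (FreeGroup.map o1_i1 (w k) * (FreeGroup.map o1_i2 (encW k) *
        FreeGroup.map o1_i3 (encW k))).norm ≤ (w k).norm + ((20 * k + 18) + (20 * k + 18)) := by
      refine (FreeGroup.norm_mul_le _ _).trans (add_le_add (o1_norm_map _ _) ?_)
      refine (FreeGroup.norm_mul_le _ _).trans (add_le_add ?_ ?_)
      · exact (o1_norm_map _ _).trans (encW_norm k)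
      · exact (o1_norm_map _ _).trans (encW_norm k)
    refine (Nat.mul_le_mul_left (k + 1) h3).trans ?_
    nlinarith
  · have hsupp := (lift_supp (Ioo 0 1) G' (fun a x hx => (hG' a).supp x hx) (encW k)).1 0 (by simp)
    have hcont : Continuous (FreeGroup.lift G' (encW k) : Pm) :=
      (lift_size ∅ G' (fun a => (hG' a).isD) (fun a x => by simp) le_rfl (fun a x hx => hx.elim)
        (encW k)).1.continuous
    have ht : Tendsto (FreeGroup.lift G' (encW k) : Pm) (𝓝 0) (𝓝 0) := by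
      have := hcont.tendsto 0
      rwa [hsupp] at this
    filter_upwards [hGg k, ht.eventually (hPG k)] with x h1 h2
    rw [map_mul, map_mul, hlift, hlift, hlift, hQ1, hQ2, hQ3, Equiv.Perm.mul_apply,
      Equiv.Perm.mul_apply, h2, h1]

end GC45
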