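import Pool.Agent.LibGC45.F1
import Pool.Agent.LibGC45.F2
import Pool.Agent.LibGC45.F3
import Pool.Agent.LibGC45.O1

open Filter Topology Set

namespace GC45

open GermDist46

theorem f4_mem {s : ℝ} {F : Pm} (hF : DD s (Ioo 0 1) F) : F ∈ Loc1 :=
  mem_Loc1 hF.isD (hF.supp 0 (by simp))

/-- one-sided germs are distortion elements -/
theorem one_sided_distortion : ∃ κ : ℝ, 0 < κ ∧ ∀ (g : Loc1), DD κ (Ioo 0 1) (g : Pm) →
    ∀ T : Loc1 →* GermGroup 1, (∀ F G : Loc1, T F = T G ↔ (⇑(F : Pm)) =ᶠ[𝓝 0] (⇑(G : Pm))) →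
    IsDistortionElement (T g) := by
  obtain ⟨κ, hκ, H⟩ := one_sided
  refine ⟨κ, hκ, fun g hg T hT => ?_⟩
  obtain ⟨n, w, P, hP, hn, hw⟩ := H g hg
  let P' : Fin 21 → Loc1 := fun a => ⟨P a, f4_mem (hP a)⟩
  have hlift : ∀ v : FreeGroup (Fin 21), ((FreeGroup.lift P' v : Loc1) : Pm) = FreeGroup.lift P v := by
    intro v
    have : (Loc1.subtype.comp (FreeGroup.lift P')) = FreeGroup.lift P := by
      ext a
      simp [P']
    exact DFunLike.congr_fun this v
  refine distortion_of_words (fun a => T (P' a)) (T g) n w (fun k => (hn k).1)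
    (fun k => (hn k).2) fun k => ?_
  have h1 : FreeGroup.lift (fun a => T (P' a)) (w k) = T (FreeGroup.lift P' (w k)) := by
    have : FreeGroup.lift (fun a => T (P' a)) = T.comp (FreeGroup.lift P') := by
      ext a
      simp
    rw [this]; rfl
  rw [h1, ← map_pow, hT, hlift]
  exact hw k

/-- the reflection of the line -/
noncomputable def f4_neg : Pm := Equiv.neg ℝ

theorem f4_neg_apply (x : ℝ) : f4_neg x = -x := rfl

theorem f4_neg_inv : f4_neg⁻¹ = f4_neg := by
  rw [inv_eq_iff_mul_eq_one]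
  ext x
  simp [f4_neg_apply]

theorem f4_neg_mem : f4_neg ∈ Loc1 := by
  have h : ContDiffAt ℝ (1 : ℕ) (f4_neg : ℝ → ℝ) 0 := contDiff_neg.contDiffAt
  refine ⟨by simp [f4_neg_apply], h, ?_⟩
  rw [f4_neg_inv]
  exact h

/-- tangent to the identity implies distorted -/
theorem distortion_of_deriv_one (g : GermGroup 1) (f : ℝ → ℝ) (hf : Represents g f)
    (h1 : deriv f 0 = 1) : IsDistortionElement g := by
  obtain ⟨κ, hκ, H⟩ := one_sided_distortion
  obtain ⟨T, hT1, hT2⟩ := exists_toGerm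
  have hfc : ContDiffAt ℝ 1 f 0 ∧ f 0 = 0 := by
    obtain ⟨F, rfl, _⟩ := hf
    exact ⟨F.contDiffAt', F.map_zero'⟩
  obtain ⟨g₁, g₂, hg₁, hg₂, hfg⟩ := split_germ f hfc.1 hfc.2 h1 hκ
  let G₁ : Loc1 := ⟨g₁, f4_mem hg₁⟩
  let G₂ : Loc1 := ⟨g₂, f4_mem hg₂⟩
  let N : Loc1 := ⟨f4_neg, f4_neg_mem⟩
  have hg : g = T G₁ * (T N * T G₂ * (T N)⁻¹) := by
    rw [← map_mul, ← map_inv, ← map_mul, ← map_mul]
    rw [represents_unique hf (hT1 _)]
    filter_upwards [hfg] with x hx
    rw [hx]
    show g₁ (-(g₂ (-x))) = (g₁ * (f4_neg * g₂ * f4_neg⁻¹)) x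
    rw [f4_neg_inv]
    rfl
  rw [hg]
  refine distortion_mul _ _ ?_ (H G₁ hg₁ T hT2) (distortion_conj _ _ (H G₂ hg₂ T hT2))
  rw [← map_mul, ← map_inv, ← map_mul]
  refine Commute.map ?_ T
  have hc : Commute g₁ (f4_neg * g₂ * f4_neg⁻¹) := by
    apply Equiv.Perm.Disjoint.commute
    intro x
    rcases le_or_gt x 0 with hx | hx
    · left
      exact hg₁.supp x (fun h => absurd h.1 (by linarith))
    · right
      rw [f4_neg_inv]
      show -(g₂ (-x)) = x
      rw [hg₂.supp (-x) (fun h => absurd h.1 (by linarith)), neg_neg]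
  exact Subtype.ext hc

theorem main (g : GermGroup 1) (f : ℝ → ℝ) (hf : Represents g f) :
    IsDistortionElement g ↔ |deriv f 0| = 1 := by
  constructor
  · intro hg
    obtain ⟨D, hD⟩ := exists_derivHom
    by_contra hne
    let φ : GermGroup 1 →* Multiplicative ℝ :=
      { toFun := fun g => Multiplicative.ofAdd (Real.log (D g : ℝ))
        map_one' := by simp
        map_mul' := fun x y => by
          rw [map_mul, Units.val_mul, Real.log_mul (Units.ne_zero _) (Units.ne_zero _), ofAdd_add] }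
    refine not_distortion_of_hom φ g ?_ hg
    intro h
    have h2 : Real.log (D g : ℝ) = 0 := h
    rw [hD g f hf] at h2
    have h3 : deriv f 0 ≠ 0 := by
      rw [← hD g f hf]
      exact Units.ne_zero _
    rcases Real.log_eq_zero.1 h2 with h4 | h4 | h4
    · exact h3 h4
    · exact hne (by rw [h4, abs_one])
    · exact hne (by rw [h4, abs_neg, abs_one])
  · intro h
    rcases eq_or_eq_neg_of_abs_eq h with h1 | h1
    · exact distortion_of_deriv_one g f hf h1
    · apply distortion_of_sq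
      obtain ⟨F, rfl, hF⟩ := hf
      have hrep : Represents (g ^ 2) (F * F).toFun := by
        refine ⟨F * F, rfl, ?_⟩
        rw [Con.coe_mul, hF, sq, Units.val_mul]
      refine distortion_of_deriv_one (g ^ 2) _ hrep ?_
      have hd : DifferentiableAt ℝ F.toFun 0 := F.contDiffAt'.differentiableAt (by simp)
      rw [CrFun.mul_toFun, deriv_comp 0 (by rw [F.map_zero']; exact hd) hd, F.map_zero', h1]
      norm_num

end GC45
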