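import Pool.Agent.LibGC45.H1

open Filter Topology Set

namespace GC45

theorem h2_lam_pos {g : Pm} {κ : ℝ} (hg : DD κ (Ioo 0 1) g) (p : Hyp g) : 0 < lam g p := by
  unfold lam
  apply abs_pos.mpr
  intro h
  have hp := hg.isD.pos (p : ℝ)
  rcases Real.log_eq_zero.mp h with h1 | h1 | h1
  · linarith
  · exact p.2.2 h1
  · linarith

/-- H2: choice of the radii -/
theorem hyperbolic_radii {g : Pm} {κ : ℝ} (hg : DD κ (Ioo 0 1) g) :
    ∃ ρ : Hyp g → ℝ, Radii g ρ := by
  have key : ∀ p : Hyp g, ∃ ρ : ℝ, 0 < ρ ∧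
      (∀ x : ℝ, |x - (p : ℝ)| ≤ 4 * ρ → |Real.log (deriv g x)| ≤ 2 * lam g p) ∧
      (∀ x : ℝ, |x - (p : ℝ)| ≤ 4 * ρ → x ≠ (p : ℝ) → g x ≠ x) ∧
      100 * ρ ≤ lam g p * (p : ℝ) ∧ 100 * ρ ≤ lam g p * (1 - (p : ℝ)) ∧
      ∀ p' : Hyp g, p ≠ p' → 100 * ρ ≤ lam g p * |(p : ℝ) - (p' : ℝ)| := by
    intro p
    have hl := h2_lam_pos hg p
    have hm := h1_mem hg p
    -- continuity of the logarithm of the derivative
    have hlogc : Continuous (fun z => |Real.log (deriv g z)|) :=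
      (hg.isD.continuous_deriv.log (fun x => (hg.isD.pos x).ne')).abs
    have hev1 : ∀ᶠ z in 𝓝 (p : ℝ), |Real.log (deriv g z)| < 2 * lam g p :=
      (hlogc.tendsto (p : ℝ)).eventually (gt_mem_nhds (by
        show |Real.log (deriv g (p : ℝ))| < 2 * lam g p
        have : |Real.log (deriv g (p : ℝ))| = lam g p := rfl
        linarith))
    -- isolation
    have hev2 : ∀ᶠ z in 𝓝[≠] (p : ℝ), g z ≠ z := by
      have h1 : Tendsto (slope g (p : ℝ)) (𝓝[≠] (p : ℝ)) (𝓝 (deriv g (p : ℝ))) :=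
        hasDerivAt_iff_tendsto_slope.mp (hg.isD.differentiable (p : ℝ)).hasDerivAt
      have h2 : ∀ᶠ z in 𝓝[≠] (p : ℝ), slope g (p : ℝ) z ≠ 1 :=
        h1.eventually_ne p.2.2
      filter_upwards [h2, self_mem_nhdsWithin] with z hz hz2 hz3
      apply hz
      rw [slope_def_field, hz3, p.2.1, div_self]
      exact sub_ne_zero.mpr hz2
    rw [eventually_nhdsWithin_iff] at hev2
    obtain ⟨r1, hr1, h1⟩ := Metric.eventually_nhds_iff.mp hev1
    obtain ⟨r2, hr2, h2⟩ := Metric.eventually_nhds_iff.mp hev2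
    have hq1 : 0 < lam g p * (p : ℝ) := mul_pos hl hm.1
    have hq2 : 0 < lam g p * (1 - (p : ℝ)) := mul_pos hl (by linarith [hm.2])
    have hq3 : 0 < lam g p * r2 := mul_pos hl hr2
    refine ⟨min (min (r1 / 8) (r2 / 8)) (min (min (lam g p * (p : ℝ) / 100)
      (lam g p * (1 - (p : ℝ)) / 100)) (lam g p * r2 / 100)), ?_, ?_, ?_, ?_, ?_, ?_⟩
    · exact lt_min (lt_min (by linarith) (by linarith))
        (lt_min (lt_min (by linarith) (by linarith)) (by linarith))
    · intro x hx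
      have h3 : min (min (r1 / 8) (r2 / 8)) (min (min (lam g p * (p : ℝ) / 100)
        (lam g p * (1 - (p : ℝ)) / 100)) (lam g p * r2 / 100)) ≤ r1 / 8 :=
        (min_le_left _ _).trans (min_le_left _ _)
      exact (h1 (y := x) (by rw [Real.dist_eq]; linarith)).le
    · intro x hx hne
      have h3 : min (min (r1 / 8) (r2 / 8)) (min (min (lam g p * (p : ℝ) / 100)
        (lam g p * (1 - (p : ℝ)) / 100)) (lam g p * r2 / 100)) ≤ r2 / 8 :=
        (min_le_left _ _).trans (min_le_right _ _)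
      exact h2 (y := x) (by rw [Real.dist_eq]; linarith) hne
    · have h3 : min (min (r1 / 8) (r2 / 8)) (min (min (lam g p * (p : ℝ) / 100)
        (lam g p * (1 - (p : ℝ)) / 100)) (lam g p * r2 / 100)) ≤ lam g p * (p : ℝ) / 100 :=
        (min_le_right _ _).trans ((min_le_left _ _).trans (min_le_left _ _))
      linarith
    · have h3 : min (min (r1 / 8) (r2 / 8)) (min (min (lam g p * (p : ℝ) / 100)
        (lam g p * (1 - (p : ℝ)) / 100)) (lam g p * r2 / 100)) ≤
          lam g p * (1 - (p : ℝ)) / 100 :=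
        (min_le_right _ _).trans ((min_le_left _ _).trans (min_le_right _ _))
      linarith
    · intro p' hpp
      have h3 : min (min (r1 / 8) (r2 / 8)) (min (min (lam g p * (p : ℝ) / 100)
        (lam g p * (1 - (p : ℝ)) / 100)) (lam g p * r2 / 100)) ≤ lam g p * r2 / 100 :=
        (min_le_right _ _).trans (min_le_right _ _)
      have h4 : r2 ≤ |(p : ℝ) - (p' : ℝ)| := by
        by_contra h5
        have h6 : dist (p' : ℝ) (p : ℝ) < r2 := by
          rw [Real.dist_eq, abs_sub_comm]; exact not_le.mp h5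
        exact h2 h6 (fun h => hpp (Subtype.ext h.symm)) p'.2.1
      have h7 : lam g p * r2 ≤ lam g p * |(p : ℝ) - (p' : ℝ)| := by gcongr
      linarith
  choose ρ h1 h2 h3 h4 h5 h6 using key
  exact ⟨ρ, h1, h2, h3, h4, h5, h6⟩

end GC45
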