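import Pool.Agent.LibGC45.B1

open Filter Topology Set

namespace GC45

theorem j1_abs_sub_one {g : Pm} (hg : IsD g) {s : ℝ} (h0 : 0 ≤ s) (hs : s ≤ 1 / 2) {x : ℝ}
    (hx : |Real.log (deriv g x)| ≤ s) : |deriv g x - 1| ≤ 2 * s := by
  have h1 := abs_le.1 hx
  have hp := hg.pos x
  have hexp : deriv g x = Real.exp (Real.log (deriv g x)) := (Real.exp_log hp).symm
  have hup : deriv g x ≤ Real.exp s := by
    rw [hexp]; exact Real.exp_le_exp.2 h1.2
  have hlow : Real.exp (-s) ≤ deriv g x := by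
    rw [hexp]; exact Real.exp_le_exp.2 h1.1
  have hs1 : Real.exp s ≤ 1 + 2 * s := by
    have := Real.abs_exp_sub_one_sub_id_le (x := s) (by rw [abs_of_nonneg h0]; linarith)
    have := (abs_le.1 this).2
    nlinarith
  have hs2 : 1 - s ≤ Real.exp (-s) := by
    have := Real.add_one_le_exp (-s)
    linarith
  rw [abs_le]
  constructor <;> linarith

theorem j1_one_le {ι : Type} {g : Pm} {m : ι → ℕ} {y ℓ : ι → ℝ} (hb : Blocks g ι m y ℓ) (i : ι) :
    (1000 : ℝ) ≤ m i := by exact_mod_cast hb.large i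

/-- J1: comparison of displacements inside one block (and a bit around) -/
theorem Blocks.disp {g : Pm} {ι : Type} {m : ι → ℕ} {y ℓ : ι → ℝ} (hg : IsD g)
    (hb : Blocks g ι m y ℓ) (i : ι) (x : ℝ) (hx : x ∈ Icc (y i - 2 * ℓ i) (y i + 3 * ℓ i)) :
    |(g x - x) - (g (y i + ℓ i / 2) - (y i + ℓ i / 2))| ≤
      1 / 1000 * |g (y i + ℓ i / 2) - (y i + ℓ i / 2)| := by
  have hℓ := hb.len_pos i
  have hM := j1_one_le hb i
  have hMpos : (0 : ℝ) < m i := by linarith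
  set M : ℝ := (m i : ℝ) with hMdef
  set c : ℝ := y i + ℓ i / 2 with hc
  have hup : ℓ i / 2 ≤ M ^ 4 * |g c - c| := hb.upper i
  have hs : (1 : ℝ) / M ^ 12 ≤ 1 / 2 := by
    have : (1000 : ℝ) ^ 12 ≤ M ^ 12 := pow_le_pow_left₀ (by norm_num) hM 12
    rw [div_le_div_iff₀ (by positivity) (by norm_num)]
    linarith
  have hs0 : (0 : ℝ) ≤ 1 / M ^ 12 := by positivity
  have hd : ∀ z, HasDerivAt (fun z => g z - z) (deriv g z - 1) z := fun z =>
    ((hg.differentiable z).hasDerivAt).sub (hasDerivAt_id z)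
  have hcmem : c ∈ Icc (y i - 2 * ℓ i) (y i + 3 * ℓ i) := by
    rw [hc]; constructor <;> linarith
  have key := Convex.norm_image_sub_le_of_norm_deriv_le (f := fun z => g z - z)
    (s := Icc (y i - 2 * ℓ i) (y i + 3 * ℓ i)) (C := 2 * (1 / M ^ 12)) (x := c) (y := x)
    (fun z _ => (hd z).differentiableAt)
    (fun z hz => by
      rw [Real.norm_eq_abs, (hd z).deriv]
      exact j1_abs_sub_one hg hs0 hs (hb.slope i z hz))
    (convex_Icc _ _) hcmem hx
  simp only [Real.norm_eq_abs] at key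
  have hxc : |x - c| ≤ 5 / 2 * ℓ i := by
    rw [abs_le, hc]; constructor <;> linarith [hx.1, hx.2]
  refine key.trans ?_
  have h1 : 2 * (1 / M ^ 12) * |x - c| ≤ 2 * (1 / M ^ 12) * (5 / 2 * ℓ i) :=
    mul_le_mul_of_nonneg_left hxc (by positivity)
  refine h1.trans ?_
  have h2 : 2 * (1 / M ^ 12) * (5 / 2 * ℓ i) ≤ 2 * (1 / M ^ 12) * (5 * (M ^ 4 * |g c - c|)) :=
    mul_le_mul_of_nonneg_left (by linarith) (by positivity)
  refine h2.trans ?_
  have h3 : 2 * (1 / M ^ 12) * (5 * (M ^ 4 * |g c - c|)) = 10 / M ^ 8 * |g c - c| := by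
    field_simp
    ring
  rw [h3]
  refine mul_le_mul_of_nonneg_right ?_ (abs_nonneg _)
  have h4 : (1000 : ℝ) ^ 8 ≤ M ^ 8 := pow_le_pow_left₀ (by norm_num) hM 8
  rw [div_le_div_iff₀ (by positivity) (by norm_num)]
  linarith

theorem j1_phi_pos {g : Pm} {ι : Type} {m : ι → ℕ} {y ℓ : ι → ℝ}
    (hb : Blocks g ι m y ℓ) (i : ι) : 0 < |g (y i + ℓ i / 2) - (y i + ℓ i / 2)| := by
  have hℓ := hb.len_pos i
  have := hb.sub i (y i + ℓ i / 2) ⟨by linarith, by linarith⟩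
  exact abs_pos.2 (sub_ne_zero.2 this)

/-- upper and lower bounds for displacements in terms of the displacement of the centre -/
theorem j1_disp_bounds {g : Pm} {ι : Type} {m : ι → ℕ} {y ℓ : ι → ℝ} (hg : IsD g)
    (hb : Blocks g ι m y ℓ) (i : ι) (x : ℝ) (hx : x ∈ Icc (y i - 2 * ℓ i) (y i + 3 * ℓ i)) :
    |g x - x| ≤ 1001 / 1000 * |g (y i + ℓ i / 2) - (y i + ℓ i / 2)| ∧
      999 / 1000 * |g (y i + ℓ i / 2) - (y i + ℓ i / 2)| ≤ |g x - x| := by
  have h := hb.disp hg i x hx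
  have h1 := abs_sub_abs_le_abs_sub (g x - x) (g (y i + ℓ i / 2) - (y i + ℓ i / 2))
  have h2 := abs_sub_abs_le_abs_sub (g (y i + ℓ i / 2) - (y i + ℓ i / 2)) (g x - x)
  rw [abs_sub_comm (g (y i + ℓ i / 2) - (y i + ℓ i / 2)) (g x - x)] at h2
  constructor <;> linarith

theorem Blocks.jr_pos {g : Pm} {ι : Type} {m : ι → ℕ} {y ℓ : ι → ℝ}
    (hb : Blocks g ι m y ℓ) (i : ι) : 0 < jr g m y i := by
  have hℓ := hb.len_pos i
  have h := hb.sub i (y i) ⟨le_rfl, by linarith⟩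
  have hM := j1_one_le hb i
  have h1 : 0 < |g (y i) - y i| := abs_pos.2 (sub_ne_zero.2 h)
  unfold jr
  have : (0 : ℝ) < m i := by linarith
  positivity

theorem Blocks.jr_le {g : Pm} {ι : Type} {m : ι → ℕ} {y ℓ : ι → ℝ}
    (hb : Blocks g ι m y ℓ) (i : ι) : jr g m y i ≤ jM m i * jr g m y i := by
  have h := hb.jr_pos i
  have hM := j1_one_le hb i
  have : 1 ≤ jM m i := by unfold jM; linarith
  nlinarith

/-- J2: room on the right and on the left of a junction -/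
theorem Blocks.room_right {g : Pm} {ι : Type} {m : ι → ℕ} {y ℓ : ι → ℝ} (hg : IsD g)
    (hb : Blocks g ι m y ℓ) (i : ι) :
    0 < jr g m y i ∧ (1000 < m i → jr g m y i < jM m i * jr g m y i) ∧
      jM m i * jr g m y i ≤ ℓ i / 3 := by
  have hℓ := hb.len_pos i
  refine ⟨hb.jr_pos i, fun h => ?_, ?_⟩
  · have h1 : (1000 : ℝ) < m i := by exact_mod_cast h
    have h2 : 1 < jM m i := by unfold jM; linarith
    have h3 := hb.jr_pos i
    nlinarith
  · have hM := j1_one_le hb i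
    have hd := (j1_disp_bounds hg hb i (y i) ⟨by linarith, by linarith⟩).1
    have hl := hb.lower i
    have e : jM m i * jr g m y i = 4 / 1000 * ((m i : ℝ) ^ 4 * |g (y i) - y i|) := by
      unfold jM jr; ring
    rw [e]
    have h4 : (m i : ℝ) ^ 4 * |g (y i) - y i| ≤
        (m i : ℝ) ^ 4 * (1001 / 1000 * |g (y i + ℓ i / 2) - (y i + ℓ i / 2)|) :=
      mul_le_mul_of_nonneg_left hd (by positivity)
    linarith

theorem Blocks.room_left {g : Pm} {ι : Type} {m : ι → ℕ} {y ℓ : ι → ℝ} (hg : IsD g)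
    (hb : Blocks g ι m y ℓ) (i j : ι) (hij : y j + ℓ j = y i) :
    jM m i * jr g m y i ≤ ℓ j / 3 := by
  have hℓ := hb.len_pos j
  have hM := j1_one_le hb j
  have hd := (j1_disp_bounds hg hb j (y i) ⟨by linarith, by linarith⟩).1
  have hl := hb.lower j
  have hn : (m i : ℝ) ≤ m j + 1 := by exact_mod_cast (hb.near j i hij).2
  have e : jM m i * jr g m y i = 4 / 1000 * ((m i : ℝ) ^ 4 * |g (y i) - y i|) := by
    unfold jM jr; ring
  rw [e]
  have hn2 : (m i : ℝ) ≤ 1001 / 1000 * m j := by linarith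
  have hn4 : (m i : ℝ) ^ 4 ≤ (1001 / 1000 * m j) ^ 4 :=
    pow_le_pow_left₀ (by positivity) hn2 4
  have h4 : (m i : ℝ) ^ 4 * |g (y i) - y i| ≤
      (1001 / 1000 * m j) ^ 4 * (1001 / 1000 * |g (y j + ℓ j / 2) - (y j + ℓ j / 2)|) :=
    mul_le_mul hn4 hd (abs_nonneg _) (by positivity)
  have e2 : (1001 / 1000 * (m j : ℝ)) ^ 4 * (1001 / 1000 * |g (y j + ℓ j / 2) - (y j + ℓ j / 2)|) =
      (1001 / 1000) ^ 5 * ((m j : ℝ) ^ 4 * |g (y j + ℓ j / 2) - (y j + ℓ j / 2)|) := by ring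
  rw [e2] at h4
  have h5 : ((1001 : ℝ) / 1000) ^ 5 * ((m j : ℝ) ^ 4 * |g (y j + ℓ j / 2) - (y j + ℓ j / 2)|) ≤
      (1001 / 1000) ^ 5 * (100 * (ℓ j / 2)) := mul_le_mul_of_nonneg_left hl (by positivity)
  have h6 : ((1001 : ℝ) / 1000) ^ 5 ≤ 101 / 100 := by norm_num
  nlinarith

end GC45
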