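import Pool.Agent.LibGC45.J1

open Filter Topology Set

namespace GC45

/-- the key case of the disjointness -/
theorem j2_aux {g : Pm} {ι : Type} {m : ι → ℕ} {y ℓ : ι → ℝ} (hg : IsD g)
    (hb : Blocks g ι m y ℓ) {i j : ι} (h : y i + ℓ i ≤ y j) :
    y i + jM m i * jr g m y i ≤ y j - jM m j * jr g m y j := by
  have hi := hb.len_pos i
  have hR := (hb.room_right hg i).2.2
  obtain ⟨k, hk⟩ := hb.left j
  have hkℓ := hb.len_pos k
  have hL := hb.room_left hg j k hk
  by_cases hik : i = k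
  · subst hik
    linarith
  · rcases hb.disj i k hik with h1 | h1
    · linarith
    · linarith

/-- J3: the junction regions are pairwise disjoint -/
theorem Blocks.junction_disjoint {g : Pm} {ι : Type} {m : ι → ℕ} {y ℓ : ι → ℝ} (hg : IsD g)
    (hb : Blocks g ι m y ℓ) :
    Pairwise (Function.onFun Disjoint (fun i =>
      Ioo (y i - jM m i * jr g m y i) (y i + jM m i * jr g m y i))) := by
  intro i j hij
  rw [Function.onFun, Set.disjoint_left]
  intro x hx hx'
  rcases hb.disj i j hij with h | h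
  · have := j2_aux hg hb h
    linarith [hx.2, hx'.1]
  · have := j2_aux hg hb h
    linarith [hx'.2, hx.1]

/-- the junction at a boundary point of the block `j` dominates the complement of the core -/
theorem j2_jr_lower {g : Pm} {ι : Type} {m : ι → ℕ} {y ℓ : ι → ℝ} (hg : IsD g)
    (hb : Blocks g ι m y ℓ) (i j : ι) (hy : y i ∈ Icc (y j - 2 * ℓ j) (y j + 3 * ℓ j))
    (hm : (m j : ℝ) ≤ m i + 1) :
    3 * (m j : ℝ) ^ 3 * |g (y j + ℓ j / 2) - (y j + ℓ j / 2)| ≤ 9 / 10 * jr g m y i := by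
  have hM := j1_one_le hb i
  have hMj := j1_one_le hb j
  have hd := (j1_disp_bounds hg hb j (y i) hy).2
  have h1 : 999 / 1000 * (m j : ℝ) ≤ m i := by linarith
  have h3 : (999 / 1000 * (m j : ℝ)) ^ 3 ≤ (m i : ℝ) ^ 3 :=
    pow_le_pow_left₀ (by positivity) h1 3
  have h4 : (999 / 1000 * (m j : ℝ)) ^ 3 *
      (999 / 1000 * |g (y j + ℓ j / 2) - (y j + ℓ j / 2)|) ≤ (m i : ℝ) ^ 3 * |g (y i) - y i| :=
    mul_le_mul h3 hd (by positivity) (by positivity)
  have e1 : (999 / 1000 * (m j : ℝ)) ^ 3 *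
      (999 / 1000 * |g (y j + ℓ j / 2) - (y j + ℓ j / 2)|) =
      (999 / 1000) ^ 4 * ((m j : ℝ) ^ 3 * |g (y j + ℓ j / 2) - (y j + ℓ j / 2)|) := by ring
  rw [e1] at h4
  have e2 : 9 / 10 * jr g m y i = 36 / 10 * ((m i : ℝ) ^ 3 * |g (y i) - y i|) := by
    unfold jr; ring
  rw [e2]
  have h5 : (99 / 100 : ℝ) ≤ (999 / 1000) ^ 4 := by norm_num
  have h6 : (0 : ℝ) ≤ (m j : ℝ) ^ 3 * |g (y j + ℓ j / 2) - (y j + ℓ j / 2)| := by positivity
  nlinarith

/-- J4: in the junction region but away from the junction one is in the core of a block -/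
theorem Blocks.core_of_room {g : Pm} {ι : Type} {m : ι → ℕ} {y ℓ : ι → ℝ} (hg : IsD g)
    (hb : Blocks g ι m y ℓ) (i : ι) (x : ℝ) (h1 : 9 / 10 * jr g m y i ≤ |x - y i|)
    (h2 : |x - y i| < jM m i * jr g m y i) :
    ∃ j, Core g m y ℓ j x ∧ x ∈ Ioo (y j) (y j + ℓ j) ∧ m i ≤ m j + 1 := by
  have hjr := hb.jr_pos i
  rcases lt_or_ge (y i) x with hx | hx
  · have hℓ := hb.len_pos i
    rw [abs_of_pos (by linarith)] at h1 h2
    have hR := (hb.room_right hg i).2.2
    have hlow := j2_jr_lower hg hb i i ⟨by linarith, by linarith⟩ (by linarith)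
    refine ⟨i, ?_, ⟨hx, by linarith⟩, by omega⟩
    unfold Core
    rw [abs_of_neg (by linarith)]
    linarith
  · obtain ⟨j, hj⟩ := hb.left i
    have hℓ := hb.len_pos j
    rw [abs_of_nonpos (by linarith)] at h1 h2
    have hR := hb.room_left hg i j hj
    have hn := hb.near j i hj
    have hlow := j2_jr_lower hg hb i j ⟨by linarith, by linarith⟩ (by exact_mod_cast hn.1)
    refine ⟨j, ?_, ⟨by linarith, by linarith⟩, hn.2⟩
    unfold Core
    rw [abs_of_pos (by linarith)]
    linarith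

/-- J5: a point moved by `g` is in the core of its block or in a junction -/
theorem Blocks.core_or {g : Pm} {ι : Type} {m : ι → ℕ} {y ℓ : ι → ℝ} (hg : IsD g)
    (hb : Blocks g ι m y ℓ) (x : ℝ) (hx : g x ≠ x) :
    (∃ i, Core g m y ℓ i x ∧ x ∈ Ioo (y i) (y i + ℓ i)) ∨
      ∃ i, x ∈ Ioo (y i - jr g m y i) (y i + jr g m y i) := by
  obtain ⟨i, hi1, hi2⟩ := hb.cover x hx
  have hℓ := hb.len_pos i
  have hjr := hb.jr_pos i
  by_cases hc : Core g m y ℓ i x
  · rcases hi1.eq_or_lt with h | h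
    · right
      exact ⟨i, by linarith, by linarith⟩
    · left
      exact ⟨i, hc, h, hi2⟩
  · right
    unfold Core at hc
    rw [not_le] at hc
    rcases le_or_gt x (y i + ℓ i / 2) with h | h
    · rw [abs_of_nonpos (show x - (y i + ℓ i / 2) ≤ 0 by linarith)] at hc
      have hlow := j2_jr_lower hg hb i i ⟨by linarith, by linarith⟩ (by linarith)
      exact ⟨i, by linarith, by linarith⟩
    · rw [abs_of_pos (show 0 < x - (y i + ℓ i / 2) by linarith)] at hc
      obtain ⟨j, hj⟩ := hb.right i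
      have hjr' := hb.jr_pos j
      have hn := hb.near i j hj.symm
      have hlow := j2_jr_lower hg hb j i ⟨by linarith, by linarith⟩ (by exact_mod_cast hn.1)
      exact ⟨j, by linarith, by linarith⟩

end GC45
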