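import Pool.Agent.LibGC45.B1
import Pool.Agent.LibGC45.B2a

open Filter Topology Set

namespace GC45

private theorem k1_abs_sub_one {u δ : ℝ} (hu : 0 < u) (hδ : δ ≤ 1 / 2)
    (hl : |Real.log u| ≤ δ) : |u - 1| ≤ 2 * δ := by
  have h0 : 0 ≤ δ := (abs_nonneg _).trans hl
  have h1 := abs_le.1 hl
  have hexp : u = Real.exp (Real.log u) := (Real.exp_log hu).symm
  have hup : u ≤ Real.exp δ := by
    rw [hexp]; exact Real.exp_le_exp.2 h1.2
  have hlow : Real.exp (-δ) ≤ u := by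
    rw [hexp]; exact Real.exp_le_exp.2 h1.1
  have hs1 : Real.exp δ ≤ 1 + 2 * δ := by
    have := Real.abs_exp_sub_one_sub_id_le (x := δ) (by rw [abs_of_nonneg h0]; linarith)
    have := (abs_le.1 this).2
    nlinarith
  have hs2 : 1 - δ ≤ Real.exp (-δ) := by
    have := Real.add_one_le_exp (-δ)
    linarith
  rw [abs_le]
  constructor <;> linarith

/-- the perturbation `f x = χ x (h x - x - φ₀)` -/
private theorem k1_pert (C₀ : ℝ) (hC₀ : 1 ≤ C₀) (δ r φ₀ x₀ : ℝ) (hδ0 : 0 ≤ δ) (hδ : δ ≤ 1 / 2)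
    (hr : 0 < r) (h : Pm) (hD : IsD h) (hx₀ : h x₀ = x₀ + φ₀)
    (hlog : ∀ x ∈ Icc (x₀ - 2 * r) (x₀ + 2 * r), |Real.log (deriv h x)| ≤ δ)
    (χ : ℝ → ℝ) (hχ : ContDiff ℝ 1 χ) (hχ01 : ∀ x, 0 ≤ χ x ∧ χ x ≤ 1)
    (hχd : ∀ x, |deriv χ x| ≤ C₀ / r) (hχl : ∀ x, x ≤ x₀ - 2 * r → χ x = 0)
    (hχr : ∀ x, x₀ + 2 * r ≤ x → χ x = 0) :
    ContDiff ℝ 1 (fun x => χ x * (h x - x - φ₀)) ∧
      (∀ x, |deriv (fun x => χ x * (h x - x - φ₀)) x| ≤ 6 * C₀ * δ) ∧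
      ∀ x, |χ x * (h x - x - φ₀)| ≤ 4 * δ * r := by
  have hd1 : ∀ z ∈ Icc (x₀ - 2 * r) (x₀ + 2 * r), |deriv h z - 1| ≤ 2 * δ := fun z hz =>
    k1_abs_sub_one (hD.pos z) hδ (hlog z hz)
  have hdd : ∀ z, HasDerivAt (fun z => h z - z) (deriv h z - 1) z := fun z =>
    ((hD.differentiable z).hasDerivAt).sub (hasDerivAt_id z)
  have hdisp : ∀ x ∈ Icc (x₀ - 2 * r) (x₀ + 2 * r), |h x - x - φ₀| ≤ 4 * δ * r := by
    intro x hx
    have h1 := Convex.norm_image_sub_le_of_norm_deriv_le (f := fun z => h z - z)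
      (s := Icc (x₀ - 2 * r) (x₀ + 2 * r)) (C := 2 * δ) (x := x₀) (y := x)
      (fun z _ => (hdd z).differentiableAt)
      (fun z hz => by rw [Real.norm_eq_abs, (hdd z).deriv]; exact hd1 z hz)
      (convex_Icc _ _) ⟨by linarith, by linarith⟩ hx
    rw [Real.norm_eq_abs, Real.norm_eq_abs, hx₀] at h1
    have h2 : h x - x - (x₀ + φ₀ - x₀) = h x - x - φ₀ := by ring
    rw [h2] at h1
    have h3 : |x - x₀| ≤ 2 * r := by
      rw [abs_le]; constructor <;> linarith [hx.1, hx.2]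
    calc |h x - x - φ₀| ≤ 2 * δ * |x - x₀| := h1
      _ ≤ 2 * δ * (2 * r) := mul_le_mul_of_nonneg_left h3 (by positivity)
      _ = 4 * δ * r := by ring
  have hout : ∀ x, x ∉ Icc (x₀ - 2 * r) (x₀ + 2 * r) → χ x = 0 := by
    intro x hx
    by_cases h1 : x₀ - 2 * r ≤ x
    · by_cases h2 : x ≤ x₀ + 2 * r
      · exact absurd ⟨h1, h2⟩ hx
      · exact hχr x (by linarith)
    · exact hχl x (by linarith)
  refine ⟨?_, ?_, ?_⟩
  · exact hχ.mul ((hD.contDiff.sub contDiff_id).sub contDiff_const)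
  · intro x
    by_cases hx : x ∈ Icc (x₀ - 2 * r) (x₀ + 2 * r)
    · have h1 : HasDerivAt (fun x => χ x * (h x - x - φ₀))
          (deriv χ x * (h x - x - φ₀) + χ x * (deriv h x - 1)) x := by
        have h2 : HasDerivAt χ (deriv χ x) x :=
          ((hχ.differentiable one_ne_zero) x).hasDerivAt
        have h3 : HasDerivAt (fun x => h x - x - φ₀) (deriv h x - 1) x :=
          (hdd x).sub_const φ₀
        exact h2.mul h3
      rw [h1.deriv]
      refine (abs_add_le _ _).trans ?_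
      rw [abs_mul, abs_mul, abs_of_nonneg (hχ01 x).1]
      have h4 : |deriv χ x| * |h x - x - φ₀| ≤ C₀ / r * (4 * δ * r) :=
        mul_le_mul (hχd x) (hdisp x hx) (abs_nonneg _) (by positivity)
      have h5 : χ x * |deriv h x - 1| ≤ 1 * (2 * δ) :=
        mul_le_mul (hχ01 x).2 (hd1 x hx) (abs_nonneg _) (by norm_num)
      have h6 : C₀ / r * (4 * δ * r) = 4 * C₀ * δ := by field_simp
      rw [h6] at h4
      nlinarith
    · have h1 : (fun x => χ x * (h x - x - φ₀)) =ᶠ[𝓝 x] fun _ => 0 := by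
        have h2 : (Icc (x₀ - 2 * r) (x₀ + 2 * r))ᶜ ∈ 𝓝 x :=
          isClosed_Icc.isOpen_compl.mem_nhds hx
        filter_upwards [h2] with y hy
        rw [hout y hy, zero_mul]
      rw [h1.deriv_eq, deriv_const, abs_zero]
      positivity
  · intro x
    by_cases hx : x ∈ Icc (x₀ - 2 * r) (x₀ + 2 * r)
    · rw [abs_mul, abs_of_nonneg (hχ01 x).1]
      calc χ x * |h x - x - φ₀| ≤ 1 * (4 * δ * r) :=
            mul_le_mul (hχ01 x).2 (hdisp x hx) (abs_nonneg _) (by norm_num)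
        _ = 4 * δ * r := one_mul _
    · rw [hout x hx, zero_mul, abs_zero]
      positivity

/-- iterates of `x ↦ x + f x + φ₀` -/
private theorem k1_iter (H : Pm) (f : ℝ → ℝ) (φ₀ κ : ℝ) (hH : ∀ x, H x = x + f x + φ₀)
    (hf : ∀ x, |f x| ≤ κ) (n : ℕ) (x : ℝ) : |(H ^ n) x - x - n * φ₀| ≤ n * κ := by
  induction n with
  | zero => simp
  | succ n ih =>
    rw [pow_succ', Equiv.Perm.mul_apply, hH]
    have h1 := abs_le.1 ih
    have h2 := abs_le.1 (hf ((H ^ n) x))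
    rw [Nat.cast_succ, abs_le]
    constructor <;> linarith [h1.1, h1.2, h2.1, h2.2]

/-- Straightening: on the ball of radius `r` the map `h` is conjugate to the translation by `φ₀`,
by a conjugacy very close to the identity. -/
theorem exists_straight : ∃ C : ℝ, 1 ≤ C ∧ ∀ (Q δ : ℝ), 1 ≤ Q → 0 ≤ δ → C * Q ^ 2 * δ ≤ 1 →
    ∀ (h : Pm), IsD h → ∀ (x₀ r φ₀ : ℝ), h x₀ = x₀ + φ₀ → φ₀ ≠ 0 → r = Q * |φ₀| →
    (∀ x ∈ Icc (x₀ - 2 * r) (x₀ + 2 * r), |Real.log (deriv h x)| ≤ δ) →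
    ∃ ψ : Pm, IsD ψ ∧ (∀ x, |Real.log (deriv ψ x)| ≤ C * Q * δ) ∧
      (∀ x, |x - x₀| ≤ 2 * r → |ψ x - x| ≤ |φ₀|) ∧
      (∀ x, |x - x₀| ≤ r → ψ (h x) = ψ x + φ₀) := by
  obtain ⟨C₀, hC₀, hplat⟩ := exists_plateau
  refine ⟨108 * C₀, by linarith, ?_⟩
  intro Q δ hQ hδ0 hCδ h hD x₀ r φ₀ hx₀ hφ hrQ hlog
  have hφ0 : 0 < |φ₀| := abs_pos.2 hφ
  have hr : 0 < r := by rw [hrQ]; positivity
  have hQ2 : 1 ≤ Q ^ 2 := by nlinarith
  have hδC : 108 * C₀ * δ ≤ 1 := by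
    have h1 : 0 ≤ 108 * C₀ * δ := by positivity
    nlinarith
  have hδ1 : 108 * δ ≤ 1 := by nlinarith
  obtain ⟨χ, hχ, hχ01, hχd, hχl, hχr, hχ1⟩ := hplat (x₀ - 2 * r) (x₀ + 2 * r) r hr (by linarith)
  obtain ⟨hf1, hf2, hf3⟩ := k1_pert C₀ hC₀ δ r φ₀ x₀ hδ0 (by linarith) hr h hD hx₀ hlog χ hχ hχ01
    hχd hχl hχr
  obtain ⟨F, hF1, hF2⟩ := exists_idAdd (fun x => χ x * (h x - x - φ₀)) hf1
    (s := 6 * C₀ * δ) (by linarith) hf2 univ (fun x hx => absurd (mem_univ x) hx)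
  -- the modified map
  set T : ℝ → Pm := fun t => aff 1 t one_ne_zero with hT
  have hTD : ∀ t, IsD (T t) := fun t => aff_isD one_pos
  have hTd : ∀ t x, deriv (T t) x = 1 := fun t x => (b1_aff_hasDerivAt one_ne_zero x).deriv
  have hTa : ∀ t x, T t x = x + t := fun t x => by rw [hT, aff_apply, one_mul]
  set H : Pm := T φ₀ * F with hHdef
  have hH : ∀ x, H x = x + χ x * (h x - x - φ₀) + φ₀ := by
    intro x
    rw [hHdef, Equiv.Perm.mul_apply, hTa, hF2]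
  have hHD : IsD H := (hTD _).mul hF1.isD
  have hHlog : ∀ x, |Real.log (deriv H x)| ≤ 12 * C₀ * δ := by
    intro x
    rw [hHdef, (hTD _).deriv_mul hF1.isD, hTd, one_mul]
    refine (hF1.sz x).trans (le_of_eq ?_)
    ring
  -- the number of iterates
  obtain ⟨N, hN1, hN2⟩ : ∃ N : ℕ, 4 * Q + 4 ≤ (N : ℝ) ∧ (N : ℝ) ≤ 9 * Q := by
    refine ⟨⌈4 * Q⌉₊ + 4, ?_, ?_⟩
    · push_cast
      linarith [Nat.le_ceil (4 * Q)]
    · push_cast
      linarith [Nat.ceil_lt_add_one (show 0 ≤ 4 * Q by linarith)]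
  have hN0 : (0 : ℝ) ≤ N := Nat.cast_nonneg N
  have hiter := fun x => k1_iter H (fun x => χ x * (h x - x - φ₀)) φ₀ (4 * δ * r) hH hf3 N x
  have hNκ : (N : ℝ) * (4 * δ * r) ≤ |φ₀| := by
    rw [hrQ]
    calc (N : ℝ) * (4 * δ * (Q * |φ₀|)) ≤ 9 * Q * (4 * δ * (Q * |φ₀|)) :=
          mul_le_mul_of_nonneg_right hN2 (by positivity)
      _ = (36 * (Q ^ 2 * δ)) * |φ₀| := by ring
      _ ≤ 1 * |φ₀| := by
          refine mul_le_mul_of_nonneg_right ?_ hφ0.le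
          have h1 : 0 ≤ Q ^ 2 * δ := by positivity
          nlinarith
      _ = |φ₀| := one_mul _
  have hψa : ∀ x, (T (-(N * φ₀)) * H ^ N) x = (H ^ N) x - N * φ₀ := by
    intro x
    rw [Equiv.Perm.mul_apply, hTa]; ring
  refine ⟨T (-(N * φ₀)) * H ^ N, (hTD _).mul (hHD.pow N), ?_, ?_, ?_⟩
  · intro x
    rw [(hTD _).deriv_mul (hHD.pow N), hTd, one_mul, hHD.log_deriv_pow]
    refine (Finset.abs_sum_le_sum_abs _ _).trans ?_
    refine (Finset.sum_le_sum (fun i _ => hHlog _)).trans ?_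
    rw [Finset.sum_const, Finset.card_range, nsmul_eq_mul]
    calc (N : ℝ) * (12 * C₀ * δ) ≤ 9 * Q * (12 * C₀ * δ) :=
          mul_le_mul_of_nonneg_right hN2 (by positivity)
      _ = 108 * C₀ * Q * δ := by ring
  · intro x _
    rw [hψa]
    have h1 := hiter x
    have h2 : (H ^ N) x - N * φ₀ - x = (H ^ N) x - x - N * φ₀ := by ring
    rw [h2]
    exact h1.trans hNκ
  · intro x hx
    have hx' := abs_le.1 hx
    have hHx : H x = h x := by
      rw [hH, hχ1 x (by linarith [hx'.1]) (by linarith [hx'.2])]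
      ring
    rw [hψa, hψa]
    have h1 : (H ^ N) (h x) = H ((H ^ N) x) := by
      rw [← hHx, ← Equiv.Perm.mul_apply, ← Equiv.Perm.mul_apply, ← pow_succ, ← pow_succ']
    rw [h1, hH ((H ^ N) x)]
    -- the point is far from `x₀`
    have h2 := (hiter x).trans hNκ
    have h3 := abs_le.1 h2
    have hχ0 : χ ((H ^ N) x) = 0 := by
      rcases lt_or_gt_of_ne hφ with hneg | hpos
      · apply hχl
        rw [abs_of_neg hneg] at h3 hrQ
        have h4 : (4 * Q + 4) * (-φ₀) ≤ N * (-φ₀) :=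
          mul_le_mul_of_nonneg_right hN1 (by linarith)
        nlinarith [h3.1, h3.2, hx'.1, hx'.2]
      · apply hχr
        rw [abs_of_pos hpos] at h3 hrQ
        have h4 : (4 * Q + 4) * φ₀ ≤ N * φ₀ :=
          mul_le_mul_of_nonneg_right hN1 hpos.le
        nlinarith [h3.1, h3.2, hx'.1, hx'.2]
    rw [hχ0]
    ring

end GC45
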