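import Pool.Agent.LibGC45.K1
import Pool.Agent.LibGC45.B2b
import Pool.Agent.LibGC45.B4b

open Filter Topology Set

namespace GC45

/-- the three models: `x ↦ x + τ + κ (x - x₀)` -/
private theorem k2_models (s : ℝ) (hs : 0 < s) (x₀ φ₀ : ℝ) (hφ : φ₀ ≠ 0) :
    ∃ τ κ : Fin 3 → ℝ,
      (∀ a, |τ a| ≤ |φ₀| / s) ∧ (∀ a, 0 ≤ κ a ∧ κ a ≤ s) ∧ (∀ a, τ a = 0 ∨ κ a = 0) ∧
      (∀ a x, (aff φ₀ x₀ hφ * affs s hs a * (aff φ₀ x₀ hφ)⁻¹) x =
        x + (τ a + κ a * (x - x₀))) ∧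
      (∀ a x, (aff φ₀ x₀ hφ * affs s hs a * (aff φ₀ x₀ hφ)⁻¹)⁻¹ x =
        x - (τ a + κ a / (1 + κ a) * (x - x₀))) := by
  have hinv : ∀ x, (aff φ₀ x₀ hφ)⁻¹ x = (x - x₀) / φ₀ := fun x => rfl
  have hs1 : 0 < 1 + s := by linarith
  have hs2 : 0 < 2 + s := by linarith
  set e : ℝ := (1 + s + (1 + s)⁻¹) / 2 - 1 with he
  have he' : e = s ^ 2 / (2 * (1 + s)) := by
    rw [he]; field_simp; ring
  have he0 : 0 ≤ e := by rw [he']; positivity
  have hes : e ≤ s := by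
    rw [he', div_le_iff₀ (by positivity)]; nlinarith
  refine ⟨![φ₀ * ((1 + s) / (s * (2 + s))), 0, 0], ![0, s, e], ?_, ?_, ?_, ?_, ?_⟩
  · intro a
    fin_cases a
    · change |φ₀ * ((1 + s) / (s * (2 + s)))| ≤ |φ₀| / s
      rw [abs_mul, abs_of_pos (show 0 < (1 + s) / (s * (2 + s)) by positivity),
        div_eq_mul_inv |φ₀| s]
      refine mul_le_mul_of_nonneg_left ?_ (abs_nonneg _)
      rw [div_le_iff₀ (by positivity)]
      field_simp
      linarith
    · change |(0 : ℝ)| ≤ |φ₀| / s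
      rw [abs_zero]; positivity
    · change |(0 : ℝ)| ≤ |φ₀| / s
      rw [abs_zero]; positivity
  · intro a
    fin_cases a
    · exact ⟨le_rfl, hs.le⟩
    · exact ⟨hs.le, le_rfl⟩
    · exact ⟨he0, hes⟩
  · intro a
    fin_cases a
    · exact Or.inr rfl
    · exact Or.inl rfl
    · exact Or.inl rfl
  · intro a x
    rw [Equiv.Perm.mul_apply, Equiv.Perm.mul_apply, hinv]
    fin_cases a
    · change φ₀ * (1 * ((x - x₀) / φ₀) + (1 + s) / (s * (2 + s))) + x₀ =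
        x + (φ₀ * ((1 + s) / (s * (2 + s))) + 0 * (x - x₀))
      field_simp; ring
    · change φ₀ * ((1 + s) * ((x - x₀) / φ₀) + 0) + x₀ = x + (0 + s * (x - x₀))
      field_simp; ring
    · change φ₀ * ((1 + s + (1 + s)⁻¹) / 2 * ((x - x₀) / φ₀) + 0) + x₀ =
        x + (0 + e * (x - x₀))
      rw [he]
      field_simp; ring
  · intro a x
    rw [Equiv.Perm.inv_eq_iff_eq]
    rw [Equiv.Perm.mul_apply, Equiv.Perm.mul_apply, hinv]
    fin_cases a
    · change x = φ₀ * (1 * ((x - (φ₀ * ((1 + s) / (s * (2 + s))) + 0 / (1 + 0) * (x - x₀)) - x₀)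
        / φ₀) + (1 + s) / (s * (2 + s))) + x₀
      field_simp; ring
    · change x = φ₀ * ((1 + s) * ((x - (0 + s / (1 + s) * (x - x₀)) - x₀) / φ₀) + 0) + x₀
      field_simp; ring
    · change x = φ₀ * ((1 + s + (1 + s)⁻¹) / 2 * ((x - (0 + e / (1 + e) * (x - x₀)) - x₀) / φ₀)
        + 0) + x₀
      have h1 : (1 + s + (1 + s)⁻¹) / 2 = 1 + e := by rw [he]; ring
      rw [h1]
      have h2 : (1 : ℝ) + e ≠ 0 := by positivity
      field_simp; ring

private theorem k2_lift_conj {α : Type*} [DecidableEq α] (A : α → Pm) (L : Pm)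
    (w : FreeGroup α) :
    FreeGroup.lift (fun a => L * A a * L⁻¹) w = L * FreeGroup.lift A w * L⁻¹ := by
  have h : FreeGroup.lift (fun a => L * A a * L⁻¹) =
      (MulAut.conj L).toMonoidHom.comp (FreeGroup.lift A) := by
    apply FreeGroup.ext_hom
    intro a
    simp [MulAut.conj_apply]
  rw [h]
  simp [MulAut.conj_apply]

private theorem k2_aff_pow (n : ℕ) (x : ℝ) :
    ((aff 1 1 one_ne_zero : Pm) ^ n) x = x + n := by
  induction n generalizing x with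
  | zero => simp
  | succ n ih =>
    rw [pow_succ, Equiv.Perm.mul_apply, ih, aff_apply]
    push_cast; ring

theorem local_block : ∃ C : ℝ, 1 ≤ C ∧ ∀ (m : ℕ), C ≤ m → ∀ (h : Pm), IsD h →
    ∀ (x₀ r φ₀ : ℝ), h x₀ = x₀ + φ₀ → φ₀ ≠ 0 →
    (m : ℝ) ^ 4 * |φ₀| ≤ 100 * r → r ≤ (m : ℝ) ^ 4 * |φ₀| →
    (∀ x ∈ Icc (x₀ - 2 * r) (x₀ + 2 * r), |Real.log (deriv h x)| ≤ 1 / (m : ℝ) ^ 12) →
    ∃ P : Fin 3 → Pm, (∀ a, DD (C / m) (Ioo (x₀ - r) (x₀ + r)) (P a)) ∧
      ∀ (w : FreeGroup (Fin 3)) (n : ℕ), 2 * w.norm ≤ m → 2 * n ≤ m →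
        (∀ s (hs : 0 < s), FreeGroup.lift (affs s hs) w = (aff 1 1 one_ne_zero) ^ n) →
        ∀ x, |x - x₀| ≤ r - 3 * (m : ℝ) ^ 3 * |φ₀| →
          FreeGroup.lift P w x = (h ^ n) x := by
  obtain ⟨C₁, hC₁, hstr⟩ := exists_straight
  obtain ⟨C₂, hC₂, hcut⟩ := exists_cutoff
  refine ⟨2 * C₁ + 2 * C₂ + 200, by linarith, ?_⟩
  intro m hm h hD x₀ r φ₀ hx₀ hφ hr1 hr2 hlog
  obtain ⟨M, hMm⟩ : ∃ M : ℝ, M = (m : ℝ) := ⟨_, rfl⟩
  rw [← hMm] at hm hr1 hr2 hlog ⊢
  have hM : 200 ≤ M := by linarith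
  have hM0 : 0 < M := by linarith
  obtain ⟨c, hc⟩ : ∃ c : ℝ, c = |φ₀| := ⟨_, rfl⟩
  rw [← hc] at hr1 hr2 ⊢
  have hc0 : 0 < c := by rw [hc]; exact abs_pos.2 hφ
  have hM2 : 0 < M ^ 2 := by positivity
  have hM3 : 0 < M ^ 3 := by positivity
  have hM4 : 0 < M ^ 4 := by positivity
  have hM3b : 200 ≤ M ^ 3 := by
    calc (200 : ℝ) ≤ M := hM
      _ = M ^ 1 := (pow_one M).symm
      _ ≤ M ^ 3 := pow_le_pow_right₀ (by linarith) (by norm_num)
  -- `r ≥ 2 M ^ 3 c`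
  have hr3 : 2 * M ^ 3 * c ≤ r := by
    have h1 : 200 * (M ^ 3 * c) ≤ M * (M ^ 3 * c) :=
      mul_le_mul_of_nonneg_right hM (by positivity)
    nlinarith
  have hMc : 200 * c ≤ M ^ 3 * c := mul_le_mul_of_nonneg_right hM3b hc0.le
  have hr0 : 0 < r := by nlinarith
  -- the straightening
  have hQ1 : 1 ≤ r / c := by
    rw [le_div_iff₀ hc0]; nlinarith
  have hQ2 : r / c ≤ M ^ 4 := by
    rw [div_le_iff₀ hc0]; exact hr2
  have hQ0 : 0 ≤ r / c := by linarith
  have hδ0 : (0 : ℝ) ≤ 1 / M ^ 12 := by positivity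
  have hCQ : C₁ * (r / c) ^ 2 * (1 / M ^ 12) ≤ 1 := by
    have h1 : (r / c) ^ 2 ≤ M ^ 8 := by
      calc (r / c) ^ 2 ≤ (M ^ 4) ^ 2 := pow_le_pow_left₀ hQ0 hQ2 2
        _ = M ^ 8 := by ring
    have h2 : C₁ ≤ M ^ 4 := by
      calc C₁ ≤ M := by linarith
        _ = M ^ 1 := (pow_one M).symm
        _ ≤ M ^ 4 := pow_le_pow_right₀ (by linarith) (by norm_num)
    have h3 : C₁ * (r / c) ^ 2 ≤ M ^ 4 * M ^ 8 :=
      mul_le_mul h2 h1 (by positivity) (by positivity)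
    rw [mul_one_div, div_le_one (by positivity)]
    calc C₁ * (r / c) ^ 2 ≤ M ^ 4 * M ^ 8 := h3
      _ = M ^ 12 := by ring
  obtain ⟨ψ, hψD, hψlog, hψdisp, hψh⟩ := hstr (r / c) (1 / M ^ 12) hQ1 hδ0 hCQ h hD x₀ r φ₀ hx₀ hφ
    (by rw [← hc]; field_simp) hlog
  rw [← hc] at hψdisp
  have hψlog' : ∀ x, |Real.log (deriv ψ x)| ≤ C₁ / M := by
    intro x
    refine (hψlog x).trans ?_
    rw [mul_one_div, div_le_div_iff₀ (by positivity) hM0]
    have h1 : C₁ * (r / c) * M ≤ C₁ * M ^ 4 * M := by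
      refine mul_le_mul_of_nonneg_right ?_ hM0.le
      exact mul_le_mul_of_nonneg_left hQ2 (by linarith)
    have h2 : C₁ * M ^ 4 * M ≤ C₁ * M ^ 12 := by
      have : M ^ 5 ≤ M ^ 12 := pow_le_pow_right₀ (by linarith) (by norm_num)
      calc C₁ * M ^ 4 * M = C₁ * M ^ 5 := by ring
        _ ≤ C₁ * M ^ 12 := mul_le_mul_of_nonneg_left this (by linarith)
    linarith
  have hψmono := hψD.strictMono
  have hψr : x₀ + r - c ≤ ψ (x₀ + r) := by
    have := hψdisp (x₀ + r) (by rw [add_sub_cancel_left, abs_of_pos hr0]; linarith)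
    have := (abs_le.1 this).1
    linarith
  have hψl : ψ (x₀ - r) ≤ x₀ - r + c := by
    have := hψdisp (x₀ - r) (by
      rw [sub_sub_cancel_left, abs_neg, abs_of_pos hr0]; linarith)
    have := (abs_le.1 this).2
    linarith
  -- the models
  have hs : 0 < 1 / M ^ 2 := by positivity
  obtain ⟨τ, κ, hτ, hκ, hτκ, hA, hAinv⟩ := k2_models (1 / M ^ 2) hs x₀ φ₀ hφ
  rw [← hc] at hτ
  have hτ' : ∀ a, |τ a| ≤ M ^ 2 * c := by
    intro a
    refine (hτ a).trans (le_of_eq ?_)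
    field_simp
  have hsr : 1 / M ^ 2 * r ≤ M ^ 2 * c := by
    rw [one_div, inv_mul_le_iff₀ hM2]
    calc r ≤ M ^ 4 * c := hr2
      _ = M ^ 2 * (M ^ 2 * c) := by ring
  have hdisp : ∀ a x, |x - x₀| ≤ r → |τ a + κ a * (x - x₀)| ≤ M ^ 2 * c := by
    intro a x hx
    rcases hτκ a with h0 | h0
    · rw [h0, zero_add, abs_mul, abs_of_nonneg (hκ a).1]
      refine le_trans ?_ hsr
      exact mul_le_mul (hκ a).2 hx (abs_nonneg _) hs.le
    · rw [h0, zero_mul, add_zero]; exact hτ' a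
  have hdisp' : ∀ a x, |x - x₀| ≤ r → |τ a + κ a / (1 + κ a) * (x - x₀)| ≤ M ^ 2 * c := by
    intro a x hx
    rcases hτκ a with h0 | h0
    · have h1 : 0 ≤ κ a / (1 + κ a) := div_nonneg (hκ a).1 (by linarith [(hκ a).1])
      have h2 : κ a / (1 + κ a) ≤ 1 / M ^ 2 := by
        refine le_trans ?_ (hκ a).2
        rw [div_le_iff₀ (by linarith [(hκ a).1])]
        nlinarith [(hκ a).1]
      rw [h0, zero_add, abs_mul, abs_of_nonneg h1]
      refine le_trans ?_ hsr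
      exact mul_le_mul h2 hx (abs_nonneg _) hs.le
    · rw [h0, zero_div, zero_mul, add_zero]; exact hτ' a
  -- the cut-off models
  have hmod : ∀ a, ∃ F : Pm, DD (C₂ * (1 / M)) (Ioo (x₀ - r + 2 * c) (x₀ + r - 2 * c)) F ∧
      ∀ x ∈ Icc (x₀ - r + 2 * c + M ^ 3 * c) (x₀ + r - 2 * c - M ^ 3 * c),
        F x = x + ((τ a - κ a * x₀) + κ a * x) := by
    intro a
    refine hcut _ _ (M ^ 3 * c) (τ a - κ a * x₀) (κ a) (M ^ 2 * c) (1 / M) (by positivity) ?_ ?_
      ?_ ?_ ?_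
    · nlinarith
    · rw [abs_of_nonneg (hκ a).1]
      refine (hκ a).2.trans ?_
      rw [div_le_div_iff₀ hM2 hM0]
      nlinarith
    · intro x hx
      have h1 : τ a - κ a * x₀ + κ a * x = τ a + κ a * (x - x₀) := by ring
      rw [h1]
      apply hdisp
      rw [abs_le]
      constructor <;> linarith [hx.1, hx.2]
    · rw [one_div, inv_mul_eq_div, le_div_iff₀ hM0]
      exact le_of_eq (by ring)
    · rw [mul_one_div, div_le_iff₀ hM0]
      linarith
  choose Mo hMo1 hMo2 using hmod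
  set A : Fin 3 → Pm := fun a =>
    aff φ₀ x₀ hφ * affs (1 / M ^ 2) hs a * (aff φ₀ x₀ hφ)⁻¹ with hAdef
  refine ⟨fun a => ψ⁻¹ * Mo a * (ψ⁻¹)⁻¹, ?_, ?_⟩
  · intro a
    have hD1 : IsD (ψ⁻¹ * Mo a * (ψ⁻¹)⁻¹) := (hψD.inv.mul (hMo1 a).isD).mul hψD.inv.inv
    refine ⟨hD1, ?_, ?_⟩
    · intro x
      rw [(hψD.inv.mul (hMo1 a).isD).deriv_mul hψD.inv.inv, hψD.inv.deriv_mul (hMo1 a).isD]
      rw [Real.log_mul (mul_pos (hψD.inv.pos _) ((hMo1 a).isD.pos _)).ne' (hψD.inv.inv.pos _).ne',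
        Real.log_mul (hψD.inv.pos _).ne' ((hMo1 a).isD.pos _).ne', inv_inv, hψD.deriv_inv,
        Real.log_inv]
      have e1 := abs_le.1 (hψlog' (ψ⁻¹ (Mo a (ψ x))))
      have e2 := abs_le.1 ((hMo1 a).sz (ψ x))
      have e3 := abs_le.1 (hψlog' x)
      have e4 : (2 * C₁ + 2 * C₂ + 200) / M = 2 * (C₁ / M) + 2 * (C₂ * (1 / M)) + 200 / M := by
        field_simp
      have e5 : 0 ≤ C₂ * (1 / M) := by positivity
      have e6 : 0 ≤ 200 / M := by positivity
      rw [abs_le, e4]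
      constructor <;> linarith [e1.1, e1.2, e2.1, e2.2, e3.1, e3.2]
    · intro x hx
      rw [inv_inv, Equiv.Perm.mul_apply, Equiv.Perm.mul_apply]
      have hout : ψ x ∉ Ioo (x₀ - r + 2 * c) (x₀ + r - 2 * c) := by
        intro hin
        apply hx
        constructor
        · by_contra hle
          have := hψmono.monotone (not_lt.1 hle)
          linarith [hin.1]
        · by_contra hle
          have := hψmono.monotone (not_lt.1 hle)
          linarith [hin.2]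
      rw [(hMo1 a).supp _ hout]
      simp
  · intro w n hw hn haff x hx
    have hwM : 2 * (w.norm : ℝ) ≤ M := by rw [hMm]; exact_mod_cast hw
    have hnM : 2 * (n : ℝ) ≤ M := by rw [hMm]; exact_mod_cast hn
    have hMle : M * c ≤ M ^ 3 * c := by
      refine mul_le_mul_of_nonneg_right ?_ hc0.le
      calc M = M ^ 1 := (pow_one M).symm
        _ ≤ M ^ 3 := pow_le_pow_right₀ (by linarith) (by norm_num)
    have hx1 : |ψ x - x₀| ≤ r - 3 * M ^ 3 * c + c := by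
      have h1 := hψdisp x (by nlinarith)
      have h2 := abs_le.1 h1
      have h3 := abs_le.1 hx
      rw [abs_le]
      constructor <;> linarith [h2.1, h2.2, h3.1, h3.2]
    rw [k2_lift_conj, Equiv.Perm.mul_apply, Equiv.Perm.mul_apply, inv_inv]
    have hloc : FreeGroup.lift Mo w (ψ x) = FreeGroup.lift A w (ψ x) := by
      refine lift_local Mo A x₀ (r - 2 * c - M ^ 3 * c) (M ^ 2 * c) (by positivity) ?_ ?_ ?_ w
        (ψ x) ?_
      · intro a y hy
        have hy' := abs_le.1 hy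
        rw [hMo2 a y ⟨by linarith [hy'.1], by linarith [hy'.2]⟩, hAdef]
        change _ = (aff φ₀ x₀ hφ * affs (1 / M ^ 2) hs a * (aff φ₀ x₀ hφ)⁻¹) y
        rw [hA a y]; ring
      · intro a y hy
        change |(aff φ₀ x₀ hφ * affs (1 / M ^ 2) hs a * (aff φ₀ x₀ hφ)⁻¹) y - y| ≤ _
        rw [hA a y, add_sub_cancel_left]
        exact hdisp a y (by linarith)
      · intro a y hy
        change |(aff φ₀ x₀ hφ * affs (1 / M ^ 2) hs a * (aff φ₀ x₀ hφ)⁻¹)⁻¹ y - y| ≤ _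
        rw [hAinv a y, sub_sub_cancel_left, abs_neg]
        exact hdisp' a y (by linarith)
      · have h1 : (w.norm : ℝ) * (M ^ 2 * c) ≤ M / 2 * (M ^ 2 * c) :=
          mul_le_mul_of_nonneg_right (by linarith) (by positivity)
        have h2 : M / 2 * (M ^ 2 * c) = M ^ 3 * c / 2 := by ring
        nlinarith
    have hAw : FreeGroup.lift A w (ψ x) = ψ x + n * φ₀ := by
      rw [hAdef, k2_lift_conj, haff (1 / M ^ 2) hs, Equiv.Perm.mul_apply, Equiv.Perm.mul_apply,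
        k2_aff_pow, aff_apply]
      have : (aff φ₀ x₀ hφ)⁻¹ (ψ x) = (ψ x - x₀) / φ₀ := rfl
      rw [this]
      field_simp
      ring
    -- the orbit
    have horb : ∀ i : ℕ, i ≤ n → ψ ((h ^ i) x) = ψ x + i * φ₀ := by
      intro i
      induction i with
      | zero => intro _; simp
      | succ i ih =>
        intro hi
        have h1 := ih (by omega)
        have hin : (i : ℝ) ≤ n := by exact_mod_cast (by omega : i ≤ n)
        have h2 : |(i : ℝ) * φ₀| ≤ M ^ 3 * c / 2 := by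
          rw [abs_mul, abs_of_nonneg (Nat.cast_nonneg i), ← hc]
          have : (i : ℝ) * c ≤ M / 2 * c := mul_le_mul_of_nonneg_right (by linarith) hc0.le
          linarith
        have h3 := abs_le.1 h2
        have h4 := abs_le.1 hx1
        have h5 : |(h ^ i) x - x₀| ≤ r := by
          rw [abs_le]
          constructor
          · by_contra hlt
            have h6 : (h ^ i) x ≤ x₀ - r := by linarith [not_le.1 hlt]
            have h7 := hψmono.monotone h6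
            rw [h1] at h7
            linarith [h3.1, h4.1]
          · by_contra hlt
            have h6 : x₀ + r ≤ (h ^ i) x := by linarith [not_le.1 hlt]
            have h7 := hψmono.monotone h6
            rw [h1] at h7
            linarith [h3.2, h4.2]
        rw [pow_succ', Equiv.Perm.mul_apply, hψh _ h5, h1]
        push_cast; ring
    rw [hloc, hAw, Equiv.Perm.inv_eq_iff_eq, ← horb n le_rfl]

end GC45
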