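import Pool.Agent.LibGC45.B1
import Pool.Agent.LibGC45.B2b
import Pool.Agent.LibGC45.B5

open Filter Topology Set

namespace GC45

theorem l1_chain {s : ℝ} {I : Set ℝ} {E h : Pm} (n : ℕ)
    (hE : ∀ l < n, DD s I (h ^ l * E * (h ^ l)⁻¹)) : DD (n * s) I (chainP E h n) := by
  induction n with
  | zero =>
    have : DD (0 : ℝ) I (1 : Pm) := DD.one le_rfl
    simpa [chainP] using this
  | succ n ih =>
    have h1 := (ih fun l hl => hE l (Nat.lt_succ_of_lt hl)).mul (hE n (Nat.lt_succ_self n))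
    refine h1.mono ?_ subset_rfl
    push_cast; linarith

/-- the image of `(0, 4)` under an affine map -/
theorem l1_image {a b : ℝ} (ha : 0 < a) :
    aff a b ha.ne' '' Ioo 0 4 ⊆ Ioo b (b + 4 * a) := by
  rintro _ ⟨x, hx, rfl⟩
  rw [aff_apply]
  constructor <;> nlinarith [hx.1, hx.2]

theorem l1_commute {a b a' b' : ℝ} (ha : 0 < a) (ha' : 0 < a') {s : ℝ} {E : Pm}
    (hE : DD s (Ioo 0 4) E) (h : b + 4 * a ≤ b') :
    Commute (aff a b ha.ne' * E * (aff a b ha.ne')⁻¹) (aff a' b' ha'.ne' * E * (aff a' b' ha'.ne')⁻¹) := by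
  have h1 := (hE.conj_aff (b := b) ha).mono le_rfl (l1_image ha)
  have h2 := (hE.conj_aff (b := b') ha').mono le_rfl (l1_image ha')
  refine commute_of_disjoint (I := Ioo b (b + 4 * a)) (J := Ioo b' (b' + 4 * a')) ?_ _ _ h1.supp h2.supp
  rw [Set.disjoint_left]
  rintro x ⟨_, hx⟩ ⟨hx', _⟩
  linarith

/-- one half of the identity: moving `E` to its `q`-shrunk copy by two chains -/
theorem exists_move : ∃ C : ℝ, 1 ≤ C ∧ ∀ (m : ℕ), 8 ≤ m → C / m ≤ 1 / 4 →
    ∀ j : ℝ, (j = 1 ∨ j = 2) →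
    ∀ (q : ℝ) (hq0 : 0 < q), q = (1 - 3 / (m : ℝ)) ^ m →
    ∀ t : Pm, (∀ x ∈ Icc (-(10 * (m : ℝ))) (10 * m), t x = x + 5) →
    (∃ h : Pm, DD (C / m) (Ioo (-(20 * (m : ℝ))) (20 * m)) h ∧
      ∀ (s : ℝ) (E : Pm), DD s (Ioo 0 4) E →
      ∃ A A' : Pm, DD (m * s) (Ioo (-(20 * (m : ℝ))) (20 * m)) A ∧
        DD (m * s) (Ioo (-(20 * (m : ℝ))) (20 * m)) A' ∧
        E * (aff q j hq0.ne' * E * (aff q j hq0.ne')⁻¹)⁻¹ = cm A h * cm A' t⁻¹) := by
  obtain ⟨C0, hC0, hcut⟩ := exists_cutoff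
  refine ⟨18 * C0, by linarith, ?_⟩
  intro m hm hCm j hj q hq0 hq t ht
  have hM : (8 : ℝ) ≤ m := by exact_mod_cast hm
  have hM0 : (0 : ℝ) < m := by linarith
  have hj1 : 1 ≤ j := by rcases hj with rfl | rfl <;> norm_num
  have hj2 : j ≤ 2 := by rcases hj with rfl | rfl <;> norm_num
  set θ : ℝ := 1 - 3 / (m : ℝ) with hθ
  have h3m : 3 / (m : ℝ) ≤ 3 / 8 := by
    rw [div_le_div_iff₀ hM0 (by norm_num)]; linarith
  have h3m0 : 0 < 3 / (m : ℝ) := by positivity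
  have hθ0 : 0 < θ := by rw [hθ]; linarith
  have hθ1 : θ < 1 := by rw [hθ]; linarith
  -- `q ≤ 1/4`
  have hq4 : q ≤ 1 / 4 := by
    have h1 : θ ≤ Real.exp (-(3 / (m : ℝ))) := by
      have := Real.add_one_le_exp (-(3 / (m : ℝ)))
      rw [hθ]; linarith
    have h2 : θ ^ m ≤ Real.exp (-(3 / (m : ℝ))) ^ m := pow_le_pow_left₀ hθ0.le h1 m
    rw [← Real.exp_nat_mul] at h2
    have h3 : (m : ℝ) * -(3 / (m : ℝ)) = -3 := by field_simp
    rw [h3, ← hq] at h2
    refine h2.trans ?_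
    rw [Real.exp_neg]
    have h4 : (4 : ℝ) ≤ Real.exp 3 := by
      have := Real.add_one_le_exp (3 : ℝ)
      linarith
    rw [inv_le_comm₀ (Real.exp_pos 3) (by norm_num)]
    linarith
  set P : ℝ := (5 * m + j) / (1 - q) with hP
  have hq1 : 0 < 1 - q := by linarith
  have hP5 : 5 * (m : ℝ) ≤ P := by
    rw [hP, le_div_iff₀ hq1]; nlinarith
  have hP8 : P ≤ 8 * m := by
    rw [hP, div_le_iff₀ hq1]; nlinarith
  have hPq : P * (1 - q) = 5 * m + j := by
    rw [hP]; field_simp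
  obtain ⟨h, hhD, hh⟩ := hcut (-(20 * (m : ℝ))) (20 * m) (10 * m) (3 / m * P) (-(3 / m)) 84 (9 / m)
    (by positivity) (by linarith) (by
      rw [abs_neg, abs_of_pos h3m0]
      exact div_le_div_of_nonneg_right (by norm_num) hM0.le) (by
      intro x hx
      have : 3 / (m : ℝ) * P + -(3 / m) * x = 3 / m * (P - x) := by ring
      rw [this, abs_mul, abs_of_pos h3m0]
      have h1 : |P - x| ≤ 28 * m := by
        rw [abs_le]; constructor <;> linarith [hx.1, hx.2]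
      calc 3 / (m : ℝ) * |P - x| ≤ 3 / m * (28 * m) := by gcongr
        _ = 84 := by field_simp; norm_num) (by
      have : 9 / (m : ℝ) * (10 * m) = 90 := by field_simp; norm_num
      rw [this]; norm_num) (by
      have : C0 * (9 / (m : ℝ)) = 1 / 2 * (18 * C0 / m) := by ring
      rw [this]; linarith)
  have hh' : ∀ x ∈ Icc (0 : ℝ) P, h x = P - θ * (P - x) := by
    intro x hx
    rw [hh x ⟨by linarith [hx.1], by linarith [hx.2]⟩, hθ]
    ring
  have hhl : ∀ l : ℕ, ∀ x ∈ Icc (0 : ℝ) P, (h ^ l) x = P - θ ^ l * (P - x) := by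
    intro l
    induction l with
    | zero => intro x _; simp
    | succ l ih =>
      intro x hx
      rw [pow_succ', Equiv.Perm.mul_apply, ih x hx, hh']
      · ring
      · have h1 : 0 ≤ θ ^ l * (P - x) := mul_nonneg (pow_nonneg hθ0.le l) (by linarith [hx.2])
        have h2 : θ ^ l * (P - x) ≤ 1 * (P - x) :=
          mul_le_mul_of_nonneg_right (pow_le_one₀ hθ0.le hθ1.le) (by linarith [hx.2])
        constructor <;> linarith [hx.1]
  refine ⟨h, hhD.mono ?_ subset_rfl, ?_⟩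
  · rw [← mul_div_assoc]
    exact div_le_div_of_nonneg_right (by linarith) hM0.le
  intro s E hE
  have hs0 := hE.nonneg
  have hP0 : 0 < P := by linarith
  -- first chain
  have hx : ∀ l : ℕ, h ^ l * E * (h ^ l)⁻¹ =
      aff (θ ^ l) (P * (1 - θ ^ l)) (pow_pos hθ0 l).ne' * E *
        (aff (θ ^ l) (P * (1 - θ ^ l)) (pow_pos hθ0 l).ne')⁻¹ := by
    intro l
    refine conj_congr (I := Ioo 0 4) E _ _ hE.supp ?_
    intro x hx
    rw [hhl l x ⟨hx.1.le, by linarith [hx.2]⟩, aff_apply]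
    ring
  have hI : ∀ l : ℕ, Ioo (P * (1 - θ ^ l)) (P * (1 - θ ^ l) + 4 * θ ^ l) ⊆
      Ioo (-(20 * (m : ℝ))) (20 * m) := by
    intro l x hx
    have h1 : θ ^ l ≤ 1 := pow_le_one₀ hθ0.le hθ1.le
    have h2 : 0 < θ ^ l := pow_pos hθ0 l
    have h3 : 0 ≤ P * (1 - θ ^ l) := mul_nonneg hP0.le (by linarith)
    have h4 : P * (1 - θ ^ l) ≤ P * 1 := mul_le_mul_of_nonneg_left (by linarith) hP0.le
    constructor
    · linarith [hx.1]
    · linarith [hx.2]
  have hcomm : ∀ i l : ℕ, i < l → Commute (h ^ i * E * (h ^ i)⁻¹) (h ^ l * E * (h ^ l)⁻¹) := by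
    intro i l hil
    rw [hx i, hx l]
    refine l1_commute (pow_pos hθ0 i) (pow_pos hθ0 l) hE ?_
    have h1 : θ ^ l ≤ θ ^ i * θ := by
      rw [← pow_succ]
      exact pow_le_pow_of_le_one hθ0.le hθ1.le hil
    have h2 : 0 < θ ^ i := pow_pos hθ0 i
    have h3 : P * θ ≤ P - 4 := by
      have : P * θ = P - 3 / m * P := by rw [hθ]; ring
      rw [this]
      have : 15 ≤ 3 / (m : ℝ) * P := by
        calc (15 : ℝ) = 3 / (m : ℝ) * (5 * m) := by field_simp; norm_num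
          _ ≤ 3 / m * P := by gcongr
      linarith
    nlinarith
  have hcomm' : ∀ i l : ℕ, i ≤ m → l ≤ m →
      Commute (h ^ i * E * (h ^ i)⁻¹) (h ^ l * E * (h ^ l)⁻¹) := by
    intro i l _ _
    rcases lt_trichotomy i l with hil | rfl | hil
    · exact hcomm i l hil
    · exact Commute.refl _
    · exact (hcomm l i hil).symm
  have hA : DD (m * s) (Ioo (-(20 * (m : ℝ))) (20 * m)) (chainP E h m) := by
    refine l1_chain m fun l _ => ?_
    rw [hx l]
    exact (hE.conj_aff (pow_pos hθ0 l)).mono le_rfl ((l1_image (pow_pos hθ0 l)).trans (hI l))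
  have hcA := cm_chainP E h m hcomm'
  -- the end of the first chain
  set y : Pm := aff q (5 * m + j) hq0.ne' * E * (aff q (5 * m + j) hq0.ne')⁻¹ with hy
  have hxm : h ^ m * E * (h ^ m)⁻¹ = y := by
    rw [hx m, hy]
    have h1 : aff (θ ^ m) (P * (1 - θ ^ m)) (pow_pos hθ0 m).ne' = aff q (5 * m + j) hq0.ne' := by
      ext x
      rw [aff_apply, aff_apply, ← hq, hPq]
    rw [h1]
  -- second chain
  have htinv : ∀ x ∈ Icc (-(10 * (m : ℝ)) + 5) (10 * m + 5), t⁻¹ x = x - 5 := by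
    intro x hx
    rw [Equiv.Perm.inv_eq_iff_eq, ht (x - 5) ⟨by linarith [hx.1], by linarith [hx.2]⟩]
    ring
  have htl : ∀ l : ℕ, l ≤ m → ∀ x ∈ Ioo (0 : ℝ) 4,
      ((t⁻¹) ^ l * aff q (5 * m + j) hq0.ne') x = q * x + (5 * m + j - 5 * l) := by
    intro l
    induction l with
    | zero => intro _ x _; simp
    | succ l ih =>
      intro hl x hx
      have hl' : ((l : ℝ) + 1) ≤ m := by exact_mod_cast hl
      rw [pow_succ', mul_assoc, Equiv.Perm.mul_apply, ih (by omega) x hx, htinv]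
      · push_cast; ring
      · have hqx : 0 < q * x := mul_pos hq0 hx.1
        have hqx' : q * x ≤ 1 := by nlinarith [hx.2]
        have hl0 : (0 : ℝ) ≤ l := Nat.cast_nonneg l
        constructor <;> linarith
  have hyl : ∀ l : ℕ, l ≤ m → (t⁻¹) ^ l * y * ((t⁻¹) ^ l)⁻¹ =
      aff q (5 * m + j - 5 * l) hq0.ne' * E * (aff q (5 * m + j - 5 * l) hq0.ne')⁻¹ := by
    intro l hl
    have h1 : (t⁻¹) ^ l * y * ((t⁻¹) ^ l)⁻¹ =
        ((t⁻¹) ^ l * aff q (5 * m + j) hq0.ne') * E * ((t⁻¹) ^ l * aff q (5 * m + j) hq0.ne')⁻¹ := by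
      rw [hy]; group
    rw [h1]
    refine conj_congr (I := Ioo 0 4) E _ _ hE.supp ?_
    intro x hx
    rw [htl l hl x hx, aff_apply]
  have hcommt : ∀ i l : ℕ, i ≤ m → l ≤ m → i < l →
      Commute ((t⁻¹) ^ i * y * ((t⁻¹) ^ i)⁻¹) ((t⁻¹) ^ l * y * ((t⁻¹) ^ l)⁻¹) := by
    intro i l hi hl hil
    rw [hyl i hi, hyl l hl]
    refine (l1_commute hq0 hq0 hE ?_).symm
    have hil' : (i : ℝ) + 1 ≤ l := by exact_mod_cast hil
    linarith
  have hcommt' : ∀ i l : ℕ, i ≤ m → l ≤ m →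
      Commute ((t⁻¹) ^ i * y * ((t⁻¹) ^ i)⁻¹) ((t⁻¹) ^ l * y * ((t⁻¹) ^ l)⁻¹) := by
    intro i l hi hl
    rcases lt_trichotomy i l with hil | rfl | hil
    · exact hcommt i l hi hl hil
    · exact Commute.refl _
    · exact (hcommt l i hl hi hil).symm
  have hA' : DD (m * s) (Ioo (-(20 * (m : ℝ))) (20 * m)) (chainP y t⁻¹ m) := by
    refine l1_chain m fun l hl => ?_
    rw [hyl l hl.le]
    refine (hE.conj_aff hq0).mono le_rfl ((l1_image hq0).trans ?_)
    have hl' : (l : ℝ) ≤ m := by exact_mod_cast hl.le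
    have hl0 : (0 : ℝ) ≤ l := Nat.cast_nonneg l
    intro x hx
    constructor
    · linarith [hx.1]
    · linarith [hx.2]
  have hcA' := cm_chainP y t⁻¹ m hcommt'
  refine ⟨chainP E h m, chainP y t⁻¹ m, hA, hA', ?_⟩
  rw [hcA, hcA', hxm, hyl m le_rfl]
  have h1 : (5 * (m : ℝ) + j - 5 * m) = j := by ring
  have h2 : aff q (5 * (m : ℝ) + j - 5 * m) hq0.ne' = aff q j hq0.ne' := by
    ext x; rw [aff_apply, aff_apply, h1]
  rw [h2]
  group

end GC45
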