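import Pool.Agent.LibGC45.T1
import Pool.Agent.LibGC45.B3b

open Filter Topology Set

namespace GC45

/-- the two affine contractions -/
noncomputable def t2_A (q : ℝ) (hq : q ≠ 0) : Bool → Pm
  | false => aff q 1 hq
  | true => aff q 2 hq

noncomputable def t2_B (q : ℝ) (hq : q ≠ 0) : List Bool → Pm
  | [] => 1
  | b :: w => t2_A q hq b * t2_B q hq w

noncomputable def t2_e (e : Pm) : List Bool → Pm
  | [] => e
  | b :: w => sp b (t2_e e w)

noncomputable def t2_Om (q : ℝ) (hq : q ≠ 0) (w : List Bool) : Set ℝ := t2_B q hq w '' Ioo 0 1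

theorem t2_Om_nil (q : ℝ) (hq : q ≠ 0) : t2_Om q hq [] = Ioo 0 1 := by
  unfold t2_Om t2_B
  exact Set.image_id _

theorem t2_Om_cons (q : ℝ) (hq : q ≠ 0) (b : Bool) (w : List Bool) :
    t2_Om q hq (b :: w) = t2_A q hq b '' t2_Om q hq w := by
  unfold t2_Om
  rw [← Set.image_comp]
  rfl

theorem t2_A_pos {q : ℝ} (hq0 : 0 < q) (hq : q ≤ 1 / 4) (b : Bool) {x : ℝ} (hx : x ∈ Ioo (0 : ℝ) 4) :
    t2_A q hq0.ne' b x ∈ Ioo (cond b (2 : ℝ) 1) (cond b (3 : ℝ) 2) := by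
  have h1 : 0 < q * x := mul_pos hq0 hx.1
  have h2 : q * x < 1 := by
    have : q * x ≤ 1 / 4 * x := mul_le_mul_of_nonneg_right hq hx.1.le
    linarith [hx.2]
  cases b
  · change q * x + 1 ∈ Ioo (1 : ℝ) 2
    constructor <;> linarith
  · change q * x + 2 ∈ Ioo (2 : ℝ) 3
    constructor <;> linarith

theorem t2_Om_sub {q : ℝ} (hq0 : 0 < q) (hq : q ≤ 1 / 4) (w : List Bool) :
    t2_Om q hq0.ne' w ⊆ Ioo 0 4 := by
  induction w with
  | nil =>
    rw [t2_Om_nil]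
    exact Ioo_subset_Ioo le_rfl (by norm_num)
  | cons b w ih =>
    rw [t2_Om_cons]
    rintro _ ⟨x, hx, rfl⟩
    have h := t2_A_pos hq0 hq b (ih hx)
    cases b
    · have h' : t2_A q hq0.ne' false x ∈ Ioo (1 : ℝ) 2 := h
      exact ⟨by linarith [h'.1], by linarith [h'.2]⟩
    · have h' : t2_A q hq0.ne' true x ∈ Ioo (2 : ℝ) 3 := h
      exact ⟨by linarith [h'.1], by linarith [h'.2]⟩

theorem t2_Om_cons_sub {q : ℝ} (hq0 : 0 < q) (hq : q ≤ 1 / 4) (b : Bool) (w : List Bool) :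
    t2_Om q hq0.ne' (b :: w) ⊆ Ioo (cond b (2 : ℝ) 1) (cond b (3 : ℝ) 2) := by
  rw [t2_Om_cons]
  rintro _ ⟨x, hx, rfl⟩
  exact t2_A_pos hq0 hq b (t2_Om_sub hq0 hq w hx)

theorem t2_disj {q : ℝ} (hq0 : 0 < q) (hq : q ≤ 1 / 4) (v w : List Bool) (h : v ≠ w) :
    Disjoint (t2_Om q hq0.ne' v) (t2_Om q hq0.ne' w) := by
  have key : ∀ (b : Bool) (w : List Bool), Disjoint (t2_Om q hq0.ne' []) (t2_Om q hq0.ne' (b :: w)) := by
    intro b w
    rw [Set.disjoint_left]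
    intro x hx hx'
    rw [t2_Om_nil] at hx
    have h' := t2_Om_cons_sub hq0 hq b w hx'
    cases b
    · have h2 : x ∈ Ioo (1 : ℝ) 2 := h'
      linarith [hx.2, h2.1]
    · have h2 : x ∈ Ioo (2 : ℝ) 3 := h'
      linarith [hx.2, h2.1]
  induction v generalizing w with
  | nil =>
    cases w with
    | nil => exact absurd rfl h
    | cons b w => exact key b w
  | cons b v ih =>
    cases w with
    | nil => exact (key b v).symm
    | cons b' w =>
      by_cases hb : b = b'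
      · subst hb
        have hvw : v ≠ w := fun h' => h (by rw [h'])
        rw [t2_Om_cons, t2_Om_cons]
        exact (Set.disjoint_image_iff (t2_A q hq0.ne' b).injective).2 (ih w hvw)
      · rw [Set.disjoint_left]
        intro x hx hx'
        have h1 := t2_Om_cons_sub hq0 hq b v hx
        have h2 := t2_Om_cons_sub hq0 hq b' w hx'
        cases b <;> cases b'
        · exact hb rfl
        · have h3 : x ∈ Ioo (1 : ℝ) 2 := h1
          have h4 : x ∈ Ioo (2 : ℝ) 3 := h2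
          linarith [h3.2, h4.1]
        · have h3 : x ∈ Ioo (2 : ℝ) 3 := h1
          have h4 : x ∈ Ioo (1 : ℝ) 2 := h2
          linarith [h3.1, h4.2]
        · exact hb rfl

theorem t2_conj {q : ℝ} (hq0 : 0 < q) {s : ℝ} {I : Set ℝ} {F : Pm} (hF : DD s I F)
    (w : List Bool) :
    DD s (t2_B q hq0.ne' w '' I) (t2_B q hq0.ne' w * F * (t2_B q hq0.ne' w)⁻¹) := by
  induction w with
  | nil =>
    have h1 : t2_B q hq0.ne' [] = 1 := rfl
    rw [h1, one_mul, inv_one, mul_one]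
    exact hF.mono le_rfl (Set.image_id _).ge
  | cons b w ih =>
    have h1 : t2_B q hq0.ne' (b :: w) = t2_A q hq0.ne' b * t2_B q hq0.ne' w := rfl
    have h2 : t2_B q hq0.ne' (b :: w) * F * (t2_B q hq0.ne' (b :: w))⁻¹ =
        t2_A q hq0.ne' b * (t2_B q hq0.ne' w * F * (t2_B q hq0.ne' w)⁻¹) *
          (t2_A q hq0.ne' b)⁻¹ := by
      rw [h1]; group
    have h3 : t2_B q hq0.ne' (b :: w) '' I = t2_A q hq0.ne' b '' (t2_B q hq0.ne' w '' I) := by
      rw [h1, ← Set.image_comp]; rfl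
    rw [h2, h3]
    cases b
    · exact ih.conj_aff (b := 1) hq0
    · exact ih.conj_aff (b := 2) hq0

theorem t2_e_DD {s : ℝ} (hs : s ≤ 1 / 4) {e : Pm} (he : DD s (Ioo 0 1) e) (w : List Bool) :
    DD ((3 / 4) ^ w.length * s) (Ioo 0 1) (t2_e e w) := by
  have hs0 := he.nonneg
  induction w with
  | nil => simpa [t2_e] using he
  | cons b w ih =>
    have h1 : (3 / 4 : ℝ) ^ w.length * s ≤ 1 / 4 := by
      have : (3 / 4 : ℝ) ^ w.length ≤ 1 := pow_le_one₀ (by norm_num) (by norm_num)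
      nlinarith
    have h2 := sp_spec ih h1 b
    refine h2.mono ?_ subset_rfl
    rw [List.length_cons, pow_succ]
    linarith

theorem t2_tendsto (s : ℝ) :
    Tendsto (fun w : List Bool => (3 / 4 : ℝ) ^ (w.length + 1) * s) cofinite (𝓝 0) := by
  have h1 : Tendsto (fun w : List Bool => w.length) cofinite atTop := by
    rw [tendsto_atTop]
    intro n
    rw [Filter.eventually_cofinite]
    refine (List.finite_length_lt Bool n).subset ?_
    intro w hw
    exact not_le.1 hw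
  have h2 : Tendsto (fun n : ℕ => (3 / 4 : ℝ) ^ (n + 1) * s) atTop (𝓝 (0 * s)) :=
    (((tendsto_pow_atTop_nhds_zero_of_lt_one (by norm_num) (by norm_num)).comp
      (tendsto_add_atTop_nat 1))).mul_const s
  rw [zero_mul] at h2
  exact h2.comp h1

theorem exists_tree (q : ℝ) (hq0 : 0 < q) (hq : q ≤ 1 / 4) {s : ℝ} (hs : s ≤ 1 / 4) (e : Pm)
    (he : DD s (Ioo 0 1) e) :
    ∃ E₁ E₂ : Pm, DD s (Ioo 0 4) E₁ ∧ DD s (Ioo 0 4) E₂ ∧
      e = E₂ * E₁ * (aff q 1 hq0.ne' * E₁ * (aff q 1 hq0.ne')⁻¹)⁻¹ *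
        (aff q 2 hq0.ne' * E₂ * (aff q 2 hq0.ne')⁻¹)⁻¹ := by
  have hs0 := he.nonneg
  let Ω : List Bool → Set ℝ := t2_Om q hq0.ne'
  let B : List Bool → Pm := t2_B q hq0.ne'
  have hΩ : Pairwise (Function.onFun Disjoint Ω) := fun v w h => t2_disj hq0 hq v w h
  -- the pieces
  let D : Bool → List Bool → Pm := fun b w => B w * t2_e e (b :: w) * (B w)⁻¹
  have hD : ∀ b w, DD ((3 / 4) ^ (w.length + 1) * s) (Ω w) (D b w) := fun b w =>
    t2_conj hq0 (t2_e_DD hs he (b :: w)) w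
  have hle : ∀ w : List Bool, (3 / 4 : ℝ) ^ (w.length + 1) * s ≤ s := by
    intro w
    have : (3 / 4 : ℝ) ^ (w.length + 1) ≤ 1 := pow_le_one₀ (by norm_num) (by norm_num)
    nlinarith
  obtain ⟨E₁, hE₁, hE₁'⟩ := exists_patch Ω hΩ (D false) _ (hD false) (t2_tendsto s) hle hs0 hs
  obtain ⟨E₂, hE₂, hE₂'⟩ := exists_patch Ω hΩ (D true) _ (hD true) (t2_tendsto s) hle hs0 hs
  have hsub : (⋃ i, Ω i) ⊆ Ioo 0 4 := Set.iUnion_subset fun w => t2_Om_sub hq0 hq w
  refine ⟨E₁, E₂, hE₁.mono le_rfl hsub, hE₂.mono le_rfl hsub, ?_⟩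
  -- each side is the patch of the conjugates of the `t2_e e w`
  have hsplit : ∀ w, t2_e e w = sp true (t2_e e w) * sp false (t2_e e w) := by
    intro w
    refine sp_mul (t2_e_DD hs he w) ?_
    have : (3 / 4 : ℝ) ^ w.length ≤ 1 := pow_le_one₀ (by norm_num) (by norm_num)
    nlinarith
  have hL : ∀ w, ∀ x ∈ Ω w, E₂ (E₁ x) = (B w * t2_e e w * (B w)⁻¹) x := by
    intro w x hx
    have h1 : E₁ x = D false w x := hE₁' w x hx
    have h2 : D false w x ∈ Ω w := ((hD false w).mem_iff x).2 hx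
    rw [h1, hE₂' w _ h2, ← Equiv.Perm.mul_apply]
    have h3 : D true w * D false w = B w * t2_e e w * (B w)⁻¹ := by
      have h4 : D true w * D false w =
          B w * (sp true (t2_e e w) * sp false (t2_e e w)) * (B w)⁻¹ := by
        change (B w * sp true (t2_e e w) * (B w)⁻¹) * (B w * sp false (t2_e e w) * (B w)⁻¹) = _
        group
      rw [h4, ← hsplit]
    rw [h3]
  have hLoff : ∀ x, x ∉ (⋃ i, Ω i) → E₂ (E₁ x) = x := by
    intro x hx
    rw [hE₁.supp x hx, hE₂.supp x hx]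
  -- the conjugated patches
  have hX : ∀ (b : Bool) (P : Pm), (∀ w, ∀ x ∈ Ω w, P x = D b w x) → ∀ w, ∀ x ∈ Ω (b :: w),
      (t2_A q hq0.ne' b * P * (t2_A q hq0.ne' b)⁻¹) x =
        (B (b :: w) * t2_e e (b :: w) * (B (b :: w))⁻¹) x := by
    intro b P hP w x hx
    have hx' : x ∈ t2_A q hq0.ne' b '' t2_Om q hq0.ne' w := by
      rw [← t2_Om_cons]; exact hx
    obtain ⟨z, hz, rfl⟩ := hx'
    have h0 : (t2_A q hq0.ne' b)⁻¹ (t2_A q hq0.ne' b z) = z := by
      rw [← Equiv.Perm.mul_apply, inv_mul_cancel, Equiv.Perm.one_apply]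
    have h1 : (t2_A q hq0.ne' b * P * (t2_A q hq0.ne' b)⁻¹) (t2_A q hq0.ne' b z) =
        t2_A q hq0.ne' b (P z) := by
      rw [Equiv.Perm.mul_apply, Equiv.Perm.mul_apply, h0]
    rw [h1, hP w z hz]
    have h2 : B (b :: w) * t2_e e (b :: w) * (B (b :: w))⁻¹ =
        t2_A q hq0.ne' b * D b w * (t2_A q hq0.ne' b)⁻¹ := by
      change (t2_A q hq0.ne' b * B w) * t2_e e (b :: w) * (t2_A q hq0.ne' b * B w)⁻¹ =
        t2_A q hq0.ne' b * (B w * t2_e e (b :: w) * (B w)⁻¹) * (t2_A q hq0.ne' b)⁻¹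
      group
    have h3 : (t2_A q hq0.ne' b * D b w * (t2_A q hq0.ne' b)⁻¹) (t2_A q hq0.ne' b z) =
        t2_A q hq0.ne' b (D b w z) := by
      rw [Equiv.Perm.mul_apply, Equiv.Perm.mul_apply, h0]
    rw [h2, h3]
  have hXoff : ∀ (b : Bool) (P : Pm), (∀ x, x ∉ (⋃ i, Ω i) → P x = x) →
      ∀ x, (∀ w, x ∉ Ω (b :: w)) →
      (t2_A q hq0.ne' b * P * (t2_A q hq0.ne' b)⁻¹) x = x := by
    intro b P hP x hx
    have h1 : (t2_A q hq0.ne' b)⁻¹ x ∉ (⋃ i, Ω i) := by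
      intro h
      obtain ⟨w, hw⟩ := Set.mem_iUnion.1 h
      apply hx w
      change x ∈ t2_Om q hq0.ne' (b :: w)
      rw [t2_Om_cons]
      exact ⟨_, hw, by simp⟩
    rw [Equiv.Perm.mul_apply, Equiv.Perm.mul_apply, hP _ h1]
    simp
  have hinv : ∀ w, ∀ x ∈ Ω w, (B w * t2_e e w * (B w)⁻¹) x ∈ Ω w := by
    intro w x hx
    exact ((t2_conj hq0 (t2_e_DD hs he w) w).mem_iff x).2 hx
  have hne : ∀ v w, v ≠ w → ∀ x ∈ Ω v, x ∉ Ω w := fun v w h x hx hx' =>
    (Set.disjoint_left.1 (hΩ h)) hx hx'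
  have hnil : ∀ x, x ∉ Ω [] → e x = x := by
    intro x hx
    apply he.supp
    intro h
    apply hx
    change x ∈ t2_Om q hq0.ne' []
    rw [t2_Om_nil]
    exact h
  have key : E₂ * E₁ = e * (aff q 2 hq0.ne' * E₂ * (aff q 2 hq0.ne')⁻¹) *
      (aff q 1 hq0.ne' * E₁ * (aff q 1 hq0.ne')⁻¹) := by
    apply Equiv.ext
    intro x
    rw [Equiv.Perm.mul_apply, Equiv.Perm.mul_apply, Equiv.Perm.mul_apply]
    have f1 : ∀ y, (∀ w, y ∉ Ω (false :: w)) →
        (aff q 1 hq0.ne' * E₁ * (aff q 1 hq0.ne')⁻¹) y = y := hXoff false E₁ hE₁.supp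
    have f2 : ∀ y, (∀ w, y ∉ Ω (true :: w)) →
        (aff q 2 hq0.ne' * E₂ * (aff q 2 hq0.ne')⁻¹) y = y := hXoff true E₂ hE₂.supp
    by_cases hx : x ∈ ⋃ i, Ω i
    · obtain ⟨v, hv⟩ := Set.mem_iUnion.1 hx
      rw [hL v x hv]
      match v, hv with
      | [], hv =>
        rw [f1 x fun w => hne _ _ (by simp) x hv, f2 x fun w => hne _ _ (by simp) x hv]
        have h1 : B [] = 1 := rfl
        rw [h1, inv_one, mul_one, one_mul]
        rfl
      | false :: w, hv =>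
        have h1 : (aff q 1 hq0.ne' * E₁ * (aff q 1 hq0.ne')⁻¹) x =
          (B (false :: w) * t2_e e (false :: w) * (B (false :: w))⁻¹) x := hX false E₁ hE₁' w x hv
        have h2 := hinv _ x hv
        rw [h1, f2 _ fun w' => hne _ _ (by simp) _ h2, hnil _ (hne _ _ (by simp) _ h2)]
      | true :: w, hv =>
        have h1 : (aff q 2 hq0.ne' * E₂ * (aff q 2 hq0.ne')⁻¹) x =
          (B (true :: w) * t2_e e (true :: w) * (B (true :: w))⁻¹) x := hX true E₂ hE₂' w x hv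
        have h2 := hinv _ x hv
        rw [f1 x fun w' => hne _ _ (by simp) x hv, h1, hnil _ (hne _ _ (by simp) _ h2)]
    · have h0 : ∀ w, x ∉ Ω w := fun w h => hx (Set.mem_iUnion.2 ⟨w, h⟩)
      rw [hLoff x hx, f1 x fun w => h0 _, f2 x fun w => h0 _, hnil x (h0 _)]
  rw [key]
  group

end GC45
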