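import Pool.Agent.LibGC45.L1
import Pool.Agent.LibGC45.T2
import Pool.Agent.LibGC45.B3b

open Filter Topology Set

namespace GC45

private theorem l2_q_le (m : ℕ) (hm : 8 ≤ m) : (1 - 3 / (m : ℝ)) ^ m ≤ 1 / 4 := by
  have hm0 : (0 : ℝ) < m := by
    have : (8 : ℝ) ≤ m := by exact_mod_cast hm
    linarith
  have h8 : (8 : ℝ) ≤ m := by exact_mod_cast hm
  have h0 : 0 ≤ 1 - 3 / (m : ℝ) := by
    rw [sub_nonneg, div_le_one hm0]
    linarith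
  have h1 : 1 - 3 / (m : ℝ) ≤ Real.exp (-(3 / (m : ℝ))) := by
    have := Real.add_one_le_exp (-(3 / (m : ℝ)))
    linarith
  have h2 : (1 - 3 / (m : ℝ)) ^ m ≤ Real.exp (-(3 / (m : ℝ))) ^ m :=
    pow_le_pow_left₀ h0 h1 m
  have h3 : Real.exp (-(3 / (m : ℝ))) ^ m = Real.exp (-3) := by
    rw [← Real.exp_nat_mul]
    congr 1
    field_simp
  rw [h3] at h2
  have h4 : Real.exp (-3) ≤ 1 / 4 := by
    rw [Real.exp_neg, ← one_div]
    apply one_div_le_one_div_of_le (by norm_num)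
    have := Real.add_one_le_exp (3 : ℝ)
    linarith
  exact h2.trans h4

private theorem l2_supp_mul {I : Set ℝ} {F G : Pm} (hF : ∀ x, x ∉ I → F x = x)
    (hG : ∀ x, x ∉ I → G x = x) : ∀ x, x ∉ I → (F * G) x = x := by
  intro x hx
  rw [Equiv.Perm.mul_apply, hG x hx, hF x hx]

private theorem l2_supp_inv {I : Set ℝ} {F : Pm} (hF : ∀ x, x ∉ I → F x = x) :
    ∀ x, x ∉ I → F⁻¹ x = x := by
  intro x hx
  rw [Equiv.Perm.inv_eq_iff_eq, hF x hx]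

private theorem l2_supp_cm {I : Set ℝ} {F G : Pm} (hF : ∀ x, x ∉ I → F x = x)
    (hG : ∀ x, x ∉ I → G x = x) : ∀ x, x ∉ I → (cm F G) x = x :=
  l2_supp_mul (l2_supp_mul (l2_supp_mul hF hG) (l2_supp_inv hF)) (l2_supp_inv hG)

private theorem l2_cm_congr {I : Set ℝ} {Y A b : Pm} (hb : ∀ x, x ∉ I → b x = x)
    (hYA : ∀ x ∈ I, Y x = A x) : cm Y b = cm A b := by
  unfold cm
  rw [conj_congr b Y A hb hYA]

/-- patch of the translates and its conjugates -/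
private theorem l2_alpha (m : ℕ) (hm : 8 ≤ m) (u : Pm)
    (hu : ∀ x ∈ Icc (-(50 * (m : ℝ) ^ 2 + 100 * m)) (50 * (m : ℝ) ^ 2 + 100 * m),
      u x = x + 50 * m)
    (A : Fin (m + 1) → Pm)
    (hA : ∀ k, DD (1 / (m : ℝ) ^ 2) (Ioo (-(20 * (m : ℝ))) (20 * m)) (A k)) :
    ∃ α : Pm, DD (1 / (m : ℝ) ^ 2) (Ioo (-(200 * (m : ℝ) ^ 2)) (200 * (m : ℝ) ^ 2)) α ∧
      ∀ (k : Fin (m + 1)), ∀ x ∈ Ioo (-(20 * (m : ℝ))) (20 * m),
        ((u ^ (k : ℕ))⁻¹ * α * u ^ (k : ℕ)) x = A k x := by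
  have h8 : (8 : ℝ) ≤ m := by exact_mod_cast hm
  have hm0 : (0 : ℝ) < m := by linarith
  have hmm : (8 : ℝ) * m ≤ (m : ℝ) ^ 2 := by nlinarith
  set Ω : Fin (m + 1) → Set ℝ := fun k =>
    Ioo (-(20 * (m : ℝ)) + 50 * m * ((k : ℕ) : ℝ)) (20 * m + 50 * m * ((k : ℕ) : ℝ)) with hΩdef
  have hΩ : Pairwise (Function.onFun Disjoint Ω) := by
    intro k l hkl
    rw [Function.onFun, Set.disjoint_left]
    intro x hx hx'
    simp only [hΩdef, mem_Ioo] at hx hx'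
    have hkl' : (k : ℕ) ≠ (l : ℕ) := fun h => hkl (Fin.ext h)
    rcases lt_or_gt_of_ne hkl' with h | h
    · have h1 : ((k : ℕ) : ℝ) + 1 ≤ ((l : ℕ) : ℝ) := by exact_mod_cast h
      have h2 : 50 * (m : ℝ) * (((k : ℕ) : ℝ) + 1) ≤ 50 * m * ((l : ℕ) : ℝ) :=
        mul_le_mul_of_nonneg_left h1 (by positivity)
      nlinarith [hx.1, hx.2, hx'.1, hx'.2]
    · have h1 : ((l : ℕ) : ℝ) + 1 ≤ ((k : ℕ) : ℝ) := by exact_mod_cast h
      have h2 : 50 * (m : ℝ) * (((l : ℕ) : ℝ) + 1) ≤ 50 * m * ((k : ℕ) : ℝ) :=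
        mul_le_mul_of_nonneg_left h1 (by positivity)
      nlinarith [hx.1, hx.2, hx'.1, hx'.2]
  let τ : Fin (m + 1) → Pm := fun k => aff 1 (50 * m * ((k : ℕ) : ℝ)) one_ne_zero
  have hτ : ∀ k x, τ k x = x + 50 * m * ((k : ℕ) : ℝ) := by
    intro k x
    simp [τ]
  have hτi : ∀ k x, (τ k)⁻¹ (x + 50 * m * ((k : ℕ) : ℝ)) = x := by
    intro k x
    rw [Equiv.Perm.inv_eq_iff_eq, hτ]
  have hF : ∀ k, DD (1 / (m : ℝ) ^ 2) (Ω k) (τ k * A k * (τ k)⁻¹) := by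
    intro k
    have h1 := (hA k).conj_aff (a := 1) (b := 50 * m * ((k : ℕ) : ℝ)) one_pos
    refine h1.mono le_rfl ?_
    rintro _ ⟨x, hx, rfl⟩
    simp only [aff_apply, one_mul, hΩdef, mem_Ioo]
    exact ⟨by linarith [hx.1], by linarith [hx.2]⟩
  have hS : (1 : ℝ) / (m : ℝ) ^ 2 ≤ 1 / 4 := by
    apply one_div_le_one_div_of_le (by norm_num)
    nlinarith
  obtain ⟨α, hα, hαe⟩ := exists_patch Ω hΩ (fun k => τ k * A k * (τ k)⁻¹)
    (fun _ => 1 / (m : ℝ) ^ 2) hF (by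
      have : (cofinite : Filter (Fin (m + 1))) = ⊥ := cofinite_eq_bot
      rw [this]
      exact tendsto_bot) (fun _ => le_rfl) (by positivity) hS
  have hkm : ∀ k : Fin (m + 1), ((k : ℕ) : ℝ) ≤ m := by
    intro k
    exact_mod_cast Nat.lt_succ_iff.1 k.2
  refine ⟨α, hα.mono le_rfl ?_, ?_⟩
  · intro x hx
    obtain ⟨k, hk⟩ := mem_iUnion.1 hx
    simp only [hΩdef, mem_Ioo] at hk
    have h1 : 50 * (m : ℝ) * ((k : ℕ) : ℝ) ≤ 50 * m * m :=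
      mul_le_mul_of_nonneg_left (hkm k) (by positivity)
    have h2 : 0 ≤ 50 * (m : ℝ) * ((k : ℕ) : ℝ) := by positivity
    constructor
    · nlinarith [hk.1]
    · nlinarith [hk.2]
  · intro k
    have hupow : ∀ j : ℕ, j ≤ m → ∀ x ∈ Ioo (-(20 * (m : ℝ))) (20 * m),
        (u ^ j) x = x + 50 * m * (j : ℝ) := by
      intro j
      induction j with
      | zero => intro _ x _; simp
      | succ j ih =>
        intro hj x hx
        have hj' : ((j : ℝ)) + 1 ≤ m := by exact_mod_cast hj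
        rw [pow_succ', Equiv.Perm.mul_apply, ih (by omega) x hx]
        have h1 : 50 * (m : ℝ) * ((j : ℝ) + 1) ≤ 50 * m * m :=
          mul_le_mul_of_nonneg_left hj' (by positivity)
        have h2 : 0 ≤ 50 * (m : ℝ) * (j : ℝ) := by positivity
        rw [hu]
        · push_cast
          ring
        · constructor
          · nlinarith [hx.1]
          · nlinarith [hx.2]
    intro x hx
    have hkm' : (k : ℕ) ≤ m := Nat.lt_succ_iff.1 k.2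
    rw [Equiv.Perm.mul_apply, Equiv.Perm.mul_apply, hupow k hkm' x hx]
    have h1 : x + 50 * m * ((k : ℕ) : ℝ) ∈ Ω k := by
      simp only [hΩdef, mem_Ioo]
      exact ⟨by linarith [hx.1], by linarith [hx.2]⟩
    rw [hαe k _ h1]
    change (u ^ (k : ℕ))⁻¹ (τ k (A k ((τ k)⁻¹ (x + 50 * m * ((k : ℕ) : ℝ))))) = A k x
    rw [hτi, hτ, Equiv.Perm.inv_eq_iff_eq, hupow k hkm' (A k x) (((hA k).mem_iff x).2 hx)]

theorem local_encode : ∃ C : ℝ, 1 ≤ C ∧ ∀ (m : ℕ), C ≤ m → ∀ (e : ℕ → Pm),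
    (∀ k ≤ m, DD (1 / (m : ℝ) ^ 3) (Ioo 0 1) (e k)) →
    ∃ P : Fin 9 → Pm, (∀ a, DD (C / m) (Ioo (-(200 * (m : ℝ) ^ 2)) (200 * (m : ℝ) ^ 2)) (P a)) ∧
      ∀ k ≤ m, FreeGroup.lift P (encW k) = e k := by
  obtain ⟨C₁, hC₁, hcut⟩ := exists_cutoff
  obtain ⟨C₂, hC₂, hmove⟩ := exists_move
  refine ⟨4 * C₁ + 4 * C₂ + 8, by linarith, ?_⟩
  intro m hm e he
  have h8 : (8 : ℝ) ≤ m := by linarith
  have h8' : 8 ≤ m := by exact_mod_cast h8
  have hm0 : (0 : ℝ) < m := by linarith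
  have hmm : (8 : ℝ) * m ≤ (m : ℝ) ^ 2 := by nlinarith
  have hC₂m : C₂ / m ≤ 1 / 4 := by
    rw [div_le_div_iff₀ hm0 (by norm_num)]
    linarith
  -- the translation by 5
  obtain ⟨t, ht, ht5⟩ := hcut (-(20 * (m : ℝ))) (20 * m) (10 * m) 5 0 5 (1 / m) (by positivity)
    (by linarith) (by simp) (by intro x _; norm_num) (by field_simp; norm_num) (by
      rw [mul_one_div, div_le_div_iff₀ hm0 (by norm_num)]
      linarith)
  have ht5' : ∀ x ∈ Icc (-(10 * (m : ℝ))) (10 * m), t x = x + 5 := by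
    intro x hx
    rw [ht5 x ⟨by linarith [hx.1], by linarith [hx.2]⟩]
    ring
  -- the translation by 50 m
  obtain ⟨u, hu, hu50⟩ := hcut (-(100 * (m : ℝ) ^ 2 + 100 * m)) (100 * (m : ℝ) ^ 2 + 100 * m)
    (50 * (m : ℝ) ^ 2) (50 * m) 0 (50 * m) (1 / m) (by positivity)
    (by nlinarith) (by simp) (by
      intro x _
      rw [zero_mul, add_zero, abs_of_pos (by positivity)]) (by
      have : 1 / (m : ℝ) * (50 * (m : ℝ) ^ 2) = 50 * m := by field_simp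
      rw [this]) (by
      rw [mul_one_div, div_le_div_iff₀ hm0 (by norm_num)]
      linarith)
  have hu50' : ∀ x ∈ Icc (-(50 * (m : ℝ) ^ 2 + 100 * m)) (50 * (m : ℝ) ^ 2 + 100 * m),
      u x = x + 50 * m := by
    intro x hx
    rw [hu50 x ⟨by linarith [hx.1], by linarith [hx.2]⟩]
    ring
  -- q
  have hq0 : (0 : ℝ) < (1 - 3 / (m : ℝ)) ^ m := by
    apply pow_pos
    rw [sub_pos, div_lt_one hm0]
    linarith
  have hq4 := l2_q_le m h8'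
  obtain ⟨h₁, hh₁, hA1⟩ := hmove m h8' hC₂m 1 (Or.inl rfl) _ hq0 rfl t ht5'
  obtain ⟨h₂, hh₂, hA2⟩ := hmove m h8' hC₂m 2 (Or.inr rfl) _ hq0 rfl t ht5'
  have hs4 : (1 : ℝ) / (m : ℝ) ^ 3 ≤ 1 / 4 := by
    apply one_div_le_one_div_of_le (by norm_num)
    nlinarith
  have hsz : (m : ℝ) * (1 / (m : ℝ) ^ 3) = 1 / (m : ℝ) ^ 2 := by field_simp
  have hex : ∀ k : Fin (m + 1), ∃ A : Fin 5 → Pm,
      (∀ i, DD (1 / (m : ℝ) ^ 2) (Ioo (-(20 * (m : ℝ))) (20 * m)) (A i)) ∧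
      e k = A 0 * (cm (A 1) h₁ * cm (A 2) t⁻¹) * (A 0)⁻¹ * (cm (A 3) h₂ * cm (A 4) t⁻¹) := by
    intro k
    obtain ⟨E₁, E₂, hE₁, hE₂, heq⟩ := exists_tree _ hq0 hq4 hs4 (e k)
      (he k (Nat.lt_succ_iff.1 k.2))
    obtain ⟨B₁, B₂, hB₁, hB₂, hB⟩ := hA1 _ E₁ hE₁
    obtain ⟨B₃, B₄, hB₃, hB₄, hB'⟩ := hA2 _ E₂ hE₂
    rw [hsz] at hB₁ hB₂ hB₃ hB₄
    have hE₂' : DD (1 / (m : ℝ) ^ 2) (Ioo (-(20 * (m : ℝ))) (20 * m)) E₂ := by
      refine hE₂.mono ?_ ?_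
      · apply one_div_le_one_div_of_le (by positivity)
        exact pow_le_pow_right₀ (by linarith) (by norm_num)
      · intro x hx
        exact ⟨by linarith [hx.1], by linarith [hx.2]⟩
    refine ⟨![E₂, B₁, B₂, B₃, B₄], ?_, ?_⟩
    · intro i
      fin_cases i
      · exact hE₂'
      · exact hB₁
      · exact hB₂
      · exact hB₃
      · exact hB₄
    · change e k = E₂ * (cm B₁ h₁ * cm B₂ t⁻¹) * E₂⁻¹ * (cm B₃ h₂ * cm B₄ t⁻¹)
      rw [← hB, ← hB', heq]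
      group
  choose A hAD hAe using hex
  have hα := fun i : Fin 5 => l2_alpha m h8' u hu50' (fun k => A k i) (fun k => hAD k i)
  choose α hαD hαe using hα
  have hsub : Ioo (-(20 * (m : ℝ))) (20 * m) ⊆ Ioo (-(200 * (m : ℝ) ^ 2)) (200 * (m : ℝ) ^ 2) := by
    intro x hx
    exact ⟨by nlinarith [hx.1], by nlinarith [hx.2]⟩
  have hsub' : Ioo (-(100 * (m : ℝ) ^ 2 + 100 * m)) (100 * (m : ℝ) ^ 2 + 100 * m) ⊆
      Ioo (-(200 * (m : ℝ) ^ 2)) (200 * (m : ℝ) ^ 2) := by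
    intro x hx
    exact ⟨by nlinarith [hx.1], by nlinarith [hx.2]⟩
  have hz1 : 1 / (m : ℝ) ^ 2 ≤ (4 * C₁ + 4 * C₂ + 8) / m := by
    rw [div_le_div_iff₀ (by positivity) hm0]
    nlinarith
  have hz2 : C₂ / m ≤ (4 * C₁ + 4 * C₂ + 8) / m := by
    apply div_le_div_of_nonneg_right _ hm0.le
    linarith
  have hz3 : C₁ * (1 / m) ≤ (4 * C₁ + 4 * C₂ + 8) / m := by
    rw [mul_one_div]
    apply div_le_div_of_nonneg_right _ hm0.le
    linarith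
  refine ⟨![α 0, α 1, α 2, α 3, α 4, h₁, h₂, t, u], ?_, ?_⟩
  · intro a
    fin_cases a
    · exact (hαD 0).mono hz1 le_rfl
    · exact (hαD 1).mono hz1 le_rfl
    · exact (hαD 2).mono hz1 le_rfl
    · exact (hαD 3).mono hz1 le_rfl
    · exact (hαD 4).mono hz1 le_rfl
    · exact hh₁.mono hz2 hsub
    · exact hh₂.mono hz2 hsub
    · exact ht.mono hz3 hsub
    · exact hu.mono hz3 hsub'
  · intro k hk
    obtain ⟨k', hk'⟩ : ∃ k' : Fin (m + 1), (k' : ℕ) = k := ⟨⟨k, Nat.lt_succ_iff.2 hk⟩, rfl⟩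
    set I : Set ℝ := Ioo (-(20 * (m : ℝ))) (20 * m) with hI
    set Y : Fin 5 → Pm := fun i => (u ^ k)⁻¹ * α i * u ^ k with hY
    have hYA : ∀ i, ∀ x ∈ I, Y i x = A k' i x := by
      intro i x hx
      have := hαe i k' x hx
      rw [hk'] at this
      exact this
    have hlift : FreeGroup.lift ![α 0, α 1, α 2, α 3, α 4, h₁, h₂, t, u] (encW k) =
        Y 0 * cm (Y 1) h₁ * cm (Y 2) t⁻¹ * (Y 0)⁻¹ * cm (Y 3) h₂ * cm (Y 4) t⁻¹ := by
      simp only [encW, cm, map_mul, map_inv, map_pow, FreeGroup.lift_apply_of, hY]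
      rfl
    rw [hlift, ← hk', hAe k']
    have c1 : cm (Y 1) h₁ = cm (A k' 1) h₁ := l2_cm_congr hh₁.supp (hYA 1)
    have c2 : cm (Y 2) t⁻¹ = cm (A k' 2) t⁻¹ := l2_cm_congr ht.inv.supp (hYA 2)
    have c3 : cm (Y 3) h₂ = cm (A k' 3) h₂ := l2_cm_congr hh₂.supp (hYA 3)
    have c4 : cm (Y 4) t⁻¹ = cm (A k' 4) t⁻¹ := l2_cm_congr ht.inv.supp (hYA 4)
    rw [c1, c2, c3, c4]
    have hsup : ∀ x, x ∉ I → (cm (A k' 1) h₁ * cm (A k' 2) t⁻¹) x = x :=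
      l2_supp_mul (l2_supp_cm (hAD k' 1).supp hh₁.supp) (l2_supp_cm (hAD k' 2).supp ht.inv.supp)
    have c0 := conj_congr (cm (A k' 1) h₁ * cm (A k' 2) t⁻¹) (Y 0) (A k' 0) hsup (hYA 0)
    rw [← c0]
    simp only [mul_assoc]

end GC45
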