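import Pool.Agent.LibGC45.K2
import Pool.Agent.LibGC45.B3b
import Pool.Agent.LibGC45.B4a

open Filter Topology Set

namespace GC45

/-- P3: the generators on the blocks -/
theorem exists_block_maps (g : Pm) (hg : DD (1 / 4) (Ioo 0 1) g) {ι : Type} {m : ι → ℕ}
    {y ℓ : ι → ℝ} (hb : Blocks g ι m y ℓ) :
    ∃ (C : ℝ) (P : Fin 3 → Pm), 1 ≤ C ∧ (∀ a, DD (1 / 4) (⋃ i, Ioo (y i) (y i + ℓ i)) (P a)) ∧
      (∀ a i x, x ∈ Ioo (y i) (y i + ℓ i) → P a x ∈ Ioo (y i) (y i + ℓ i)) ∧
      (∀ a i x, x ∈ Ioo (y i) (y i + ℓ i) → |Real.log (deriv (P a) x)| ≤ C / m i) ∧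
      ∀ (w : FreeGroup (Fin 3)) (n : ℕ),
        (∀ s (hs : 0 < s), FreeGroup.lift (affs s hs) w = (aff 1 1 one_ne_zero) ^ n) →
        ∀ᶠ i in cofinite, ∀ x, Core g m y ℓ i x → x ∈ Ioo (y i) (y i + ℓ i) →
          FreeGroup.lift P w x = (g ^ n) x := by
  classical
  obtain ⟨C, hC, hloc⟩ := local_block
  have hm0 : ∀ i, (1000 : ℝ) ≤ m i := fun i => by exact_mod_cast hb.large i
  -- the local maps
  have hQ : ∀ i, ∃ Q : Fin 3 → Pm,
      (∀ a, DD (if 4 * C ≤ m i then C / m i else 0) (Ioo (y i) (y i + ℓ i)) (Q a)) ∧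
      (4 * C ≤ m i → ∀ (w : FreeGroup (Fin 3)) (n : ℕ), 2 * w.norm ≤ m i → 2 * n ≤ m i →
        (∀ s (hs : 0 < s), FreeGroup.lift (affs s hs) w = (aff 1 1 one_ne_zero) ^ n) →
        ∀ x, Core g m y ℓ i x → FreeGroup.lift Q w x = (g ^ n) x) := by
    intro i
    by_cases h : 4 * C ≤ m i
    · have hli := hb.len_pos i
      obtain ⟨Q, hQ1, hQ2⟩ := hloc (m i) (by linarith) g hg.isD (y i + ℓ i / 2) (ℓ i / 2)
        (g (y i + ℓ i / 2) - (y i + ℓ i / 2)) (by ring)
        (by
          rw [sub_ne_zero]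
          exact hb.sub i _ ⟨by linarith, by linarith⟩)
        (hb.lower i) (hb.upper i)
        (by
          intro x hx
          exact hb.slope i x ⟨by linarith [hx.1], by linarith [hx.2]⟩)
      refine ⟨Q, ?_, ?_⟩
      · intro a
        rw [if_pos h]
        refine (hQ1 a).mono le_rfl ?_
        intro x hx
        exact ⟨by linarith [hx.1], by linarith [hx.2]⟩
      · intro _ w n hw hn hwn x hx
        exact hQ2 w n hw hn hwn x hx
    · refine ⟨fun _ => 1, ?_, fun h' => absurd h' h⟩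
      intro a
      rw [if_neg h]
      exact DD.one le_rfl
  choose Q hQD hQw using hQ
  have hΩ : Pairwise (Function.onFun Disjoint (fun i => Ioo (y i) (y i + ℓ i))) := by
    intro i j hij
    rw [Function.onFun, Set.disjoint_left]
    intro x hx hx'
    rcases hb.disj i j hij with h | h
    · linarith [hx.2, hx'.1]
    · linarith [hx'.2, hx.1]
  have hs1 : ∀ i, (if 4 * C ≤ m i then C / m i else 0) ≤ C / m i := by
    intro i
    have h0 : 0 ≤ C / m i := div_nonneg (by linarith) (by linarith [hm0 i])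
    split_ifs
    · exact le_rfl
    · exact h0
  have hs0 : ∀ i, 0 ≤ (if 4 * C ≤ m i then C / m i else 0) := by
    intro i
    have h0 : 0 ≤ C / m i := div_nonneg (by linarith) (by linarith [hm0 i])
    split_ifs
    · exact h0
    · exact le_rfl
  have hs4 : ∀ i, (if 4 * C ≤ m i then C / m i else 0) ≤ 1 / 4 := by
    intro i
    split_ifs with h
    · rw [div_le_div_iff₀ (by linarith [hm0 i]) (by norm_num)]
      linarith
    · norm_num
  have hst : Tendsto (fun i => if 4 * C ≤ m i then C / m i else 0) cofinite (𝓝 0) := by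
    have h1 : Tendsto (fun i => C / (m i : ℝ)) cofinite (𝓝 0) :=
      tendsto_const_nhds.div_atTop (tendsto_natCast_atTop_atTop.comp hb.tend)
    exact squeeze_zero hs0 hs1 h1
  have hpatch := fun a : Fin 3 => exists_patch (fun i => Ioo (y i) (y i + ℓ i)) hΩ
    (fun i => Q i a) (fun i => if 4 * C ≤ m i then C / m i else 0)
    (fun i => hQD i a) hst hs4 (by norm_num) le_rfl
  choose P hPD hPe using hpatch
  refine ⟨C, P, hC, hPD, ?_, ?_, ?_⟩
  · intro a i x hx
    rw [hPe a i x hx]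
    exact ((hQD i a).mem_iff x).2 hx
  · intro a i x hx
    have h1 : (P a : ℝ → ℝ) =ᶠ[𝓝 x] (Q i a : ℝ → ℝ) := by
      filter_upwards [isOpen_Ioo.mem_nhds hx] with z hz
      exact hPe a i z hz
    rw [h1.deriv_eq]
    exact ((hQD i a).sz x).trans (hs1 i)
  · intro w n hwn
    have e1 : ∀ᶠ i in cofinite, 2 * w.norm ≤ m i := hb.tend.eventually_ge_atTop _
    have e2 : ∀ᶠ i in cofinite, 2 * n ≤ m i := hb.tend.eventually_ge_atTop _
    have e3 : ∀ᶠ i in cofinite, 4 * C ≤ m i :=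
      (tendsto_natCast_atTop_atTop.comp hb.tend).eventually_ge_atTop _
    filter_upwards [e1, e2, e3] with i h1 h2 h3 x hx hx'
    rw [lift_patch (fun i => Ioo (y i) (y i + ℓ i)) P Q (fun i a x hx => (hQD i a).supp x hx)
      (fun a i x hx => hPe a i x hx) w i hx']
    exact hQw i h3 w n h1 h2 hwn x hx

end GC45
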