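import Pool.Agent.LibGC45.J2
import Pool.Agent.LibGC45.B3c
import Pool.Agent.LibGC45.B4a

open Filter Topology Set

namespace GC45

private theorem p2_unique {g : Pm} {ι : Type} {m : ι → ℕ} {y ℓ : ι → ℝ}
    (hb : Blocks g ι m y ℓ) {i j : ι} {x : ℝ} (hi : x ∈ Ioo (y i) (y i + ℓ i))
    (hj : x ∈ Ioo (y j) (y j + ℓ j)) : i = j := by
  by_contra h
  rcases hb.disj i j h with h1 | h1
  · linarith [hi.2, hj.1]
  · linarith [hj.2, hi.1]

private theorem p2_inv {g : Pm} {ι : Type} {m : ι → ℕ} {y ℓ : ι → ℝ}
    (hb : Blocks g ι m y ℓ) (Q : Pm)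
    (hQs : ∀ i x, x ∈ Ioo (y i) (y i + ℓ i) → Q x ∈ Ioo (y i) (y i + ℓ i))
    (hQo : ∀ x, (∀ i, x ∉ Ioo (y i) (y i + ℓ i)) → Q x = x) (i : ι) (x : ℝ) :
    x ∈ Ioo (y i) (y i + ℓ i) ↔ Q x ∈ Ioo (y i) (y i + ℓ i) := by
  refine ⟨hQs i x, fun h => ?_⟩
  by_cases hx : ∀ k, x ∉ Ioo (y k) (y k + ℓ k)
  · rw [hQo x hx] at h
    exact h
  · push Not at hx
    obtain ⟨k, hk⟩ := hx
    have := p2_unique hb h (hQs k x hk)
    rw [this]
    exact hk

private theorem p2_end {g : Pm} {ι : Type} {m : ι → ℕ} {y ℓ : ι → ℝ}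
    (hb : Blocks g ι m y ℓ) (i k : ι) : y i ∉ Ioo (y k) (y k + ℓ k) := by
  intro h
  have hki : i ≠ k := by
    rintro rfl
    exact lt_irrefl _ h.1
  have := hb.len_pos i
  rcases hb.disj i k hki with h1 | h1
  · linarith [h.1]
  · linarith [h.2]

/-- size of the word near a junction -/
private theorem p2_word {g : Pm} {ι : Type} {m : ι → ℕ} {y ℓ : ι → ℝ}
    (hb : Blocks g ι m y ℓ) {C : ℝ} (hC : 1 ≤ C) (P : Fin 3 → Pm)
    (hP : ∀ a, IsD (P a)) (hPs : ∀ a i x, x ∈ Ioo (y i) (y i + ℓ i) → P a x ∈ Ioo (y i) (y i + ℓ i))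
    (hPo : ∀ a x, (∀ i, x ∉ Ioo (y i) (y i + ℓ i)) → P a x = x)
    (hPz : ∀ a i x, x ∈ Ioo (y i) (y i + ℓ i) → |Real.log (deriv (P a) x)| ≤ C / m i)
    (w : FreeGroup (Fin 3)) (i j : ι) (hij : y j + ℓ j = y i) (x : ℝ)
    (hx : x ∈ Ioo (y j) (y i + ℓ i)) :
    |Real.log (deriv (FreeGroup.lift P w : Pm) x)| ≤ w.norm * (C / ((m i : ℝ) - 1)) := by
  have hm : (1000 : ℝ) ≤ m i := by exact_mod_cast hb.large i
  have hmj : (1000 : ℝ) ≤ m j := by exact_mod_cast hb.large j
  have hnear := hb.near j i hij
  have hmij : (m i : ℝ) ≤ m j + 1 := by exact_mod_cast hnear.2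
  have hK1 : C / (m i : ℝ) ≤ C / ((m i : ℝ) - 1) :=
    div_le_div_of_nonneg_left (by linarith) (by linarith) (by linarith)
  have hK2 : C / (m j : ℝ) ≤ C / ((m i : ℝ) - 1) :=
    div_le_div_of_nonneg_left (by linarith) (by linarith) (by linarith)
  have hfix : ∀ a, P a (y i) = y i := fun a => hPo a (y i) (p2_end hb i)
  have hli := hb.len_pos i
  have key := lift_size (Ioo (y j) (y j + ℓ j) ∪ ({y i} ∪ Ioo (y i) (y i + ℓ i))) P hP
    (s := C / ((m i : ℝ) - 1)) (by
      intro a x
      have h1 := p2_inv hb (P a) (hPs a) (hPo a) j x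
      have h2 := p2_inv hb (P a) (hPs a) (hPo a) i x
      have h3 : x = y i ↔ P a x = y i := by
        constructor
        · rintro rfl
          exact hfix a
        · intro h
          exact (P a).injective (h.trans (hfix a).symm)
      simp only [mem_union, mem_singleton_iff]
      rw [← h1, ← h2, ← h3]) (by
      apply div_nonneg <;> linarith) (by
      intro a x hx
      rcases hx with hx | hx | hx
      · exact (hPz a j x hx).trans hK2
      · rw [mem_singleton_iff] at hx
        have hcont : Continuous fun x => |Real.log (deriv (P a) x)| :=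
          ((hP a).continuous_deriv.log (fun x => ((hP a).pos x).ne')).abs
        have hcl : IsClosed {x | |Real.log (deriv (P a) x)| ≤ C / m i} :=
          isClosed_le hcont continuous_const
        have hsub : Ioo (y i) (y i + ℓ i) ⊆ {x | |Real.log (deriv (P a) x)| ≤ C / m i} :=
          fun x hx => hPz a i x hx
        have hcs := hcl.closure_subset_iff.2 hsub
        rw [closure_Ioo (by linarith)] at hcs
        rw [hx]
        exact (hcs ⟨le_rfl, by linarith⟩ : _ ≤ _).trans hK1
      · exact (hPz a i x hx).trans hK1) w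
  apply key.2
  rcases lt_trichotomy x (y i) with h | h | h
  · left
    rw [hij]
    exact ⟨hx.1, h⟩
  · right; left; exact h
  · right; right; exact ⟨h, hx.2⟩

/-- P2: the error elements -/
theorem exists_error {g : Pm} {ι : Type} {m : ι → ℕ} {y ℓ : ι → ℝ} (hg : DD (1 / 4) (Ioo 0 1) g)
    (hb : Blocks g ι m y ℓ) {C : ℝ} (hC : 1 ≤ C) (P : Fin 3 → Pm)
    (hP : ∀ a, IsD (P a)) (hPs : ∀ a i x, x ∈ Ioo (y i) (y i + ℓ i) → P a x ∈ Ioo (y i) (y i + ℓ i))
    (hPo : ∀ a x, (∀ i, x ∉ Ioo (y i) (y i + ℓ i)) → P a x = x)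
    (hPz : ∀ a i x, x ∈ Ioo (y i) (y i + ℓ i) → |Real.log (deriv (P a) x)| ≤ C / m i)
    (w : FreeGroup (Fin 3)) (n : ℕ)
    (hPw : ∀ᶠ i in cofinite, ∀ x, Core g m y ℓ i x → x ∈ Ioo (y i) (y i + ℓ i) →
      FreeGroup.lift P w x = (g ^ n) x) :
    ∃ (e : ι → Pm) (s : ι → ℝ),
      (∀ i, DD (s i) (Ioo (y i - jr g m y i) (y i + jr g m y i)) (e i)) ∧
      Tendsto s cofinite (𝓝 0) ∧
      ∀ᶠ i in cofinite, ∀ x ∈ Ioo (y i - jM m i * jr g m y i) (y i + jM m i * jr g m y i),
        FreeGroup.lift P w (e i x) = (g ^ n) x := by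
  classical
  have hgD : IsD g := hg.isD
  have hWD : IsD (FreeGroup.lift P w) :=
    (lift_size (∅ : Set ℝ) P hP (by simp) (s := 0) le_rfl (by simp) w).1
  set W : Pm := FreeGroup.lift P w with hW
  set E : Pm := W⁻¹ * g ^ n with hE
  have hED : IsD E := hWD.inv.mul (hgD.pow n)
  have hWE : ∀ x, W (E x) = (g ^ n) x := by
    intro x
    rw [hE, Equiv.Perm.mul_apply]
    exact W.apply_symm_apply _
  have hEfix : ∀ x, W x = (g ^ n) x → E x = x := by
    intro x hx
    rw [hE, Equiv.Perm.mul_apply, Equiv.Perm.inv_eq_iff_eq, hx]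
  let bad : Set ι := {i | ¬ ∀ x, Core g m y ℓ i x → x ∈ Ioo (y i) (y i + ℓ i) → W x = (g ^ n) x}
  have hbad : bad.Finite := hPw
  have hgood1 : ∀ᶠ i in cofinite, ∀ j, m i ≤ m j + 1 → j ∉ bad := by
    have h1 : ∀ᶠ i in cofinite, ∀ j ∈ bad, m j + 1 < m i := by
      rw [hbad.eventually_all] at *
      intro j _
      exact hb.tend.eventually_gt_atTop (m j + 1)
    filter_upwards [h1] with i hi j hj hjb
    have := hi j hjb
    omega
  have hgood2 : ∀ᶠ i in cofinite, max n 1001 ≤ m i := hb.tend.eventually_ge_atTop (max n 1001)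
  let Good : ι → Prop := fun i => (∀ j, m i ≤ m j + 1 → j ∉ bad) ∧ max n 1001 ≤ m i ∧ 1000 < m i
  have hGood : ∀ᶠ i in cofinite, Good i :=
    hgood1.and (hgood2.and (hb.tend.eventually_gt_atTop 1000))
  let s : ι → ℝ := fun i => w.norm * (C / ((m i : ℝ) - 1)) + n * (1 / (m i : ℝ) ^ 12)
  have hs0 : ∀ i, 0 ≤ s i := by
    intro i
    have hm : (1000 : ℝ) ≤ m i := by exact_mod_cast hb.large i
    have h1 : 0 ≤ C / ((m i : ℝ) - 1) := div_nonneg (by linarith) (by linarith)
    simp only [s]
    positivity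
  -- annuli
  have hann : ∀ i, Good i → ∀ x, 9 / 10 * jr g m y i ≤ |x - y i| →
      |x - y i| < jM m i * jr g m y i → W x = (g ^ n) x := by
    intro i hi x h1 h2
    obtain ⟨j, hj1, hj2, hj3⟩ := hb.core_of_room hgD i x h1 h2
    have h4 := hi.1 j hj3
    simp only [bad, mem_ofPred_eq, not_not] at h4
    exact h4 x hj1 hj2
  have hex : ∀ i, ∃ e : Pm, DD (s i) (Ioo (y i - jr g m y i) (y i + jr g m y i)) e ∧
      (Good i → ∀ x ∈ Icc (y i - jr g m y i) (y i + jr g m y i), e x = E x) := by
    intro i
    by_cases hi : Good i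
    · obtain ⟨hr0, hr1', hr2⟩ := hb.room_right hgD i
      have hr1 := hr1' hi.2.2
      set r := jr g m y i with hr
      have hout : ∀ x, 9 / 10 * r < |x - y i| → |x - y i| < jM m i * r → E x = x :=
        fun x h1 h2 => hEfix x (hann i hi x h1.le h2)
      have hopen : IsOpen {x : ℝ | 9 / 10 * r < |x - y i| ∧ |x - y i| < jM m i * r} := by
        have hc : Continuous fun x : ℝ => |x - y i| := (continuous_id.sub continuous_const).abs
        exact (isOpen_lt continuous_const hc).inter (isOpen_lt hc continuous_const)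
      have ha : ∀ᶠ x in 𝓝 (y i - r), E x = x := by
        have : y i - r ∈ {x : ℝ | 9 / 10 * r < |x - y i| ∧ |x - y i| < jM m i * r} := by
          have h1 : |y i - r - y i| = r := by
            rw [show y i - r - y i = -r by ring, abs_neg, abs_of_pos hr0]
          rw [mem_ofPred_eq, h1]
          exact ⟨by linarith, hr1⟩
        filter_upwards [hopen.mem_nhds this] with x hx
        exact hout x hx.1 hx.2
      have hbb : ∀ᶠ x in 𝓝 (y i + r), E x = x := by
        have : y i + r ∈ {x : ℝ | 9 / 10 * r < |x - y i| ∧ |x - y i| < jM m i * r} := by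
          have h1 : |y i + r - y i| = r := by
            rw [show y i + r - y i = r by ring, abs_of_pos hr0]
          rw [mem_ofPred_eq, h1]
          exact ⟨by linarith, hr1⟩
        filter_upwards [hopen.mem_nhds this] with x hx
        exact hout x hx.1 hx.2
      have hEa : E (y i - r) = y i - r := ha.self_of_nhds
      have hEb : E (y i + r) = y i + r := hbb.self_of_nhds
      have hm : (1000 : ℝ) ≤ m i := by exact_mod_cast hb.large i
      have hli := hb.len_pos i
      have hrl : r ≤ ℓ i / 3 := by linarith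
      obtain ⟨j, hj⟩ := hb.left i
      have hrj := hb.room_left hgD i j hj
      have hlj := hb.len_pos j
      rw [← hr] at hrj
      -- displacement
      have hd0 := hb.disp hgD i (y i) ⟨by linarith, by linarith⟩
      set φ : ℝ := g (y i + ℓ i / 2) - (y i + ℓ i / 2) with hφ
      have hdisp : ∀ x ∈ Icc (y i - 2 * ℓ i) (y i + 3 * ℓ i), |g x - x| ≤ 2 * |g (y i) - y i| := by
        intro x hx
        have h1 := hb.disp hgD i x hx
        rw [← hφ] at h1
        have h2 : |g x - x| ≤ |g x - x - φ| + |φ| := by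
          have := abs_add_le (g x - x - φ) φ
          rwa [sub_add_cancel] at this
        have h3 : |φ| ≤ |g (y i) - y i| + |g (y i) - y i - φ| := by
          have := abs_sub_abs_le_abs_sub φ (g (y i) - y i)
          rw [abs_sub_comm φ] at this
          linarith
        linarith [abs_nonneg φ, abs_nonneg (g (y i) - y i)]
      have hjr : r = 4 * (m i : ℝ) ^ 3 * |g (y i) - y i| := hr
      have hnr : (n : ℝ) * (2 * |g (y i) - y i|) ≤ r := by
        have h1 : (n : ℝ) ≤ m i := by exact_mod_cast (le_max_left n 1001).trans hi.2.1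
        have h2 : (m i : ℝ) * 2 ≤ 4 * (m i : ℝ) ^ 3 := by nlinarith [sq_nonneg ((m i : ℝ))]
        calc (n : ℝ) * (2 * |g (y i) - y i|) ≤ (m i : ℝ) * (2 * |g (y i) - y i|) := by
              apply mul_le_mul_of_nonneg_right h1; positivity
          _ = ((m i : ℝ) * 2) * |g (y i) - y i| := by ring
          _ ≤ (4 * (m i : ℝ) ^ 3) * |g (y i) - y i| :=
              mul_le_mul_of_nonneg_right h2 (abs_nonneg _)
          _ = r := hjr.symm
      have horb : ∀ x, |x - y i| ≤ r → ∀ k : ℕ, k ≤ n →
          |(g ^ k) x - y i| ≤ r + k * (2 * |g (y i) - y i|) := by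
        intro x hx k
        induction k with
        | zero => intro _; simpa using hx
        | succ k ih =>
          intro hk
          have h1 := ih (by omega)
          have hkn : (k : ℝ) ≤ n := by exact_mod_cast (by omega : k ≤ n)
          have h2 : |(g ^ k) x - y i| ≤ 2 * r := by
            have : (k : ℝ) * (2 * |g (y i) - y i|) ≤ n * (2 * |g (y i) - y i|) :=
              mul_le_mul_of_nonneg_right hkn (by positivity)
            linarith
          rw [abs_le] at h2
          have h3 := hdisp ((g ^ k) x) ⟨by linarith [h2.1], by linarith [h2.2]⟩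
          rw [pow_succ', Equiv.Perm.mul_apply]
          have h4 : |g ((g ^ k) x) - y i| ≤ |g ((g ^ k) x) - (g ^ k) x| + |(g ^ k) x - y i| := by
            have := abs_add_le (g ((g ^ k) x) - (g ^ k) x) ((g ^ k) x - y i)
            rwa [sub_add_sub_cancel] at this
          rw [Nat.cast_succ]
          linarith
      have hsize : ∀ x ∈ Icc (y i - r) (y i + r), |Real.log (deriv E x)| ≤ s i := by
        intro x hx
        have hEx1 : y i - r ≤ E x := by
          have := hED.strictMono.monotone hx.1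
          rwa [hEa] at this
        have hEx2 : E x ≤ y i + r := by
          have := hED.strictMono.monotone hx.2
          rwa [hEb] at this
        have h1 : |Real.log (deriv W (E x))| ≤ w.norm * (C / ((m i : ℝ) - 1)) := by
          apply p2_word hb hC P hP hPs hPo hPz w i j hj
          constructor
          · have : r < ℓ j := by linarith
            linarith
          · linarith
        have h2 : |Real.log (deriv (g ^ n : Pm) x)| ≤ n * (1 / (m i : ℝ) ^ 12) := by
          rw [hgD.log_deriv_pow]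
          refine (Finset.abs_sum_le_sum_abs _ _).trans ?_
          have h3 : ∀ k ∈ Finset.range n, |Real.log (deriv g ((g ^ k) x))| ≤
              1 / (m i : ℝ) ^ 12 := by
            intro k hk
            rw [Finset.mem_range] at hk
            have h4 := horb x (by rw [abs_le]; exact ⟨by linarith [hx.1], by linarith [hx.2]⟩)
              k hk.le
            have hkn : (k : ℝ) ≤ n := by exact_mod_cast hk.le
            have h5 : |(g ^ k) x - y i| ≤ 2 * r := by
              have : (k : ℝ) * (2 * |g (y i) - y i|) ≤ n * (2 * |g (y i) - y i|) :=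
                mul_le_mul_of_nonneg_right hkn (by positivity)
              linarith
            rw [abs_le] at h5
            exact hb.slope i _ ⟨by linarith [h5.1], by linarith [h5.2]⟩
          refine (Finset.sum_le_sum h3).trans ?_
          simp
        have h6 : deriv E x = (deriv W (E x))⁻¹ * deriv (g ^ n : Pm) x := by
          rw [hE, hWD.inv.deriv_mul (hgD.pow n), hWD.deriv_inv]
          rfl
        rw [h6, Real.log_mul (inv_ne_zero (hWD.pos _).ne') ((hgD.pow n).pos _).ne', Real.log_inv]
        refine (abs_add_le _ _).trans ?_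
        rw [abs_neg]
        exact add_le_add h1 h2
      obtain ⟨e, he, hee⟩ := exists_restrict (by linarith : y i - r < y i + r) hED ha hbb (hs0 i)
        hsize
      exact ⟨e, he, fun _ => hee⟩
    · exact ⟨1, DD.one (hs0 i), fun h => absurd h hi⟩
  choose e heD heE using hex
  refine ⟨e, s, heD, ?_, ?_⟩
  · have hmt : Tendsto (fun i => (m i : ℝ)) cofinite atTop :=
      tendsto_natCast_atTop_atTop.comp hb.tend
    have h1 : Tendsto (fun i => C / ((m i : ℝ) - 1)) cofinite (𝓝 0) :=
      tendsto_const_nhds.div_atTop (tendsto_atTop_add_const_right _ (-1) hmt)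
    have h2 : Tendsto (fun i => 1 / (m i : ℝ) ^ 12) cofinite (𝓝 0) :=
      tendsto_const_nhds.div_atTop ((tendsto_pow_atTop (by norm_num)).comp hmt)
    have h3 := (h1.const_mul (w.norm : ℝ)).add (h2.const_mul (n : ℝ))
    simpa [s] using h3
  · filter_upwards [hGood] with i hi x hx
    obtain ⟨hr0, hr1, hr2⟩ := hb.room_right hgD i
    by_cases hxr : x ∈ Icc (y i - jr g m y i) (y i + jr g m y i)
    · rw [heE i hi x hxr]
      exact hWE x
    · rw [(heD i).supp x (fun h => hxr ⟨h.1.le, h.2.le⟩)]
      apply hann i hi x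
      · rw [mem_Icc, not_and_or, not_le, not_le] at hxr
        rcases hxr with h | h
        · rw [abs_of_neg (by linarith)]
          linarith
        · rw [abs_of_pos (by linarith)]
          linarith
      · rw [abs_lt]
        exact ⟨by linarith [hx.1], by linarith [hx.2]⟩

end GC45
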