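import Pool.Agent.LibGC45.D2
import Pool.Agent.LibGC45.P1
import Pool.Agent.LibGC45.P2
import Pool.Agent.LibGC45.E1

open Filter Topology Set

namespace GC45

theorem parabolic (g : Pm) (hg : DD (1 / 1001 ^ 12) (Ioo 0 1) g)
    (hpar : ∀ x, g x = x → deriv g x = 1) (n : ℕ → ℕ) (w : ℕ → FreeGroup (Fin 3))
    (hw : ∀ k s (hs : 0 < s), FreeGroup.lift (affs s hs) (w k) = (aff 1 1 one_ne_zero) ^ (n k)) :
    ∃ (P : Fin 3 → Pm) (G : Fin 9 → Pm), (∀ a, DD (1 / 4) (Ioo 0 1) (P a)) ∧
      (∀ a, DD (1 / 4) (Ioo 0 1) (G a)) ∧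
      ∀ k, ∀ᶠ x in 𝓝 (0 : ℝ), FreeGroup.lift P (w k) (FreeGroup.lift G (encW k) x) = (g ^ (n k)) x := by
  obtain ⟨ι, m, y, ℓ, hb⟩ := exists_blocks g hg hpar
  have hg4 : DD (1 / 4) (Ioo 0 1) g := hg.mono (by norm_num) subset_rfl
  obtain ⟨C, P, hC, hP1, hP2, hP3, hP4⟩ := exists_block_maps g hg4 hb
  have hcore := fun k => hP4 (w k) (n k) (hw k)
  have hPo : ∀ a x, (∀ i, x ∉ Ioo (y i) (y i + ℓ i)) → P a x = x := by
    intro a x hx
    refine (hP1 a).supp x ?_
    rw [Set.mem_iUnion]
    rintro ⟨i, hi⟩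
    exact hx i hi
  choose e s he hs hgood using fun k =>
    exists_error hg4 hb hC P (fun a => (hP1 a).isD) hP2 hPo hP3 (w k) (n k) (hcore k)
  have hjr : ∀ i, 0 < jr g m y i := fun i => (hb.room_right hg.isD i).1
  have hM : Tendsto (fun i => jM m i) cofinite atTop := by
    have h1 : Tendsto (fun i => (m i : ℝ)) cofinite atTop :=
      tendsto_natCast_atTop_atTop.comp hb.tend
    exact h1.atTop_div_const (by norm_num)
  have hdisj := hb.junction_disjoint hg.isD
  obtain ⟨G, hG1, hG2⟩ := global_encode y (fun i => jr g m y i) (fun i => jM m i) hjr hM hdisj e s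
    he hs
  -- everything happens inside `(0, 1)`
  have hmoved : ∀ x, g x ≠ x → x ∈ Ioo (0 : ℝ) 1 := by
    intro x hx
    by_contra h
    exact hx (hg.supp x h)
  have hblock : ∀ i, ∀ x ∈ Icc (y i) (y i + ℓ i), x ∈ Ioo (0 : ℝ) 1 := fun i x hx =>
    hmoved x (hb.sub i x hx)
  have hjun : ∀ i, ∀ x ∈ Ioo (y i - jM m i * jr g m y i) (y i + jM m i * jr g m y i), g x ≠ x := by
    rintro i x ⟨h1, h2⟩
    rcases le_or_gt (y i) x with h3 | h3
    · have := (hb.room_right hg.isD i).2.2
      have h4 := hb.len_pos i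
      exact hb.sub i x ⟨h3, by linarith⟩
    · obtain ⟨j, hj⟩ := hb.left i
      have := hb.room_left hg.isD i j hj
      have h4 := hb.len_pos j
      exact hb.sub j x ⟨by linarith, by linarith⟩
  have hjpos : ∀ i, 0 < y i - jM m i * jr g m y i := by
    intro i
    obtain ⟨j, hj⟩ := hb.left i
    have := hb.room_left hg.isD i j hj
    have h4 := hb.len_pos j
    have h5 := (hblock j (y j) ⟨le_rfl, by linarith⟩).1
    linarith
  have hypos : ∀ i, 0 < y i := fun i => (hblock i (y i) ⟨le_rfl, by linarith [hb.len_pos i]⟩).1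
  refine ⟨P, G, fun a => (hP1 a).mono le_rfl ?_, fun a => (hG1 a).mono le_rfl ?_, fun k => ?_⟩
  · intro x hx
    obtain ⟨i, h1, h2⟩ := Set.mem_iUnion.1 hx
    exact hblock i x ⟨h1.le, h2.le⟩
  · intro x hx
    obtain ⟨i, hi⟩ := Set.mem_iUnion.1 hx
    exact hmoved x (hjun i x hi)
  · have hfin := ((hG2 k).and (hgood k)).and (hcore k)
    rw [Filter.eventually_cofinite] at hfin
    have hbad : ∀ᶠ x in 𝓝 (0 : ℝ), ∀ i ∈ {i | ¬(((∀ x ∈ Ioo (y i - jM m i * jr g m y i)
        (y i + jM m i * jr g m y i), FreeGroup.lift G (encW k) x = e k i x) ∧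
        ∀ x ∈ Ioo (y i - jM m i * jr g m y i) (y i + jM m i * jr g m y i),
          FreeGroup.lift P (w k) (e k i x) = (g ^ n k) x) ∧
        ∀ x, Core g m y ℓ i x → x ∈ Ioo (y i) (y i + ℓ i) →
          FreeGroup.lift P (w k) x = (g ^ n k) x)},
        x < y i ∧ x < y i - jM m i * jr g m y i := by
      rw [Set.Finite.eventually_all hfin]
      intro i _
      exact (eventually_lt_nhds (hypos i)).and (eventually_lt_nhds (hjpos i))
    filter_upwards [hbad] with x hx
    by_cases hxj : x ∈ ⋃ i, Ioo (y i - jM m i * jr g m y i) (y i + jM m i * jr g m y i)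
    · obtain ⟨i, hi⟩ := Set.mem_iUnion.1 hxj
      have h1 : ((∀ x ∈ Ioo (y i - jM m i * jr g m y i)
        (y i + jM m i * jr g m y i), FreeGroup.lift G (encW k) x = e k i x) ∧
        ∀ x ∈ Ioo (y i - jM m i * jr g m y i) (y i + jM m i * jr g m y i),
          FreeGroup.lift P (w k) (e k i x) = (g ^ n k) x) := by
        by_contra hcon
        have := (hx i (fun h => hcon h.1)).2
        exact absurd hi.1 (by linarith)
      rw [h1.1 x hi]
      exact h1.2 x hi
    · have h2 : FreeGroup.lift G (encW k) x = x :=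
        (lift_supp _ G (fun a x hx => (hG1 a).supp x hx) (encW k)).1 x hxj
      rw [h2]
      by_cases hgx : g x = x
      · have h3 : FreeGroup.lift P (w k) x = x := by
          refine (lift_supp _ P (fun a x hx => (hP1 a).supp x hx) (w k)).1 x ?_
          rw [Set.mem_iUnion]
          rintro ⟨i, h4, h5⟩
          exact hb.sub i x ⟨h4.le, h5.le⟩ hgx
        rw [h3]
        have h4 : ∀ n : ℕ, (g ^ n) x = x := by
          intro n
          induction n with
          | zero => rfl
          | succ n ih => rw [pow_succ, Equiv.Perm.mul_apply, hgx, ih]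
        exact (h4 _).symm
      · rcases hb.core_or hg.isD x hgx with ⟨i, h3, h4⟩ | ⟨i, h3, h4⟩
        · have h5 : ∀ x, Core g m y ℓ i x → x ∈ Ioo (y i) (y i + ℓ i) →
              FreeGroup.lift P (w k) x = (g ^ n k) x := by
            by_contra hcon
            have := (hx i (fun h => hcon h.2)).1
            exact absurd h4.1 (by linarith)
          exact h5 x h3 h4
        · exfalso
          apply hxj
          have := hb.jr_le i
          exact Set.mem_iUnion.2 ⟨i, by linarith, by linarith⟩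

end GC45
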