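import Pool.Agent.LibGC45.B1

open Filter Topology Set

namespace GC45

variable {F G : Pm} {s t : ℝ} {I J : Set ℝ}

theorem t1_log_half (u : ℝ) (hu : |u| ≤ 1) :
    |Real.log ((1 + Real.exp u) / 2)| ≤ 3 / 4 * |u| ∧
      |u - Real.log ((1 + Real.exp u) / 2)| ≤ 3 / 4 * |u| := by
  have hcosh : (1 + Real.exp u) / 2 = Real.exp (u / 2) * Real.cosh (u / 2) := by
    rw [Real.cosh_eq, mul_div_assoc', mul_add, ← Real.exp_add, ← Real.exp_add]
    have h1 : u / 2 + u / 2 = u := by ring
    have h2 : u / 2 + -(u / 2) = 0 := by ring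
    rw [h1, h2, Real.exp_zero, add_comm]
  have h1 : (1 : ℝ) ≤ Real.cosh (u / 2) := Real.one_le_cosh _
  have h2 : Real.cosh (u / 2) ≤ Real.exp ((u / 2) ^ 2 / 2) := Real.cosh_le_exp_half_sq _
  have hl : Real.log ((1 + Real.exp u) / 2) = u / 2 + Real.log (Real.cosh (u / 2)) := by
    rw [hcosh, Real.log_mul (Real.exp_pos _).ne' (by linarith), Real.log_exp]
  have h3 : 0 ≤ Real.log (Real.cosh (u / 2)) := Real.log_nonneg h1
  have h4 : Real.log (Real.cosh (u / 2)) ≤ (u / 2) ^ 2 / 2 := by
    rw [Real.log_le_iff_le_exp (by linarith)]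
    exact h2
  have h5 : (u / 2) ^ 2 / 2 ≤ 1 / 4 * |u| := by
    have h6 : u ^ 2 = |u| * |u| := by rw [← sq, sq_abs]
    have h7 := abs_nonneg u
    nlinarith
  have h8 := le_abs_self u
  have h9 := neg_abs_le u
  rw [hl]
  constructor
  · rw [abs_le]
    constructor <;> linarith
  · rw [abs_le]
    constructor <;> linarith

theorem t1_bij {e : Pm} (he : DD s I e) :
    Function.Bijective (fun x : ℝ => (x + e x) / 2) ∧
      (∀ x, HasDerivAt (fun x : ℝ => (x + e x) / 2) ((1 + deriv e x) / 2) x) := by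
  have hmono := he.isD.strictMono
  have hder : ∀ x, HasDerivAt (fun x : ℝ => (x + e x) / 2) ((1 + deriv e x) / 2) x := fun x =>
    ((hasDerivAt_id x).add (he.isD.differentiable x).hasDerivAt).div_const 2
  let o : ℝ ≃o ℝ := StrictMono.orderIsoOfSurjective e hmono e.surjective
  have htop : Tendsto (fun x => e x) atTop atTop := o.tendsto_atTop
  have hbot : Tendsto (fun x => e x) atBot atBot := o.tendsto_atBot
  have hcont : Continuous (fun x : ℝ => (x + e x) / 2) :=
    (continuous_id.add he.isD.continuous).div_const 2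
  have htop' : Tendsto (fun x : ℝ => (x + e x) / 2) atTop atTop :=
    (tendsto_id.atTop_add_atTop htop).atTop_div_const (by norm_num)
  have hbot' : Tendsto (fun x : ℝ => (x + e x) / 2) atBot atBot :=
    (tendsto_id.atBot_add_atBot hbot).atBot_div_const (by norm_num)
  refine ⟨⟨?_, hcont.surjective htop' hbot'⟩, hder⟩
  intro x y hxy
  have hm : StrictMono (fun x : ℝ => (x + e x) / 2) := by
    intro a b hab
    have := hmono hab
    change (a + e a) / 2 < (b + e b) / 2
    linarith
  exact hm.injective hxy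

theorem t1_half_apply {e : Pm} (he : DD s I e) (x : ℝ) : half e x = (x + e x) / 2 := by
  unfold half
  rw [dif_pos (t1_bij he).1]
  rfl

theorem t1_half_coe {e : Pm} (he : DD s I e) : ⇑(half e) = fun x : ℝ => (x + e x) / 2 :=
  funext (t1_half_apply he)

theorem t1_half_deriv {e : Pm} (he : DD s I e) (x : ℝ) :
    deriv (half e) x = (1 + deriv e x) / 2 := by
  rw [t1_half_coe he]
  exact ((t1_bij he).2 x).deriv

theorem t1_half_isD {e : Pm} (he : DD s I e) : IsD (half e) := by
  refine ⟨?_, fun x => ?_⟩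
  · rw [t1_half_coe he]
    exact (contDiff_id.add he.isD.contDiff).div_const 2
  · rw [t1_half_deriv he]
    have := he.isD.pos x
    linarith

theorem t1_half_supp {e : Pm} (he : DD s I e) (x : ℝ) (hx : x ∉ I) : half e x = x := by
  rw [t1_half_apply he, he.supp x hx]
  ring

theorem sp_spec {e : Pm} (he : DD s I e) (hs : s ≤ 1 / 4) (b : Bool) :
    DD (3 / 4 * s) I (sp b e) := by
  have hD := t1_half_isD he
  have hu : ∀ x, |Real.log (deriv e x)| ≤ 1 := fun x => (he.sz x).trans (by linarith)
  cases b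
  · refine ⟨hD, fun x => ?_, t1_half_supp he⟩
    change |Real.log (deriv (half e) x)| ≤ 3 / 4 * s
    have h1 := (t1_log_half _ (hu x)).1
    rw [Real.exp_log (he.isD.pos x)] at h1
    rw [t1_half_deriv he]
    exact h1.trans (by have := he.sz x; linarith)
  · refine ⟨he.isD.mul hD.inv, fun x => ?_, fun x hx => ?_⟩
    · change |Real.log (deriv (e * (half e)⁻¹ : Pm) x)| ≤ 3 / 4 * s
      rw [he.isD.deriv_mul hD.inv, hD.deriv_inv, t1_half_deriv he]
      set y := (half e)⁻¹ x with hy
      have h1 := (t1_log_half _ (hu y)).2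
      rw [Real.exp_log (he.isD.pos y)] at h1
      have hp := he.isD.pos y
      rw [Real.log_mul hp.ne' (by positivity), Real.log_inv, ← sub_eq_add_neg]
      exact h1.trans (by have := he.sz y; linarith)
    · change (e * (half e)⁻¹ : Pm) x = x
      have h1 : (half e)⁻¹ x = x := by
        rw [Equiv.Perm.inv_eq_iff_eq]
        exact (t1_half_supp he x hx).symm
      rw [Equiv.Perm.mul_apply, h1, he.supp x hx]

theorem sp_mul {e : Pm} (he : DD s I e) (hs : s ≤ 1 / 4) : e = sp true e * sp false e := by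
  change e = e * (half e)⁻¹ * half e
  group

end GC45
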